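import Mathlib

/-!
# Commutator exponent laws and Fitting height: definitions
-/

namespace H60SH

open Module
open scoped commutatorElement

universe u

/-- The commutant of an endomorphism. -/
def Cm {K L : Type*} [Field K] [AddCommGroup L] [Module K L] (N : Module.End K L) :
    Submodule K (Module.End K L) where
  carrier := {A | A * N = N * A}
  add_mem' := by
    intro a b ha hb
    change (a + b) * N = N * (a + b)
    change a * N = N * a at ha
    change b * N = N * b at hb
    rw [add_mul, mul_add, ha, hb]
  zero_mem' := by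
    change (0 : Module.End K L) * N = N * 0
    simp
  smul_mem' := by
    intro c a ha
    change (c • a) * N = N * (c • a)
    change a * N = N * a at ha
    rw [smul_mul_assoc, mul_smul_comm, ha]

theorem mem_Cm {K L : Type*} [Field K] [AddCommGroup L] [Module K L] {N A : Module.End K L} :
    A ∈ Cm N ↔ A * N = N * A := Iff.rfl

/-- The commutant of a representation. -/
def E0 {K A L : Type*} [Field K] [Group A] [AddCommGroup L] [Module K L]
    (ρ : Representation K A L) : Submodule K (Module.End K L) where
  carrier := {T | ∀ g, T * ρ g = ρ g * T}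
  add_mem' := by
    intro a b ha hb g
    have h1 := ha g
    have h2 := hb g
    rw [add_mul, mul_add, h1, h2]
  zero_mem' := by
    intro g
    simp
  smul_mem' := by
    intro c a ha g
    have h1 := ha g
    rw [smul_mul_assoc, mul_smul_comm, h1]

theorem mem_E0 {K A L : Type*} [Field K] [Group A] [AddCommGroup L] [Module K L]
    {ρ : Representation K A L} {T : Module.End K L} :
    T ∈ E0 ρ ↔ ∀ g, T * ρ g = ρ g * T := Iff.rfl

/-- A Heisenberg type action: `A` is a group acting on `L`, `π : A → W` is a surjective
homomorphism to an additive group whose kernel acts by scalars, the commutators act by the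
scalars `β`, and `β` is nondegenerate. -/
structure Heis {K A W L : Type*} [Field K] [Group A] [AddCommGroup W] [AddCommGroup L]
    [Module K L] (π : A → W) (ρ : Representation K A L) (β : W → W → K) : Prop where
  surj : Function.Surjective π
  add : ∀ g h, π (g * h) = π g + π h
  sc : ∀ g, π g = 0 → ∃ c : K, ρ g = c • (1 : Module.End K L)
  comm : ∀ g h, ρ g * ρ h = β (π g) (π h) • (ρ h * ρ g)
  nd : ∀ w, w ≠ 0 → ∃ w', β w w' ≠ 1

/-- The standing data: a `p`-group `F` acts on everything in a Heisenberg type action, where `W`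
has exponent `q`. -/
structure Sys {K V F A W : Type*} [Field K] [AddCommGroup V] [Module K V] [Group F] [Group A]
    [MulDistribMulAction F A] [AddCommGroup W] [DistribMulAction F W] (p q : ℕ)
    (π : A → W) (ρA : Representation K A V) (β : W → W → K) (ρF : Representation K F V) :
    Prop where
  heis : Heis π ρA β
  hF : IsPGroup p F
  hW : ∀ w : W, q • w = 0
  hπ : ∀ (f : F) (g : A), π (f • g) = f • π g
  hρ : ∀ (f : F) (g : A), ρF f * ρA g = ρA (f • g) * ρF f

/-- A pair `(X, U)`: `X` is a nondegenerate subgroup of `W` and `U` is a nonzero subspace invariant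
under the preimage of `X`. -/
structure SubSys {K V A W : Type*} [Field K] [AddCommGroup V] [Module K V] [Group A]
    [AddCommGroup W] (π : A → W) (ρA : Representation K A V) (β : W → W → K)
    (X : AddSubgroup W) (U : Submodule K V) : Prop where
  ne : U ≠ ⊥
  nd : ∀ w ∈ X, w ≠ 0 → ∃ w' ∈ X, β w w' ≠ 1
  act : ∀ g, π g ∈ X → ∀ v ∈ U, ρA g v ∈ U

/-- All commutators of elements of a common `p`-subgroup have order dividing `p ^ k`. -/
def Pk (p k : ℕ) (G : Type*) [Group G] : Prop :=
  ∀ H : Subgroup G, IsPGroup p H → ∀ a ∈ H, ∀ b ∈ H, ⁅a, b⁆ ^ (p ^ k) = 1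

/-- The elements `[a,b] ^ (p ^ (k-1))`, with all entries in a common `p`-subgroup, commute. -/
def Ck (p k : ℕ) (G : Type*) [Group G] : Prop :=
  ∀ H : Subgroup G, IsPGroup p H → ∀ a ∈ H, ∀ b ∈ H, ∀ c ∈ H, ∀ d ∈ H,
    Commute (⁅a, b⁆ ^ (p ^ (k - 1))) (⁅c, d⁆ ^ (p ^ (k - 1)))

/-- `PL p m G`: `G` has a series with `m` factors, each a `p`-group or a `p'`-group. -/
inductive PL (p : ℕ) : ℕ → (G : Type u) → [Group G] → Prop
  | triv (G : Type u) [Group G] [Subsingleton G] : PL p 0 G
  | step (m : ℕ) (G : Type u) [Group G] (N : Subgroup G) [N.Normal]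
      (h : IsPGroup p N ∨ (Nat.card N).Coprime p) (hq : PL p m (G ⧸ N)) : PL p (m + 1) G

end H60SH
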