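import Mathlib
import Pool.Agent.H60.SH.Defs

namespace H60SH

open Module

section basic

variable {K A W L : Type*} [Field K] [Group A] [AddCommGroup W] [AddCommGroup L] [Module K L]
  {π : A → W} {ρ : Representation K A L} {β : W → W → K}

theorem Heis.map_one (h : Heis π ρ β) : π 1 = 0 := by
  have h1 := h.add 1 1
  rw [mul_one] at h1
  exact left_eq_add.1 h1

theorem Heis.map_inv (h : Heis π ρ β) (g : A) : π g⁻¹ = - π g := by
  have h1 := h.add g⁻¹ g
  rw [inv_mul_cancel, h.map_one] at h1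
  exact eq_neg_of_add_eq_zero_left h1.symm

/-- the operators of a representation are injective -/
theorem rho_injective (ρ : Representation K A L) (g : A) : Function.Injective (ρ g) := by
  intro v w hvw
  have h1 : ρ g⁻¹ (ρ g v) = ρ g⁻¹ (ρ g w) := by rw [hvw]
  rw [← Module.End.mul_apply, ← Module.End.mul_apply, ← _root_.map_mul, inv_mul_cancel,
    _root_.map_one] at h1
  exact h1

theorem smul_rho_cancel [Nontrivial L] (ρ : Representation K A L) (g : A) {c c' : K}
    (h : c • ρ g = c' • ρ g) : c = c' := by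
  obtain ⟨v, hv⟩ := exists_ne (0 : L)
  have h1 : ρ g v ≠ 0 := by
    intro h0
    exact hv (rho_injective ρ g (by rw [h0, _root_.map_zero]))
  have h2 : c • ρ g v = c' • ρ g v := by
    have := congrArg (fun T : Module.End K L => T v) h
    simpa using this
  exact smul_left_injective K h1 h2

theorem Heis.comm' (h : Heis π ρ β) (g g' : A) :
    ρ (g * g') = β (π g) (π g') • ρ (g' * g) := by
  rw [_root_.map_mul, _root_.map_mul, h.comm]

theorem Heis.beta_ne [Nontrivial L] (h : Heis π ρ β) (u v : W) : β u v ≠ 0 := by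
  intro h0
  obtain ⟨g, rfl⟩ := h.surj u
  obtain ⟨g', rfl⟩ := h.surj v
  have h1 := h.comm' g g'
  rw [h0, zero_smul] at h1
  obtain ⟨v, hv⟩ := exists_ne (0 : L)
  apply hv
  apply rho_injective ρ (g * g')
  rw [h1, _root_.map_zero, LinearMap.zero_apply]

theorem Heis.beta_add_left [Nontrivial L] (h : Heis π ρ β) (u u' v : W) :
    β (u + u') v = β u v * β u' v := by
  obtain ⟨g, rfl⟩ := h.surj u
  obtain ⟨g', rfl⟩ := h.surj u'
  obtain ⟨k, rfl⟩ := h.surj v
  apply smul_rho_cancel ρ (k * (g * g'))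
  rw [← h.add, ← h.comm']
  have e1 : ρ (g * g' * k) = ρ g * ρ (g' * k) := by rw [mul_assoc, _root_.map_mul]
  have e2 : ρ (g' * k) = β (π g') (π k) • (ρ k * ρ g') := by rw [h.comm', _root_.map_mul]
  have e3 : ρ g * (ρ k * ρ g') = β (π g) (π k) • ρ (k * (g * g')) := by
    rw [← mul_assoc, ← _root_.map_mul, h.comm', smul_mul_assoc, ← _root_.map_mul, mul_assoc]
  rw [e1, e2, mul_smul_comm, e3, smul_smul, mul_comm]

theorem Heis.beta_swap [Nontrivial L] (h : Heis π ρ β) (u v : W) : β u v * β v u = 1 := by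
  obtain ⟨g, rfl⟩ := h.surj u
  obtain ⟨k, rfl⟩ := h.surj v
  apply smul_rho_cancel ρ (g * k)
  rw [← smul_smul, ← h.comm', ← h.comm', one_smul]

theorem Heis.beta_add_right [Nontrivial L] (h : Heis π ρ β) (u v v' : W) :
    β u (v + v') = β u v * β u v' := by
  have h1 : ∀ x y, β x y = (β y x)⁻¹ := fun x y => eq_inv_of_mul_eq_one_left (h.beta_swap x y)
  rw [h1 u (v + v'), h1 u v, h1 u v', h.beta_add_left, mul_inv]

theorem Heis.beta_zero_left [Nontrivial L] (h : Heis π ρ β) (v : W) : β 0 v = 1 := by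
  have h1 := h.beta_add_left 0 0 v
  rw [add_zero] at h1
  have h2 := h.beta_ne 0 v
  field_simp at h1
  exact h1.symm

theorem Heis.beta_zero_right [Nontrivial L] (h : Heis π ρ β) (v : W) : β v 0 = 1 := by
  have h1 := h.beta_swap v 0
  rw [h.beta_zero_left, mul_one] at h1
  exact h1

theorem Heis.beta_neg_right [Nontrivial L] (h : Heis π ρ β) (u v : W) :
    β u (-v) = (β u v)⁻¹ := by
  apply eq_inv_of_mul_eq_one_left
  rw [← h.beta_add_right, neg_add_cancel, h.beta_zero_right]

theorem Heis.beta_neg_left [Nontrivial L] (h : Heis π ρ β) (u v : W) :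
    β (-u) v = (β u v)⁻¹ := by
  apply eq_inv_of_mul_eq_one_left
  rw [← h.beta_add_left, neg_add_cancel, h.beta_zero_left]

theorem Heis.nd' [Nontrivial L] (h : Heis π ρ β) (w : W) (hw : w ≠ 0) : ∃ w', β w' w ≠ 1 := by
  obtain ⟨w', hw'⟩ := h.nd w hw
  refine ⟨w', fun h1 => hw' ?_⟩
  have := h.beta_swap w w'
  rw [h1, mul_one] at this
  exact this

/-- Pointwise form of the commutation rule. -/
theorem Heis.comm_apply (h : Heis π ρ β) (g g' : A) (v : L) :
    ρ g (ρ g' v) = β (π g) (π g') • ρ g' (ρ g v) := by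
  have := congrArg (fun T : Module.End K L => T v) (h.comm g g')
  simpa using this

/-- Invariance of `β` under an invertible operator normalising the action. -/
theorem Heis.beta_inv [Nontrivial L] (h : Heis π ρ β) (x : Module.End K L)
    (hx1 : Function.Injective x) (φ : A → A) (σ : W → W) (hx : ∀ g, x * ρ g = ρ (φ g) * x)
    (hφ : ∀ g, π (φ g) = σ (π g)) (u v : W) : β (σ u) (σ v) = β u v := by
  obtain ⟨g, rfl⟩ := h.surj u
  obtain ⟨k, rfl⟩ := h.surj v
  obtain ⟨l, hl⟩ := exists_ne (0 : L)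
  have hxa : ∀ (g : A) (v : L), x (ρ g v) = ρ (φ g) (x v) := by
    intro g v
    have := congrArg (fun T : Module.End K L => T v) (hx g)
    simpa using this
  have h1 : x (ρ g (ρ k l)) = β (π g) (π k) • ρ (φ k) (ρ (φ g) (x l)) := by
    rw [h.comm_apply, _root_.map_smul, hxa, hxa]
  have h2 : x (ρ g (ρ k l)) = β (σ (π g)) (σ (π k)) • ρ (φ k) (ρ (φ g) (x l)) := by
    rw [hxa, hxa, h.comm_apply, hφ, hφ]
  have h3 : ρ (φ k) (ρ (φ g) (x l)) ≠ 0 := by
    intro h0
    apply hl
    apply hx1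
    rw [_root_.map_zero]
    apply rho_injective ρ (φ g)
    rw [_root_.map_zero]
    apply rho_injective ρ (φ k)
    rw [_root_.map_zero]
    exact h0
  rw [h1] at h2
  exact (smul_left_injective K h3 h2).symm

/-- Scalar action on a nonzero subspace of a `SubSys` forces `π g = 0`. -/
theorem SubSys.scalar (h : Heis π ρ β) {X : AddSubgroup W} {U : Submodule K L}
    (hs : SubSys π ρ β X U) (g : A) (hg : π g ∈ X) (c : K) (hc : ∀ v ∈ U, ρ g v = c • v) :
    π g = 0 := by
  by_contra hne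
  obtain ⟨w', hw', hβ⟩ := hs.nd _ hg hne
  obtain ⟨g', rfl⟩ := h.surj w'
  obtain ⟨v, hv, hv0⟩ := (Submodule.ne_bot_iff U).1 hs.ne
  have h1 : ρ g (ρ g' v) = c • ρ g' v := hc _ (hs.act g' hw' v hv)
  have h2 : ρ g (ρ g' v) = (β (π g) (π g') * c) • ρ g' v := by
    rw [h.comm_apply, hc v hv, _root_.map_smul, smul_smul]
  have h3 : ρ g' v ≠ 0 := by
    intro h0; apply hv0; apply rho_injective ρ g'; rw [h0, _root_.map_zero]
  have hc0 : c ≠ 0 := by
    rintro rfl
    apply hv0; apply rho_injective ρ g; rw [hc v hv, zero_smul, _root_.map_zero]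
  rw [h1] at h2
  have h4 : c = β (π g) (π g') * c := smul_left_injective K h3 h2
  apply hβ
  have h5 : (β (π g) (π g') - 1) * c = 0 := by rw [sub_mul, one_mul, ← h4, sub_self]
  rcases mul_eq_zero.1 h5 with h6 | h6
  · exact sub_eq_zero.1 h6
  · exact absurd h6 hc0

/-- The whole system as a `SubSys`. -/
theorem Heis.top [Nontrivial L] (h : Heis π ρ β) : SubSys π ρ β ⊤ ⊤ := by
  refine ⟨top_ne_bot, ?_, fun _ _ _ _ => Submodule.mem_top⟩
  intro w _ hw
  obtain ⟨w', hw'⟩ := h.nd w hw
  exact ⟨w', AddSubgroup.mem_top _, hw'⟩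

end basic

section sys

variable {K V F A W : Type*} [Field K] [AddCommGroup V] [Module K V] [Nontrivial V]
  [Group F] [Finite F] [Group A] [MulDistribMulAction F A] [AddCommGroup W] [Finite W]
  [DistribMulAction F W] {p q : ℕ} [Fact p.Prime] [CharP K p]
  {π : A → W} {ρA : Representation K A V} {β : W → W → K} {ρF : Representation K F V}

/-- **COP**: an element of `F` fixing `π g` commutes with `ρA g`. -/
theorem Sys.cop (S : Sys p q π ρA β ρF) (f : F) (g : A) (hfg : f • π g = π g) :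
    ρF f * ρA g = ρA g * ρF f := by
  have hk : π (g⁻¹ * (f • g)) = 0 := by
    rw [S.heis.add, S.heis.map_inv, S.hπ, hfg, neg_add_cancel]
  obtain ⟨c, hc⟩ := S.heis.sc _ hk
  have h1 : ρF f * ρA g = c • (ρA g * ρF f) := by
    rw [S.hρ]
    have : f • g = g * (g⁻¹ * (f • g)) := by group
    rw [this, _root_.map_mul, hc, mul_smul_comm, mul_one, smul_mul_assoc]
  have h2 : ∀ n : ℕ, ρF f ^ n * ρA g = (c ^ n) • (ρA g * ρF f ^ n) := by
    intro n
    induction n with
    | zero => simp
    | succ n ih =>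
      rw [pow_succ' (ρF f), mul_assoc, ih, mul_smul_comm, ← mul_assoc, h1, smul_mul_assoc,
        smul_smul, mul_assoc, ← pow_succ' (ρF f), ← pow_succ]
  obtain ⟨m, hm⟩ := S.hF f
  have h3 := h2 (p ^ m)
  rw [← map_pow, hm, _root_.map_one, one_mul, mul_one] at h3
  have h4 : c ^ (p ^ m) = 1 := by
    apply smul_rho_cancel ρA g
    rw [← h3, one_smul]
  have h5 : c = 1 := by
    have : ExpChar K p := ExpChar.prime Fact.out
    have := (ExpChar.pow_prime_pow_mul_eq_one_iff p m 1 c).1 (by rw [mul_one]; exact h4)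
    rwa [pow_one] at this
  rw [h1, h5, one_smul]

theorem Sys.beta_inv (S : Sys p q π ρA β ρF) (f : F) (u v : W) :
    β (f • u) (f • v) = β u v :=
  S.heis.beta_inv (ρF f) (rho_injective ρF f) (fun g => f • g) (fun w => f • w)
    (fun g => S.hρ f g) (fun g => S.hπ f g) u v

/-- An element of `F` trivial on `U` is trivial on `X`. -/
theorem Sys.triv_of_triv (S : Sys p q π ρA β ρF) {X : AddSubgroup W} {U : Submodule K V}
    (hs : SubSys π ρA β X U) (f : F) (hfX : ∀ w ∈ X, f • w ∈ X)
    (hf : ∀ v ∈ U, ρF f v = v) : ∀ w ∈ X, f • w = w := by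
  intro w hw
  obtain ⟨g, rfl⟩ := S.heis.surj w
  have hπk : π (g⁻¹ * (f • g)) = - π g + f • π g := by
    rw [S.heis.add, S.heis.map_inv, S.hπ]
  have hmem : π (g⁻¹ * (f • g)) ∈ X := by
    rw [hπk]; exact X.add_mem (X.neg_mem hw) (hfX _ hw)
  have h0 := SubSys.scalar S.heis hs (g⁻¹ * (f • g)) hmem 1 (by
    intro v hv
    rw [one_smul]
    apply rho_injective ρA g
    have h1 : ρA g (ρA (g⁻¹ * (f • g)) v) = ρA (f • g) v := by
      rw [← Module.End.mul_apply, ← _root_.map_mul]
      congr 2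
      group
    rw [h1]
    have h2 : ρF f (ρA g v) = ρA (f • g) (ρF f v) := by
      have := congrArg (fun T : Module.End K V => T v) (S.hρ f g)
      simpa using this
    rw [hf v hv, hf _ (hs.act g hw v hv)] at h2
    exact h2.symm)
  rw [hπk] at h0
  exact (neg_add_eq_zero.1 h0).symm

/-- The order of a subgroup of `W` is invertible in `K`. -/
theorem Sys.card_ne (S : Sys p q π ρA β ρF) (hq : q.Prime) (hpq : p ≠ q) (X : AddSubgroup W) :
    (Nat.card X : K) ≠ 0 := by
  have : Fact q.Prime := ⟨hq⟩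
  have h1 : IsPGroup q (Multiplicative X) := by
    intro x
    refine ⟨1, ?_⟩
    rw [pow_one]
    apply Multiplicative.toAdd.injective
    rw [toAdd_pow, toAdd_one]
    apply Subtype.ext
    rw [AddSubgroup.coe_nsmul, AddSubgroup.coe_zero]
    exact S.hW _
  obtain ⟨n, hn⟩ := IsPGroup.iff_card.1 h1
  have h2 : Nat.card X = q ^ n := hn
  rw [h2, Nat.cast_pow]
  apply pow_ne_zero
  intro h0
  have h3 := (CharP.cast_eq_zero_iff K p q).1 h0
  exact hpq ((Nat.prime_dvd_prime_iff_eq (Fact.out) hq).1 h3)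

end sys

end H60SH
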