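import Mathlib
import Pool.Agent.H60.SH.Defs
import Pool.Agent.H60.SH.HEIS

namespace H60SH

open Module

section pure

variable {F W : Type*} [Group F] [Finite F] [AddCommGroup W] [Finite W] [DistribMulAction F W]

theorem wdec_inv {W : Type*} [AddCommGroup W] {q n : ℕ} (hq : 1 < q) (hn : Nat.Coprime n q) :
    ∃ a : ℕ, ∀ w : W, q • w = 0 → (n * a) • w = w := by
  obtain ⟨a, ha⟩ := Nat.exists_mul_mod_eq_one_of_coprime hn hq
  refine ⟨a, fun w hw => ?_⟩
  have h : n * a = q * (n * a / q) + 1 := by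
    conv_lhs => rw [← Nat.div_add_mod (n * a) q, ha.2]
  rw [h, add_smul, mul_comm, mul_smul, hw, smul_zero, zero_add, one_smul]

theorem wdec_zero {W : Type*} [AddCommGroup W] {q n : ℕ} (hq : 1 < q) (hn : Nat.Coprime n q)
    (w : W) (hw : q • w = 0) (h : n • w = 0) : w = 0 := by
  obtain ⟨a, ha⟩ := wdec_inv (W := W) hq hn
  rw [← ha w hw, mul_comm, mul_smul, h, smul_zero]

theorem wdec_smul (f : F) (n : ℕ) (w : W) : f • (n • w) = n • (f • w) :=
  (DistribSMul.toAddMonoidHom W f).map_nsmul n w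

theorem wdec_cop {p q : ℕ} (hp : p.Prime) (hq : q.Prime) (hpq : p ≠ q) (m : ℕ) :
    Nat.Coprime (p ^ m) q :=
  Nat.Coprime.pow_left m ((Nat.coprime_primes hp hq).2 hpq)

/-- **WDEC1**: coprime splitting `X = C_X(f) + [X, f]`. -/
theorem split (p q : ℕ) (hp : p.Prime) (hq : q.Prime) (hpq : p ≠ q) (hF : IsPGroup p F)
    (hW : ∀ w : W, q • w = 0) (X : AddSubgroup W) (f : F) (hfX : ∀ w ∈ X, f • w ∈ X) (w : W)
    (hw : w ∈ X) : ∃ w0 ∈ X, ∃ w1 ∈ X, f • w0 = w0 ∧ w = w0 + (f • w1 - w1) := by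
  obtain ⟨m, hm⟩ := hF f
  set n := p ^ m with hn
  obtain ⟨a, ha⟩ := wdec_inv (W := W) hq.one_lt (wdec_cop hp hq hpq m)
  have hpow : ∀ i : ℕ, (f ^ i) • w ∈ X := by
    intro i
    induction i with
    | zero => simpa using hw
    | succ i ih => rw [pow_succ', mul_smul]; exact hfX _ ih
  have hfn : (f ^ n) • w = w := by rw [hm, one_smul]
  have htel : ∀ i : ℕ, f • (∑ j ∈ Finset.range i, (f ^ j) • w) -
      ∑ j ∈ Finset.range i, (f ^ j) • w = (f ^ i) • w - w := by
    intro i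
    have h1 : f • (∑ j ∈ Finset.range i, (f ^ j) • w) =
        ∑ j ∈ Finset.range i, (f ^ (j + 1)) • w := by
      rw [Finset.smul_sum]
      exact Finset.sum_congr rfl fun j _ => by rw [pow_succ', mul_smul]
    rw [h1, ← Finset.sum_sub_distrib, Finset.sum_range_sub (fun j => (f ^ j) • w)]
    simp
  refine ⟨a • ∑ i ∈ Finset.range n, (f ^ i) • w,
    X.nsmul_mem (X.sum_mem fun i _ => hpow i) a,
    a • ∑ i ∈ Finset.range n, -(∑ j ∈ Finset.range i, (f ^ j) • w),
    X.nsmul_mem (X.sum_mem fun i _ => X.neg_mem (X.sum_mem fun j _ => hpow j)) a, ?_, ?_⟩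
  · rw [wdec_smul]
    congr 1
    have h := htel n
    rw [hfn, sub_self, sub_eq_zero] at h
    exact h
  · rw [wdec_smul, ← nsmul_sub, Finset.smul_sum (r := f), ← Finset.sum_sub_distrib, ← nsmul_add,
      ← Finset.sum_add_distrib]
    have h2 : ∀ i ∈ Finset.range n, (f ^ i) • w +
        (f • -(∑ j ∈ Finset.range i, (f ^ j) • w) - -(∑ j ∈ Finset.range i, (f ^ j) • w)) = w := by
      intro i _
      have h := htel i
      rw [smul_neg]
      have e : -(f • ∑ j ∈ Finset.range i, f ^ j • w) - -(∑ j ∈ Finset.range i, f ^ j • w) =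
        -(f • (∑ j ∈ Finset.range i, (f ^ j) • w) - ∑ j ∈ Finset.range i, (f ^ j) • w) := by abel
      rw [e, h]; abel
    rw [Finset.sum_congr rfl h2, Finset.sum_const, Finset.card_range, ← mul_smul, mul_comm]
    exact (ha w (hW w)).symm

/-- **WDEC2**: `C_X(f) ∩ [X, f] = 0`. -/
theorem stab (p q : ℕ) (hp : p.Prime) (hq : q.Prime) (hpq : p ≠ q) (hF : IsPGroup p F)
    (hW : ∀ w : W, q • w = 0) (f : F) (w : W)
    (hw : f • (f • w - w) = f • w - w) : f • w = w := by
  obtain ⟨m, hm⟩ := hF f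
  set r := f • w - w with hr
  have h1 : ∀ n : ℕ, (f ^ n) • w = w + n • r := by
    intro n
    induction n with
    | zero => simp
    | succ n ih =>
      rw [pow_succ', mul_smul, ih, smul_add, wdec_smul, hw, add_smul, one_smul]
      have : f • w = w + r := by rw [hr]; abel
      rw [this]; abel
  have h2 := h1 (p ^ m)
  rw [hm, one_smul] at h2
  have h3 : (p ^ m) • r = 0 := by
    have := h2.symm
    rwa [add_eq_left] at this
  have h4 := wdec_zero hq.one_lt (wdec_cop hp hq hpq m) r (hW r) h3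
  rwa [hr, sub_eq_zero] at h4

theorem wdec_perm {R : Type*} [Ring R] {p : ℕ} (hp : p.Prime) (z : R) (hz : z ^ p = 1) (m : ℕ)
    (hm : Nat.Coprime m p) :
    ∑ i ∈ Finset.range p, z ^ (m * i) = ∑ i ∈ Finset.range p, z ^ i := by
  have hmod : ∀ k : ℕ, z ^ k = z ^ (k % p) := by
    intro k
    conv_lhs => rw [← Nat.div_add_mod k p, pow_add, pow_mul, hz, one_pow, one_mul]
  have hmaps : ∀ i ∈ Finset.range p, m * i % p ∈ Finset.range p := fun i _ =>
    Finset.mem_range.2 (Nat.mod_lt _ hp.pos)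
  have hinj : ∀ i ∈ Finset.range p, ∀ j ∈ Finset.range p, m * i % p = m * j % p → i = j := by
    intro i hi j hj h
    have h1 : m * i ≡ m * j [MOD p] := h
    have h2 : i ≡ j [MOD p] := Nat.ModEq.cancel_left_of_coprime
      (by rw [Nat.gcd_comm]; exact hm) h1
    have h3 : i % p = j % p := h2
    rwa [Nat.mod_eq_of_lt (Finset.mem_range.1 hi), Nat.mod_eq_of_lt (Finset.mem_range.1 hj)] at h3
  refine Finset.sum_bij (fun i _ => m * i % p) hmaps (fun i hi j hj h => hinj i hi j hj h) ?_ ?_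
  · intro b hb
    obtain ⟨a, ha, hab⟩ := Finset.surj_on_of_inj_on_of_card_le (fun i _ => m * i % p) hmaps
      (fun i j hi hj h => hinj i hi j hj h) le_rfl b hb
    exact ⟨a, ha, hab.symm⟩
  · intro i _
    exact hmod _

/-- algebraic form of the decomposition -/
theorem wdec_ring {R : Type*} [Ring R] {p : ℕ} (hp : p.Prime) (c z : R) (hcz : c * z = z * c)
    (hc : ∑ a ∈ Finset.range p, c ^ a = 0) (hz : z ^ p = 1) :
    ∑ i ∈ Finset.range p, ∑ a ∈ Finset.range p, (c * (z ^ (p - 1)) ^ i) ^ a +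
      ∑ a ∈ Finset.range p, z ^ a = (p : R) := by
  have hcomm : Commute c z := hcz
  rw [Finset.sum_comm]
  obtain ⟨p', rfl⟩ : ∃ p', p = p' + 1 := ⟨p - 1, by have := hp.pos; omega⟩
  rw [Nat.add_sub_cancel]
  have h1 : ∀ a ∈ Finset.range p', ∑ i ∈ Finset.range (p' + 1), (c * (z ^ p') ^ i) ^ (a + 1) =
      c ^ (a + 1) * ∑ i ∈ Finset.range (p' + 1), z ^ i := by
    intro a ha
    have hcop : Nat.Coprime (p' * (a + 1)) (p' + 1) := by
      apply Nat.Coprime.mul_left
      · have : Nat.gcd p' (p' + 1) = 1 := by simp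
        exact this
      · have : a + 1 < p' + 1 := by have := Finset.mem_range.1 ha; omega
        exact (Nat.coprime_of_lt_prime (by omega) this hp).symm
    rw [← wdec_perm hp z hz _ hcop, Finset.mul_sum]
    refine Finset.sum_congr rfl fun i _ => ?_
    rw [Commute.mul_pow (hcomm.pow_right _ |>.pow_right _), ← pow_mul, ← pow_mul]
    congr 2
    ring
  rw [Finset.sum_range_succ' (fun a => ∑ i ∈ Finset.range (p' + 1), (c * (z ^ p') ^ i) ^ a)]
  rw [Finset.sum_congr rfl h1, ← Finset.sum_mul]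
  have h2 : ∑ a ∈ Finset.range p', c ^ (a + 1) = -1 := by
    rw [Finset.sum_range_succ' (fun a => c ^ a), pow_zero] at hc
    exact eq_neg_of_add_eq_zero_left hc
  rw [h2]
  simp

/-- **WDEC3**: the decomposition `X = C_X(z) + Σ_i X_i`, `X_i = {w | c w = z^i w}`. -/
theorem wdec (p q : ℕ) (hp : p.Prime) (hq : q.Prime) (hpq : p ≠ q)
    (hW : ∀ w : W, q • w = 0) (X : AddSubgroup W) (c z : F)
    (hcX : ∀ w ∈ X, c • w ∈ X) (hzX : ∀ w ∈ X, z • w ∈ X)
    (hcz : ∀ w ∈ X, c • z • w = z • c • w) (hcp : ∀ w ∈ X, (c ^ p) • w = w)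
    (hzp : ∀ w ∈ X, (z ^ p) • w = w) (hfix : ∀ w ∈ X, c • w = w → w = 0) (w : W) (hw : w ∈ X) :
    ∃ (w0 : W) (ws : ℕ → W), w0 ∈ X ∧ z • w0 = w0 ∧
      (∀ i, ws i ∈ X ∧ c • ws i = (z ^ i) • ws i) ∧ w = w0 + ∑ i ∈ Finset.Ico 1 p, ws i := by
  -- endomorphisms of `X`
  let C : AddMonoid.End X :=
    { toFun := fun v => ⟨c • (v : W), hcX v v.2⟩
      map_zero' := by ext; simp
      map_add' := fun u v => by ext; simp }
  let Z : AddMonoid.End X :=
    { toFun := fun v => ⟨z • (v : W), hzX v v.2⟩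
      map_zero' := by ext; simp
      map_add' := fun u v => by ext; simp }
  have hC : ∀ v : X, ((C v : X) : W) = c • (v : W) := fun v => rfl
  have hZ : ∀ v : X, ((Z v : X) : W) = z • (v : W) := fun v => rfl
  have hCpow : ∀ (n : ℕ) (v : X), (((C ^ n) v : X) : W) = (c ^ n) • (v : W) := by
    intro n
    induction n with
    | zero => intro v; simp
    | succ n ih =>
      intro v
      rw [pow_succ', AddMonoid.End.coe_mul, Function.comp_apply, hC, ih, pow_succ', mul_smul]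
  have hZpow : ∀ (n : ℕ) (v : X), (((Z ^ n) v : X) : W) = (z ^ n) • (v : W) := by
    intro n
    induction n with
    | zero => intro v; simp
    | succ n ih =>
      intro v
      rw [pow_succ', AddMonoid.End.coe_mul, Function.comp_apply, hZ, ih, pow_succ', mul_smul]
  have hCZ : C * Z = Z * C := by
    ext v
    exact hcz v v.2
  have hCp : C ^ p = 1 := by
    ext v
    rw [hCpow]
    exact hcp v v.2
  have hZp : Z ^ p = 1 := by
    ext v
    rw [hZpow]
    exact hzp v v.2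
  have hsumC : ∑ a ∈ Finset.range p, C ^ a = 0 := by
    ext v
    have h1 : C ((∑ a ∈ Finset.range p, C ^ a) v) = (∑ a ∈ Finset.range p, C ^ a) v := by
      have h2 : (C - 1) * ∑ a ∈ Finset.range p, C ^ a = 0 := by
        rw [mul_geom_sum, hCp, sub_self]
      have h3 : C * ∑ a ∈ Finset.range p, C ^ a = ∑ a ∈ Finset.range p, C ^ a := by
        rw [sub_mul, one_mul, sub_eq_zero] at h2
        exact h2
      have h4 := congrArg (fun T : AddMonoid.End X => T v) h3
      exact h4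
    have h5 := hfix _ ((∑ a ∈ Finset.range p, C ^ a) v).2 (congrArg Subtype.val h1)
    exact h5
  have hring := wdec_ring hp C Z hCZ hsumC hZp
  obtain ⟨b, hb⟩ := wdec_inv (W := X) (q := q) (n := p) hq.one_lt
    ((Nat.coprime_primes hp hq).2 hpq)
  let v : X := ⟨w, hw⟩
  let w0 : X := b • (∑ a ∈ Finset.range p, Z ^ a) v
  let ws : ℕ → X := fun i => b • (∑ a ∈ Finset.range p, (C * (Z ^ (p - 1)) ^ i) ^ a) v
  have hZinv : ∀ i : ℕ, Z ^ i * (Z ^ (p - 1)) ^ i = 1 := by
    intro i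
    rw [← pow_mul, ← pow_add]
    have : i + (p - 1) * i = p * i := by
      obtain ⟨p', rfl⟩ : ∃ p', p = p' + 1 := ⟨p - 1, by have := hp.pos; omega⟩
      rw [Nat.add_sub_cancel]; ring
    rw [this, pow_mul, hZp, one_pow]
  have hCZc : Commute C Z := hCZ
  refine ⟨w0, fun i => ws i, w0.2, ?_, ?_, ?_⟩
  · -- `z w0 = w0`
    have h1 : Z * ∑ a ∈ Finset.range p, Z ^ a = ∑ a ∈ Finset.range p, Z ^ a := by
      have h2 : (Z - 1) * ∑ a ∈ Finset.range p, Z ^ a = 0 := by
        rw [mul_geom_sum, hZp, sub_self]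
      rw [sub_mul, one_mul, sub_eq_zero] at h2
      exact h2
    have h2 : Z w0 = w0 := by
      change Z (b • _) = b • _
      rw [map_nsmul]
      congr 1
      exact congrArg (fun T : AddMonoid.End X => T v) h1
    exact congrArg Subtype.val h2
  · intro i
    refine ⟨(ws i).2, ?_⟩
    have hcomm : Commute C ((Z ^ (p - 1)) ^ i) := (hCZc.pow_right _).pow_right _
    have hTp : (C * (Z ^ (p - 1)) ^ i) ^ p = 1 := by
      rw [Commute.mul_pow hcomm, hCp, one_mul, ← pow_mul, ← pow_mul,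
        show (p - 1) * (i * p) = p * ((p - 1) * i) by ring, pow_mul, hZp, one_pow]
    have h1 : (C * (Z ^ (p - 1)) ^ i) * ∑ a ∈ Finset.range p, (C * (Z ^ (p - 1)) ^ i) ^ a =
        ∑ a ∈ Finset.range p, (C * (Z ^ (p - 1)) ^ i) ^ a := by
      have h2 : (C * (Z ^ (p - 1)) ^ i - 1) *
          ∑ a ∈ Finset.range p, (C * (Z ^ (p - 1)) ^ i) ^ a = 0 := by
        rw [mul_geom_sum, hTp, sub_self]
      rw [sub_mul, one_mul, sub_eq_zero] at h2
      exact h2
    have h3 : C * ∑ a ∈ Finset.range p, (C * (Z ^ (p - 1)) ^ i) ^ a =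
        Z ^ i * ∑ a ∈ Finset.range p, (C * (Z ^ (p - 1)) ^ i) ^ a := by
      conv_rhs => rw [← h1]
      rw [← mul_assoc, ← mul_assoc, (hCZc.symm.pow_left i).eq, mul_assoc C, hZinv, mul_one]
    have h4 : C (ws i) = (Z ^ i) (ws i) := by
      change C (b • _) = (Z ^ i) (b • _)
      rw [map_nsmul, map_nsmul]
      congr 1
      exact congrArg (fun T : AddMonoid.End X => T v) h3
    have h5 := congrArg Subtype.val h4
    rw [hZpow] at h5
    exact h5
  · have h1 : v = w0 + ∑ i ∈ Finset.Ico 1 p, ws i := by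
      have hT0 : ws 0 = 0 := by
        change b • (∑ a ∈ Finset.range p, (C * (Z ^ (p - 1)) ^ 0) ^ a) v = 0
        rw [pow_zero, mul_one, hsumC]
        simp
      have h2 : ∑ i ∈ Finset.Ico 1 p, ws i = ∑ i ∈ Finset.range p, ws i := by
        rw [Finset.range_eq_Ico, Finset.sum_eq_sum_Ico_succ_bot hp.pos, hT0, zero_add]
      rw [h2]
      have h3 : ∑ i ∈ Finset.range p, ws i = b • (∑ i ∈ Finset.range p,
          ∑ a ∈ Finset.range p, (C * (Z ^ (p - 1)) ^ i) ^ a) v := by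
        change ∑ i ∈ Finset.range p, b • _ = _
        rw [← Finset.smul_sum]
        congr 1
        exact (AddMonoidHom.finsetSum_apply _ _ _).symm
      rw [h3]
      change v = b • _ + b • _
      rw [← nsmul_add, add_comm]
      have h4 := congrArg (fun T : AddMonoid.End X => T v) hring
      change (∑ i ∈ Finset.range p, ∑ a ∈ Finset.range p, (C * (Z ^ (p - 1)) ^ i) ^ a) v +
        (∑ a ∈ Finset.range p, Z ^ a) v = _ at h4
      rw [h4]
      have h5 : ((p : AddMonoid.End X) v) = p • v := by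
        rw [AddMonoid.End.natCast_apply]
      rw [h5, ← mul_smul, mul_comm]
      exact (hb v (by ext; exact hW w)).symm
    have h6 := congrArg Subtype.val h1
    rw [AddSubgroup.coe_add, AddSubgroup.val_finsetSum] at h6
    exact h6

end pure

section sys

variable {K V F A W : Type*} [Field K] [AddCommGroup V] [Module K V] [Nontrivial V]
  [Group F] [Finite F] [Group A] [MulDistribMulAction F A] [AddCommGroup W] [Finite W]
  [DistribMulAction F W] {p q : ℕ} [Fact p.Prime] [CharP K p]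
  {π : A → W} {ρA : Representation K A V} {β : W → W → K} {ρF : Representation K F V}

/-- fixed vectors are orthogonal to commutators -/
theorem wdec_fix (S : Sys p q π ρA β ρF) (f : F) (u v : W) (hu : f • u = u) :
    β u (f • v - v) = 1 := by
  rw [sub_eq_add_neg, S.heis.beta_add_right, S.heis.beta_neg_right]
  have h := S.beta_inv f u v
  rw [hu] at h
  rw [h]
  exact mul_inv_cancel₀ (S.heis.beta_ne u v)

theorem wdec_fix' (S : Sys p q π ρA β ρF) (f : F) (u v : W) (hu : f • u = u) :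
    β (f • v - v) u = 1 := by
  have h := S.heis.beta_swap u (f • v - v)
  rwa [wdec_fix S f u v hu, one_mul] at h

/-- **WDEC4**: fixed points form a nondegenerate subgroup. -/
theorem nd_fix (S : Sys p q π ρA β ρF) (hq : q.Prime) (hpq : p ≠ q) (X : AddSubgroup W)
    (hnd : ∀ w ∈ X, w ≠ 0 → ∃ w' ∈ X, β w w' ≠ 1) (f : F) (hfX : ∀ w ∈ X, f • w ∈ X)
    (w : W) (hw : w ∈ X) (hfw : f • w = w) (hw0 : w ≠ 0) :
    ∃ w' ∈ X, f • w' = w' ∧ β w w' ≠ 1 := by
  obtain ⟨w', hw', hne⟩ := hnd w hw hw0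
  obtain ⟨u0, hu0, u1, -, hfu, he⟩ := split p q Fact.out hq hpq S.hF S.hW X f hfX w' hw'
  refine ⟨u0, hu0, hfu, fun h => hne ?_⟩
  rw [he, S.heis.beta_add_right, h, one_mul]
  exact wdec_fix S f w u1 hfw

/-- **WDEC5**: `[X, f]` is nondegenerate. -/
theorem nd_comm (S : Sys p q π ρA β ρF) (hq : q.Prime) (hpq : p ≠ q) (X : AddSubgroup W)
    (hnd : ∀ w ∈ X, w ≠ 0 → ∃ w' ∈ X, β w w' ≠ 1) (f : F) (hfX : ∀ w ∈ X, f • w ∈ X)
    (w : W) (hw : w ∈ X) (hw0 : f • w - w ≠ 0) :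
    ∃ w' ∈ X, β (f • w - w) (f • w' - w') ≠ 1 := by
  obtain ⟨w', hw', hne⟩ := hnd _ (X.sub_mem (hfX w hw) hw) hw0
  obtain ⟨u0, -, u1, hu1, hfu, he⟩ := split p q Fact.out hq hpq S.hF S.hW X f hfX w' hw'
  refine ⟨u1, hu1, fun h => hne ?_⟩
  rw [he, S.heis.beta_add_right, h, mul_one]
  exact wdec_fix' S f u0 w hfu

/-- powers of `z` -/
theorem wdec_zc {F W : Type*} [Group F] [AddCommGroup W] [DistribMulAction F W]
    (X : AddSubgroup W) (c z : F) (hzX : ∀ w ∈ X, z • w ∈ X)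
    (hcz : ∀ w ∈ X, c • z • w = z • c • w) (m : ℕ) :
    ∀ w ∈ X, (z ^ m) • w ∈ X ∧ c • (z ^ m) • w = (z ^ m) • c • w := by
  induction m with
  | zero => intro w hw; simpa using hw
  | succ m ih =>
    intro w hw
    obtain ⟨h1, h2⟩ := ih w hw
    rw [pow_succ', mul_smul, mul_smul, hcz _ h1, h2]
    exact ⟨hzX _ h1, rfl⟩

/-- `z ^ m v = v` with `m` prime to `p` and `z ^ p v = v` gives `z v = v`. -/
theorem wdec_zfix {F W : Type*} [Group F] [AddCommGroup W] [DistribMulAction F W] {p : ℕ}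
    (z : F) (m : ℕ) (hm : Nat.Coprime m p) (v : W) (h1 : (z ^ p) • v = v)
    (h2 : (z ^ m) • v = v) : z • v = v := by
  have e1 : z ^ p ∈ MulAction.stabilizer F v := h1
  have e2 : z ^ m ∈ MulAction.stabilizer F v := h2
  have e3 : z ^ ((m : ℤ) * m.gcdA p + p * m.gcdB p) ∈ MulAction.stabilizer F v := by
    rw [zpow_add, zpow_mul, zpow_mul, zpow_natCast, zpow_natCast]
    exact mul_mem (Subgroup.zpow_mem _ e2 _) (Subgroup.zpow_mem _ e1 _)
  rw [← Nat.gcd_eq_gcd_ab, hm.gcd_eq_one, Nat.cast_one, zpow_one] at e3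
  exact e3

/-- the component `X_j` -/
def wdecX {F W : Type*} [Group F] [AddCommGroup W] [DistribMulAction F W] (X : AddSubgroup W)
    (c z : F) (j : ℕ) : AddSubgroup W where
  carrier := {v | v ∈ X ∧ c • v = (z ^ j) • v}
  zero_mem' := ⟨X.zero_mem, by simp⟩
  add_mem' := by
    rintro a b ⟨ha, ha'⟩ ⟨hb, hb'⟩
    exact ⟨X.add_mem ha hb, by rw [smul_add, smul_add, ha', hb']⟩
  neg_mem' := by
    rintro a ⟨ha, ha'⟩
    exact ⟨X.neg_mem ha, by rw [smul_neg, smul_neg, ha']⟩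

/-- surjectivity of `z ^ i - z ^ j` on `X_j` -/
theorem wdec_surj {F W : Type*} [Group F] [AddCommGroup W] [DistribMulAction F W] [Finite W]
    {p : ℕ} (hp : p.Prime) (X : AddSubgroup W) (c z : F)
    (hzX : ∀ w ∈ X, z • w ∈ X)
    (hcz : ∀ w ∈ X, c • z • w = z • c • w)
    (hzp : ∀ w ∈ X, (z ^ p) • w = w) (hfix : ∀ w ∈ X, c • w = w → w = 0)
    (i j k : ℕ) (hi : i < p) (hj : j < p) (hij : i ≠ j) (v : W) (hvX : v ∈ X)
    (hv : c • v = (z ^ k) • v) :
    ∃ u ∈ X, c • u = (z ^ k) • u ∧ v = (z ^ i) • u - (z ^ j) • u := by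
  have hmem : ∀ (m : ℕ) (u : W), u ∈ wdecX X c z k → (z ^ m) • u ∈ wdecX X c z k := by
    rintro m u ⟨h1, h2⟩
    obtain ⟨h3, h4⟩ := wdec_zc X c z hzX hcz m u h1
    refine ⟨h3, ?_⟩
    rw [h4, h2, ← mul_smul, ← mul_smul, ← pow_add, ← pow_add, add_comm]
  let T : wdecX X c z k → wdecX X c z k := fun u =>
    ⟨(z ^ i) • (u : W) - (z ^ j) • (u : W),
      (wdecX X c z k).sub_mem (hmem i u u.2) (hmem j u u.2)⟩
  -- an element with `z ^ i u = z ^ j u` vanishes
  have key : ∀ u : W, u ∈ wdecX X c z k → (z ^ i) • u = (z ^ j) • u → u = 0 := by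
    rintro u ⟨h1, h2⟩ h3
    have hz : z • u = u := by
      rcases Nat.lt_or_ge i j with h | h
      · apply wdec_zfix z (j - i) _ u (hzp u h1)
        · have e : z ^ j = z ^ i * z ^ (j - i) := by rw [← pow_add]; congr 1; omega
          rw [e, mul_smul] at h3
          exact (smul_left_cancel _ h3).symm
        · exact (Nat.coprime_of_lt_prime (by omega) (by omega) hp).symm
      · have h' : j < i := by omega
        apply wdec_zfix z (i - j) _ u (hzp u h1)
        · have e : z ^ i = z ^ j * z ^ (i - j) := by rw [← pow_add]; congr 1; omega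
          rw [e, mul_smul] at h3
          exact (smul_left_cancel _ h3)
        · exact (Nat.coprime_of_lt_prime (by omega) (by omega) hp).symm
    have hzk : (z ^ k) • u = u := by
      have e1 : z ∈ MulAction.stabilizer F u := hz
      exact pow_mem e1 k
    exact hfix u h1 (by rw [h2, hzk])
  have hinj : Function.Injective T := by
    intro u u' h
    have h1 := congrArg Subtype.val h
    change (z ^ i) • (u : W) - (z ^ j) • (u : W) = (z ^ i) • (u' : W) - (z ^ j) • (u' : W) at h1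
    have h2 : (z ^ i) • ((u : W) - u') = (z ^ j) • ((u : W) - u') := by
      rw [smul_sub, smul_sub]
      have := sub_eq_zero.2 h1
      rw [← sub_eq_zero, ← this]
      abel
    have h3 := key _ ((wdecX X c z k).sub_mem u.2 u'.2) h2
    ext
    exact sub_eq_zero.1 h3
  obtain ⟨u, hu⟩ := (Finite.injective_iff_surjective.1 hinj) ⟨v, hvX, hv⟩
  exact ⟨u, u.2.1, u.2.2, (congrArg Subtype.val hu).symm⟩

/-- **WDEC6**: different components are orthogonal. -/
theorem orth (S : Sys p q π ρA β ρF) (hq : q.Prime) (hpq : p ≠ q) (X : AddSubgroup W) (c z : F)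
    (hcX : ∀ w ∈ X, c • w ∈ X) (hzX : ∀ w ∈ X, z • w ∈ X)
    (hcz : ∀ w ∈ X, c • z • w = z • c • w) (hcp : ∀ w ∈ X, (c ^ p) • w = w)
    (hzp : ∀ w ∈ X, (z ^ p) • w = w) (hfix : ∀ w ∈ X, c • w = w → w = 0)
    (i j : ℕ) (hi : i < p) (hj : j < p) (hij : i ≠ j) (u v : W) (huX : u ∈ X) (hvX : v ∈ X)
    (hu : c • u = (z ^ i) • u) (hv : c • v = (z ^ j) • v) : β u v = 1 := by
  obtain ⟨v', hv'X, hv', he⟩ := wdec_surj (Fact.out : p.Prime) X c z hzX hcz hzp hfix j i j
    hj hi (Ne.symm hij) ((z ^ i) • v) (wdec_zc X c z hzX hcz i v hvX).1 (by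
      rw [(wdec_zc X c z hzX hcz i v hvX).2, hv, ← mul_smul, ← mul_smul, ← pow_add, ← pow_add,
        add_comm])
  have h1 : β ((z ^ i) • u) ((z ^ j) • v') = β u v' := by
    rw [← hu, ← hv']
    exact S.beta_inv c u v'
  have h2 : β ((z ^ i) • u) ((z ^ i) • v') = β u v' := S.beta_inv _ u v'
  rw [← S.beta_inv (z ^ i) u v, he, sub_eq_add_neg, S.heis.beta_add_right,
    S.heis.beta_neg_right, h1, h2]
  exact mul_inv_cancel₀ (S.heis.beta_ne u v')

/-- **WDEC6b**: `C_X(z)` is orthogonal to the components. -/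
theorem orth0 (S : Sys p q π ρA β ρF) (hq : q.Prime) (hpq : p ≠ q) (X : AddSubgroup W) (c z : F)
    (hcX : ∀ w ∈ X, c • w ∈ X) (hzX : ∀ w ∈ X, z • w ∈ X)
    (hcz : ∀ w ∈ X, c • z • w = z • c • w) (hcp : ∀ w ∈ X, (c ^ p) • w = w)
    (hzp : ∀ w ∈ X, (z ^ p) • w = w) (hfix : ∀ w ∈ X, c • w = w → w = 0)
    (j : ℕ) (hj : j < p) (u v : W) (huX : u ∈ X) (hvX : v ∈ X)
    (hu : z • u = u) (hv : c • v = (z ^ j) • v) : β u v = 1 ∧ β v u = 1 := by
  have hp : p.Prime := Fact.out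
  obtain ⟨v', hv'X, hv', he⟩ := wdec_surj hp X c z hzX hcz hzp hfix 1 0 j
    hp.one_lt hp.pos one_ne_zero v hvX hv
  rw [pow_one, pow_zero, one_smul] at he
  rw [he]
  exact ⟨wdec_fix S z u v' hu, wdec_fix' S z u v' hu⟩

theorem wdec_beta_sum (S : Sys p q π ρA β ρF) (u : W) (s : Finset ℕ) (ws : ℕ → W) :
    β u (∑ i ∈ s, ws i) = ∏ i ∈ s, β u (ws i) := by
  classical
  induction s using Finset.induction_on with
  | empty => simp [S.heis.beta_zero_right]
  | insert a s ha ih => rw [Finset.sum_insert ha, Finset.prod_insert ha, S.heis.beta_add_right, ih]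

/-- **WDEC7**: each component `X_i` is nondegenerate. -/
theorem nd_comp (S : Sys p q π ρA β ρF) (hq : q.Prime) (hpq : p ≠ q) (X : AddSubgroup W)
    (hnd : ∀ w ∈ X, w ≠ 0 → ∃ w' ∈ X, β w w' ≠ 1) (c z : F)
    (hcX : ∀ w ∈ X, c • w ∈ X) (hzX : ∀ w ∈ X, z • w ∈ X)
    (hcz : ∀ w ∈ X, c • z • w = z • c • w) (hcp : ∀ w ∈ X, (c ^ p) • w = w)
    (hzp : ∀ w ∈ X, (z ^ p) • w = w) (hfix : ∀ w ∈ X, c • w = w → w = 0)
    (i : ℕ) (hi : i < p) (w : W) (hw : w ∈ X) (hw1 : c • w = (z ^ i) • w) (hw0 : w ≠ 0) :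
    ∃ w' ∈ X, c • w' = (z ^ i) • w' ∧ β w w' ≠ 1 := by
  have hp : p.Prime := Fact.out
  obtain ⟨w', hw', hne⟩ := hnd w hw hw0
  obtain ⟨u0, us, hu0, hzu0, hus, he⟩ := wdec p q hp hq hpq S.hW X c z hcX hzX hcz hcp hzp hfix
    w' hw'
  refine ⟨us i, (hus i).1, (hus i).2, fun h => hne ?_⟩
  rw [he, S.heis.beta_add_right, wdec_beta_sum S,
    (orth0 S hq hpq X c z hcX hzX hcz hcp hzp hfix i hi u0 w hu0 hw hzu0 hw1).2, one_mul]
  refine Finset.prod_eq_one fun k hk => ?_
  have hk' := Finset.mem_Ico.1 hk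
  by_cases hki : k = i
  · rw [hki]; exact h
  · exact orth S hq hpq X c z hcX hzX hcz hcp hzp hfix i k hi hk'.2 (Ne.symm hki) w (us k) hw
      (hus k).1 hw1 (hus k).2

end sys

end H60SH
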