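import Mathlib
import Pool.Agent.H60.SH.Defs
import Pool.Agent.H60.SH.HEIS
import Pool.Agent.H60.SH.WDEC

namespace H60SH

open Module

variable {K V F A W : Type*} [Field K] [AddCommGroup V] [Module K V] [Nontrivial V]
  [Group F] [Finite F] [Group A] [MulDistribMulAction F A] [AddCommGroup W] [Finite W]
  [DistribMulAction F W] {p q : ℕ} [Fact p.Prime] [CharP K p]
  {π : A → W} {ρA : Representation K A V} {β : W → W → K} {ρF : Representation K F V}

/-- **ALPHA**: if `c` is trivial on a nonzero subspace `I` which is invariant under the preimage of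
`C_X(x)`, then `c` is trivial on `C_X(x)`. -/
theorem alpha (S : Sys p q π ρA β ρF) (hq : q.Prime) (hpq : p ≠ q) {X : AddSubgroup W}
    (hnd : ∀ w ∈ X, w ≠ 0 → ∃ w' ∈ X, β w w' ≠ 1) (c x : F)
    (hcX : ∀ w ∈ X, c • w ∈ X) (hxX : ∀ w ∈ X, x • w ∈ X)
    (hcx : ∀ w ∈ X, c • x • w = x • c • w) (I : Submodule K V) (hI : I ≠ ⊥)
    (hIA : ∀ g, π g ∈ X → x • π g = π g → ∀ v ∈ I, ρA g v ∈ I)
    (hcI : ∀ v ∈ I, ρF c v = v) : ∀ w ∈ X, x • w = w → c • w = w := by
  intro w hw hxw
  by_contra hne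
  have hw1X : c • w - w ∈ X := X.sub_mem (hcX w hw) hw
  have hxw1 : x • (c • w - w) = c • w - w := by
    rw [smul_sub, ← hcx w hw, hxw]
  obtain ⟨w', hw', hxw', hβ⟩ := nd_fix S hq hpq X hnd x hxX (c • w - w) hw1X hxw1
    (sub_ne_zero.2 hne)
  obtain ⟨g, rfl⟩ := S.heis.surj w
  obtain ⟨g', rfl⟩ := S.heis.surj w'
  obtain ⟨v, hv, hv0⟩ := (Submodule.ne_bot_iff I).1 hI
  have hh : ∀ v ∈ I, ρA (g⁻¹ * (c • g)) v = v := by
    intro v hv
    apply rho_injective ρA g
    have h1 : ρA g (ρA (g⁻¹ * (c • g)) v) = ρA (c • g) v := by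
      rw [← Module.End.mul_apply, ← _root_.map_mul]
      congr 2
      group
    have h2 : ρF c (ρA g v) = ρA (c • g) (ρF c v) := by
      have := congrArg (fun T : Module.End K V => T v) (S.hρ c g)
      simpa using this
    rw [hcI v hv, hcI _ (hIA g hw hxw v hv)] at h2
    rw [h1, ← h2]
  have hπh : π (g⁻¹ * (c • g)) = c • π g - π g := by
    rw [S.heis.add, S.heis.map_inv, S.hπ]; abel
  have hg'v := hIA g' hw' hxw' v hv
  have h1 := S.heis.comm_apply (g⁻¹ * (c • g)) g' v
  rw [hh _ hg'v, hh v hv, hπh] at h1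
  have h3 : ρA g' v ≠ 0 := by
    intro h0; apply hv0; apply rho_injective ρA g'; rw [h0, _root_.map_zero]
  apply hβ
  have h4 : (1 : K) • ρA g' v = β (c • π g - π g) (π g') • ρA g' v := by
    rw [one_smul]; exact h1
  exact (smul_left_injective K h3 h4).symm

/-- The image of a polynomial in `x` is invariant under the preimage of `C_X(x)`. -/
theorem image_inv (S : Sys p q π ρA β ρF) {X : AddSubgroup W} {U : Submodule K V}
    (hs : SubSys π ρA β X U) (x : F) (N : Module.End K V)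
    (hN : N ∈ Algebra.adjoin K {ρF x}) (g : A) (hg : π g ∈ X) (hxg : x • π g = π g) :
    ∀ v ∈ U.map N, ρA g v ∈ U.map N := by
  have hc := S.cop x g hxg
  have hle : Algebra.adjoin K {ρF x} ≤ Subalgebra.centralizer K {ρA g} := by
    apply Algebra.adjoin_le
    intro y hy
    rw [Set.mem_singleton_iff] at hy
    subst hy
    rw [SetLike.mem_coe, Subalgebra.mem_centralizer_iff]
    intro z hz
    rw [Set.mem_singleton_iff] at hz
    rw [hz, hc]
  have hNc : ρA g * N = N * ρA g := (Subalgebra.mem_centralizer_iff K).1 (hle hN) _ rfl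
  rintro _ ⟨u, hu, rfl⟩
  refine ⟨ρA g u, hs.act g hg u hu, ?_⟩
  have := congrArg (fun T : Module.End K V => T u) hNc
  simpa using this.symm

end H60SH
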