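import Mathlib

namespace H60SH

open Module
open scoped commutatorElement

/-- **FRAT**: elements of the derived subgroup of a finite `p`-group are nongenerators. -/
theorem frat {H : Type*} [Group H] [Finite H] (p : ℕ) [Fact p.Prime] (hH : IsPGroup p H) (u : H)
    (hu : u ∈ commutator H) (K : Subgroup H) (hK : ∀ h : H, ∃ m : ℤ, u ^ m * h ∈ K) : K = ⊤ := by
  rcases eq_top_or_exists_le_coatom K with h | ⟨M, hM, hKM⟩
  · exact h
  exfalso
  have hnil : Group.IsNilpotent H := hH.isNilpotent
  have hMn : M.Normal :=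
    Subgroup.NormalizerCondition.normal_of_coatom M Group.normalizerCondition_of_isNilpotent hM
  have hq : IsPGroup p (H ⧸ M) := hH.to_quotient M
  have hnt : Nontrivial (H ⧸ M) := by
    rw [QuotientGroup.nontrivial_iff]
    exact hM.1
  have hcn : Nontrivial (Subgroup.center (H ⧸ M)) := hq.center_nontrivial
  set C := (Subgroup.center (H ⧸ M)).comap (QuotientGroup.mk' M) with hC
  have hMC : M < C := by
    refine lt_of_le_of_ne ?_ ?_
    · intro x hx
      rw [hC, Subgroup.mem_comap]
      have : QuotientGroup.mk' M x = 1 := (QuotientGroup.eq_one_iff x).mpr hx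
      rw [this]
      exact Subgroup.one_mem _
    · intro he
      obtain ⟨z, hz⟩ := exists_ne (1 : Subgroup.center (H ⧸ M))
      obtain ⟨y, hy⟩ := QuotientGroup.mk'_surjective M (z : H ⧸ M)
      have hyC : y ∈ C := by
        rw [hC, Subgroup.mem_comap, hy]
        exact z.2
      rw [← he] at hyC
      have h1 : QuotientGroup.mk' M y = 1 := (QuotientGroup.eq_one_iff y).mpr hyC
      rw [hy] at h1
      exact hz (Subtype.ext h1)
  have hCtop : C = ⊤ := hM.2 C hMC
  have hcomm : commutator H ≤ M := by
    rw [← Subgroup.Normal.quotient_commutative_iff_commutator_le]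
    refine ⟨⟨?_⟩⟩
    intro a b
    obtain ⟨y, rfl⟩ := QuotientGroup.mk'_surjective M a
    have hyC : y ∈ C := by
      rw [hCtop]
      exact Subgroup.mem_top y
    rw [hC, Subgroup.mem_comap, Subgroup.mem_center_iff] at hyC
    exact (hyC b).symm
  have huM : u ∈ M := hcomm hu
  refine hM.1 ?_
  rw [Subgroup.eq_top_iff']
  intro x
  obtain ⟨m, hm⟩ := hK x
  have h1 : u ^ m * x ∈ M := hKM hm
  exact (Subgroup.mul_mem_cancel_left M (Subgroup.zpow_mem M huM m)).mp h1

/-- **DICH-a**. -/
theorem dich {K V H : Type*} [Field K] [AddCommGroup V] [Module K V]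
    [Group H] [Finite H] (p : ℕ) [Fact p.Prime] (hH : IsPGroup p H) (ρ : Representation K H V)
    (𝓤 : Set (Submodule K V)) (hind : sSupIndep 𝓤)
    (hperm : ∀ h : H, ∀ U ∈ 𝓤, U.map (ρ h) ∈ 𝓤) (u : H) (hu : u ∈ commutator H)
    (X : Module.End K V) (hX : X ∈ Algebra.adjoin K {ρ u}) (hXh : ∀ h : H, X * ρ h = X)
    (U : Submodule K V) (hU : U ∈ 𝓤) (w : V) (hw : w ∈ U) (hXw : X w ∉ sSup (𝓤 \ {U})) (h : H) :
    U.map (ρ h) = U := by
  have hmm : ∀ (a b : H) (Y : Submodule K V), Y.map (ρ (a * b)) = (Y.map (ρ b)).map (ρ a) := by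
    intro a b Y
    rw [map_mul, Module.End.mul_eq_comp, Submodule.map_comp]
  have h1 : ∀ Y : Submodule K V, Y.map (ρ 1) = Y := by
    intro Y
    rw [map_one, Module.End.one_eq_id, Submodule.map_id]
  let K0 : Subgroup H :=
    { carrier := {h | U.map (ρ h) = U}
      mul_mem' := by
        intro a b ha hb
        simp only [Set.mem_ofPred_eq] at ha hb ⊢
        rw [hmm, hb, ha]
      one_mem' := by
        simp only [Set.mem_ofPred_eq]
        exact h1 U
      inv_mem' := by
        intro a ha
        simp only [Set.mem_ofPred_eq] at ha ⊢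
        conv_lhs => rw [← ha]
        rw [← hmm, inv_mul_cancel, h1] }
  have hK0 : ∀ x, x ∈ K0 ↔ U.map (ρ x) = U := fun x => Iff.rfl
  have hclaim : ∀ h : H, ∃ m : ℤ, u ^ m * h ∈ K0 := by
    intro h
    by_contra hcon
    push Not at hcon
    set T : Submodule K V := ⨆ i : ℕ, U.map (ρ (u ^ i * h)) with hT
    have hTS : T ≤ sSup (𝓤 \ {U}) := by
      refine iSup_le fun i => le_sSup ⟨hperm _ U hU, ?_⟩
      intro he
      have := hcon (i : ℤ)
      rw [hK0, zpow_natCast] at this
      exact this he
    have hTu : ∀ t ∈ T, ρ u t ∈ T := by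
      intro t ht
      have h2 : T.map (ρ u) ≤ T := by
        rw [hT, Submodule.map_iSup]
        refine iSup_le fun i => ?_
        rw [← hmm, ← mul_assoc, ← pow_succ']
        exact le_iSup (fun i : ℕ => U.map (ρ (u ^ i * h))) (i + 1)
      exact h2 (Submodule.mem_map_of_mem ht)
    have hY : ∀ Y ∈ Algebra.adjoin K {ρ u}, ∀ t ∈ T, Y t ∈ T := by
      intro Y hY
      induction hY using Algebra.adjoin_induction with
      | mem x hx =>
        rw [Set.mem_singleton_iff] at hx
        subst hx
        exact hTu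
      | algebraMap r =>
        intro t ht
        rw [Module.algebraMap_end_apply]
        exact T.smul_mem r ht
      | add x y _ _ hx hy =>
        intro t ht
        rw [LinearMap.add_apply]
        exact T.add_mem (hx t ht) (hy t ht)
      | mul x y _ _ hx hy =>
        intro t ht
        rw [Module.End.mul_apply]
        exact hx _ (hy t ht)
    have hv : ρ h w ∈ T := by
      have h3 : U.map (ρ (u ^ 0 * h)) ≤ T := le_iSup (fun i : ℕ => U.map (ρ (u ^ i * h))) 0
      rw [pow_zero, one_mul] at h3
      exact h3 (Submodule.mem_map_of_mem hw)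
    have h4 : X (ρ h w) = X w := by
      rw [← Module.End.mul_apply, hXh]
    have h5 := hY X hX _ hv
    rw [h4] at h5
    exact hXw (hTS h5)
  have := frat p hH u hu K0 hclaim
  rw [← hK0, this]
  exact Subgroup.mem_top h

end H60SH
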