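import Mathlib
import Pool.Agent.H60.SH.DICHA

namespace H60SH

open Module
open scoped commutatorElement

section aux

variable {K V H : Type*} [Field K] [AddCommGroup V] [Module K V] [Group H]

theorem dichb_map_mul (ρ : Representation K H V) (a b : H) (Y : Submodule K V) :
    Y.map (ρ (a * b)) = (Y.map (ρ b)).map (ρ a) := by
  rw [map_mul, Module.End.mul_eq_comp, Submodule.map_comp]

theorem dichb_map_one (ρ : Representation K H V) (Y : Submodule K V) : Y.map (ρ 1) = Y := by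
  rw [map_one, Module.End.one_eq_id, Submodule.map_id]

theorem dichb_map_pow (ρ : Representation K H V) (a : H) (Y : Submodule K V)
    (h : Y.map (ρ a) = Y) (m : ℕ) : Y.map (ρ (a ^ m)) = Y := by
  induction m with
  | zero => rw [pow_zero, dichb_map_one]
  | succ m ih => rw [pow_succ, dichb_map_mul, h, ih]

/-- `(X - 1) ^ (p ^ j - 1) = 1 + X + ... + X ^ (p ^ j - 1)` in characteristic `p`. -/
theorem dichb_poly (K : Type*) [Field K] (p : ℕ) [Fact p.Prime] [CharP K p] (j : ℕ) :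
    (Polynomial.X - 1 : Polynomial K) ^ (p ^ j - 1) =
      ∑ i ∈ Finset.range (p ^ j), (Polynomial.X : Polynomial K) ^ i := by
  have hp : p.Prime := Fact.out
  have hne : (Polynomial.X - 1 : Polynomial K) ≠ 0 := by
    simpa using Polynomial.X_sub_C_ne_zero (1 : K)
  apply mul_right_cancel₀ hne
  rw [geom_sum_mul, ← pow_succ, Nat.sub_add_cancel (Nat.pow_pos hp.pos), sub_pow_char_pow,
    one_pow]

theorem dichb_poly2 (K : Type*) [Field K] (p : ℕ) [Fact p.Prime] [CharP K p] (j e : ℕ) :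
    (Polynomial.X - 1 : Polynomial K) ^ ((p ^ j - 1) + p ^ j * e) =
      (∑ i ∈ Finset.range (p ^ j), (Polynomial.X : Polynomial K) ^ i) *
        (Polynomial.X ^ (p ^ j) - 1) ^ e := by
  rw [pow_add, dichb_poly, pow_mul, sub_pow_char_pow, one_pow]

theorem dichb_end (p : ℕ) [Fact p.Prime] [CharP K p] (ρ : Representation K H V) (u : H)
    (j e : ℕ) :
    (ρ u - 1) ^ ((p ^ j - 1) + p ^ j * e) =
      (∑ i ∈ Finset.range (p ^ j), ρ (u ^ i)) * (ρ (u ^ (p ^ j)) - 1) ^ e := by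
  have h := congrArg (Polynomial.aeval (ρ u)) (dichb_poly2 K p j e)
  simpa using h

theorem dichb_inv (ρ : Representation K H V) (a : H) (U : Submodule K V)
    (h : U.map (ρ a) = U) (e : ℕ) (w : V) (hw : w ∈ U) : ((ρ a - 1) ^ e) w ∈ U := by
  induction e generalizing w with
  | zero => simpa using hw
  | succ e ih =>
    rw [pow_succ]
    change ((ρ a - 1) ^ e) ((ρ a - 1) w) ∈ U
    apply ih
    change ρ a w - w ∈ U
    apply U.sub_mem _ hw
    rw [← h]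
    exact Submodule.mem_map_of_mem hw

theorem dichb_mem (ρ : Representation K H V) (𝓤 : Set (Submodule K V))
    (hperm : ∀ h : H, ∀ U ∈ 𝓤, U.map (ρ h) ∈ 𝓤) (U : Submodule K V) (hU : U ∈ 𝓤) (a : H)
    (h : U.map (ρ a) ≠ U) (w : V) (hw : w ∈ U) : ρ a w ∈ sSup (𝓤 \ {U}) := by
  have h1 : U.map (ρ a) ≤ sSup (𝓤 \ {U}) := le_sSup ⟨hperm a U hU, h⟩
  exact h1 (Submodule.mem_map_of_mem hw)

theorem dichb_adjoin (ρ : Representation K H V) (u : H) (m : ℕ) :
    (ρ u - 1) ^ m ∈ Algebra.adjoin K {ρ u} := by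
  apply Subalgebra.pow_mem
  exact Subalgebra.sub_mem _ (Algebra.subset_adjoin rfl) (Subalgebra.one_mem _)

end aux

/-- **DICH-b**: the component of `(u - 1) ^ (p ^ j - 1 + p ^ j * e) w` in `U`. -/
theorem dich_comp {K V H : Type*} [Field K] [AddCommGroup V] [Module K V]
    [Group H] (p : ℕ) [Fact p.Prime] [CharP K p] (ρ : Representation K H V)
    (𝓤 : Set (Submodule K V))
    (hperm : ∀ h : H, ∀ U ∈ 𝓤, U.map (ρ h) ∈ 𝓤) (u : H)
    (U : Submodule K V) (hU : U ∈ 𝓤) (j : ℕ) (hj : U.map (ρ (u ^ (p ^ j))) = U)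
    (hj2 : ∀ m : ℕ, 0 < m → m < p ^ j → U.map (ρ (u ^ m)) ≠ U) (w : V) (hw : w ∈ U) (e : ℕ) :
    ((ρ u - 1) ^ ((p ^ j - 1) + p ^ j * e)) w - ((ρ (u ^ (p ^ j)) - 1) ^ e) w ∈
      sSup (𝓤 \ {U}) := by
  have hp : p.Prime := Fact.out
  have hy := dichb_inv ρ (u ^ (p ^ j)) U hj e w hw
  rw [dichb_end p ρ u j e, Module.End.mul_apply]
  set y := ((ρ (u ^ (p ^ j)) - 1) ^ e) w with hy'
  obtain ⟨r, hr⟩ : ∃ r, p ^ j = r + 1 := ⟨p ^ j - 1, (Nat.sub_add_cancel (Nat.pow_pos hp.pos)).symm⟩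
  rw [LinearMap.sum_apply, hr, Finset.sum_range_succ', pow_zero, map_one, Module.End.one_apply,
    add_sub_cancel_right]
  apply Submodule.sum_mem
  intro i hi
  have hi' := Finset.mem_range.1 hi
  exact dichb_mem ρ 𝓤 hperm U hU _ (hj2 (i + 1) (Nat.succ_pos i) (by omega)) y hy

/-- **DICH-b2**: the component of `(u - 1) ^ m w` in `U` if the orbit is longer than `m`. -/
theorem dich_comp' {K V H : Type*} [Field K] [AddCommGroup V] [Module K V]
    [Group H] (ρ : Representation K H V)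
    (𝓤 : Set (Submodule K V))
    (hperm : ∀ h : H, ∀ U ∈ 𝓤, U.map (ρ h) ∈ 𝓤) (u : H)
    (U : Submodule K V) (hU : U ∈ 𝓤) (m : ℕ)
    (hj2 : ∀ i : ℕ, 0 < i → i ≤ m → U.map (ρ (u ^ i)) ≠ U) (w : V) (hw : w ∈ U) :
    ((ρ u - 1) ^ m) w - ((-1 : K) ^ m) • w ∈ sSup (𝓤 \ {U}) := by
  have hcomm : Commute (ρ u) (-1 : Module.End K V) := (Commute.one_right _).neg_right
  have h1 : (ρ u - 1) ^ m = ∑ i ∈ Finset.range (m + 1),
      (((-1 : K) ^ (m - i) * (m.choose i : K)) • ρ (u ^ i) : Module.End K V) := by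
    rw [sub_eq_add_neg, hcomm.add_pow]
    apply Finset.sum_congr rfl
    intro i _
    rw [map_pow]
    ext v
    have e1 : (((-1 : Module.End K V)) ^ (m - i)) = ((-1 : K) ^ (m - i)) • (1 : Module.End K V) := by
      rcases Nat.even_or_odd (m - i) with hh | hh
      · rw [hh.neg_one_pow, hh.neg_one_pow, one_smul]
      · rw [hh.neg_one_pow, hh.neg_one_pow, neg_smul, one_smul]
    rw [e1]
    simp only [Module.End.mul_apply, LinearMap.smul_apply, Module.End.natCast_apply,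
      Module.End.one_apply]
    rw [map_smul, map_nsmul, mul_smul, Nat.cast_smul_eq_nsmul]
  rw [h1, LinearMap.sum_apply, Finset.sum_range_succ', pow_zero, map_one]
  simp only [LinearMap.smul_apply, Module.End.one_apply, Nat.choose_zero_right, Nat.cast_one,
    mul_one, Nat.sub_zero]
  rw [add_sub_cancel_right]
  apply Submodule.sum_mem
  intro i hi
  have hi' := Finset.mem_range.1 hi
  apply Submodule.smul_mem
  exact dichb_mem ρ 𝓤 hperm U hU _ (hj2 (i + 1) (Nat.succ_pos i) (by omega)) w hw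

/-- **DICH-c**: the length of the orbit of a block under a `p`-element. -/
theorem orbit_len {K V H : Type*} [Field K] [AddCommGroup V] [Module K V]
    [Group H] (p : ℕ) [Fact p.Prime] (ρ : Representation K H V) (u : H) (k : ℕ)
    (hu : u ^ (p ^ k) = 1) (U : Submodule K V) :
    ∃ j : ℕ, j ≤ k ∧ U.map (ρ (u ^ (p ^ j))) = U ∧
      ∀ m : ℕ, 0 < m → m < p ^ j → U.map (ρ (u ^ m)) ≠ U := by
  classical
  have hp : p.Prime := Fact.out
  have hex : ∃ d : ℕ, 0 < d ∧ U.map (ρ (u ^ d)) = U :=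
    ⟨p ^ k, Nat.pow_pos hp.pos, by rw [hu, dichb_map_one]⟩
  obtain ⟨hd0, hd⟩ := Nat.find_spec hex
  have hmin : ∀ m : ℕ, 0 < m → m < Nat.find hex → U.map (ρ (u ^ m)) ≠ U := by
    intro m hm hlt he
    exact Nat.find_min hex hlt ⟨hm, he⟩
  set d := Nat.find hex with hdd
  have hdvd : d ∣ p ^ k := by
    rw [Nat.dvd_iff_mod_eq_zero]
    by_contra hr
    have hr0 : 0 < p ^ k % d := Nat.pos_of_ne_zero hr
    refine hmin _ hr0 (Nat.mod_lt _ hd0) ?_
    have h1 : U.map (ρ (u ^ (p ^ k))) = U := by rw [hu, dichb_map_one]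
    rw [← Nat.mod_add_div (p ^ k) d, pow_add, dichb_map_mul, pow_mul,
      dichb_map_pow ρ (u ^ d) U hd] at h1
    exact h1
  obtain ⟨j, hj, hdj⟩ := (Nat.dvd_prime_pow hp).1 hdvd
  refine ⟨j, hj, ?_, ?_⟩
  · rw [← hdj]; exact hd
  · rw [← hdj]; exact hmin

/-- **DICH-d**: the dichotomy for `(u - 1) ^ (p ^ k - 1)`. -/
theorem dich_main {K V H : Type*} [Field K] [AddCommGroup V] [Module K V]
    [Group H] [Finite H] (p : ℕ) [Fact p.Prime] [CharP K p] (hH : IsPGroup p H)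
    (ρ : Representation K H V) (𝓤 : Set (Submodule K V)) (hne : ∀ U ∈ 𝓤, U ≠ ⊥)
    (hind : sSupIndep 𝓤)
    (hperm : ∀ h : H, ∀ U ∈ 𝓤, U.map (ρ h) ∈ 𝓤) (u : H) (hu : u ∈ commutator H) (k : ℕ)
    (huk : u ^ (p ^ k) = 1)
    (hN : ∀ h : H, (ρ u - 1) ^ (p ^ k - 1) * ρ h = (ρ u - 1) ^ (p ^ k - 1))
    (U : Submodule K V) (hU : U ∈ 𝓤) :
    (∀ h : H, U.map (ρ h) = U) ∨
      ∃ k' : ℕ, 1 ≤ k' ∧ k' ≤ k ∧ U.map (ρ (u ^ (p ^ (k - k')))) = U ∧
        ∀ v ∈ U, ((ρ (u ^ (p ^ (k - k'))) - 1) ^ (p ^ k' - 1)) v = 0 := by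
  have hp : p.Prime := Fact.out
  obtain ⟨j, hjk, hj, hj2⟩ := orbit_len p ρ u k huk U
  have hdisj : Disjoint U (sSup (𝓤 \ {U})) := hind hU
  -- the key step
  have key : ∀ e : ℕ, (p ^ j - 1) + p ^ j * e = p ^ k - 1 → ∀ w ∈ U,
      ((ρ (u ^ (p ^ j)) - 1) ^ e) w ≠ 0 → ∀ h : H, U.map (ρ h) = U := by
    intro e he w hw hne0 h
    have h1 := dich_comp p ρ 𝓤 hperm u U hU j hj hj2 w hw e
    rw [he] at h1
    have hy := dichb_inv ρ (u ^ (p ^ j)) U hj e w hw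
    refine dich p hH ρ 𝓤 hind hperm u hu ((ρ u - 1) ^ (p ^ k - 1)) (dichb_adjoin ρ u _) hN U hU w hw
      ?_ h
    intro hcon
    have h2 := Submodule.sub_mem _ hcon h1
    rw [sub_sub_cancel] at h2
    exact hne0 (Submodule.disjoint_def.1 hdisj _ hy h2)
  rcases Nat.eq_zero_or_pos (k - j) with hkj | hkj
  · left
    have hjk' : j = k := by omega
    obtain ⟨w, hw, hw0⟩ := Submodule.exists_mem_ne_zero_of_ne_bot (hne U hU)
    refine key 0 (by rw [hjk']; simp) w hw ?_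
    simpa using hw0
  · by_cases hall : ∀ v ∈ U, ((ρ (u ^ (p ^ j)) - 1) ^ (p ^ (k - j) - 1)) v = 0
    · right
      refine ⟨k - j, hkj, Nat.sub_le _ _, ?_, ?_⟩
      · rw [Nat.sub_sub_self hjk]; exact hj
      · rw [Nat.sub_sub_self hjk]; exact hall
    · left
      have hex : ∃ w ∈ U, ((ρ (u ^ (p ^ j)) - 1) ^ (p ^ (k - j) - 1)) w ≠ 0 := by
        by_contra hcon
        apply hall
        intro v hv
        by_contra h0
        exact hcon ⟨v, hv, h0⟩
      obtain ⟨w, hw, hw0⟩ := hex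
      refine key (p ^ (k - j) - 1) ?_ w hw hw0
      have h1 : p ^ j * p ^ (k - j) = p ^ k := by rw [← pow_add, Nat.add_sub_cancel' hjk]
      have h2 : 0 < p ^ j := Nat.pow_pos hp.pos
      have h3 : 0 < p ^ (k - j) := Nat.pow_pos hp.pos
      rw [Nat.mul_sub, h1, mul_one]
      have h4 : p ^ j ≤ p ^ k := by
        rw [← h1]; exact Nat.le_mul_of_pos_right _ h3
      omega

/-- **DICH-e**: the dichotomy for `(u - 1) ^ (2 p ^ (k-1) - 1)`. -/
theorem dich_quad {K V H : Type*} [Field K] [AddCommGroup V] [Module K V]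
    [Group H] [Finite H] (p : ℕ) [Fact p.Prime] [CharP K p] (hH : IsPGroup p H)
    (ρ : Representation K H V) (𝓤 : Set (Submodule K V))
    (hind : sSupIndep 𝓤)
    (hperm : ∀ h : H, ∀ U ∈ 𝓤, U.map (ρ h) ∈ 𝓤) (u : H) (hu : u ∈ commutator H) (k : ℕ)
    (hk : 1 ≤ k)
    (hN : ∀ h : H, (ρ u - 1) ^ (2 * p ^ (k - 1) - 1) * ρ h = (ρ u - 1) ^ (2 * p ^ (k - 1) - 1))
    (U : Submodule K V) (hU : U ∈ 𝓤) (hj : U.map (ρ (u ^ (p ^ (k - 1)))) = U)
    (hj2 : ∀ m : ℕ, 0 < m → m < p ^ (k - 1) → U.map (ρ (u ^ m)) ≠ U) (w : V) (hw : w ∈ U)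
    (hw2 : (ρ (u ^ (p ^ (k - 1))) - 1) w ≠ 0) (h : H) : U.map (ρ h) = U := by
  have hp : p.Prime := Fact.out
  have hdisj : Disjoint U (sSup (𝓤 \ {U})) := hind hU
  have h1 := dich_comp p ρ 𝓤 hperm u U hU (k - 1) hj hj2 w hw 1
  have he : (p ^ (k - 1) - 1) + p ^ (k - 1) * 1 = 2 * p ^ (k - 1) - 1 := by
    have : 0 < p ^ (k - 1) := Nat.pow_pos hp.pos
    omega
  rw [he, pow_one] at h1
  have hy := dichb_inv ρ (u ^ (p ^ (k - 1))) U hj 1 w hw
  rw [pow_one] at hy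
  refine dich p hH ρ 𝓤 hind hperm u hu ((ρ u - 1) ^ (2 * p ^ (k - 1) - 1)) (dichb_adjoin ρ u _) hN
    U hU w hw ?_ h
  intro hcon
  have h2 := Submodule.sub_mem _ hcon h1
  rw [sub_sub_cancel] at h2
  exact hw2 (Submodule.disjoint_def.1 hdisj _ hy h2)

end H60SH
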