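import Mathlib
import Pool.Agent.H60.SH.Defs

namespace H60SH

open Module
open scoped commutatorElement

/-- The property of `z` used in `bcomm`. -/
def PZ {K V F : Type*} [Field K] [AddCommGroup V] [Module K V] [Group F] (p : ℕ)
    (ρF : Representation K F V) (z : F) : Prop :=
  ∃ (x : F) (k : ℕ), 1 ≤ k ∧ z = x ^ (p ^ (k - 1)) ∧ x ^ (p ^ k) = 1 ∧
    ((ρF x - 1) ^ (p ^ k - 1) = 0 ∨
      ((∃ a b : F, x = ⁅a, b⁆) ∧ ∀ a b : F,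
        (ρF ⁅a, b⁆ - 1) ^ (p ^ k - 1) * ρF a = (ρF ⁅a, b⁆ - 1) ^ (p ^ k - 1) ∧
        (ρF ⁅a, b⁆ - 1) ^ (p ^ k - 1) * ρF b = (ρF ⁅a, b⁆ - 1) ^ (p ^ k - 1)))

end H60SH
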