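import Mathlib

namespace H60SH

open Module

/-- The weight space of `l`. -/
def wt {K V A : Type*} [Field K] [AddCommGroup V] [Module K V] [Group A]
    (ρ : Representation K A V) (B : Subgroup A) (l : A → K) : Submodule K V where
  carrier := {v | ∀ g ∈ B, ρ g v = l g • v}
  add_mem' := by
    intro a b ha hb g hg
    rw [map_add, ha g hg, hb g hg, smul_add]
  zero_mem' := by
    intro g _
    rw [map_zero, smul_zero]
  smul_mem' := by
    intro c a ha g hg
    rw [map_smul, ha g hg, smul_comm]

/-- The set of nonzero weight spaces. -/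
def wts {K V A : Type*} [Field K] [AddCommGroup V] [Module K V] [Group A]
    (ρ : Representation K A V) (B : Subgroup A) : Set (Submodule K V) :=
  {U | U ≠ ⊥ ∧ ∃ l : A → K, U = wt ρ B l}

theorem wts_killer {K V A : Type*} [Field K] [AddCommGroup V] [Module K V] [Group A]
    (ρ : Representation K A V) (B : Subgroup A) (U : Submodule K V) (hU : U ∈ wts ρ B)
    (s : Finset (Submodule K V)) (hs : ↑s ⊆ wts ρ B \ {U}) :
    ∃ T : Module.End K V, (∀ W ∈ wts ρ B, ∃ c : K, ∀ w ∈ W, T w = c • w) ∧
      (∀ W ∈ s, ∀ w ∈ W, T w = 0) ∧ ∃ c : K, c ≠ 0 ∧ ∀ w ∈ U, T w = c • w := by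
  classical
  induction s using Finset.induction_on with
  | empty =>
    refine ⟨1, ?_, ?_, 1, one_ne_zero, ?_⟩
    · intro W _
      exact ⟨1, fun w _ => by rw [one_smul]; rfl⟩
    · intro W hW
      simp at hW
    · intro w _
      rw [one_smul]; rfl
  | insert W0 s hW0 ih =>
    obtain ⟨T, hT1, hT2, c, hc, hT3⟩ := ih (fun x hx => hs (by
      rw [Finset.coe_insert]; exact Set.mem_insert_of_mem _ hx))
    have hW0' : W0 ∈ wts ρ B \ {U} := hs (by rw [Finset.coe_insert]; exact Set.mem_insert _ _)
    obtain ⟨⟨hW0ne, l0, hl0⟩, hW0U⟩ := hW0'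
    obtain ⟨hUne, l, hl⟩ := hU
    have hex : ∃ g ∈ B, l g ≠ l0 g := by
      by_contra hcon
      push Not at hcon
      apply hW0U
      rw [Set.mem_singleton_iff, hl0, hl]
      apply le_antisymm
      · intro v hv g hg
        rw [hv g hg, hcon g hg]
      · intro v hv g hg
        rw [hv g hg, hcon g hg]
    obtain ⟨g, hg, hne⟩ := hex
    refine ⟨(ρ g - l0 g • (1 : Module.End K V)) * T, ?_, ?_, (l g - l0 g) * c,
      mul_ne_zero (sub_ne_zero.mpr hne) hc, ?_⟩
    · rintro W hW
      obtain ⟨cW, hcW⟩ := hT1 W hW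
      obtain ⟨-, lW, hlW⟩ := hW
      refine ⟨(lW g - l0 g) * cW, ?_⟩
      intro w hw
      have hgw : ρ g w = lW g • w := by
        rw [hlW] at hw; exact hw g hg
      rw [Module.End.mul_apply, hcW w hw, map_smul, LinearMap.sub_apply, LinearMap.smul_apply, hgw,
        Module.End.one_apply, ← sub_smul, smul_smul, mul_comm]
    · intro W hW w hw
      rw [Finset.mem_insert] at hW
      rcases hW with rfl | hW
      · have hgw : ρ g w = l0 g • w := by
          rw [hl0] at hw; exact hw g hg
        obtain ⟨cW, hcW⟩ := hT1 W ⟨hW0ne, l0, hl0⟩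
        rw [Module.End.mul_apply, hcW w hw, map_smul, LinearMap.sub_apply, LinearMap.smul_apply,
          hgw, Module.End.one_apply, sub_self, smul_zero]
      · rw [Module.End.mul_apply, hT2 W hW w hw, map_zero]
    · intro w hw
      have hgw : ρ g w = l g • w := by
        rw [hl] at hw; exact hw g hg
      rw [Module.End.mul_apply, hT3 w hw, map_smul, LinearMap.sub_apply, LinearMap.smul_apply, hgw,
        Module.End.one_apply, ← sub_smul, smul_smul, mul_comm]

/-- **WTS1**: weight spaces are independent. -/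
theorem wts_indep {K V A : Type*} [Field K] [AddCommGroup V] [Module K V] [Group A]
    (ρ : Representation K A V) (B : Subgroup A) : sSupIndep (wts ρ B) := by
  intro U hU
  rw [Submodule.disjoint_def]
  intro v hv hv'
  obtain ⟨s, hs, hvs⟩ := Submodule.mem_sSup_iff_exists_finset.mp hv'
  obtain ⟨T, -, hT2, c, hc, hT3⟩ := wts_killer ρ B U hU s hs
  have h1 : (⨆ i ∈ s, i) ≤ LinearMap.ker T := by
    apply iSup₂_le
    intro W hW w hw
    rw [LinearMap.mem_ker]
    exact hT2 W hW w hw
  have h2 : T v = 0 := by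
    have := h1 hvs
    rwa [LinearMap.mem_ker] at this
  rw [hT3 v hv] at h2
  exact (smul_eq_zero.mp h2).resolve_left hc

/-- **WTS2**: weight spaces of a commuting group of order prime to the characteristic span. -/
theorem wts_span {K V A : Type*} [Field K] [IsAlgClosed K] [AddCommGroup V] [Module K V]
    [FiniteDimensional K V] [Group A] [Finite A] (ρ : Representation K A V) (B : Subgroup A)
    (hcomm : ∀ g ∈ B, ∀ h ∈ B, ρ g * ρ h = ρ h * ρ g) (hA : (Nat.card A : K) ≠ 0) :
    sSup (wts ρ B) = ⊤ := by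
  classical
  have hss : ∀ g : B, Module.End.IsFinitelySemisimple (ρ g) := by
    intro g
    apply Module.End.isFinitelySemisimple_iff_isSemisimple.mpr
    have hsep := (Polynomial.X_pow_sub_one_separable_iff (F := K) (n := Nat.card A)).mpr hA
    apply Module.End.isSemisimple_of_squarefree_aeval_eq_zero hsep.squarefree
    rw [map_sub, map_pow, Polynomial.aeval_X, map_one, ← map_pow, pow_card_eq_one', map_one,
      sub_self]
  have key := Module.End.iSup_iInf_maxGenEigenspace_eq_top_of_iSup_maxGenEigenspace_eq_top_of_commute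
    (fun g : B => ρ g) (by
      intro g h _
      exact hcomm g g.2 h h.2) (fun g => Module.End.iSup_maxGenEigenspace_eq_top _)
  rw [eq_top_iff, ← key]
  apply iSup_le
  intro χ
  by_cases hbot : (⨅ i : B, Module.End.maxGenEigenspace (ρ (i : A)) (χ i)) = ⊥
  · rw [hbot]; exact bot_le
  · apply le_sSup
    refine ⟨hbot, fun g => if h : g ∈ B then χ ⟨g, h⟩ else 0, ?_⟩
    ext v
    rw [Submodule.mem_iInf]
    constructor
    · intro h g hg
      have := h ⟨g, hg⟩
      rw [(hss ⟨g, hg⟩).maxGenEigenspace_eq_eigenspace, Module.End.mem_eigenspace_iff] at this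
      rw [this]
      beta_reduce
      rw [dif_pos hg]
    · intro h g
      rw [(hss g).maxGenEigenspace_eq_eigenspace, Module.End.mem_eigenspace_iff]
      have := h g g.2
      beta_reduce at this
      rw [dif_pos g.2] at this
      exact this

/-- **WTS3**: weight spaces are permuted by operators normalising the action. -/
theorem wts_perm {K V A : Type*} [Field K] [AddCommGroup V] [Module K V] [Group A]
    (ρ : Representation K A V) (B : Subgroup A) (T : Module.End K V) (hT : Function.Injective T)
    (hT' : Function.Surjective T)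
    (φ : A → A) (hφ : ∀ g ∈ B, φ g ∈ B) (hφ' : ∀ g ∈ B, ∃ g' ∈ B, φ g' = g)
    (h : ∀ g ∈ B, T * ρ g = ρ (φ g) * T) (U : Submodule K V) (hU : U ∈ wts ρ B) :
    U.map T ∈ wts ρ B := by
  classical
  obtain ⟨hUne, l, hl⟩ := hU
  choose! ψ hψB hψ using hφ'
  refine ⟨?_, fun g => l (ψ g), ?_⟩
  · intro hbot
    apply hUne
    rw [Submodule.eq_bot_iff]
    intro v hv
    have : T v ∈ U.map T := Submodule.mem_map_of_mem hv
    rw [hbot, Submodule.mem_bot] at this
    exact hT (by rw [this, map_zero])
  · have hval : ∀ g ∈ B, ∀ u, T (ρ g u) = ρ (φ g) (T u) := fun g hg u =>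
      congrArg (fun f : Module.End K V => f u) (h g hg)
    obtain ⟨u0, hu0, hu0ne⟩ := (Submodule.ne_bot_iff U).mp hUne
    have hlψ : ∀ g ∈ B, l (ψ (φ g)) = l g := by
      intro g hg
      have h1 : ρ (ψ (φ g)) u0 = ρ g u0 := by
        apply hT
        rw [hval _ (hψB _ (hφ g hg)), hval g hg, hψ _ (hφ g hg)]
      rw [hl] at hu0
      rw [hu0 _ (hψB _ (hφ g hg)), hu0 g hg] at h1
      exact smul_left_injective K hu0ne h1
    ext v
    constructor
    · rintro ⟨u, hu, rfl⟩
      intro g hg
      rw [hl] at hu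
      have h1 := hval (ψ g) (hψB g hg) u
      rw [hψ g hg, hu _ (hψB g hg), map_smul] at h1
      exact h1.symm
    · intro hv
      obtain ⟨u, rfl⟩ := hT' v
      refine ⟨u, ?_, rfl⟩
      rw [hl]
      intro g hg
      apply hT
      have h2 := hv (φ g) (hφ g hg)
      change ρ (φ g) (T u) = l (ψ (φ g)) • T u at h2
      rw [hval g hg, h2, map_smul, hlψ g hg]

end H60SH
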