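import Mathlib
import Pool.Agent.H60.SH.Defs
import Pool.Agent.H60.SH.HEIS
import Pool.Agent.H60.SH.PZ
import Pool.Agent.H60.SH.WTS
import Pool.Agent.H60.SH.DICHB

namespace H60SH

open Module
open scoped commutatorElement

section aux

variable {K V F A W : Type*} [Field K] [AddCommGroup V] [Module K V] [Group F] [Group A]
  [AddCommGroup W]
  {π : A → W} {ρA : Representation K A V} {β : W → W → K} {ρF : Representation K F V}

theorem iso_rep_inv (ρF : Representation K F V) (f : F) (v : V) : ρF f⁻¹ (ρF f v) = v := by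
  rw [← Module.End.mul_apply, ← map_mul, inv_mul_cancel, map_one]
  rfl

theorem iso_rep_inv' (ρF : Representation K F V) (f : F) (v : V) : ρF f (ρF f⁻¹ v) = v := by
  rw [← Module.End.mul_apply, ← map_mul, mul_inv_cancel, map_one]
  rfl

theorem iso_inj (ρF : Representation K F V) (f : F) : Function.Injective (ρF f) := by
  intro v w h
  rw [← iso_rep_inv ρF f v, h, iso_rep_inv]

theorem iso_surj (ρF : Representation K F V) (f : F) : Function.Surjective (ρF f) :=
  fun v => ⟨ρF f⁻¹ v, iso_rep_inv' ρF f v⟩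

theorem iso_map_mul (ρF : Representation K F V) (f g : F) (U : Submodule K V) :
    U.map (ρF (f * g)) = (U.map (ρF g)).map (ρF f) := by
  rw [map_mul, ← Submodule.map_comp]
  rfl

theorem iso_map_one (ρF : Representation K F V) (U : Submodule K V) :
    U.map (ρF 1) = U := by
  rw [map_one]
  exact Submodule.map_id U

/-- the stabiliser of a subspace -/
def isoStab (ρF : Representation K F V) (U : Submodule K V) : Subgroup F where
  carrier := {f | U.map (ρF f) = U}
  mul_mem' := by
    intro f g hf hg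
    change U.map (ρF (f * g)) = U
    rw [iso_map_mul, show U.map (ρF g) = U from hg, show U.map (ρF f) = U from hf]
  one_mem' := iso_map_one ρF U
  inv_mem' := by
    intro f hf
    change U.map (ρF f⁻¹) = U
    have h : U.map (ρF f) = U := hf
    have h2 : (U.map (ρF f)).map (ρF f⁻¹) = U := by
      rw [← iso_map_mul, inv_mul_cancel, iso_map_one]
    rwa [h] at h2

theorem mem_isoStab (ρF : Representation K F V) (U : Submodule K V) (f : F) :
    f ∈ isoStab ρF U ↔ U.map (ρF f) = U := Iff.rfl

/-- the preimage of `X` -/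
def isoPre (h : Heis π ρA β) (X : AddSubgroup W) : Subgroup A where
  carrier := {g | π g ∈ X}
  mul_mem' := by
    intro a b ha hb
    change π (a * b) ∈ X
    rw [h.add]
    exact X.add_mem ha hb
  one_mem' := by
    change π 1 ∈ X
    rw [h.map_one]
    exact X.zero_mem
  inv_mem' := by
    intro a ha
    change π a⁻¹ ∈ X
    rw [h.map_inv]
    exact X.neg_mem ha

theorem mem_isoPre (h : Heis π ρA β) (X : AddSubgroup W) (g : A) :
    g ∈ isoPre h X ↔ π g ∈ X := Iff.rfl

/-- powers below `p ^ k` stabilising `U` force `x ^ (p ^ (k-1))` to stabilise `U` -/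
theorem iso_gcd (S : Subgroup F) (x : F) (p k : ℕ) (hp : p.Prime) (hk : 1 ≤ k)
    (hx : x ^ (p ^ k) = 1) (i : ℕ) (hi0 : 0 < i) (hi : i < p ^ k) (h : x ^ i ∈ S) :
    x ^ (p ^ (k - 1)) ∈ S := by
  have h1 : x ^ (Nat.gcd i (p ^ k)) ∈ S := by
    have e : x ^ ((Nat.gcd i (p ^ k) : ℕ) : ℤ) =
        (x ^ i) ^ (Nat.gcdA i (p ^ k)) * (x ^ (p ^ k)) ^ (Nat.gcdB i (p ^ k)) := by
      rw [Nat.gcd_eq_gcd_ab, zpow_add, zpow_mul, zpow_mul, zpow_natCast, zpow_natCast]
    rw [hx, one_zpow, mul_one, zpow_natCast] at e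
    rw [e]
    exact S.zpow_mem h _
  obtain ⟨s, hs, hgs⟩ := (Nat.dvd_prime_pow hp).1 (Nat.gcd_dvd_right i (p ^ k))
  have hle : Nat.gcd i (p ^ k) ≤ i := Nat.gcd_le_left _ hi0
  have hsk : s < k := by
    by_contra hcon
    have : s = k := by omega
    rw [this] at hgs
    omega
  rw [hgs] at h1
  have e2 : p ^ (k - 1) = p ^ s * p ^ (k - 1 - s) := by
    rw [← pow_add]
    congr 1
    omega
  rw [e2, pow_mul]
  exact S.pow_mem h1 _

end aux

variable {K V F A W : Type*} [Field K] [IsAlgClosed K] [AddCommGroup V] [Module K V]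
  [FiniteDimensional K V] [Nontrivial V] [Group F] [Finite F] [Group A] [Finite A]
  [MulDistribMulAction F A] [AddCommGroup W] [Finite W] [DistribMulAction F W]
  {p q : ℕ} [Fact p.Prime] [CharP K p]
  {π : A → W} {ρA : Representation K A V} {β : W → W → K} {ρF : Representation K F V}

omit [IsAlgClosed K] [FiniteDimensional K V] [Nontrivial V] [Finite F] [Finite A] [Finite W]
  [Fact p.Prime] [CharP K p] in
/-- if `z` stabilises the weight space of a vector `v` then the weight is `z`-invariant -/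
theorem iso_weight (S : Sys p q π ρA β ρF) (X : AddSubgroup W)
    (hXF : ∀ (f : F), ∀ w ∈ X, f • w ∈ X) (z : F) (U : Submodule K V)
    (hU : U ∈ wts ρA (isoPre S.heis X)) (hzU : U.map (ρF z) = U) (v : V) (hv : v ∈ U)
    (hv0 : v ≠ 0) (l : A → K) (hl : ∀ g ∈ isoPre S.heis X, ρA g v = l g • v) (g : A)
    (hg : g ∈ isoPre S.heis X) : l (z • g) = l g := by
  obtain ⟨_, l', rfl⟩ := hU
  have hzg : z • g ∈ isoPre S.heis X := by
    rw [mem_isoPre, S.hπ]
    exact hXF z _ hg
  have hl' : ∀ g ∈ isoPre S.heis X, l' g = l g := by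
    intro g hg
    have h1 : ρA g v = l' g • v := hv g hg
    rw [hl g hg] at h1
    exact (smul_left_injective K hv0 h1).symm
  have hzv : ρF z v ∈ wt ρA (isoPre S.heis X) l' := by
    rw [← hzU]
    exact Submodule.mem_map_of_mem hv
  have h1 : ρA (z • g) (ρF z v) = l' (z • g) • ρF z v := hzv _ hzg
  have h2 : ρA (z • g) (ρF z v) = ρF z (ρA g v) := by
    have := S.hρ z g
    have h3 := congrArg (fun T : Module.End K V => T v) this
    exact h3.symm
  rw [h2, hl g hg, map_smul] at h1
  have hne : ρF z v ≠ 0 := by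
    intro h0
    apply hv0
    apply iso_inj ρF z
    rw [h0, map_zero]
  have h4 := smul_left_injective K hne h1
  rw [← hl' _ hzg]
  exact h4.symm

/-- **ISO**: an element with property `PZ` acts trivially on isotropic invariant subgroups. -/
theorem iso_case (S : Sys p q π ρA β ρF) (hA : (Nat.card A : K) ≠ 0)
    (X : AddSubgroup W) (hXF : ∀ (f : F), ∀ w ∈ X, f • w ∈ X)
    (hiso : ∀ w ∈ X, ∀ w' ∈ X, β w w' = 1) (z : F) (hz : PZ p ρF z) : ∀ w ∈ X, z • w = w := by
  by_contra hcon
  push Not at hcon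
  obtain ⟨w0, hw0, hzw0⟩ := hcon
  obtain ⟨B, hB⟩ : ∃ B, B = isoPre S.heis X := ⟨_, rfl⟩
  have mB : ∀ g, g ∈ B ↔ π g ∈ X := fun g => by rw [hB]; exact mem_isoPre _ _ _
  have hind := wts_indep ρA B
  have hspan := wts_span ρA B (by
    intro g hg h hh
    rw [S.heis.comm g h, hiso _ ((mB g).1 hg) _ ((mB h).1 hh), one_smul]) hA
  have hperm : ∀ f : F, ∀ U ∈ wts ρA B, U.map (ρF f) ∈ wts ρA B := by
    intro f U hU
    refine wts_perm ρA B (ρF f) (iso_inj ρF f) (iso_surj ρF f) (fun g => f • g) ?_ ?_ ?_ U hU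
    · intro g hg
      rw [mB, S.hπ]
      exact hXF f _ ((mB g).1 hg)
    · intro g hg
      refine ⟨f⁻¹ • g, ?_, smul_inv_smul f g⟩
      rw [mB, S.hπ]
      exact hXF _ _ ((mB g).1 hg)
    · intro g _
      exact S.hρ f g
  -- some weight space is moved by `z`
  have hmove : ∃ U ∈ wts ρA B, U.map (ρF z) ≠ U := by
    by_contra hall
    push Not at hall
    have hne : (wts ρA B).Nonempty := by
      by_contra hempty
      rw [Set.not_nonempty_iff_eq_empty] at hempty
      rw [hempty, sSup_empty] at hspan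
      exact bot_ne_top hspan
    obtain ⟨U, hU⟩ := hne
    obtain ⟨hUne, l, hUl⟩ := id hU
    obtain ⟨v, hv, hv0⟩ := (Submodule.ne_bot_iff U).1 hUne
    have hvl : ∀ g ∈ B, ρA g v = l g • v := by
      rw [hUl] at hv
      exact hv
    have hl1 : ∀ g ∈ B, l (z • g) = l g := by
      intro g hg
      subst hB
      exact iso_weight S X hXF z U hU (hall U hU) v hv hv0 l hvl g hg
    have hl0 : ∀ g ∈ B, l g ≠ 0 := by
      intro g hg h0
      have h1 := hvl g hg
      rw [h0, zero_smul] at h1
      apply hv0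
      apply iso_inj ρA g
      rw [h1, map_zero]
    -- all vectors are fixed
    have hfix : ∀ g ∈ B, z • π g = π g := by
      intro g hg
      by_contra hne
      have hd : z • π g - π g ≠ 0 := sub_ne_zero.2 hne
      obtain ⟨w', hw'⟩ := S.heis.nd _ hd
      obtain ⟨a, rfl⟩ := S.heis.surj w'
      apply hw'
      -- the weight space of `ρA a v`
      have hUa : U.map (ρA a) ∈ wts ρA B := by
        refine wts_perm ρA B (ρA a) (iso_inj ρA a) (iso_surj ρA a) (fun g => a * g * a⁻¹)
          ?_ ?_ ?_ U hU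
        · intro g hg
          rw [mB, S.heis.add, S.heis.add, S.heis.map_inv]
          have : π a + π g + -π a = π g := by abel
          rw [this]
          exact (mB g).1 hg
        · intro g hg
          refine ⟨a⁻¹ * g * a, ?_, by group⟩
          rw [mB, S.heis.add, S.heis.add, S.heis.map_inv]
          have : -π a + π g + π a = π g := by abel
          rw [this]
          exact (mB g).1 hg
        · intro g _
          rw [← map_mul, ← map_mul]
          congr 1
          group
      have hva : ρA a v ∈ U.map (ρA a) := Submodule.mem_map_of_mem hv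
      have hva0 : ρA a v ≠ 0 := by
        intro h0
        apply hv0
        apply iso_inj ρA a
        rw [h0, map_zero]
      have hvla : ∀ g ∈ B, ρA g (ρA a v) = (β (π g) (π a) * l g) • ρA a v := by
        intro g hg
        rw [S.heis.comm_apply, hvl g hg, map_smul, smul_smul]
      have hl2 : β (π (z • g)) (π a) * l (z • g) = β (π g) (π a) * l g := by
        subst hB
        exact iso_weight S X hXF z (U.map (ρA a)) hUa (hall _ hUa) (ρA a v) hva hva0
          (fun g => β (π g) (π a) * l g) hvla g hg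
      rw [hl1 g hg, S.hπ] at hl2
      have h3 := mul_right_cancel₀ (hl0 g hg) hl2
      rw [sub_eq_add_neg, S.heis.beta_add_left, S.heis.beta_neg_left, h3]
      exact mul_inv_cancel₀ (S.heis.beta_ne _ _)
    obtain ⟨g0, rfl⟩ := S.heis.surj w0
    exact hzw0 (hfix g0 ((mB g0).2 hw0))
  obtain ⟨U, hU, hzU⟩ := hmove
  obtain ⟨x, k, hk, rfl, hxk, halt⟩ := hz
  have hpp : p.Prime := Fact.out
  have hpk : 0 < p ^ k := pow_pos hpp.pos k
  obtain ⟨w, hw, hwne⟩ := (Submodule.ne_bot_iff U).1 hU.1
  have hnotin : ∀ c : K, c ≠ 0 → c • w ∉ sSup (wts ρA B \ {U}) := by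
    intro c hc hmem
    have h1 : Disjoint U (sSup (wts ρA B \ {U})) := hind hU
    rw [Submodule.disjoint_def] at h1
    have h2 := h1 (c • w) (U.smul_mem c hw) hmem
    rcases smul_eq_zero.1 h2 with h | h
    · exact hc h
    · exact hwne h
  have hcomp := dich_comp' ρF (wts ρA B) hperm x U hU (p ^ k - 1) (by
    intro i hi0 hi hxi
    apply hzU
    have := iso_gcd (isoStab ρF U) x p k hpp hk hxk i hi0 (by omega)
      ((mem_isoStab _ _ _).2 hxi)
    exact (mem_isoStab _ _ _).1 this) w hw
  have hXw : ((ρF x - 1) ^ (p ^ k - 1)) w ∉ sSup (wts ρA B \ {U}) := by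
    intro hmem
    have h1 := Submodule.sub_mem _ hmem hcomp
    rw [sub_sub_cancel] at h1
    exact hnotin _ (pow_ne_zero _ (neg_ne_zero.2 one_ne_zero)) h1
  rcases halt with h0 | ⟨⟨a, b, hab⟩, hNab⟩
  · apply hXw
    rw [h0, LinearMap.zero_apply]
    exact Submodule.zero_mem _
  · -- second alternative
    obtain ⟨H, hH⟩ : ∃ H : Subgroup F, H = Subgroup.closure {a, b} := ⟨_, rfl⟩
    have haH : a ∈ H := by rw [hH]; exact Subgroup.subset_closure (by simp)
    have hbH : b ∈ H := by rw [hH]; exact Subgroup.subset_closure (by simp)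
    have hxH : x ∈ H := by
      rw [hab, commutatorElement_def]
      exact H.mul_mem (H.mul_mem (H.mul_mem haH hbH) (H.inv_mem haH)) (H.inv_mem hbH)
    let ρH : Representation K H V := ρF.comp H.subtype
    have hρH : ∀ h : H, ρH h = ρF (h : F) := fun h => rfl
    have hu : (⟨x, hxH⟩ : H) ∈ commutator H := by
      have e : (⟨x, hxH⟩ : H) = ⁅(⟨a, haH⟩ : H), (⟨b, hbH⟩ : H)⁆ := by
        apply Subtype.ext
        exact hab
      rw [e, commutator_def]
      exact Subgroup.commutator_mem_commutator (Subgroup.mem_top _) (Subgroup.mem_top _)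
    have hN := hNab a b
    rw [← hab] at hN
    obtain ⟨N, hNdef⟩ : ∃ N, N = (ρF x - 1) ^ (p ^ k - 1) := ⟨_, rfl⟩
    rw [← hNdef] at hN hXw
    have hNH : ∀ h ∈ H, N * ρF h = N := by
      intro h hh
      rw [hH] at hh
      induction hh using Subgroup.closure_induction with
      | mem y hy =>
        rcases hy with rfl | hy
        · exact hN.1
        · rw [Set.mem_singleton_iff] at hy
          rw [hy]; exact hN.2
      | one => rw [map_one, mul_one]
      | mul y y' _ _ hy hy' => rw [map_mul, ← mul_assoc, hy, hy']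
      | inv y _ hy =>
        calc N * ρF y⁻¹ = (N * ρF y) * ρF y⁻¹ := by rw [hy]
          _ = N * (ρF (y * y⁻¹)) := by rw [map_mul, mul_assoc]
          _ = N := by rw [mul_inv_cancel, map_one, mul_one]
    have hadj : N ∈ Algebra.adjoin K ({ρH ⟨x, hxH⟩} : Set (Module.End K V)) := by
      rw [hNdef]
      have h1 : ρF x ∈ Algebra.adjoin K ({ρH ⟨x, hxH⟩} : Set (Module.End K V)) :=
        Algebra.subset_adjoin (Set.mem_singleton _)
      have h2 : (1 : Module.End K V) ∈
          Algebra.adjoin K ({ρH ⟨x, hxH⟩} : Set (Module.End K V)) := Subalgebra.one_mem _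
      exact pow_mem (sub_mem h1 h2) _
    have hfin := dich p (S.hF.to_subgroup H) ρH (wts ρA B) hind (fun h U hU => hperm h U hU)
      ⟨x, hxH⟩ hu N hadj (fun h => hNH h h.2) U hU w hw hXw
    have hz' := hfin ⟨x ^ (p ^ (k - 1)), H.pow_mem hxH _⟩
    exact hzU hz'

end H60SH
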