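import Mathlib

namespace H60SH

open Module

/-- The ring identity behind `BL`. -/
theorem BL_ring {R : Type*} [Ring R] (c t y z y' t' : R) (hcy : c * y = y * c)
    (hcz : c * z = z * c)
    (ht : t * t = (1 + c) * t - c) (hyt : y * t = z * t * y) (hzt : z * t = t * z)
    (hzy : z * y = y * z) (hy : y * y' = 1) (htt : t * t' = 1) (z' : R) (hz : z' * z = 1)
    (hinj : ∀ a : R, (1 + c) * a = 0 → a = 0)
    (hstab : (z - 1) * (z - 1) = 0 → z - 1 = 0) : z = 1 := by
  -- first identity
  have e1 : y * (t * t) = z * z * (t * t) * y := by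
    calc y * (t * t) = (y * t) * t := (mul_assoc _ _ _).symm
      _ = z * t * (y * t) := by rw [hyt]; simp only [mul_assoc]; rw [hyt]; simp only [mul_assoc]
      _ = z * (t * z) * t * y := by rw [hyt]; simp only [mul_assoc]
      _ = z * z * (t * t) * y := by rw [← hzt]; simp only [mul_assoc]
  have hA : (c * (z + 1) - z * (1 + c) * t) * (z - 1) = 0 := by
    have e2 : y * ((1 + c) * t - c) = (1 + c) * (z * t * y) - c * y := by
      rw [mul_sub, ← hcy, ← mul_assoc, mul_add, add_mul, mul_one, ← hcy]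
      rw [mul_assoc c y t, hyt]
      noncomm_ring
    rw [ht, e2] at e1
    have e3 : ((z - 1) * (c * (z + 1) - z * (1 + c) * t)) * y = 0 := by
      have : ((z - 1) * (c * (z + 1) - z * (1 + c) * t)) * y
          = ((1 + c) * (z * t * y) - c * y) - z * z * ((1 + c) * t - c) * y := by
        have h2 : z * c = c * z := hcz.symm
        have h2' : ∀ a : R, z * (c * a) = c * (z * a) := by
          intro a; rw [← mul_assoc, h2, mul_assoc]
        simp only [mul_add, add_mul, mul_sub, sub_mul, mul_one, one_mul, mul_assoc, h2']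
        abel
      rw [this, e1, sub_self]
    have e4 : (z - 1) * (c * (z + 1) - z * (1 + c) * t) = 0 := by
      have := congrArg (· * y') e3
      simpa [mul_assoc, hy] using this
    have e5 : (c * (z + 1) - z * (1 + c) * t) * (z - 1)
        = (z - 1) * (c * (z + 1) - z * (1 + c) * t) := by
      have h2 : z * c = c * z := hcz.symm
      have h3 : t * z = z * t := hzt.symm
      have hcom : Commute (c * (z + 1) - z * (1 + c) * t) z := by
        have c1 : Commute c z := hcz
        have c2 : Commute t z := h3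
        have c3 : Commute (z + 1) z := (Commute.refl z).add_left (Commute.one_left z)
        have c4 : Commute (1 + c) z := (Commute.one_left z).add_left c1
        exact (c1.mul_left c3).sub_left (((Commute.refl z).mul_left c4).mul_left c2)
      exact (hcom.sub_right (Commute.one_right _)).eq
    rw [e5, e4]
  have hB : (z * (1 + c) * (y * t - t * y)) * (z - 1) = 0 := by
    have f1 : y * (c * (z + 1) - z * (1 + c) * t) - (c * (z + 1) - z * (1 + c) * t) * y
        = - (z * (1 + c) * (y * t - t * y)) := by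
      have c1 : Commute y c := hcy.symm
      have c2 : Commute y z := hzy.symm
      have c3 : Commute y (c * (z + 1)) := c1.mul_right (c2.add_right (Commute.one_right y))
      have c4 : Commute y (z * (1 + c)) := c2.mul_right ((Commute.one_right y).add_right c1)
      have g3 := c3.eq
      have g4 := c4.eq
      rw [mul_sub, sub_mul, g3, ← mul_assoc y, g4]
      noncomm_ring
    have f2 : (y * (c * (z + 1) - z * (1 + c) * t) - (c * (z + 1) - z * (1 + c) * t) * y)
        * (z - 1) = 0 := by
      have g1 : y * (z - 1) = (z - 1) * y := by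
        rw [mul_sub, sub_mul, hzy]; simp
      rw [sub_mul, mul_assoc y, hA, mul_zero, mul_assoc _ y, g1, ← mul_assoc _ _ y, hA, zero_mul,
        sub_zero]
    rw [f1] at f2
    simpa using f2
  have hC : (1 + c) * ((z - 1) * (z - 1)) = 0 := by
    have g0 : y * t - t * y = (z - 1) * (t * y) := by
      rw [hyt]; noncomm_ring
    have g1 : t * y * (z - 1) = (z - 1) * (t * y) := by
      have : Commute (t * y) z := Commute.mul_left hzt.symm hzy.symm
      exact (this.sub_right (Commute.one_right _)).eq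
    rw [g0] at hB
    have g2 : z * (1 + c) * ((z - 1) * (t * y)) * (z - 1)
        = z * ((1 + c) * ((z - 1) * (z - 1))) * (t * y) := by
      rw [mul_assoc (z * (1 + c)), mul_assoc (z - 1), g1]
      noncomm_ring
    rw [g2] at hB
    have g3 : (z * ((1 + c) * ((z - 1) * (z - 1)))) * (t * y) * y' = 0 := by rw [hB, zero_mul]
    have g4 : (z * ((1 + c) * ((z - 1) * (z - 1)))) * t = 0 := by
      rw [mul_assoc, mul_assoc t, hy, mul_one] at g3
      exact g3
    have g5 : z * ((1 + c) * ((z - 1) * (z - 1))) = 0 := by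
      have := congrArg (· * t') g4
      simpa [mul_assoc, htt] using this
    have := congrArg (z' * ·) g5
    simpa [← mul_assoc, hz] using this
  exact sub_eq_zero.mp (hstab (hinj _ hC))


theorem BL_aux {X F : Type*} [AddCommGroup X] [Finite X] [Group F] [Finite F]
    [DistribMulAction F X] (p q : ℕ) (hp : p.Prime) (hq : q.Prime) (hpq : p ≠ q) (hp2 : p ≠ 2)
    (hF : IsPGroup p F) (hW : ∀ w : X, q • w = 0) (c t t' : F)
    (hc : ∀ (f : F) (w : X), c • f • w = f • c • w)
    (hfix : ∀ w : X, c • w = w → w = 0)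
    (h1 : ∀ w : X, c • (t • w - w) = t • (t • w - w))
    (h2 : ∀ w : X, c • (t' • w - w) = t' • (t' • w - w)) (w : X) :
    t • t' • w = t' • t • w := by
  classical
  have : Fact p.Prime := ⟨hp⟩
  let φ : F →* AddMonoid.End X := DistribMulAction.toAddMonoidEnd F X
  have hφ : ∀ (f : F) (w : X), φ f w = f • w := fun f w => rfl
  let φ' : F →* (AddMonoid.End X)ˣ := φ.toHomUnits
  have hφ' : ∀ f : F, ((φ' f : (AddMonoid.End X)ˣ) : AddMonoid.End X) = φ f := fun f => rfl
  -- `1 + c` is injective
  have hinj : ∀ a : AddMonoid.End X, (1 + φ c) * a = 0 → a = 0 := by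
    intro a ha
    ext w
    have hw : a w + c • a w = 0 := DFunLike.congr_fun ha w
    obtain ⟨n, hn⟩ := hF c
    have hneg : c • a w = - a w := by
      rw [eq_neg_iff_add_eq_zero, add_comm]; exact hw
    have hpow : ∀ m : ℕ, c ^ m • a w = ((-1 : ℤ) ^ m) • a w := by
      intro m
      induction m with
      | zero => simp
      | succ m ih =>
        rw [pow_succ, mul_smul, hneg, smul_neg, ih, pow_succ]
        simp
    have h := hpow (p ^ n)
    have hodd : Odd (p ^ n) := (hp.odd_of_ne_two hp2).pow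
    rw [hn, one_smul, hodd.neg_one_pow] at h
    simp only [neg_smul, one_smul] at h
    exact hfix (a w) (by rw [hneg]; exact h.symm)
  -- stability
  have hstab : ∀ f : F, (φ f - 1) * (φ f - 1) = 0 → φ f - 1 = 0 := by
    intro f hf
    ext w
    set r : X := f • w - w with hr
    have hfr : f • r = r := by
      have h3 : f • (f • w - w) - (f • w - w) = 0 := DFunLike.congr_fun hf w
      exact sub_eq_zero.mp h3
    have hpow : ∀ m : ℕ, f ^ m • w = w + m • r := by
      intro m
      induction m with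
      | zero => simp
      | succ m ih =>
        rw [pow_succ', mul_smul, ih, smul_add, smul_comm f m r, hfr, succ_nsmul]
        rw [hr]; abel
    obtain ⟨n, hn⟩ := hF f
    have h4 := hpow (p ^ n)
    rw [hn, one_smul] at h4
    have h5 : (p ^ n) • r = 0 := by
      have : w + 0 = w + (p ^ n) • r := by rw [add_zero]; exact h4
      exact (add_left_cancel this).symm
    have h6 : q • r = 0 := hW r
    have h7 : addOrderOf r ∣ 1 := by
      have hcop : Nat.Coprime (p ^ n) q := Nat.Coprime.pow_left n ((Nat.coprime_primes hp hq).2 hpq)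
      rw [← Nat.Coprime.gcd_eq_one hcop]
      exact Nat.dvd_gcd (addOrderOf_dvd_of_nsmul_eq_zero h5) (addOrderOf_dvd_of_nsmul_eq_zero h6)
    have h8 : r = 0 := by
      rw [← AddMonoid.addOrderOf_eq_one_iff]; exact Nat.dvd_one.mp h7
    change (φ f - 1) w = 0
    have : (φ f - 1) w = r := rfl
    rw [this, h8]
  -- the group
  let H : Subgroup F := Subgroup.closure {t, t'}
  let G : Subgroup (AddMonoid.End X)ˣ := H.map φ'
  have hG : IsPGroup p G := (hF.to_subgroup H).map φ'
  have : Finite G := Finite.of_surjective (fun h : H => (⟨φ' h, h, h.2, rfl⟩ : G)) (by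
    rintro ⟨_, h, hh, rfl⟩; exact ⟨⟨h, hh⟩, rfl⟩)
  have htH : t ∈ H := Subgroup.subset_closure (by simp)
  have htH' : t' ∈ H := Subgroup.subset_closure (by simp)
  -- the key claim
  have key : ∀ s : F, s ∈ H → (∀ w : X, c • (s • w - w) = s • (s • w - w)) → ∀ y : F, y ∈ H →
      (∀ h ∈ H, φ (y * s * y⁻¹ * s⁻¹) * φ h = φ h * φ (y * s * y⁻¹ * s⁻¹)) →
      φ y * φ s = φ s * φ y := by
    intro s hs hsq y hy hz
    have hz1 : φ (y * s * y⁻¹ * s⁻¹) = 1 := by
      have hcc : ∀ f : F, φ c * φ f = φ f * φ c := by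
        intro f
        ext w
        exact hc f w
      refine BL_ring (φ c) (φ s) (φ y) (φ (y * s * y⁻¹ * s⁻¹)) (φ y⁻¹) (φ s⁻¹) (hcc y) (hcc _)
        ?_ ?_ ?_ ?_ ?_ ?_ (φ (y * s * y⁻¹ * s⁻¹)⁻¹) ?_ hinj (hstab _)
      · ext w
        have e := hsq w
        change s • s • w = (s • w + c • s • w) - c • w
        rw [smul_sub, smul_sub] at e
        rw [eq_sub_iff_add_eq] at e
        rw [eq_sub_iff_add_eq, ← sub_eq_iff_eq_add', ← e]
        abel
      · rw [← map_mul, ← map_mul, ← map_mul]; congr 1; group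
      · exact hz s hs
      · exact hz y hy
      · rw [← map_mul, mul_inv_cancel, map_one]
      · rw [← map_mul, mul_inv_cancel, map_one]
      · rw [← map_mul, inv_mul_cancel, map_one]
    have e1 : φ y * φ s = φ (y * s * y⁻¹ * s⁻¹) * (φ s * φ y) := by
      rw [← map_mul, ← map_mul, ← map_mul]; congr 1; group
    rw [e1, hz1, one_mul]
  -- conclusion
  by_contra hne
  have hnc : ∃ a b : G, a * b ≠ b * a := by
    refine ⟨⟨φ' t, t, htH, rfl⟩, ⟨φ' t', t', htH', rfl⟩, fun h => hne ?_⟩
    have h3 : φ' t * φ' t' = φ' t' * φ' t := congrArg Subtype.val h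
    have h4 : φ t * φ t' = φ t' * φ t := congrArg Units.val h3
    exact DFunLike.congr_fun h4 w
  have hQ : Nontrivial (G ⧸ Subgroup.center G) := by
    rw [← not_subsingleton_iff_nontrivial]
    intro hsub
    obtain ⟨a, b, hab⟩ := hnc
    have ha : a ∈ Subgroup.center G := by
      rw [← QuotientGroup.eq_one_iff]; exact Subsingleton.elim _ _
    exact hab ((Subgroup.mem_center_iff.mp ha b).symm)
  have hQp : IsPGroup p (G ⧸ Subgroup.center G) := hG.to_quotient _
  have hQc : Nontrivial (Subgroup.center (G ⧸ Subgroup.center G)) := hQp.center_nontrivial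
  obtain ⟨⟨y0, hy0⟩, hy1⟩ := exists_ne (1 : Subgroup.center (G ⧸ Subgroup.center G))
  obtain ⟨y1, rfl⟩ := QuotientGroup.mk_surjective y0
  obtain ⟨y, hyH, hyy⟩ := y1.2
  have hyn : y1 ∉ Subgroup.center G := by
    intro h
    apply hy1
    apply Subtype.ext
    exact (QuotientGroup.eq_one_iff _).mpr h
  -- the commutators are central
  have hcen : ∀ s : F, s ∈ H → ∀ h ∈ H,
      φ (y * s * y⁻¹ * s⁻¹) * φ h = φ h * φ (y * s * y⁻¹ * s⁻¹) := by
    intro s hs h hh
    let s1 : G := ⟨φ' s, s, hs, rfl⟩
    let k1 : G := ⟨φ' h, h, hh, rfl⟩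
    have h3 : y1 * s1 * y1⁻¹ * s1⁻¹ ∈ Subgroup.center G := by
      rw [← QuotientGroup.eq_one_iff]
      have h4 := Subgroup.mem_center_iff.mp hy0 (s1 : G ⧸ Subgroup.center G)
      have h8 : ((y1 * s1 * y1⁻¹ * s1⁻¹ : G) : G ⧸ Subgroup.center G) =
          (y1 : G ⧸ Subgroup.center G) * s1 * (y1 : G ⧸ Subgroup.center G)⁻¹ *
            (s1 : G ⧸ Subgroup.center G)⁻¹ := rfl
      rw [h8, ← h4]
      group
    have h5 := Subgroup.mem_center_iff.mp h3 k1
    have h6 : (k1 : (AddMonoid.End X)ˣ) * (y1 * s1 * y1⁻¹ * s1⁻¹ : G) =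
      (y1 * s1 * y1⁻¹ * s1⁻¹ : G) * (k1 : (AddMonoid.End X)ˣ) := congrArg Subtype.val h5
    have h7 : ((y1 * s1 * y1⁻¹ * s1⁻¹ : G) : (AddMonoid.End X)ˣ) = φ' (y * s * y⁻¹ * s⁻¹) := by
      push_cast
      rw [← hyy]
      simp only [map_mul, map_inv]
      rfl
    rw [h7] at h6
    exact (congrArg Units.val h6).symm
  have c1 := key t htH h1 y hyH (hcen t htH)
  have c2 := key t' htH' h2 y hyH (hcen t' htH')
  apply hyn
  rw [Subgroup.mem_center_iff]
  rintro ⟨g0, h, hh, rfl⟩
  have c3 : φ y * φ h = φ h * φ y := by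
    refine Subgroup.closure_induction (p := fun h _ => φ y * φ h = φ h * φ y) ?_ ?_ ?_ ?_ hh
    · intro x hx
      rcases hx with rfl | hx
      · exact c1
      · rw [Set.mem_singleton_iff] at hx
        rw [hx]; exact c2
    · simp
    · intro a b _ _ ha hb
      rw [map_mul, ← mul_assoc, ha, mul_assoc, hb, mul_assoc]
    · intro a _ ha
      have e1 : φ a * φ a⁻¹ = 1 := by rw [← map_mul, mul_inv_cancel, map_one]
      have e2 : φ a⁻¹ * φ a = 1 := by rw [← map_mul, inv_mul_cancel, map_one]
      calc φ y * φ a⁻¹ = (φ a⁻¹ * φ a) * φ y * φ a⁻¹ := by rw [e2, one_mul]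
        _ = φ a⁻¹ * (φ y * φ a) * φ a⁻¹ := by rw [ha]; simp only [mul_assoc]
        _ = φ a⁻¹ * φ y * (φ a * φ a⁻¹) := by simp only [mul_assoc]
        _ = φ a⁻¹ * φ y := by rw [e1, mul_one]
  apply Subtype.ext
  apply Units.ext
  change φ h * ((y1 : (AddMonoid.End X)ˣ) : AddMonoid.End X) =
    ((y1 : (AddMonoid.End X)ˣ) : AddMonoid.End X) * φ h
  rw [← hyy, hφ']
  exact c3.symm

/-- **BL**: in a finite `p`-group (`p` odd) acting on an elementary abelian `q`-group, two elements
which act as the (fixed point free) central element `c` on their commutator spaces commute. -/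
theorem BL {W F : Type*} [AddCommGroup W] [Finite W] [Group F] [Finite F] [DistribMulAction F W]
    (p q : ℕ) (hp : p.Prime) (hq : q.Prime) (hpq : p ≠ q) (hp2 : p ≠ 2) (hF : IsPGroup p F)
    (hW : ∀ w : W, q • w = 0) (X : AddSubgroup W) (hX : ∀ (f : F), ∀ w ∈ X, f • w ∈ X)
    (c t t' : F) (hc : ∀ (f : F), ∀ w ∈ X, c • f • w = f • c • w)
    (hfix : ∀ w ∈ X, c • w = w → w = 0)
    (h1 : ∀ w ∈ X, c • (t • w - w) = t • (t • w - w))
    (h2 : ∀ w ∈ X, c • (t' • w - w) = t' • (t' • w - w)) (w : W) (hw : w ∈ X) :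
    t • t' • w = t' • t • w := by
  let act : DistribMulAction F X :=
    { smul := fun f x => ⟨f • (x : W), hX f x x.2⟩
      one_smul := fun x => Subtype.ext (one_smul F (x : W))
      mul_smul := fun f g x => Subtype.ext (mul_smul f g (x : W))
      smul_zero := fun f => Subtype.ext (smul_zero f)
      smul_add := fun f x y => Subtype.ext (smul_add f (x : W) y) }
  have h := @BL_aux X F _ _ _ _ act p q hp hq hpq hp2 hF
    (fun w => Subtype.ext (hW w)) c t t' (fun f w => Subtype.ext (hc f w w.2))
    (fun w h => Subtype.ext (hfix w w.2 (congrArg Subtype.val h)))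
    (fun w => Subtype.ext (h1 w w.2)) (fun w => Subtype.ext (h2 w w.2)) ⟨w, hw⟩
  exact congrArg Subtype.val h

end H60SH
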