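import Mathlib
import Pool.Agent.H60.SH.Defs
import Pool.Agent.H60.SH.HEIS

namespace H60SH

open Module

/-- **PFIX**: a finite `p`-group acting on a nonzero space of characteristic `p` has a nonzero
fixed vector. -/
theorem pfix {K V F : Type*} [Field K] [AddCommGroup V] [Module K V] [Group F] [Finite F]
    (p : ℕ) [Fact p.Prime] [CharP K p] (ρ : Representation K F V) (H : Subgroup F)
    (hH : IsPGroup p H) (U : Submodule K V) (hU : U ≠ ⊥) (hHU : ∀ f ∈ H, ∀ v ∈ U, ρ f v ∈ U) :
    ∃ v ∈ U, v ≠ 0 ∧ ∀ f ∈ H, ρ f v = v := by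
  obtain ⟨v, hvU, hv0⟩ := (Submodule.ne_bot_iff U).1 hU
  let M : AddSubgroup V := AddSubgroup.closure (Set.range fun f : H => ρ (f : F) v)
  have hpV : ∀ w : V, p • w = 0 := by
    intro w
    have : (p : K) • w = 0 := by rw [CharP.cast_eq_zero K p, zero_smul]
    rw [← this, Nat.cast_smul_eq_nsmul]
  have hvM : v ∈ M := by
    apply AddSubgroup.subset_closure
    exact ⟨1, by simp⟩
  have hMU : ∀ w ∈ M, w ∈ U := by
    intro w hw
    induction hw using AddSubgroup.closure_induction with
    | mem x hx =>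
      obtain ⟨f, rfl⟩ := hx
      exact hHU f f.2 v hvU
    | zero => exact U.zero_mem
    | add x y _ _ hx hy => exact U.add_mem hx hy
    | neg x _ hx => exact U.neg_mem hx
  have hMinv : ∀ (f : H), ∀ w ∈ M, ρ (f : F) w ∈ M := by
    intro f w hw
    induction hw using AddSubgroup.closure_induction with
    | mem x hx =>
      obtain ⟨g, rfl⟩ := hx
      apply AddSubgroup.subset_closure
      exact ⟨f * g, by simp⟩
    | zero => rw [map_zero]; exact M.zero_mem
    | add x y _ _ hx hy => rw [map_add]; exact M.add_mem hx hy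
    | neg x _ hx => rw [map_neg]; exact M.neg_mem hx
  have : Finite M := by
    have : AddGroup.FG M := by
      rw [AddGroup.fg_iff_addSubgroup_fg]
      exact (AddSubgroup.fg_iff M).2 ⟨_, rfl, Set.finite_range _⟩
    apply AddCommGroup.finite_of_fg_isAddTorsion
    intro w
    rw [isOfFinAddOrder_iff_nsmul_eq_zero]
    exact ⟨p, (Fact.out : p.Prime).pos, Subtype.ext (hpV _)⟩
  let act : MulAction H M :=
    { smul := fun f w => ⟨ρ (f : F) w, hMinv f w w.2⟩
      one_smul := by
        intro w
        apply Subtype.ext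
        change ρ ((1 : H) : F) (w : V) = w
        simp
      mul_smul := by
        intro f g w
        apply Subtype.ext
        change ρ ((f * g : H) : F) (w : V) = ρ (f : F) (ρ (g : F) w)
        simp }
  have hdvd : p ∣ Nat.card M := by
    have ho : addOrderOf (⟨v, hvM⟩ : M) = p := by
      apply addOrderOf_eq_prime
      · exact Subtype.ext (hpV v)
      · intro h; exact hv0 (congrArg Subtype.val h)
    rw [← ho]; exact addOrderOf_dvd_natCard _
  have h0 : (0 : M) ∈ MulAction.fixedPoints H M := by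
    intro f
    apply Subtype.ext
    change ρ (f : F) (0 : V) = 0
    simp
  obtain ⟨b, hb, hb0⟩ := hH.exists_fixed_point_of_prime_dvd_card_of_fixed_point M hdvd h0
  refine ⟨b, hMU b b.2, ?_, ?_⟩
  · intro h; exact hb0 (Subtype.ext h.symm)
  · intro f hf
    have := hb ⟨f, hf⟩
    exact congrArg Subtype.val this

/-- **VC**: the fixed space of the centraliser of `X` in `F`. -/
theorem fixC {K V F A W : Type*} [Field K] [AddCommGroup V] [Module K V]
    [Nontrivial V] [Group F] [Finite F] [Group A]
    [MulDistribMulAction F A] [AddCommGroup W] [Finite W] [DistribMulAction F W]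
    {p q : ℕ} [Fact p.Prime] [CharP K p]
    {π : A → W} {ρA : Representation K A V} {β : W → W → K} {ρF : Representation K F V}
    (S : Sys p q π ρA β ρF) (X : AddSubgroup W) (hXF : ∀ (f : F), ∀ w ∈ X, f • w ∈ X)
    (hnd : ∀ w ∈ X, w ≠ 0 → ∃ w' ∈ X, β w w' ≠ 1) :
    ∃ U : Submodule K V, SubSys π ρA β X U ∧ (∀ (f : F), ∀ v ∈ U, ρF f v ∈ U) ∧
      ∀ f : F, (∀ w ∈ X, f • w = w) → ∀ v ∈ U, ρF f v = v := by
  let C : Subgroup F :=
    { carrier := {f | ∀ w ∈ X, f • w = w}
      mul_mem' := by
        intro a b ha hb w hw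
        rw [mul_smul, hb w hw, ha w hw]
      one_mem' := by intro w _; exact one_smul _ _
      inv_mem' := by
        intro a ha w hw
        rw [inv_smul_eq_iff, ha w hw] }
  have hC : ∀ f, f ∈ C ↔ ∀ w ∈ X, f • w = w := fun f => Iff.rfl
  let U : Submodule K V :=
    { carrier := {v | ∀ f ∈ C, ρF f v = v}
      add_mem' := by
        intro a b ha hb f hf
        rw [map_add, ha f hf, hb f hf]
      zero_mem' := by intro f _; exact map_zero _
      smul_mem' := by
        intro c a ha f hf
        rw [map_smul, ha f hf] }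
  have hU : ∀ v, v ∈ U ↔ ∀ f ∈ C, ρF f v = v := fun v => Iff.rfl
  refine ⟨U, ⟨?_, hnd, ?_⟩, ?_, ?_⟩
  · intro hbot
    obtain ⟨v, -, hv0, hv⟩ := pfix p ρF C (S.hF.to_subgroup C) ⊤ (top_ne_bot)
      (fun _ _ _ _ => Submodule.mem_top)
    have : v ∈ U := hv
    rw [hbot, Submodule.mem_bot] at this
    exact hv0 this
  · intro g hg v hv f hf
    have h1 := S.cop f g ((hC f).1 hf _ hg)
    have h2 := congrArg (fun T : Module.End K V => T v) h1
    simp only [Module.End.mul_apply] at h2
    rw [h2, hv f hf]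
  · intro f v hv c hc
    have hconj : f⁻¹ * c * f ∈ C := by
      intro w hw
      rw [mul_smul, mul_smul, (hC c).1 hc _ (hXF f w hw), inv_smul_smul]
    have h1 : ρF c (ρF f v) = ρF f (ρF (f⁻¹ * c * f) v) := by
      rw [← Module.End.mul_apply, ← Module.End.mul_apply, ← map_mul, ← map_mul]
      congr 2; group
    rw [h1, hv _ hconj]
  · intro f hf v hv
    exact hv f hf

end H60SH
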