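import Mathlib
import Pool.Agent.H60.SH.Defs

namespace H60SH

open Module

universe u

/-- Adapted basis for a nilpotent endomorphism. -/
theorem nl_basis {K : Type*} [Field K] (M : ℕ) : ∀ {L : Type u} [AddCommGroup L] [Module K L]
    [FiniteDimensional K L] (N : Module.End K L), N ^ M = 0 →
    ∃ (ι : Type u) (_ : Fintype ι) (b : Basis ι K L) (h : ι → ℕ), (∀ i, h i < M) ∧
      ∀ i, N (b i) ∈ Submodule.span K (b '' {k | h k < h i}) := by
  induction M with
  | zero =>
    intro L _ _ _ N hN
    have hsub : Subsingleton L := by
      constructor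
      intro x y
      have h1 : (1 : Module.End K L) = 0 := by simpa using hN
      have hx : x = 0 := by
        have := congrArg (fun f : Module.End K L => f x) h1
        simpa using this
      have hy : y = 0 := by
        have := congrArg (fun f : Module.End K L => f y) h1
        simpa using this
      rw [hx, hy]
    refine ⟨PEmpty, inferInstance, Basis.empty L, fun i => i.elim, fun i => i.elim, fun i => i.elim⟩
  | succ M ih =>
    intro L _ _ _ N hN
    have hmaps : ∀ x ∈ LinearMap.range N, N x ∈ LinearMap.range N := fun x _ => ⟨x, rfl⟩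
    let N' : Module.End K (LinearMap.range N) := N.restrict hmaps
    have hcoe : ∀ (n : ℕ) (x : LinearMap.range N), ((N' ^ n) x : L) = (N ^ n) (x : L) := by
      intro n
      induction n with
      | zero => intro x; simp
      | succ n ihn =>
        intro x
        rw [pow_succ', pow_succ', Module.End.mul_apply, Module.End.mul_apply]
        change N ((N' ^ n) x : L) = _
        rw [ihn]
    have hN' : N' ^ M = 0 := by
      ext x
      rw [hcoe]
      obtain ⟨y, hy⟩ := x.2
      rw [← hy]
      have : (N ^ M) (N y) = (N ^ (M + 1)) y := by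
        rw [pow_succ, Module.End.mul_apply]
      rw [this, hN]
      simp
    obtain ⟨ι', hι', b', h', hh', hb'⟩ := ih N' hN'
    have hli : LinearIndependent K (fun i => ((b' i : LinearMap.range N) : L)) :=
      b'.linearIndependent.map' (LinearMap.range N).subtype (Submodule.ker_subtype _)
    let b := Basis.sumExtend hli
    have hfin : Finite (ι' ⊕ Basis.sumExtendIndex hli) := Module.Finite.finite_basis b
    have hbl : ∀ i, b (Sum.inl i) = ((b' i : LinearMap.range N) : L) := by
      intro i
      simp only [b, Basis.sumExtend, Basis.reindex_apply, Basis.extend_apply_self]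
      rfl
    have hspan : ∀ x ∈ LinearMap.range N,
        x ∈ Submodule.span K (b '' {k | Sum.elim h' (fun _ => M) k < M}) := by
      intro x hx
      have hmem : (⟨x, hx⟩ : LinearMap.range N) ∈ Submodule.span K (Set.range b') := by
        rw [b'.span_eq]; trivial
      have := Submodule.mem_map_of_mem (f := (LinearMap.range N).subtype) hmem
      rw [Submodule.map_span] at this
      refine Submodule.span_mono ?_ this
      rintro _ ⟨_, ⟨i, rfl⟩, rfl⟩
      refine ⟨Sum.inl i, ?_, hbl i⟩
      simpa using hh' i
    refine ⟨ι' ⊕ Basis.sumExtendIndex hli, Fintype.ofFinite _, b, Sum.elim h' (fun _ => M), ?_, ?_⟩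
    · rintro (i | i)
      · exact Nat.lt_succ_of_lt (hh' i)
      · exact Nat.lt_succ_self M
    · rintro (i | i)
      · rw [hbl]
        have hm := hb' i
        have := Submodule.mem_map_of_mem (f := (LinearMap.range N).subtype) hm
        rw [Submodule.map_span] at this
        refine Submodule.span_mono ?_ this
        rintro _ ⟨_, ⟨k, hk, rfl⟩, rfl⟩
        refine ⟨Sum.inl k, ?_, hbl k⟩
        simpa using hk
      · exact hspan _ ⟨_, rfl⟩

/-- The commutant of a matrix. -/
def MCm {K ι : Type*} [Field K] [Fintype ι] (A : Matrix ι ι K) : Submodule K (Matrix ι ι K) where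
  carrier := {X | X * A = A * X}
  add_mem' := by
    intro a b ha hb
    change (a + b) * A = A * (a + b)
    change a * A = A * a at ha
    change b * A = A * b at hb
    rw [add_mul, mul_add, ha, hb]
  zero_mem' := by
    change (0 : Matrix ι ι K) * A = A * 0
    simp
  smul_mem' := by
    intro c a ha
    change (c • a) * A = A * (c • a)
    change a * A = A * a at ha
    rw [smul_mul_assoc, mul_smul_comm, ha]

theorem mat_bound {K ι : Type*} [Field K] [Fintype ι] [DecidableEq ι] (A : Matrix ι ι K)
    (h : ι → ℕ) (M : ℕ) (hM : ∀ i, h i < M) (hA : ∀ k j, h j ≤ h k → A k j = 0) :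
    (Fintype.card ι) ^ 2 ≤ M * finrank K (MCm A) := by
  classical
  let S := {p : ι × ι // h p.1 ≤ h p.2}
  let S' := {p : ι × ι // h p.1 < h p.2}
  let T : (S → K) →ₗ[K] Matrix ι ι K :=
    { toFun := fun c => Matrix.of fun k j => if hh : h k ≤ h j then c ⟨(k, j), hh⟩ else 0
      map_add' := by
        intro c d
        ext k j
        by_cases hh : h k ≤ h j <;> simp [hh]
      map_smul' := by
        intro r c
        ext k j
        by_cases hh : h k ≤ h j <;> simp [hh] }
  have hT0 : ∀ c k j, ¬ h k ≤ h j → T c k j = 0 := by
    intro c k j hh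
    change (if hh : h k ≤ h j then c ⟨(k, j), hh⟩ else 0) = 0
    rw [dif_neg hh]
  let Φ : (S → K) →ₗ[K] (S' → K) :=
    { toFun := fun c p => (T c * A - A * T c) p.1.1 p.1.2
      map_add' := by
        intro c d
        ext p
        simp only [map_add, add_mul, mul_add, Pi.add_apply, Matrix.sub_apply, Matrix.add_apply]
        ring
      map_smul' := by
        intro r c
        ext p
        simp only [map_smul, smul_mul_assoc, mul_smul_comm, Matrix.sub_apply, Matrix.smul_apply,
          RingHom.id_apply, Pi.smul_apply, smul_eq_mul]
        ring }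
  have hker : ∀ c, Φ c = 0 → T c ∈ MCm A := by
    intro c hc
    change T c * A = A * T c
    rw [← sub_eq_zero]
    ext k j
    by_cases hkj : h k < h j
    · have := congrFun hc ⟨(k, j), hkj⟩
      simpa [Φ] using this
    · push Not at hkj
      simp only [Matrix.sub_apply, Matrix.mul_apply, Matrix.zero_apply]
      rw [Finset.sum_eq_zero, Finset.sum_eq_zero, sub_zero]
      · intro l _
        by_cases hl : h l ≤ h j
        · rw [hA k l (by omega), zero_mul]
        · rw [hT0 c l j hl, mul_zero]
      · intro l _
        by_cases hl : h k ≤ h l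
        · rw [hA l j (by omega), mul_zero]
        · rw [hT0 c k l hl, zero_mul]
  let Ψ : LinearMap.ker Φ →ₗ[K] MCm A :=
    (T.comp (LinearMap.ker Φ).subtype).codRestrict (MCm A) (fun c => hker c.1 c.2)
  have hΨ : Function.Injective Ψ := by
    intro c d hcd
    have h1 : T c.1 = T d.1 := congrArg Subtype.val hcd
    apply Subtype.ext
    funext p
    have := congrFun (congrFun h1 p.1.1) p.1.2
    simpa [T, p.2] using this
  have h1 : finrank K (LinearMap.ker Φ) ≤ finrank K (MCm A) :=
    LinearMap.finrank_le_finrank_of_injective hΨ
  have h2 : finrank K (LinearMap.range Φ) + finrank K (LinearMap.ker Φ) = Fintype.card S := by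
    rw [LinearMap.finrank_range_add_finrank_ker, Module.finrank_fintype_fun_eq_card]
  have h3 : finrank K (LinearMap.range Φ) ≤ Fintype.card S' := by
    have := Submodule.finrank_le (LinearMap.range Φ)
    rwa [Module.finrank_fintype_fun_eq_card] at this
  -- counting
  have h4 : Fintype.card S = Fintype.card S' + (Finset.univ.filter (fun p : ι × ι => h p.1 = h p.2)).card := by
    rw [Fintype.card_subtype, Fintype.card_subtype, ← Finset.card_union_of_disjoint]
    · congr 1
      ext p
      simp only [Finset.mem_filter, Finset.mem_univ, true_and, Finset.mem_union]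
      omega
    · rw [Finset.disjoint_filter]
      intro p _ hp hp'
      omega
  have h5 : (Finset.univ.filter (fun p : ι × ι => h p.1 = h p.2)).card =
      ∑ i ∈ Finset.range M, ((Finset.univ.filter (fun j => h j = i)).card) ^ 2 := by
    rw [Finset.card_eq_sum_card_fiberwise (f := fun p : ι × ι => h p.1) (t := Finset.range M)]
    · apply Finset.sum_congr rfl
      intro i _
      rw [sq, ← Finset.card_product]
      congr 1
      ext p
      simp only [Finset.mem_filter, Finset.mem_univ, true_and, Finset.mem_product]
      constructor
      · rintro ⟨ha, hb⟩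
        exact ⟨hb, by omega⟩
      · rintro ⟨ha, hb⟩
        exact ⟨by omega, ha⟩
    · intro p _
      simpa using hM p.1
  have h6 : Fintype.card ι = ∑ i ∈ Finset.range M, (Finset.univ.filter (fun j => h j = i)).card := by
    rw [← Finset.card_univ]
    apply Finset.card_eq_sum_card_fiberwise
    intro p _
    simpa using hM p
  have h7 : (Fintype.card ι) ^ 2 ≤
      M * ∑ i ∈ Finset.range M, ((Finset.univ.filter (fun j => h j = i)).card) ^ 2 := by
    rw [h6]
    have := sq_sum_le_card_mul_sum_sq (s := Finset.range M)
      (f := fun i => (Finset.univ.filter (fun j => h j = i)).card)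
    simpa using this
  calc (Fintype.card ι) ^ 2 ≤ _ := h7
    _ ≤ M * finrank K (MCm A) := by
        apply Nat.mul_le_mul_left
        omega

/-- **NL**: a nilpotent endomorphism `N` with `N ^ M = 0` of a `D`-dimensional space has a
commutant of dimension at least `D² / M`. -/
theorem comm_bound {K L : Type*} [Field K] [AddCommGroup L] [Module K L] [FiniteDimensional K L]
    (N : Module.End K L) (M : ℕ) (hN : N ^ M = 0) :
    (finrank K L) ^ 2 ≤ M * finrank K (Cm N) := by
  classical
  obtain ⟨ι, _, b, h, hM, hb⟩ := nl_basis M N hN
  have hA : ∀ k j, h j ≤ h k → LinearMap.toMatrix b b N k j = 0 := by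
    intro k j hkj
    rw [LinearMap.toMatrix_apply]
    have hsub : Submodule.span K (b '' {k | h k < h j}) ≤ LinearMap.ker (b.coord k) := by
      rw [Submodule.span_le]
      rintro _ ⟨l, hl, rfl⟩
      rw [SetLike.mem_coe, LinearMap.mem_ker, Basis.coord_apply, Basis.repr_self,
        Finsupp.single_apply, if_neg]
      rintro rfl
      exact absurd hl (by simpa using hkj)
    have := hsub (hb j)
    rwa [LinearMap.mem_ker, Basis.coord_apply] at this
  have key := mat_bound (LinearMap.toMatrix b b N) h M hM hA
  rw [finrank_eq_card_basis b]
  refine key.trans (Nat.mul_le_mul_left _ ?_)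
  let F : MCm (LinearMap.toMatrix b b N) →ₗ[K] Cm N :=
    ((Matrix.toLin b b).toLinearMap.comp (MCm (LinearMap.toMatrix b b N)).subtype).codRestrict
      (Cm N) (by
        rintro ⟨X, hX⟩
        change (Matrix.toLin b b X) * N = N * (Matrix.toLin b b X)
        have hN2 : N = Matrix.toLin b b (LinearMap.toMatrix b b N) := by simp
        have hX' : X * LinearMap.toMatrix b b N = LinearMap.toMatrix b b N * X := hX
        rw [hN2, Module.End.mul_eq_comp, Module.End.mul_eq_comp]
        rw [← Matrix.toLin_mul b b b, ← Matrix.toLin_mul b b b]
        rw [hX'])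
  have hF : Function.Injective F := by
    intro X Y hXY
    have := congrArg Subtype.val hXY
    apply Subtype.ext
    exact (Matrix.toLin b b).injective this
  exact LinearMap.finrank_le_finrank_of_injective hF

end H60SH
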