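import Mathlib
import Pool.Agent.H60.SH.Defs
import Pool.Agent.H60.SH.NL
import Pool.Agent.H60.SH.HEIS

namespace H60SH

open Module

section cnt

variable {K A W L : Type*} [Field K] [Group A] [AddCommGroup W]
    [AddCommGroup L] [Module K L]
    {π : A → W} {ρ : Representation K A L} {β : W → W → K}

/-- A chosen lift. -/
noncomputable def Heis.lft (h : Heis π ρ β) (w : W) : A := (h.surj w).choose

theorem Heis.cnt_lft_spec (h : Heis π ρ β) (w : W) : π (h.lft w) = w := (h.surj w).choose_spec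

theorem cnt_rho_inv_mul (ρ : Representation K A L) (g : A) : ρ g⁻¹ * ρ g = 1 := by
  rw [← map_mul, inv_mul_cancel, map_one]

theorem cnt_rho_mul_inv (ρ : Representation K A L) (g : A) : ρ g * ρ g⁻¹ = 1 := by
  rw [← map_mul, mul_inv_cancel, map_one]

/-- Conjugation by `ρ g`. -/
noncomputable def cntcj (ρ : Representation K A L) (g : A) :
    Module.End K L →ₗ[K] Module.End K L where
  toFun T := ρ g * T * ρ g⁻¹
  map_add' := by
    intro a b
    rw [mul_add, add_mul]
  map_smul' := by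
    intro c a
    rw [mul_smul_comm, smul_mul_assoc, RingHom.id_apply]

theorem cnt_cj_apply (g : A) (T : Module.End K L) : cntcj ρ g T = ρ g * T * ρ g⁻¹ := rfl

theorem cnt_cj_mul (g g' : A) (T : Module.End K L) : cntcj ρ (g * g') T = cntcj ρ g (cntcj ρ g' T) := by
  rw [cnt_cj_apply, cnt_cj_apply, cnt_cj_apply, mul_inv_rev, map_mul, map_mul]
  simp only [mul_assoc]

theorem Heis.cj_congr (h : Heis π ρ β) {g g' : A} (hg : π g = π g') (T : Module.End K L) :
    cntcj ρ g T = cntcj ρ g' T := by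
  have hk : π (g'⁻¹ * g) = 0 := by
    rw [h.add, h.map_inv, hg]
    simp
  obtain ⟨c, hc⟩ := h.sc _ hk
  have hg2 : g = g' * (g'⁻¹ * g) := by group
  have h1 : cntcj ρ (g'⁻¹ * g) T = T := by
    rw [cnt_cj_apply]
    have h2 := cnt_rho_mul_inv ρ (g'⁻¹ * g)
    rw [hc] at h2
    rw [hc, smul_mul_assoc, one_mul, smul_mul_assoc]
    rw [smul_mul_assoc, one_mul] at h2
    rw [← mul_smul_comm, h2, mul_one]
  calc cntcj ρ g T = cntcj ρ (g' * (g'⁻¹ * g)) T := by rw [← hg2]
    _ = cntcj ρ g' T := by rw [cnt_cj_mul, h1]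

variable [Fintype W]

theorem Heis.cnt_sum_left [Nontrivial L] (h : Heis π ρ β) (w : W) (hw : w ≠ 0) :
    ∑ w', β w' w = 0 := by
  obtain ⟨u, hu⟩ := h.nd' w hw
  have h1 : ∑ w', β (w' + u) w = ∑ w', β w' w :=
    Equiv.sum_comp (Equiv.addRight u) (fun w' => β w' w)
  have h2 : ∑ w', β (w' + u) w = (∑ w', β w' w) * β u w := by
    rw [Finset.sum_mul]
    exact Finset.sum_congr rfl (fun w' _ => h.beta_add_left w' u w)
  rw [h2] at h1
  by_contra h0
  apply hu
  exact mul_left_cancel₀ h0 (by rw [h1, mul_one])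

theorem Heis.cnt_sum_right [Nontrivial L] (h : Heis π ρ β) (w' : W) (hw : w' ≠ 0) :
    ∑ w, β w' w = 0 := by
  obtain ⟨u, hu⟩ := h.nd w' hw
  have h1 : ∑ w, β w' (w + u) = ∑ w, β w' w :=
    Equiv.sum_comp (Equiv.addRight u) (fun w => β w' w)
  have h2 : ∑ w, β w' (w + u) = (∑ w, β w' w) * β w' u := by
    rw [Finset.sum_mul]
    exact Finset.sum_congr rfl (fun w _ => h.beta_add_right w' w u)
  rw [h2] at h1
  by_contra h0
  apply hu
  exact mul_left_cancel₀ h0 (by rw [h1, mul_one])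

/-- Projection on the eigenspace of `w`. -/
noncomputable def Heis.pr (h : Heis π ρ β) (w : W) : Module.End K L →ₗ[K] Module.End K L :=
  ((Fintype.card W : K))⁻¹ • ∑ w', (β w' w)⁻¹ • cntcj ρ (h.lft w')

theorem Heis.pr_apply (h : Heis π ρ β) (w : W) (T : Module.End K L) :
    h.pr w T = ((Fintype.card W : K))⁻¹ • ∑ w', (β w' w)⁻¹ • cntcj ρ (h.lft w') T := by
  simp [Heis.pr]

theorem Heis.pr_mem [Nontrivial L] (h : Heis π ρ β) (w : W) (T : Module.End K L) (g : A) :
    cntcj ρ g (h.pr w T) = β (π g) w • h.pr w T := by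
  rw [h.pr_apply, map_smul, map_sum, smul_comm (β (π g) w)]
  congr 1
  rw [Finset.smul_sum, ← Equiv.sum_comp (Equiv.addLeft (π g))
    (fun w' => β (π g) w • (β w' w)⁻¹ • cntcj ρ (h.lft w') T)]
  refine Finset.sum_congr rfl (fun w' _ => ?_)
  rw [map_smul, Equiv.coe_addLeft, ← cnt_cj_mul, h.beta_add_left, smul_smul]
  have h1 : cntcj ρ (g * h.lft w') T = cntcj ρ (h.lft (π g + w')) T := by
    apply h.cj_congr
    rw [h.add, h.cnt_lft_spec, h.cnt_lft_spec]
  rw [h1]
  congr 1
  have := h.beta_ne (π g) w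
  have := h.beta_ne w' w
  field_simp

theorem Heis.sum_pr [Nontrivial L] (h : Heis π ρ β) (hc : (Fintype.card W : K) ≠ 0)
    (T : Module.End K L) : ∑ w, h.pr w T = T := by
  classical
  simp only [h.pr_apply]
  rw [← Finset.smul_sum, Finset.sum_comm]
  have h1 : ∀ w' : W, ∑ w, (β w' w)⁻¹ • cntcj ρ (h.lft w') T =
      if w' = 0 then (Fintype.card W : K) • T else 0 := by
    intro w'
    rw [← Finset.sum_smul]
    split_ifs with h0
    · subst h0
      have h2 : ∑ w, (β 0 w)⁻¹ = (Fintype.card W : K) := by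
        simp [h.beta_zero_left]
      rw [h2]
      have h3 : cntcj ρ (h.lft 0) T = cntcj ρ (1 : A) T := by
        apply h.cj_congr
        rw [h.cnt_lft_spec, h.map_one]
      rw [h3, cnt_cj_apply]
      simp
    · have h2 : ∑ w, (β w' w)⁻¹ = ∑ w, β (-w') w :=
        Finset.sum_congr rfl (fun w _ => (h.beta_neg_left w' w).symm)
      rw [h2, h.cnt_sum_right (-w') (neg_ne_zero.mpr h0), zero_smul]
  simp only [h1]
  rw [Finset.sum_ite_eq' Finset.univ (0 : W) (fun _ => (Fintype.card W : K) • T)]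
  simp only [Finset.mem_univ, if_true]
  rw [smul_smul, inv_mul_cancel₀ hc, one_smul]

theorem Heis.pr_of_mem [Nontrivial L] [DecidableEq W] (h : Heis π ρ β)
    (hc : (Fintype.card W : K) ≠ 0)
    (w : W) (S : Module.End K L) (hS : ∀ g, cntcj ρ g S = β (π g) w • S) (w₁ : W) :
    h.pr w₁ S = if w = w₁ then S else 0 := by
  rw [h.pr_apply]
  have h1 : ∀ w' : W, (β w' w₁)⁻¹ • cntcj ρ (h.lft w') S = β w' (w - w₁) • S := by
    intro w'
    rw [hS, h.cnt_lft_spec, smul_smul, sub_eq_add_neg, h.beta_add_right, h.beta_neg_right]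
    congr 1
    ring
  simp only [h1]
  rw [← Finset.sum_smul]
  split_ifs with h0
  · subst h0
    have h2 : ∑ w', β w' (w - w) = (Fintype.card W : K) := by
      simp [h.beta_zero_right]
    rw [h2, smul_smul, inv_mul_cancel₀ hc, one_smul]
  · rw [h.cnt_sum_left (w - w₁) (sub_ne_zero.mpr h0), zero_smul, smul_zero]

/-- Membership in `E0` in terms of conjugation. -/
theorem cnt_mem_E0_of_cj {T : Module.End K L} (hT : ∀ g, cntcj ρ g T = T) : T ∈ E0 ρ := by
  intro g
  have h1 := hT g
  rw [cnt_cj_apply] at h1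
  calc T * ρ g = (ρ g * T * ρ g⁻¹) * ρ g := by rw [h1]
    _ = ρ g * T * (ρ g⁻¹ * ρ g) := by simp only [mul_assoc]
    _ = ρ g * T := by rw [cnt_rho_inv_mul, mul_one]

/-- Shifting from the eigenspace of `w` to `E0`. -/
theorem Heis.cnt_shift_mem (h : Heis π ρ β) (w : W) (S : Module.End K L)
    (hS : ∀ g, cntcj ρ g S = β (π g) w • S) : S * ρ (h.lft w)⁻¹ ∈ E0 ρ := by
  intro g
  have h1 := hS g
  rw [cnt_cj_apply] at h1
  have h2 : ρ g * S = β (π g) w • (S * ρ g) := by
    calc ρ g * S = (ρ g * S * ρ g⁻¹) * ρ g := by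
          rw [mul_assoc (ρ g * S), cnt_rho_inv_mul, mul_one]
      _ = β (π g) w • (S * ρ g) := by rw [h1, smul_mul_assoc]
  have h3 := h.comm g (h.lft w)
  rw [h.cnt_lft_spec] at h3
  -- ρ g * ρ l = b • (ρ l * ρ g)
  have h4 : ρ (h.lft w)⁻¹ * ρ g = β (π g) w • (ρ g * ρ (h.lft w)⁻¹) := by
    calc ρ (h.lft w)⁻¹ * ρ g = ρ (h.lft w)⁻¹ * (ρ g * ρ (h.lft w)) * ρ (h.lft w)⁻¹ := by
          rw [mul_assoc, mul_assoc (ρ g), cnt_rho_mul_inv, mul_one]
      _ = β (π g) w • (ρ g * ρ (h.lft w)⁻¹) := by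
          rw [h3, mul_smul_comm, smul_mul_assoc, ← mul_assoc, cnt_rho_inv_mul, one_mul]
  rw [mul_assoc, h4, mul_smul_comm, ← mul_assoc, ← mul_assoc, h2, smul_mul_assoc]

theorem Heis.cnt_unshift_mem (h : Heis π ρ β) (w : W) (T : Module.End K L) (hT : T ∈ E0 ρ) (g : A) :
    cntcj ρ g (T * ρ (h.lft w)) = β (π g) w • (T * ρ (h.lft w)) := by
  have h1 := hT g
  have h3 := h.comm g (h.lft w)
  rw [h.cnt_lft_spec] at h3
  rw [cnt_cj_apply, ← mul_assoc, ← h1, mul_assoc T, h3, mul_smul_comm, smul_mul_assoc]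
  congr 1
  rw [mul_assoc, mul_assoc, cnt_rho_mul_inv, mul_one]

theorem Heis.finrank_sq [Nontrivial L] [FiniteDimensional K L] (h : Heis π ρ β)
    (hc : (Fintype.card W : K) ≠ 0) :
    (finrank K L) ^ 2 = Fintype.card W * finrank K (E0 ρ) := by
  classical
  let Ψ : (W → E0 ρ) →ₗ[K] Module.End K L :=
    { toFun := fun f => ∑ w, (f w : Module.End K L) * ρ (h.lft w)
      map_add' := by
        intro f g
        rw [← Finset.sum_add_distrib]
        refine Finset.sum_congr rfl (fun w _ => ?_)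
        rw [Pi.add_apply, Submodule.coe_add, add_mul]
      map_smul' := by
        intro c f
        rw [RingHom.id_apply, Finset.smul_sum]
        refine Finset.sum_congr rfl (fun w _ => ?_)
        rw [Pi.smul_apply, Submodule.coe_smul, smul_mul_assoc] }
  have hΨ : ∀ f, Ψ f = ∑ w, (f w : Module.End K L) * ρ (h.lft w) := fun f => rfl
  have hbij : Function.Bijective Ψ := by
    constructor
    · rw [injective_iff_map_eq_zero]
      intro f hf
      ext1 w
      have h1 : h.pr w (Ψ f) = (f w : Module.End K L) * ρ (h.lft w) := by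
        rw [hΨ, map_sum]
        have h2 : ∀ w' : W, h.pr w ((f w' : Module.End K L) * ρ (h.lft w')) =
            if w' = w then (f w' : Module.End K L) * ρ (h.lft w') else 0 := by
          intro w'
          exact h.pr_of_mem hc w' _ (h.cnt_unshift_mem w' _ (f w').2) w
        simp only [h2]
        rw [Finset.sum_ite_eq' Finset.univ w (fun w' => (f w' : Module.End K L) * ρ (h.lft w'))]
        simp
      rw [hf, map_zero] at h1
      have h2 : (f w : Module.End K L) = 0 := by
        calc (f w : Module.End K L) = ((f w : Module.End K L) * ρ (h.lft w)) *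
              ρ (h.lft w)⁻¹ := by rw [mul_assoc, cnt_rho_mul_inv, mul_one]
          _ = 0 := by rw [← h1, zero_mul]
      exact Subtype.ext h2
    · intro T
      refine ⟨fun w => ⟨h.pr w T * ρ (h.lft w)⁻¹, h.cnt_shift_mem w _ (h.pr_mem w T)⟩, ?_⟩
      rw [hΨ]
      conv_rhs => rw [← h.sum_pr hc T]
      refine Finset.sum_congr rfl (fun w _ => ?_)
      change h.pr w T * ρ (h.lft w)⁻¹ * ρ (h.lft w) = h.pr w T
      rw [mul_assoc, cnt_rho_inv_mul, mul_one]
  have h1 := (LinearEquiv.ofBijective Ψ hbij).finrank_eq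
  have h2 : finrank K (Module.End K L) = finrank K L * finrank K L :=
    Module.finrank_linearMap K K L L
  rw [Module.finrank_pi_fintype, h2] at h1
  rw [sq, ← h1]
  simp

end cnt

/-- Commuting operators: transport of the projections by `x`. -/
theorem Heis.pr_comm {K A W L : Type*} [Field K] [Group A] [AddCommGroup W] [Fintype W]
    [AddCommGroup L] [Module K L] [Nontrivial L]
    {π : A → W} {ρ : Representation K A L} {β : W → W → K} (h : Heis π ρ β)
    (x : Module.End K L) (hxi : Function.Injective x) (φ : A → A) (σ : W ≃+ W)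
    (hx : ∀ g, x * ρ g = ρ (φ g) * x) (hφ : ∀ g, π (φ g) = σ (π g))
    (T : Module.End K L) (hT : T * x = x * T) (w : W) :
    x * h.pr w T = h.pr (σ w) T * x := by
  rw [h.pr_apply, h.pr_apply, mul_smul_comm, smul_mul_assoc, Finset.mul_sum, Finset.sum_mul]
  congr 1
  rw [← Equiv.sum_comp σ.toEquiv (fun w' => (β w' (σ w))⁻¹ • cntcj ρ (h.lft w') T * x)]
  refine Finset.sum_congr rfl (fun w' _ => ?_)
  have h1 : σ.toEquiv w' = σ w' := rfl
  rw [h1, h.beta_inv x hxi φ σ hx hφ, mul_smul_comm, smul_mul_assoc]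
  congr 1
  have h2 : cntcj ρ (h.lft (σ w')) T = cntcj ρ (φ (h.lft w')) T := by
    apply h.cj_congr
    rw [h.cnt_lft_spec, hφ, h.cnt_lft_spec]
  rw [h2, cnt_cj_apply, cnt_cj_apply]
  set g := h.lft w'
  have h3 : x * ρ g⁻¹ = ρ (φ g)⁻¹ * x := by
    calc x * ρ g⁻¹ = ρ (φ g)⁻¹ * (ρ (φ g) * x) * ρ g⁻¹ := by
          rw [← mul_assoc, cnt_rho_inv_mul, one_mul]
      _ = ρ (φ g)⁻¹ * x := by
          rw [← hx g, mul_assoc, mul_assoc x, cnt_rho_mul_inv, mul_one]
  calc x * (ρ g * T * ρ g⁻¹) = (x * ρ g) * T * ρ g⁻¹ := by simp only [mul_assoc]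
    _ = ρ (φ g) * (x * T) * ρ g⁻¹ := by rw [hx g]; simp only [mul_assoc]
    _ = ρ (φ g) * T * (x * ρ g⁻¹) := by rw [← hT]; simp only [mul_assoc]
    _ = ρ (φ g) * T * ρ (φ g)⁻¹ * x := by rw [h3]; simp only [mul_assoc]

/-- Representatives of the orbits of a permutation all of whose nontrivial orbits have length
exactly `P`. -/
theorem cnt_orbit_reps {W : Type*} [AddCommGroup W] [Finite W] (σ : W ≃+ W) (P : ℕ) (hP0 : 0 < P)
    (hfree : ∀ w, w ≠ 0 → ∀ m, 0 < m → m < P → (σ^[m]) w ≠ w) (hP1 : ∀ w, (σ^[P]) w = w) :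
    ∃ R : Finset W, R.card * P = Nat.card W - 1 ∧
      ∀ w : W, w ≠ 0 → ∃ r ∈ R, ∃ i : ℕ, (σ^[i]) r = w := by
  classical
  haveI : Fintype W := Fintype.ofFinite W
  have hz : ∀ i, (σ^[i]) (0 : W) = 0 := by
    intro i
    exact iterate_map_zero σ i
  have hinj : ∀ i, Function.Injective (σ^[i]) := fun i => σ.injective.iterate i
  have hPk : ∀ k w, (σ^[P * k]) w = w := by
    intro k
    induction k with
    | zero => intro w; simp
    | succ n ih =>
      intro w
      rw [Nat.mul_succ, Function.iterate_add_apply, hP1, ih]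
  have hmod : ∀ i w, (σ^[i % P]) w = (σ^[i]) w := by
    intro i w
    conv_rhs => rw [← Nat.mod_add_div i P]
    rw [Function.iterate_add_apply, hPk]
  let s : Setoid {w : W // w ≠ 0} :=
    { r := fun a b => ∃ i : ℕ, (σ^[i]) a.1 = b.1
      iseqv :=
        { refl := fun a => ⟨0, rfl⟩
          symm := by
            rintro a b ⟨i, hi⟩
            refine ⟨P * i - i, ?_⟩
            rw [← hi, ← Function.iterate_add_apply]
            have h1 : P * i - i + i = P * i := by
              have : i ≤ P * i := Nat.le_mul_of_pos_left i hP0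
              omega
            rw [h1, hPk]
          trans := by
            rintro a b c ⟨i, hi⟩ ⟨j, hj⟩
            exact ⟨j + i, by rw [Function.iterate_add_apply, hi, hj]⟩ } }
  haveI : Fintype (Quotient s) := Fintype.ofFinite _
  have hne : ∀ (w : {w : W // w ≠ 0}) (i : ℕ), (σ^[i]) w.1 ≠ 0 := by
    intro w i h0
    apply w.2
    apply hinj i
    rw [h0, hz]
  let e : Quotient s × Fin P → {w : W // w ≠ 0} := fun a =>
    ⟨(σ^[a.2.1]) (Quotient.out a.1).1, hne _ _⟩
  have hebij : Function.Bijective e := by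
    constructor
    · rintro ⟨a, i⟩ ⟨b, j⟩ hab
      have h1 : (σ^[i.1]) (Quotient.out a).1 = (σ^[j.1]) (Quotient.out b).1 :=
        congrArg Subtype.val hab
      have h2 : a = b := by
        rw [← Quotient.out_eq a, ← Quotient.out_eq b]
        have h3 : s.r (Quotient.out a) ⟨(σ^[i.1]) (Quotient.out a).1, hne _ _⟩ := ⟨i.1, rfl⟩
        have h4 : s.r (Quotient.out b) ⟨(σ^[j.1]) (Quotient.out b).1, hne _ _⟩ := ⟨j.1, rfl⟩
        have h5 : s.r (Quotient.out b) ⟨(σ^[i.1]) (Quotient.out a).1, hne _ _⟩ := by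
          obtain ⟨t, ht⟩ := h4
          exact ⟨t, by rw [ht]; exact h1.symm⟩
        exact Quotient.sound (s.iseqv.trans h3 (s.iseqv.symm h5))
      subst h2
      have h3 : ∀ i j : ℕ, i < P → j < P → i ≤ j →
          (σ^[i]) (Quotient.out a).1 = (σ^[j]) (Quotient.out a).1 → i = j := by
        intro i j hi hj hij h4
        by_contra hne'
        have hlt : i < j := lt_of_le_of_ne hij hne'
        have h5 : (σ^[i]) ((σ^[j - i]) (Quotient.out a).1) = (σ^[i]) (Quotient.out a).1 := by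
          rw [← Function.iterate_add_apply, Nat.add_sub_cancel' hij, h4]
        exact hfree _ (Quotient.out a).2 (j - i) (by omega) (by omega) (hinj i h5)
      have h4 : i.1 = j.1 := by
        rcases le_total i.1 j.1 with h5 | h5
        · exact h3 _ _ i.2 j.2 h5 h1
        · exact (h3 _ _ j.2 i.2 h5 h1.symm).symm
      rw [Prod.mk.injEq]
      exact ⟨rfl, Fin.ext h4⟩
    · intro w
      obtain ⟨i, hi⟩ := Quotient.exact (Quotient.out_eq (⟦w⟧ : Quotient s))
      refine ⟨(⟦w⟧, ⟨i % P, Nat.mod_lt _ hP0⟩), ?_⟩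
      apply Subtype.ext
      change (σ^[i % P]) (Quotient.out (⟦w⟧ : Quotient s)).1 = w.1
      rw [hmod, hi]
  have hcard := Fintype.card_of_bijective hebij
  rw [Fintype.card_prod, Fintype.card_fin] at hcard
  refine ⟨Finset.univ.image (fun a : Quotient s => (Quotient.out a).1), ?_, ?_⟩
  · rw [Finset.card_image_of_injective, Finset.card_univ, hcard]
    · rw [Fintype.card_subtype_compl, Nat.card_eq_fintype_card]
      simp
    · intro a b hab
      have h1 : Quotient.out a = Quotient.out b := Subtype.ext hab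
      rw [← Quotient.out_eq a, ← Quotient.out_eq b, h1]
  · intro w hw
    obtain ⟨⟨a, i⟩, hai⟩ := hebij.2 ⟨w, hw⟩
    refine ⟨(Quotient.out a).1, Finset.mem_image_of_mem _ (Finset.mem_univ a), i.1, ?_⟩
    exact congrArg Subtype.val hai

theorem cnt_injective_of_unip {K L : Type*} [Field K] [AddCommGroup L] [Module K L]
    (x : Module.End K L) (M : ℕ) (hM : (x - 1) ^ M = 0) : Function.Injective x := by
  rw [injective_iff_map_eq_zero]
  intro v hv
  have h1 : ∀ m : ℕ, ((x - 1) ^ m) v = (-1 : K) ^ m • v := by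
    intro m
    induction m with
    | zero => simp
    | succ n ih =>
      rw [pow_succ', Module.End.mul_apply, ih, map_smul, LinearMap.sub_apply, hv, pow_succ']
      simp
  have h2 := h1 M
  rw [hM, LinearMap.zero_apply] at h2
  rcases smul_eq_zero.mp h2.symm with h3 | h3
  · exact absurd h3 (pow_ne_zero _ (neg_ne_zero.mpr one_ne_zero))
  · exact h3

/-- **CNT**: the counting lemma.  `x` normalises the Heisenberg action and permutes `W ∖ {0}` with
all orbits of length exactly `P`. -/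
theorem heis_count {K A W L : Type*} [Field K] [Group A] [AddCommGroup W] [Finite W]
    [AddCommGroup L] [Module K L] [FiniteDimensional K L] [Nontrivial L]
    {π : A → W} {ρ : Representation K A L} {β : W → W → K} (h : Heis π ρ β)
    (hcard : (Nat.card W : K) ≠ 0)
    (x : Module.End K L) (φ : A → A) (σ : W ≃+ W)
    (hx : ∀ g, x * ρ g = ρ (φ g) * x) (hφ : ∀ g, π (φ g) = σ (π g))
    (M : ℕ) (hM : (x - 1) ^ M = 0) (P : ℕ) (hP0 : 0 < P)
    (hfree : ∀ w, w ≠ 0 → ∀ m, 0 < m → m < P → (σ^[m]) w ≠ w) (hP1 : ∀ w, (σ^[P]) w = w) :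
    (finrank K L) ^ 2 = Nat.card W * finrank K (E0 ρ) ∧ P ∣ Nat.card W - 1 ∧
    Nat.card W * finrank K (E0 ρ) ≤
      M * (finrank K ↥(E0 ρ ⊓ Cm x) + (Nat.card W - 1) / P * finrank K (E0 ρ)) := by
  classical
  haveI : Fintype W := Fintype.ofFinite W
  have hxi := cnt_injective_of_unip x M hM
  have hcF : (Fintype.card W : K) ≠ 0 := by rwa [← Nat.card_eq_fintype_card]
  have hsq := h.finrank_sq hcF
  rw [← Nat.card_eq_fintype_card] at hsq
  obtain ⟨R, hRc, hR⟩ := cnt_orbit_reps σ P hP0 hfree hP1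
  have hRdiv : (Nat.card W - 1) / P = R.card := by
    rw [← hRc]
    exact Nat.mul_div_cancel _ hP0
  refine ⟨hsq, ⟨R.card, by rw [← hRc, mul_comm]⟩, ?_⟩
  rw [← hsq]
  refine le_trans (comm_bound (x - 1) M hM) (Nat.mul_le_mul_left M ?_)
  have hCm : Cm (x - 1) = Cm x := by
    ext T
    rw [mem_Cm, mem_Cm, mul_sub, sub_mul, mul_one, one_mul]
    exact sub_left_inj
  rw [hCm, hRdiv]
  have hp0 : ∀ T ∈ Cm x, h.pr 0 T ∈ E0 ρ ⊓ Cm x := by
    intro T hT
    refine ⟨?_, ?_⟩
    · apply cnt_mem_E0_of_cj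
      intro g
      rw [h.pr_mem, h.beta_zero_right, one_smul]
    · have h1 := h.pr_comm x hxi φ σ hx hφ T hT 0
      rw [map_zero] at h1
      exact h1.symm
  let Θ : Cm x →ₗ[K] ↥(E0 ρ ⊓ Cm x) × (R → E0 ρ) :=
    { toFun := fun T => (⟨h.pr 0 T.1, hp0 _ T.2⟩,
        fun r => ⟨h.pr r.1 T.1 * ρ (h.lft r.1)⁻¹, h.cnt_shift_mem r.1 _ (h.pr_mem r.1 T.1)⟩)
      map_add' := by
        intro a b
        refine Prod.ext ?_ ?_
        · apply Subtype.ext
          change h.pr 0 (a.1 + b.1) = h.pr 0 a.1 + h.pr 0 b.1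
          rw [map_add]
        · funext r
          apply Subtype.ext
          change h.pr r.1 (a.1 + b.1) * ρ (h.lft r.1)⁻¹ =
            h.pr r.1 a.1 * ρ (h.lft r.1)⁻¹ + h.pr r.1 b.1 * ρ (h.lft r.1)⁻¹
          rw [map_add, add_mul]
      map_smul' := by
        intro c a
        refine Prod.ext ?_ ?_
        · apply Subtype.ext
          change h.pr 0 (c • a.1) = c • h.pr 0 a.1
          rw [map_smul]
        · funext r
          apply Subtype.ext
          change h.pr r.1 (c • a.1) * ρ (h.lft r.1)⁻¹ =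
            c • (h.pr r.1 a.1 * ρ (h.lft r.1)⁻¹)
          rw [map_smul, smul_mul_assoc] }
  have hΘ : Function.Injective Θ := by
    rw [injective_iff_map_eq_zero]
    intro T hT
    have h0 : h.pr 0 T.1 = 0 := congrArg (fun a => (a.1 : Module.End K L)) hT
    have hr : ∀ r ∈ R, h.pr r T.1 = 0 := by
      intro r hr
      have h1 : h.pr r T.1 * ρ (h.lft r)⁻¹ = 0 :=
        congrArg (fun a => (a.2 ⟨r, hr⟩ : Module.End K L)) hT
      calc h.pr r T.1 = (h.pr r T.1 * ρ (h.lft r)⁻¹) * ρ (h.lft r) := by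
            rw [mul_assoc, cnt_rho_inv_mul, mul_one]
        _ = 0 := by rw [h1, zero_mul]
    have hit : ∀ (i : ℕ) (w : W), h.pr w T.1 = 0 → h.pr ((σ^[i]) w) T.1 = 0 := by
      intro i
      induction i with
      | zero => intro w hw; simpa using hw
      | succ n ih =>
        intro w hw
        rw [Function.iterate_succ_apply']
        have h1 := h.pr_comm x hxi φ σ hx hφ T.1 T.2 ((σ^[n]) w)
        rw [ih w hw, mul_zero] at h1
        -- 0 = pr (σ ..) * x, x surjective
        have hsurj : Function.Surjective x := LinearMap.injective_iff_surjective.mp hxi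
        ext v
        obtain ⟨u, rfl⟩ := hsurj v
        have h2 := LinearMap.congr_fun h1 u
        simpa using h2.symm
    have hall : ∀ w, h.pr w T.1 = 0 := by
      intro w
      by_cases hw : w = 0
      · rw [hw]; exact h0
      · obtain ⟨r, hrR, i, hi⟩ := hR w hw
        rw [← hi]
        exact hit i r (hr r hrR)
    apply Subtype.ext
    have h2 := h.sum_pr hcF T.1
    rw [← h2]
    change ∑ w, h.pr w T.1 = 0
    exact Finset.sum_eq_zero (fun w _ => hall w)
  have h1 := LinearMap.finrank_le_finrank_of_injective hΘ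
  rw [Module.finrank_prod, Module.finrank_pi_fintype] at h1
  simpa using h1

end H60SH
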