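import Mathlib
import Pool.Agent.H60.SH.Defs
import Pool.Agent.H60.SH.CNT

namespace H60SH

open Module

/-- **SQR**: over an algebraically closed field the order of `W` is a square. -/
theorem heis_square {K A W L : Type*} [Field K] [IsAlgClosed K] [Group A] [AddCommGroup W]
    [Finite W] [AddCommGroup L] [Module K L] [FiniteDimensional K L] [Nontrivial L]
    {π : A → W} {ρ : Representation K A L} {β : W → W → K} (h : Heis π ρ β)
    (hcard : (Nat.card W : K) ≠ 0) : ∃ r : ℕ, Nat.card W = r * r := by
  classical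
  set Pr : Submodule K L → Prop := fun U => U ≠ ⊥ ∧ ∀ g, ∀ v ∈ U, ρ g v ∈ U with hPr
  have hex : ∃ n, ∃ U : Submodule K L, Pr U ∧ finrank K U = n :=
    ⟨_, ⊤, ⟨top_ne_bot, fun _ _ _ => Submodule.mem_top⟩, rfl⟩
  obtain ⟨U, ⟨hU0, hUi⟩, hUn⟩ := Nat.find_spec hex
  have hmin : ∀ U' : Submodule K L, Pr U' → finrank K U ≤ finrank K U' := by
    intro U' h'
    rw [hUn]; exact Nat.find_min' hex ⟨U', h', rfl⟩
  have : Nontrivial U := Submodule.nontrivial_iff_ne_bot.2 hU0
  -- the restricted representation
  let ρ0 : Representation K A U :=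
    { toFun := fun g => (ρ g).restrict (hUi g)
      map_one' := by
        ext v
        simp [LinearMap.restrict_apply]
      map_mul' := by
        intro g k
        ext v
        simp [LinearMap.restrict_apply] }
  have hρ0 : ∀ g (v : U), ((ρ0 g v : U) : L) = ρ g v := fun g v => rfl
  have h0 : Heis π ρ0 β := by
    refine ⟨h.surj, h.add, ?_, ?_, h.nd⟩
    · intro g hg
      obtain ⟨c, hc⟩ := h.sc g hg
      refine ⟨c, ?_⟩
      ext v
      rw [hρ0, hc]
      simp
    · intro g k
      ext v
      have := congrArg (fun T : Module.End K L => T (v : L)) (h.comm g k)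
      simpa [hρ0] using this
  -- Schur
  have hschur : ∀ T ∈ E0 ρ0, ∃ c : K, c • (1 : Module.End K U) = T := by
    intro T hT
    obtain ⟨μ, hμ⟩ := Module.End.exists_eigenvalue T
    set N := Module.End.eigenspace T μ with hN
    have hN0 : N ≠ ⊥ := hμ
    have hNi : ∀ g, ∀ v ∈ N, ρ0 g v ∈ N := by
      intro g v hv
      rw [hN, Module.End.mem_eigenspace_iff] at hv ⊢
      have h1 := congrArg (fun T : Module.End K U => T v) (hT g)
      simp only [Module.End.mul_apply] at h1
      rw [h1, hv, _root_.map_smul]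
    have hm := hmin (N.map U.subtype) ⟨by
        intro hb
        apply hN0
        rw [eq_bot_iff]
        intro v hv
        have : (v : L) ∈ N.map U.subtype := ⟨v, hv, rfl⟩
        rw [hb, Submodule.mem_bot] at this
        rw [Submodule.mem_bot]
        exact Subtype.ext this, by
        rintro g _ ⟨v, hv, rfl⟩
        exact ⟨ρ0 g v, hNi g v hv, rfl⟩⟩
    rw [Submodule.finrank_map_subtype_eq] at hm
    have hNt : N = ⊤ := Submodule.eq_top_of_finrank_eq (le_antisymm (Submodule.finrank_le N) hm)
    refine ⟨μ, ?_⟩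
    ext v
    have hv : v ∈ N := by rw [hNt]; exact Submodule.mem_top
    rw [hN, Module.End.mem_eigenspace_iff] at hv
    rw [hv]; simp
  have hE : finrank K (E0 ρ0) = 1 := by
    have h1mem : (1 : Module.End K U) ∈ E0 ρ0 := by
      intro g; rw [one_mul, mul_one]
    rw [finrank_eq_one_iff_of_nonzero' (⟨1, h1mem⟩ : E0 ρ0)]
    · rintro ⟨T, hT⟩
      obtain ⟨c, hc⟩ := hschur T hT
      exact ⟨c, Subtype.ext hc⟩
    · intro h1
      have h2 : (1 : Module.End K U) = 0 := congrArg Subtype.val h1
      exact one_ne_zero h2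
  have hc := (heis_count h0 hcard (1 : Module.End K U) id (AddEquiv.refl W) (by
      intro g; rw [one_mul, mul_one]; rfl) (fun g => rfl) 1 (by simp) 1 one_pos
    (fun w _ m hm hm1 => by omega) (fun w => rfl)).1
  rw [hE, mul_one] at hc
  exact ⟨finrank K U, by rw [← hc]; ring⟩

end H60SH
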