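import Mathlib
import Pool.Agent.H60.SH.Defs
import Pool.Agent.H60.SH.CNT
import Pool.Agent.H60.SH.SQR

namespace H60SH

open Module

private theorem E0_pos {K A L : Type*} [Field K] [Group A] [AddCommGroup L] [Module K L]
    [FiniteDimensional K L] [Nontrivial L] (ρ : Representation K A L) :
    0 < finrank K (E0 ρ) := by
  rw [Module.finrank_pos_iff]
  refine ⟨⟨⟨0, (E0 ρ).zero_mem⟩, ⟨1, ?_⟩, ?_⟩⟩
  · rw [mem_E0]
    intro g
    rw [one_mul, mul_one]
  · intro h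
    have h1 : (0 : Module.End K L) = 1 := congrArg Subtype.val h
    exact zero_ne_one h1

private theorem inf_le' {K A L : Type*} [Field K] [Group A] [AddCommGroup L] [Module K L]
    [FiniteDimensional K L] (ρ : Representation K A L) (x : Module.End K L) :
    finrank K ↥(E0 ρ ⊓ Cm x) ≤ finrank K (E0 ρ) :=
  Submodule.finrank_mono inf_le_left

/-- **U1** -/
theorem heis_U1 {K A W L : Type*} [Field K] [Group A] [AddCommGroup W] [Finite W]
    [AddCommGroup L] [Module K L] [FiniteDimensional K L] [Nontrivial L]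
    {π : A → W} {ρ : Representation K A L} {β : W → W → K} (h : Heis π ρ β)
    (hcard : (Nat.card W : K) ≠ 0)
    (x : Module.End K L) (φ : A → A) (σ : W ≃+ W)
    (hx : ∀ g, x * ρ g = ρ (φ g) * x) (hφ : ∀ g, π (φ g) = σ (π g))
    (P : ℕ) (hP0 : 3 ≤ P) (hM : (x - 1) ^ (P - 1) = 0)
    (hfree : ∀ w, w ≠ 0 → ∀ m, 0 < m → m < P → (σ^[m]) w ≠ w) (hP1 : ∀ w, (σ^[P]) w = w) :
    Nat.card W ≤ (P - 1) ^ 2 := by
  obtain ⟨_, h2, h3⟩ := heis_count h hcard x φ σ hx hφ (P - 1) hM P (by omega) hfree hP1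
  have hb := E0_pos ρ
  have hb' := inf_le' ρ x
  have hn : 0 < Nat.card W := Nat.card_pos
  obtain ⟨t, ht⟩ := h2
  obtain ⟨Q, rfl⟩ : ∃ Q, P = Q + 1 := ⟨P - 1, by omega⟩
  have htdiv : (Nat.card W - 1) / (Q + 1) = t := by
    rw [ht]; exact Nat.mul_div_cancel_left t (by omega)
  rw [htdiv] at h3
  have hn' : Nat.card W = (Q + 1) * t + 1 := by omega
  rw [Nat.add_sub_cancel] at h3 ⊢
  rw [hn'] at h3 ⊢
  set b := finrank K (E0 ρ) with hbdef
  set b' := finrank K ↥(E0 ρ ⊓ Cm x) with hb'def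
  have h4 : ((Q + 1) * t + 1) * b ≤ (Q * (1 + t)) * b := by
    calc ((Q + 1) * t + 1) * b ≤ Q * (b' + t * b) := h3
      _ ≤ Q * (b + t * b) := Nat.mul_le_mul_left _ (Nat.add_le_add_right hb' _)
      _ = (Q * (1 + t)) * b := by ring
  have h5 : (Q + 1) * t + 1 ≤ Q * (1 + t) := Nat.le_of_mul_le_mul_right h4 hb
  have h6 : t + 1 ≤ Q := by nlinarith
  obtain ⟨s, rfl⟩ : ∃ s, Q = t + 1 + s := ⟨Q - (t + 1), by omega⟩
  nlinarith [Nat.zero_le s, Nat.zero_le t, Nat.zero_le (s * t), Nat.zero_le (s * s)]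

/-- **U2**: for `P` a power of an odd prime and `W ≠ 0` there is equality, and the commutant of
the Heisenberg action commutes with `x`. -/
theorem heis_U2 {K A W L : Type*} [Field K] [IsAlgClosed K] [Group A] [AddCommGroup W] [Finite W]
    [Nontrivial W]
    [AddCommGroup L] [Module K L] [FiniteDimensional K L] [Nontrivial L]
    {π : A → W} {ρ : Representation K A L} {β : W → W → K} (h : Heis π ρ β)
    (hcard : (Nat.card W : K) ≠ 0)
    (x : Module.End K L) (φ : A → A) (σ : W ≃+ W)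
    (hx : ∀ g, x * ρ g = ρ (φ g) * x) (hφ : ∀ g, π (φ g) = σ (π g))
    (p k : ℕ) (hp : p.Prime) (hp2 : p ≠ 2) (hk : 1 ≤ k) (hM : (x - 1) ^ (p ^ k - 1) = 0)
    (hfree : ∀ w, w ≠ 0 → ∀ m, 0 < m → m < p ^ k → (σ^[m]) w ≠ w)
    (hP1 : ∀ w, (σ^[p ^ k]) w = w) :
    Nat.card W = (p ^ k - 1) ^ 2 ∧ ∀ T ∈ E0 ρ, T * x = x * T := by
  have hp3 : 3 ≤ p := by
    have := hp.two_le
    omega
  have hP3 : 3 ≤ p ^ k := by
    calc 3 ≤ p := hp3
      _ = p ^ 1 := (pow_one p).symm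
      _ ≤ p ^ k := Nat.pow_le_pow_right (by omega) hk
  have hU1 := heis_U1 h hcard x φ σ hx hφ (p ^ k) hP3 hM hfree hP1
  obtain ⟨_, h2, h3⟩ := heis_count h hcard x φ σ hx hφ (p ^ k - 1) hM (p ^ k) (by omega) hfree hP1
  have hb := E0_pos ρ
  have hb' := inf_le' ρ x
  obtain ⟨r, hr⟩ := heis_square h hcard
  have hn : 1 < Nat.card W := Finite.one_lt_card
  have hr2 : 2 ≤ r := by
    by_contra hcon
    have : r = 0 ∨ r = 1 := by omega
    rcases this with rfl | rfl <;> omega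
  obtain ⟨r', rfl⟩ : ∃ r', r = r' + 1 := ⟨r - 1, by omega⟩
  have hfac : Nat.card W - 1 = r' * (r' + 2) := by
    rw [hr]
    have : (r' + 1) * (r' + 1) = r' * (r' + 2) + 1 := by ring
    omega
  have hor : p ^ k ∣ r' ∨ p ^ k ∣ r' + 2 := by
    rw [hfac] at h2
    by_cases hpr : p ∣ r'
    · left
      have hnot : ¬ p ∣ r' + 2 := by
        intro hcon
        have : p ∣ 2 := (Nat.dvd_add_right hpr).1 hcon
        have := Nat.le_of_dvd (by norm_num) this
        omega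
      have hcop : Nat.Coprime (p ^ k) (r' + 2) :=
        Nat.Coprime.pow_left k ((Nat.Prime.coprime_iff_not_dvd hp).2 hnot)
      exact hcop.dvd_of_dvd_mul_right h2
    · right
      have hcop : Nat.Coprime (p ^ k) r' :=
        Nat.Coprime.pow_left k ((Nat.Prime.coprime_iff_not_dvd hp).2 hpr)
      exact hcop.dvd_of_dvd_mul_left h2
  obtain ⟨Q, hQ⟩ : ∃ Q, p ^ k = Q + 1 := ⟨p ^ k - 1, by omega⟩
  rw [hQ] at h2 h3 hU1 hor ⊢
  rw [Nat.add_sub_cancel] at h3 hU1 ⊢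
  have hrQ : r' + 1 ≤ Q := by
    rw [hr, pow_two] at hU1
    exact Nat.mul_self_le_mul_self_iff.1 hU1
  have hrQ' : r' + 1 = Q := by
    rcases hor with h' | h'
    · have := Nat.le_of_dvd (by omega) h'
      omega
    · have := Nat.le_of_dvd (by omega) h'
      omega
  have hcardW : Nat.card W = Q ^ 2 := by
    rw [hr, hrQ', pow_two]
  refine ⟨hcardW, ?_⟩
  have htdiv : (Nat.card W - 1) / (Q + 1) = Q - 1 := by
    have : Nat.card W - 1 = (Q + 1) * (Q - 1) := by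
      rw [hfac, ← hrQ']
      rw [Nat.add_sub_cancel]
      ring
    rw [this]
    exact Nat.mul_div_cancel_left _ (by omega)
  rw [htdiv, hcardW] at h3
  set b := finrank K (E0 ρ) with hbdef
  set b' := finrank K ↥(E0 ρ ⊓ Cm x) with hb'def
  have h4 : Q * (Q * b) ≤ Q * (b' + (Q - 1) * b) := by
    calc Q * (Q * b) = Q ^ 2 * b := by ring
      _ ≤ Q * (b' + (Q - 1) * b) := h3
  have h5 : Q * b ≤ b' + (Q - 1) * b := Nat.le_of_mul_le_mul_left h4 (by omega)
  have h6 : b ≤ b' := by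
    obtain ⟨s, rfl⟩ : ∃ s, Q = s + 1 := ⟨Q - 1, by omega⟩
    rw [Nat.add_sub_cancel] at h5
    have : (s + 1) * b = b + s * b := by ring
    omega
  have h7 : E0 ρ ⊓ Cm x = E0 ρ :=
    Submodule.eq_of_le_of_finrank_le inf_le_left h6
  intro T hT
  rw [← h7] at hT
  exact hT.2

/-- **U3**: quadratic action. -/
theorem heis_U3 {K A W L : Type*} [Field K] [Group A] [AddCommGroup W] [Finite W]
    [Nontrivial W]
    [AddCommGroup L] [Module K L] [FiniteDimensional K L] [Nontrivial L]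
    {π : A → W} {ρ : Representation K A L} {β : W → W → K} (h : Heis π ρ β)
    (hcard : (Nat.card W : K) ≠ 0)
    (x : Module.End K L) (φ : A → A) (σ : W ≃+ W)
    (hx : ∀ g, x * ρ g = ρ (φ g) * x) (hφ : ∀ g, π (φ g) = σ (π g))
    (p : ℕ) (hp : p.Prime) (hp2 : p ≠ 2) (hM : (x - 1) ^ 2 = 0)
    (hfree : ∀ w, w ≠ 0 → ∀ m, 0 < m → m < p → (σ^[m]) w ≠ w)
    (hP1 : ∀ w, (σ^[p]) w = w) :
    p = 3 ∧ Nat.card W = 4 := by
  have hp3 : 3 ≤ p := by
    have := hp.two_le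
    omega
  obtain ⟨_, h2, h3⟩ := heis_count h hcard x φ σ hx hφ 2 hM p (by omega) hfree hP1
  have hb := E0_pos ρ
  have hb' := inf_le' ρ x
  have hn : 1 < Nat.card W := Finite.one_lt_card
  obtain ⟨t, ht⟩ := h2
  have htdiv : (Nat.card W - 1) / p = t := by
    rw [ht]; exact Nat.mul_div_cancel_left t (by omega)
  rw [htdiv] at h3
  have hn' : Nat.card W = p * t + 1 := by omega
  have ht0 : 0 < t := by
    rcases Nat.eq_zero_or_pos t with h0 | h0
    · rw [h0] at hn'; omega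
    · exact h0
  rw [hn'] at h3
  set b := finrank K (E0 ρ) with hbdef
  set b' := finrank K ↥(E0 ρ ⊓ Cm x) with hb'def
  have h4 : (p * t + 1) * b ≤ (2 * (1 + t)) * b := by
    calc (p * t + 1) * b ≤ 2 * (b' + t * b) := h3
      _ ≤ 2 * (b + t * b) := Nat.mul_le_mul_left _ (Nat.add_le_add_right hb' _)
      _ = (2 * (1 + t)) * b := by ring
  have h5 : p * t + 1 ≤ 2 * (1 + t) := Nat.le_of_mul_le_mul_right h4 hb
  obtain ⟨s, rfl⟩ : ∃ s, p = 3 + s := ⟨p - 3, by omega⟩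
  have h6 : t + s * t ≤ 1 := by nlinarith
  have h7 : t = 1 := by
    have : 0 ≤ s * t := Nat.zero_le _
    omega
  subst h7
  have h8 : s = 0 := by omega
  subst h8
  refine ⟨rfl, ?_⟩
  rw [hn']

end H60SH
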