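import Mathlib
import Pool.Agent.H60.SH.Defs
import Pool.Agent.H60.SH.HEIS
import Pool.Agent.H60.SH.COR

namespace H60SH

open Module

variable {K V F A W : Type*} [Field K] [AddCommGroup V] [Module K V]
  [FiniteDimensional K V] [Nontrivial V] [Group F] [Finite F] [Group A]
  [MulDistribMulAction F A] [AddCommGroup W] [Finite W] [DistribMulAction F W]
  {p q : ℕ} [Fact p.Prime] [CharP K p]
  {π : A → W} {ρA : Representation K A V} {β : W → W → K} {ρF : Representation K F V}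

omit [FiniteDimensional K V] [Nontrivial V] [Finite F] [Finite W] [Fact p.Prime] [CharP K p] in
/-- the restricted system -/
theorem sub_data (S : Sys p q π ρA β ρF)
    {X : AddSubgroup W} {U : Submodule K V} (hs : SubSys π ρA β X U)
    (f : F) (hfX : ∀ w ∈ X, f • w ∈ X) (hfU : ∀ v ∈ U, ρF f v ∈ U) (P : ℕ) (hP0 : 1 ≤ P)
    (hP1 : ∀ w ∈ X, (f ^ P) • w = w) :
    ∃ (A' : Subgroup A) (π' : A' → X) (ρ' : Representation K A' U) (x : Module.End K U)
      (φ : A' → A') (σ : X ≃+ X),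
      Heis π' ρ' (fun u v : X => β (u : W) (v : W)) ∧ (∀ g, x * ρ' g = ρ' (φ g) * x) ∧
      (∀ g, π' (φ g) = σ (π' g)) ∧ (∀ v : U, ((x v : U) : V) = ρF f v) ∧
      (∀ w : X, ((σ w : X) : W) = f • (w : W)) ∧
      (∀ (g : A') (v : U), ((ρ' g v : U) : V) = ρA (g : A) v) ∧
      (∀ g : A', π (g : A) ∈ X) := by
  have hpowX : ∀ n : ℕ, ∀ w ∈ X, (f ^ n) • w ∈ X := by
    intro n
    induction n with
    | zero => intro w hw; rw [pow_zero, one_smul]; exact hw
    | succ n ih => intro w hw; rw [pow_succ', mul_smul]; exact hfX _ (ih w hw)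
  have hinvX : ∀ w ∈ X, f⁻¹ • w ∈ X := by
    intro w hw
    have h1 : f⁻¹ • w = (f ^ (P - 1)) • w := by
      rw [inv_smul_eq_iff, ← mul_smul, ← pow_succ', Nat.sub_add_cancel hP0, hP1 w hw]
    rw [h1]; exact hpowX _ w hw
  let A' : Subgroup A :=
    { carrier := {g | π g ∈ X}
      mul_mem' := by
        intro a b ha hb
        change π (a * b) ∈ X
        rw [S.heis.add]; exact X.add_mem ha hb
      one_mem' := by
        change π 1 ∈ X
        rw [S.heis.map_one]; exact X.zero_mem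
      inv_mem' := by
        intro a ha
        change π a⁻¹ ∈ X
        rw [S.heis.map_inv]; exact X.neg_mem ha }
  have hA' : ∀ g : A', π (g : A) ∈ X := fun g => g.2
  let π' : A' → X := fun g => ⟨π (g : A), g.2⟩
  have hinv : ∀ (g : A'), ∀ v ∈ U, ρA (g : A) v ∈ U := fun g v hv => hs.act g g.2 v hv
  let ρ' : Representation K A' U :=
    { toFun := fun g => (ρA (g : A)).restrict (hinv g)
      map_one' := by
        apply LinearMap.ext; intro v; apply Subtype.ext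
        simp [LinearMap.restrict_apply]
      map_mul' := by
        intro a b
        apply LinearMap.ext; intro v; apply Subtype.ext
        simp [LinearMap.restrict_apply, Module.End.mul_apply] }
  have hρ' : ∀ (g : A') (v : U), ((ρ' g v : U) : V) = ρA (g : A) v := fun g v => rfl
  let x : Module.End K U := (ρF f).restrict hfU
  have hx : ∀ v : U, ((x v : U) : V) = ρF f v := fun v => rfl
  let φ : A' → A' := fun g => ⟨f • (g : A), by
    change π (f • (g : A)) ∈ X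
    rw [S.hπ]; exact hfX _ g.2⟩
  let σ : X ≃+ X :=
    { toFun := fun w => ⟨f • (w : W), hfX _ w.2⟩
      invFun := fun w => ⟨f⁻¹ • (w : W), hinvX _ w.2⟩
      left_inv := by intro w; apply Subtype.ext; exact inv_smul_smul f (w : W)
      right_inv := by intro w; apply Subtype.ext; exact smul_inv_smul f (w : W)
      map_add' := by intro a b; apply Subtype.ext; exact smul_add f (a : W) (b : W) }
  refine ⟨A', π', ρ', x, φ, σ, ⟨?_, ?_, ?_, ?_, ?_⟩, ?_, ?_, hx, fun w => rfl, hρ', hA'⟩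
  · rintro ⟨w, hw⟩
    obtain ⟨g, hg⟩ := S.heis.surj w
    exact ⟨⟨g, by change π g ∈ X; rw [hg]; exact hw⟩, Subtype.ext hg⟩
  · intro g h
    exact Subtype.ext (S.heis.add g h)
  · intro g hg
    obtain ⟨c, hc⟩ := S.heis.sc (g : A) (congrArg Subtype.val hg)
    refine ⟨c, ?_⟩
    apply LinearMap.ext; intro v; apply Subtype.ext
    rw [hρ', hc]; rfl
  · intro g h
    apply LinearMap.ext; intro v; apply Subtype.ext
    have h1 := congrArg (fun T : Module.End K V => T (v : V)) (S.heis.comm (g : A) (h : A))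
    exact h1
  · intro w hw
    obtain ⟨w', hw', h⟩ := hs.nd w w.2 (fun h0 => hw (Subtype.ext h0))
    exact ⟨⟨w', hw'⟩, h⟩
  · intro g
    apply LinearMap.ext; intro v; apply Subtype.ext
    have h1 := congrArg (fun T : Module.End K V => T (v : V)) (S.hρ f (g : A))
    exact h1
  · intro g
    exact Subtype.ext (S.hπ f g)

omit [FiniteDimensional K V] [Nontrivial V] [Finite F] in
theorem sub_pow {U : Submodule K V} (f : F) (x : Module.End K U)
    (hx : ∀ v : U, ((x v : U) : V) = ρF f v) (n : ℕ) (v : U) :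
    ((((x - 1) ^ n) v : U) : V) = ((ρF f - 1) ^ n) (v : V) := by
  induction n generalizing v with
  | zero => simp
  | succ n ih =>
    rw [pow_succ, pow_succ, Module.End.mul_apply, Module.End.mul_apply, ih]
    congr 1
    simp [hx]

omit [Finite F] [Finite W] in
theorem sub_iter {X : AddSubgroup W} (f : F) (σ : X ≃+ X)
    (hσ : ∀ w : X, ((σ w : X) : W) = f • (w : W)) (m : ℕ) (w : X) :
    (((σ^[m]) w : X) : W) = (f ^ m) • (w : W) := by
  induction m generalizing w with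
  | zero => simp
  | succ m ih =>
    rw [Function.iterate_succ_apply, ih, hσ, pow_succ, mul_smul]

/-- **U1** for a `SubSys`. -/
theorem U1_sub (S : Sys p q π ρA β ρF) (hq : q.Prime) (hpq : p ≠ q)
    {X : AddSubgroup W} {U : Submodule K V} (hs : SubSys π ρA β X U)
    (f : F) (hfX : ∀ w ∈ X, f • w ∈ X) (hfU : ∀ v ∈ U, ρF f v ∈ U) (P : ℕ) (hP0 : 3 ≤ P)
    (hM : ∀ v ∈ U, ((ρF f - 1) ^ (P - 1)) v = 0)
    (hfree : ∀ w ∈ X, w ≠ 0 → ∀ m, 0 < m → m < P → (f ^ m) • w ≠ w)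
    (hP1 : ∀ w ∈ X, (f ^ P) • w = w) : Nat.card X ≤ (P - 1) ^ 2 := by
  obtain ⟨A', π', ρ', x, φ, σ, hH, h1, h2, hx, hσ, hρ', hA'⟩ :=
    sub_data S hs f hfX hfU P (by omega) hP1
  have : Nontrivial U := (Submodule.nontrivial_iff_ne_bot).2 hs.ne
  refine heis_U1 hH (S.card_ne hq hpq X) x φ σ h1 h2 P hP0 ?_ ?_ ?_
  · apply LinearMap.ext; intro v; apply Subtype.ext
    rw [sub_pow f x hx, hM v v.2]; rfl
  · intro w hw m hm hmP h
    apply hfree w w.2 (fun h0 => hw (Subtype.ext h0)) m hm hmP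
    rw [← sub_iter f σ hσ, h]
  · intro w
    apply Subtype.ext
    rw [sub_iter f σ hσ, hP1 w w.2]

/-- **U2** for a `SubSys`. -/
theorem U2_sub [IsAlgClosed K] (S : Sys p q π ρA β ρF) (hp2 : p ≠ 2) (hq : q.Prime) (hpq : p ≠ q)
    {X : AddSubgroup W} {U : Submodule K V} (hs : SubSys π ρA β X U) (hX : X ≠ ⊥)
    (f : F) (hfX : ∀ w ∈ X, f • w ∈ X) (hfU : ∀ v ∈ U, ρF f v ∈ U) (k : ℕ) (hk : 1 ≤ k)
    (hM : ∀ v ∈ U, ((ρF f - 1) ^ (p ^ k - 1)) v = 0)
    (hfree : ∀ w ∈ X, w ≠ 0 → ∀ m, 0 < m → m < p ^ k → (f ^ m) • w ≠ w)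
    (hP1 : ∀ w ∈ X, (f ^ (p ^ k)) • w = w) :
    Nat.card X = (p ^ k - 1) ^ 2 ∧
      ∀ T : Module.End K V, (∀ v ∈ U, T v ∈ U) →
        (∀ g, π g ∈ X → ∀ v ∈ U, T (ρA g v) = ρA g (T v)) → ∀ v ∈ U, T (ρF f v) = ρF f (T v) := by
  have hpp : p.Prime := Fact.out
  obtain ⟨A', π', ρ', x, φ, σ, hH, h1, h2, hx, hσ, hρ', hA'⟩ :=
    sub_data S hs f hfX hfU (p ^ k) (Nat.one_le_pow _ _ hpp.pos) hP1
  have : Nontrivial U := (Submodule.nontrivial_iff_ne_bot).2 hs.ne
  have : Nontrivial X := (AddSubgroup.nontrivial_iff_ne_bot X).2 hX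
  obtain ⟨hc, hT⟩ := heis_U2 hH (S.card_ne hq hpq X) x φ σ h1 h2 p k hpp hp2 hk (by
      apply LinearMap.ext; intro v; apply Subtype.ext
      rw [sub_pow f x hx, hM v v.2]; rfl) (by
      intro w hw m hm hmP h
      apply hfree w w.2 (fun h0 => hw (Subtype.ext h0)) m hm hmP
      rw [← sub_iter f σ hσ, h]) (by
      intro w
      apply Subtype.ext
      rw [sub_iter f σ hσ, hP1 w w.2])
  refine ⟨hc, ?_⟩
  intro T hTU hTg v hv
  have h3 : T.restrict hTU ∈ E0 ρ' := by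
    intro g
    apply LinearMap.ext; intro u; apply Subtype.ext
    change T ((ρ' g u : U) : V) = ((ρ' g (T.restrict hTU u) : U) : V)
    rw [hρ', hρ']
    exact hTg (g : A) (hA' g) u u.2
  have h4 := congrArg (fun T' : Module.End K U => ((T' ⟨v, hv⟩ : U) : V)) (hT _ h3)
  have h5 : T ((x ⟨v, hv⟩ : U) : V) = ((x (T.restrict hTU ⟨v, hv⟩) : U) : V) := h4
  rw [hx, hx] at h5
  exact h5

/-- **U3** for a `SubSys`. -/
theorem U3_sub (S : Sys p q π ρA β ρF) (hp2 : p ≠ 2) (hq : q.Prime) (hpq : p ≠ q)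
    {X : AddSubgroup W} {U : Submodule K V} (hs : SubSys π ρA β X U) (hX : X ≠ ⊥)
    (f : F) (hfX : ∀ w ∈ X, f • w ∈ X) (hfU : ∀ v ∈ U, ρF f v ∈ U)
    (hM : ∀ v ∈ U, ((ρF f - 1 : Module.End K V) ^ 2) v = 0)
    (hfree : ∀ w ∈ X, w ≠ 0 → ∀ m, 0 < m → m < p → (f ^ m) • w ≠ w)
    (hP1 : ∀ w ∈ X, (f ^ p) • w = w) : p = 3 ∧ Nat.card X = 4 := by
  have hpp : p.Prime := Fact.out
  obtain ⟨A', π', ρ', x, φ, σ, hH, h1, h2, hx, hσ, hρ', hA'⟩ :=
    sub_data S hs f hfX hfU p hpp.one_le hP1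
  have : Nontrivial U := (Submodule.nontrivial_iff_ne_bot).2 hs.ne
  have : Nontrivial X := (AddSubgroup.nontrivial_iff_ne_bot X).2 hX
  refine heis_U3 hH (S.card_ne hq hpq X) x φ σ h1 h2 p hpp hp2 ?_ ?_ ?_
  · apply LinearMap.ext; intro v; apply Subtype.ext
    rw [sub_pow f x hx, hM v v.2]; rfl
  · intro w hw m hm hmP h
    apply hfree w w.2 (fun h0 => hw (Subtype.ext h0)) m hm hmP
    rw [← sub_iter f σ hσ, h]
  · intro w
    apply Subtype.ext
    rw [sub_iter f σ hσ, hP1 w w.2]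

end H60SH
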