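import Mathlib
import Pool.Agent.H60.SH.Defs
import Pool.Agent.H60.SH.HEIS
import Pool.Agent.H60.SH.PFIX
import Pool.Agent.H60.SH.SUB
import Pool.Agent.H60.SH.WDEC

namespace H60SH

set_option linter.unusedSectionVars false

open Module

section keyaAux

/-- an element of `p`-power period which is fixed by a short power of `x` is fixed by
`x ^ (p ^ (k-1))` -/
theorem keya_fix {F W : Type*} [Group F] [MulAction F W] {p : ℕ} (hp : p.Prime) {x : F} {w : W}
    {k : ℕ} (hk : 1 ≤ k) (h1 : (x ^ (p ^ k)) • w = w) {m : ℕ} (hm : 0 < m) (hm2 : m < p ^ k)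
    (h2 : (x ^ m) • w = w) : (x ^ (p ^ (k - 1))) • w = w := by
  rw [MulAction.pow_smul_eq_iff_period_dvd] at h1 h2 ⊢
  obtain ⟨a, ha, hpa⟩ := (Nat.dvd_prime_pow hp).1 h1
  rw [hpa] at h2 ⊢
  have h3 : p ^ a < p ^ k := lt_of_le_of_lt (Nat.le_of_dvd hm h2) hm2
  have h4 : a < k := (Nat.pow_lt_pow_iff_right hp.one_lt).1 h3
  exact pow_dvd_pow p (by omega)

theorem keya_fix_one {F W : Type*} [Group F] [MulAction F W] {p : ℕ} (hp : p.Prime) {z : F} {w : W}
    (h1 : (z ^ p) • w = w) {m : ℕ} (hm : 0 < m) (hm2 : m < p)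
    (h2 : (z ^ m) • w = w) : z • w = w := by
  have := keya_fix hp (x := z) (w := w) (k := 1) le_rfl (by simpa using h1) hm
    (by simpa using hm2) h2
  simpa using this

/-- `z ^ i w = z ^ j w` with `i ≠ j` below `p` forces `z w = w` -/
theorem keya_fix_two {F W : Type*} [Group F] [MulAction F W] {p : ℕ} (hp : p.Prime) {z : F} {w : W}
    (h1 : (z ^ p) • w = w) {i j : ℕ} (hi : i < p) (hj : j < p) (hij : i ≠ j)
    (h2 : (z ^ i) • w = (z ^ j) • w) : z • w = w := by
  rcases lt_or_gt_of_ne hij with h | h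
  · refine keya_fix_one hp h1 (m := j - i) (by omega) (by omega) ?_
    have e : z ^ j = z ^ i * z ^ (j - i) := by rw [← pow_add]; congr 1; omega
    rw [e, mul_smul] at h2
    exact (smul_left_cancel _ h2).symm
  · refine keya_fix_one hp h1 (m := i - j) (by omega) (by omega) ?_
    have e : z ^ i = z ^ j * z ^ (i - j) := by rw [← pow_add]; congr 1; omega
    rw [e, mul_smul] at h2
    exact smul_left_cancel _ h2

/-- `P` distinct nonzero elements in an orbit -/
theorem keya_card {F W : Type*} [Group F] [AddCommGroup W] [Finite W] [DistribMulAction F W]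
    (Y : AddSubgroup W) (x : F) (hY : ∀ w ∈ Y, x • w ∈ Y) (P : ℕ)
    (hfree : ∀ w ∈ Y, w ≠ 0 → ∀ m, 0 < m → m < P → (x ^ m) • w ≠ w) (w : W) (hw : w ∈ Y)
    (hw0 : w ≠ 0) : P + 1 ≤ Nat.card Y := by
  have hpow : ∀ m : ℕ, (x ^ m) • w ∈ Y := by
    intro m
    induction m with
    | zero => simpa using hw
    | succ m ih => rw [pow_succ', mul_smul]; exact hY _ ih
  let f : Option (Fin P) → Y := fun o => o.elim 0 (fun m => ⟨(x ^ (m : ℕ)) • w, hpow m⟩)
  have hf : Function.Injective f := by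
    intro a b hab
    have hz : ∀ m : ℕ, (x ^ m) • w ≠ 0 := fun m h => hw0 ((smul_eq_zero_iff_eq _).1 h)
    cases a with
    | none =>
      cases b with
      | none => rfl
      | some b =>
        exfalso
        have := congrArg (fun y : Y => (y : W)) hab
        exact hz b this.symm
    | some a =>
      cases b with
      | none =>
        exfalso
        have := congrArg (fun y : Y => (y : W)) hab
        exact hz a this
      | some b =>
        have h1 : (x ^ (a : ℕ)) • w = (x ^ (b : ℕ)) • w := congrArg (fun y : Y => (y : W)) hab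
        congr 1
        by_contra hne
        have hne' : (a : ℕ) ≠ b := fun h => hne (Fin.ext h)
        rcases lt_or_gt_of_ne hne' with h | h
        · have e : x ^ (b : ℕ) = x ^ (a : ℕ) * x ^ ((b : ℕ) - a) := by
            rw [← pow_add]; congr 1; omega
          rw [e, mul_smul] at h1
          exact hfree w hw hw0 ((b : ℕ) - a) (by omega) (by omega) (smul_left_cancel _ h1).symm
        · have e : x ^ (a : ℕ) = x ^ (b : ℕ) * x ^ ((a : ℕ) - b) := by
            rw [← pow_add]; congr 1; omega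
          rw [e, mul_smul] at h1
          exact hfree w hw hw0 ((a : ℕ) - b) (by omega) (by omega) (smul_left_cancel _ h1)
  have := Nat.card_le_card_of_injective f hf
  rw [Nat.card_eq_fintype_card (α := Option (Fin P)), Fintype.card_option, Fintype.card_fin] at this
  exact this

/-- `(T - 1) ^ (p ^ n) = T ^ (p ^ n) - 1` in characteristic `p` -/
theorem keya_sub_one_pow {K V : Type*} [Field K] [AddCommGroup V] [Module K V] (p : ℕ)
    [Fact p.Prime] [CharP K p] (T : Module.End K V) (n : ℕ) :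
    (T - 1) ^ (p ^ n) = T ^ (p ^ n) - 1 := by
  have h : (Polynomial.X - 1 : Polynomial K) ^ (p ^ n) = Polynomial.X ^ (p ^ n) - 1 := by
    rw [sub_pow_char_pow_of_commute _ _ (Commute.all _ _), one_pow]
  have := congrArg (Polynomial.aeval T) h
  simpa using this

end keyaAux

section keyaMain

variable {K V F A W : Type*} [Field K] [AddCommGroup V] [Module K V]
  [FiniteDimensional K V] [Nontrivial V] [Group F] [Finite F] [Group A]
  [MulDistribMulAction F A] [AddCommGroup W] [Finite W] [DistribMulAction F W]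
  {p q : ℕ} [Fact p.Prime] [CharP K p]
  {π : A → W} {ρA : Representation K A V} {β : W → W → K} {ρF : Representation K F V}

/-- elements of `F` which commute on `X` commute on `U` -/
theorem keya_comm {X : AddSubgroup W} {U : Submodule K V}
    (hfaith : ∀ f : F, (∀ w ∈ X, f • w = w) → ∀ v ∈ U, ρF f v = v) (f g : F)
    (h : ∀ w ∈ X, f • g • w = g • f • w) (v : V) (hv : v ∈ U) :
    ρF f (ρF g v) = ρF g (ρF f v) := by
  have h1 : ρF ((g * f)⁻¹ * (f * g)) v = v := hfaith _ (by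
    intro w hw
    rw [mul_smul, mul_smul f g, h w hw, ← mul_smul g f, inv_smul_smul]) v hv
  have h2 : ρF (g * f) (ρF ((g * f)⁻¹ * (f * g)) v) = ρF (g * f) v := by rw [h1]
  rw [← Module.End.mul_apply, ← map_mul, mul_inv_cancel_left, map_mul, map_mul] at h2
  exact h2

/-- the operator identity `(z - 1) (z ^ j - z ^ i) = 0` gives `(z - 1) ^ 2 = 0` -/
theorem keya_quad (p : ℕ) (hp : p.Prime) (T : Module.End K V) (S : Submodule K V)
    (hT : ∀ v ∈ S, T v ∈ S) (hTp : ∀ v ∈ S, (T ^ p) v = v) (i j : ℕ) (hi : i < p) (hj : j < p)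
    (hij : i < j) (h : ∀ v ∈ S, (T - 1) ((T ^ j) v - (T ^ i) v) = 0) (v : V) (hv : v ∈ S) :
    ((T - 1 : Module.End K V) ^ 2) v = 0 := by
  have hTn : ∀ (n : ℕ) (v : V), v ∈ S → (T ^ n) v ∈ S := by
    intro n
    induction n with
    | zero => intro v hv; simpa using hv
    | succ n ih => intro v hv; rw [pow_succ, Module.End.mul_apply]; exact ih _ (hT v hv)
  obtain ⟨d, hd⟩ : ∃ d, j = i + d := ⟨j - i, by omega⟩
  have hd0 : 0 < d := by omega
  have hdp : d < p := by omega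
  -- `(T - 1) (T ^ d - 1) = 0` on `S`
  have h1 : ∀ v ∈ S, (T - 1) ((T ^ d) v - v) = 0 := by
    intro v hv
    have hu := hTn (p - i) v hv
    have h2 := h _ hu
    have e1 : (T ^ j) ((T ^ (p - i)) v) = (T ^ d) v := by
      rw [← Module.End.mul_apply, ← pow_add]
      have : j + (p - i) = d + p := by omega
      rw [this, pow_add, Module.End.mul_apply, hTp v hv]
    have e2 : (T ^ i) ((T ^ (p - i)) v) = v := by
      rw [← Module.End.mul_apply, ← pow_add]
      have : i + (p - i) = p := by omega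
      rw [this, hTp v hv]
    rw [e1, e2] at h2
    exact h2
  have hpt : ∀ (t : ℕ) (v : V), v ∈ S → (T ^ (p * t)) v = v := by
    intro t
    induction t with
    | zero => intro v _; simp
    | succ t ih =>
      intro v hv
      rw [Nat.mul_succ, pow_add, Module.End.mul_apply, hTp v hv]
      exact ih v hv
  have h2 : ∀ (m : ℕ) (v : V), v ∈ S → (T - 1) ((T ^ (d * m)) v - v) = 0 := by
    intro m
    induction m with
    | zero => intro v _; simp
    | succ m ih =>
      intro v hv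
      have e : (T ^ (d * (m + 1))) v - v =
          ((T ^ d) ((T ^ (d * m)) v) - (T ^ (d * m)) v) + ((T ^ (d * m)) v - v) := by
        rw [← Module.End.mul_apply, ← pow_add, Nat.mul_succ, add_comm (d * m) d]
        abel
      rw [e, map_add, h1 _ (hTn _ v hv), ih v hv, add_zero]
  obtain ⟨m, _, hm⟩ := Nat.exists_mul_mod_eq_one_of_coprime
    (Nat.coprime_of_lt_prime (by omega) hdp hp).symm hp.one_lt
  have h3 : d * m = 1 + p * (d * m / p) := by
    have := Nat.mod_add_div (d * m) p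
    rw [hm] at this
    exact this.symm
  have h4 := h2 m v hv
  rw [h3, pow_add, Module.End.mul_apply, hpt _ v hv, pow_one] at h4
  rw [pow_two, Module.End.mul_apply]
  exact h4

/-- **KEYA**: the case of two different nonzero components forces `|X_i| = (p^k-1)^2`, `p = 3` and
`|X_j| = 4`. -/
theorem key_two [IsAlgClosed K] (S : Sys p q π ρA β ρF) (hp2 : p ≠ 2) (hq : q.Prime) (hpq : p ≠ q)
    {X : AddSubgroup W} {U : Submodule K V} (hs : SubSys π ρA β X U)
    (hXF : ∀ (f : F), ∀ w ∈ X, f • w ∈ X) (hUF : ∀ (f : F), ∀ v ∈ U, ρF f v ∈ U)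
    (hfaith : ∀ f : F, (∀ w ∈ X, f • w = w) → ∀ v ∈ U, ρF f v = v)
    (c : F) (hc : ∀ (f : F), ∀ w ∈ X, c • f • w = f • c • w)
    (hcp : ∀ w ∈ X, (c ^ p) • w = w) (hfix : ∀ w ∈ X, c • w = w → w = 0)
    (x : F) (k : ℕ) (hk : 1 ≤ k) (hx : ∀ w ∈ X, (x ^ (p ^ k)) • w = w)
    (hN : ∀ v ∈ U, ((ρF x - 1) ^ (p ^ k - 1)) (ρF c v) = ((ρF x - 1) ^ (p ^ k - 1)) v)
    (i j : ℕ) (hi : i < p) (hj : j < p) (hij : i ≠ j)
    (hXi : ∃ w ∈ X, w ≠ 0 ∧ c • w = ((x ^ (p ^ (k - 1))) ^ i) • w)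
    (hXj : ∃ w ∈ X, w ≠ 0 ∧ c • w = ((x ^ (p ^ (k - 1))) ^ j) • w)
    (Xi Xj : AddSubgroup W)
    (hXi' : ∀ w, w ∈ Xi ↔ w ∈ X ∧ c • w = ((x ^ (p ^ (k - 1))) ^ i) • w)
    (hXj' : ∀ w, w ∈ Xj ↔ w ∈ X ∧ c • w = ((x ^ (p ^ (k - 1))) ^ j) • w) :
    (∃ v ∈ U, ((ρF x - 1) ^ (p ^ k - 1)) v ≠ 0) ∧
      Nat.card Xi = (p ^ k - 1) ^ 2 ∧ p = 3 ∧ Nat.card Xj = 4 := by
  have hp : p.Prime := Fact.out
  have hh := S.heis
  have hp3 : 3 ≤ p := by have := hp.two_le; omega
  have hP3 : 3 ≤ p ^ k := le_trans hp3 (Nat.le_self_pow (by omega) p)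
  have hP1 : 1 ≤ p ^ k := by omega
  -- basic facts on `z`
  obtain ⟨z, hz⟩ : ∃ z : F, z = x ^ (p ^ (k - 1)) := ⟨_, rfl⟩
  rw [← hz] at hXi hXj
  simp only [← hz] at hXi' hXj'
  have hzpx : z ^ p = x ^ (p ^ k) := by
    rw [hz, ← pow_mul, ← pow_succ]; congr 2; omega
  have hzp : ∀ w ∈ X, (z ^ p) • w = w := fun w hw => by rw [hzpx]; exact hx w hw
  have hfixz : ∀ w ∈ X, ∀ i : ℕ, c • w = (z ^ i) • w → z • w = w → w = 0 := by
    intro w hw i h1 h2
    refine hfix w hw ?_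
    rw [h1]
    rw [← MulAction.mem_stabilizer_iff] at h2 ⊢
    exact Subgroup.pow_mem _ h2 i
  have hdisj : ∀ w, w ∈ Xi → w ∈ Xj → w = 0 := by
    intro w h1 h2
    obtain ⟨h1, h1'⟩ := (hXi' w).1 h1
    obtain ⟨h2, h2'⟩ := (hXj' w).1 h2
    exact hfixz w h1 i h1' (keya_fix_two hp (hzp w h1) hi hj hij (h1'.symm.trans h2'))
  -- invariance of the components
  have hXif : ∀ f : F, (∀ w ∈ X, f • z • w = z • f • w) → ∀ w ∈ Xi, f • w ∈ Xi := by
    intro f hf w hw
    obtain ⟨h1, h2⟩ := (hXi' w).1 hw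
    refine (hXi' _).2 ⟨hXF f w h1, ?_⟩
    have hzi : ∀ n : ℕ, ∀ w ∈ X, f • (z ^ n) • w = (z ^ n) • f • w := by
      intro n
      induction n with
      | zero => intro w _; simp
      | succ n ih =>
        intro w hw
        rw [pow_succ, mul_smul, mul_smul, ih _ (hXF z w hw), hf w hw]
    rw [hc f w h1, h2, hzi i w h1]
  have hXjf : ∀ f : F, (∀ w ∈ X, f • z • w = z • f • w) → ∀ w ∈ Xj, f • w ∈ Xj := by
    intro f hf w hw
    obtain ⟨h1, h2⟩ := (hXj' w).1 hw
    refine (hXj' _).2 ⟨hXF f w h1, ?_⟩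
    have hzi : ∀ n : ℕ, ∀ w ∈ X, f • (z ^ n) • w = (z ^ n) • f • w := by
      intro n
      induction n with
      | zero => intro w _; simp
      | succ n ih =>
        intro w hw
        rw [pow_succ, mul_smul, mul_smul, ih _ (hXF z w hw), hf w hw]
    rw [hc f w h1, h2, hzi j w h1]
  have hxz : ∀ w ∈ X, x • z • w = z • x • w := by
    intro w _
    rw [← mul_smul, ← mul_smul, hz, ← pow_succ, ← pow_succ']
  have hzz : ∀ w ∈ X, z • z • w = z • z • w := fun _ _ => rfl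
  have hcz : ∀ w ∈ X, c • z • w = z • c • w := fun w hw => hc z w hw
  have hXiX : Xi ≤ X := fun w hw => ((hXi' w).1 hw).1
  have hXjX : Xj ≤ X := fun w hw => ((hXj' w).1 hw).1
  have hXixF := hXif x hxz
  have hXjxF := hXjf x hxz
  -- the orbits of `x` are long
  have hfreei : ∀ w ∈ Xi, w ≠ 0 → ∀ m, 0 < m → m < p ^ k → (x ^ m) • w ≠ w := by
    intro w hw hw0 m hm hm2 h
    obtain ⟨h1, h2⟩ := (hXi' w).1 hw
    have := keya_fix hp hk (hx w h1) hm hm2 h
    rw [← hz] at this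
    exact hw0 (hfixz w h1 i h2 this)
  have hfreej : ∀ w ∈ Xj, w ≠ 0 → ∀ m, 0 < m → m < p ^ k → (x ^ m) • w ≠ w := by
    intro w hw hw0 m hm hm2 h
    obtain ⟨h1, h2⟩ := (hXj' w).1 hw
    have := keya_fix hp hk (hx w h1) hm hm2 h
    rw [← hz] at this
    exact hw0 (hfixz w h1 j h2 this)
  -- nondegeneracy and orthogonality
  have hndi : ∀ w ∈ Xi, w ≠ 0 → ∃ w' ∈ Xi, β w w' ≠ 1 := by
    intro w hw hw0
    obtain ⟨h1, h2⟩ := (hXi' w).1 hw
    obtain ⟨w', hw', h3, h4⟩ := nd_comp S hq hpq X hs.nd c z (hXF c) (hXF z) hcz hcp hzp hfix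
      i hi w h1 h2 hw0
    exact ⟨w', (hXi' w').2 ⟨hw', h3⟩, h4⟩
  have hndj : ∀ w ∈ Xj, w ≠ 0 → ∃ w' ∈ Xj, β w w' ≠ 1 := by
    intro w hw hw0
    obtain ⟨h1, h2⟩ := (hXj' w).1 hw
    obtain ⟨w', hw', h3, h4⟩ := nd_comp S hq hpq X hs.nd c z (hXF c) (hXF z) hcz hcp hzp hfix
      j hj w h1 h2 hw0
    exact ⟨w', (hXj' w').2 ⟨hw', h3⟩, h4⟩
  have horth : ∀ u ∈ Xi, ∀ v ∈ Xj, β u v = 1 := by
    intro u hu v hv
    obtain ⟨h1, h2⟩ := (hXi' u).1 hu
    obtain ⟨h3, h4⟩ := (hXj' v).1 hv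
    exact orth S hq hpq X c z (hXF c) (hXF z) hcz hcp hzp hfix i j hi hj hij u v h1 h3 h2 h4
  have horth' : ∀ u ∈ Xj, ∀ v ∈ Xi, β u v = 1 := by
    intro u hu v hv
    obtain ⟨h1, h2⟩ := (hXj' u).1 hu
    obtain ⟨h3, h4⟩ := (hXi' v).1 hv
    exact orth S hq hpq X c z (hXF c) (hXF z) hcz hcp hzp hfix j i hj hi hij.symm u v h1 h3 h2 h4
  -- elements
  obtain ⟨wi, hwiX, hwi0, hwi⟩ := hXi
  obtain ⟨wj, hwjX, hwj0, hwj⟩ := hXj
  have hwi' : wi ∈ Xi := (hXi' wi).2 ⟨hwiX, hwi⟩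
  have hwj' : wj ∈ Xj := (hXj' wj).2 ⟨hwjX, hwj⟩
  have hXine : Xi ≠ ⊥ := fun h => hwi0 (by rw [h] at hwi'; exact (AddSubgroup.mem_bot).1 hwi')
  have hXjne : Xj ≠ ⊥ := fun h => hwj0 (by rw [h] at hwj'; exact (AddSubgroup.mem_bot).1 hwj')
  -- STEP 1: `N ≠ 0` on `U`
  have step1 : ∃ v ∈ U, ((ρF x - 1) ^ (p ^ k - 1)) v ≠ 0 := by
    by_contra hcon
    push Not at hcon
    have hsum : SubSys π ρA β (Xi ⊔ Xj) U := by
      refine ⟨hs.ne, ?_, fun g hg => hs.act g (sup_le hXiX hXjX hg)⟩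
      intro w hw hw0
      obtain ⟨a, ha, b, hb, rfl⟩ := AddSubgroup.mem_sup.1 hw
      by_cases ha0 : a = 0
      · have hb0 : b ≠ 0 := by
          rintro rfl
          exact hw0 (by rw [ha0, add_zero])
        obtain ⟨w', hw', h1⟩ := hndj b hb hb0
        refine ⟨w', AddSubgroup.mem_sup_right hw', ?_⟩
        rw [hh.beta_add_left, horth a ha w' hw', one_mul]
        exact h1
      · obtain ⟨w', hw', h1⟩ := hndi a ha ha0
        refine ⟨w', AddSubgroup.mem_sup_left hw', ?_⟩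
        rw [hh.beta_add_left, horth' b hb w' hw', mul_one]
        exact h1
    have hfreeS : ∀ w ∈ Xi ⊔ Xj, w ≠ 0 → ∀ m, 0 < m → m < p ^ k → (x ^ m) • w ≠ w := by
      intro w hw hw0 m hm hm2 h
      have hwX : w ∈ X := sup_le hXiX hXjX hw
      have hzw := keya_fix hp hk (hx w hwX) hm hm2 h
      rw [← hz] at hzw
      obtain ⟨a, ha, b, hb, rfl⟩ := AddSubgroup.mem_sup.1 hw
      have e : z • a - a = b - z • b := by
        rw [smul_add] at hzw
        rw [sub_eq_sub_iff_add_eq_add, hzw, add_comm]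
      have h1 : z • a - a ∈ Xi := Xi.sub_mem (hXif z hzz a ha) ha
      have h2 : z • a - a ∈ Xj := by
        rw [e]; exact Xj.sub_mem hb (hXjf z hzz b hb)
      have h3 := hdisj _ h1 h2
      have ha' := (hXi' a).1 ha
      have hb' := (hXj' b).1 hb
      have ha0 : a = 0 := hfixz a ha'.1 i ha'.2 (sub_eq_zero.1 h3)
      rw [h3] at e
      have hb0 : b = 0 := hfixz b hb'.1 j hb'.2 (sub_eq_zero.1 e.symm).symm
      exact hw0 (by rw [ha0, hb0, add_zero])
    have hbound := U1_sub S hq hpq hsum x (by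
      intro w hw
      obtain ⟨a, ha, b, hb, rfl⟩ := AddSubgroup.mem_sup.1 hw
      rw [smul_add]
      exact add_mem (AddSubgroup.mem_sup_left (hXixF a ha))
        (AddSubgroup.mem_sup_right (hXjxF b hb))) (hUF x) (p ^ k) hP3 hcon hfreeS
      (fun w hw => hx w (sup_le hXiX hXjX hw))
    have hprod : Nat.card Xi * Nat.card Xj ≤ Nat.card (Xi ⊔ Xj : AddSubgroup W) := by
      rw [← Nat.card_prod]
      refine Nat.card_le_card_of_injective
        (fun ab : Xi × Xj => (⟨ab.1.1 + ab.2.1, add_mem (AddSubgroup.mem_sup_left ab.1.2)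
          (AddSubgroup.mem_sup_right ab.2.2)⟩ : (Xi ⊔ Xj : AddSubgroup W))) ?_
      rintro ⟨a, b⟩ ⟨a', b'⟩ hab
      have h1 : (a : W) + b = a' + b' := congrArg Subtype.val hab
      have h2 : (a : W) - a' = b' - b := by
        rw [sub_eq_sub_iff_add_eq_add, h1, add_comm]
      have h3 : (a : W) - a' = 0 := hdisj _ (Xi.sub_mem a.2 a'.2)
        (by rw [h2]; exact Xj.sub_mem b'.2 b.2)
      rw [h3] at h2
      refine Prod.ext (Subtype.ext (sub_eq_zero.1 h3)) (Subtype.ext (sub_eq_zero.1 h2.symm).symm)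
    have hci := keya_card Xi x hXixF (p ^ k) hfreei wi hwi' hwi0
    have hcj := keya_card Xj x hXjxF (p ^ k) hfreej wj hwj' hwj0
    have : (p ^ k + 1) * (p ^ k + 1) ≤ (p ^ k - 1) ^ 2 :=
      le_trans (Nat.mul_le_mul hci hcj) (hprod.trans hbound)
    have h4 : (p ^ k - 1) ^ 2 ≤ (p ^ k) ^ 2 := Nat.pow_le_pow_left (Nat.sub_le _ _) 2
    nlinarith
  refine ⟨step1, ?_⟩
  -- STEP 2: the subspace `L`
  obtain ⟨y, hy⟩ : ∃ y : F, y = c * (z ^ i)⁻¹ := ⟨_, rfl⟩
  have hyXi : ∀ w ∈ Xi, y • w = w := by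
    intro w hw
    obtain ⟨h1, h2⟩ := (hXi' w).1 hw
    rw [hy, mul_smul, hc _ w h1, h2, inv_smul_smul]
  have hpowz : ∀ n : ℕ, ∀ f : F, (∀ w ∈ X, f • z • w = z • f • w) →
      ∀ w ∈ X, f • (z ^ n) • w = (z ^ n) • f • w := by
    intro n f hf
    induction n with
    | zero => intro w _; simp
    | succ n ih =>
      intro w hw
      rw [pow_succ, mul_smul, mul_smul, ih _ (hXF z w hw), hf w hw]
  have hycomm : ∀ f : F, (∀ w ∈ X, f • z • w = z • f • w) → ∀ w ∈ X, f • y • w = y • f • w := by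
    intro f hf w hw
    have h1 : f • (z ^ i)⁻¹ • w = (z ^ i)⁻¹ • f • w := by
      have := hpowz i f hf ((z ^ i)⁻¹ • w) (hXF _ w hw)
      rw [smul_inv_smul] at this
      rw [this, inv_smul_smul]
    rw [hy, mul_smul, mul_smul, ← h1]
    exact (hc f _ (hXF _ w hw)).symm
  obtain ⟨L, hL⟩ : ∃ L : Submodule K V, L = U.map (ρF y - 1) := ⟨_, rfl⟩
  have hmemL : ∀ v, v ∈ L ↔ ∃ u ∈ U, ρF y u - u = v := by
    intro v
    rw [hL, Submodule.mem_map]
    rfl
  have hLU : L ≤ U := by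
    intro v hv
    obtain ⟨u, hu, rfl⟩ := (hmemL v).1 hv
    exact U.sub_mem (hUF y u hu) hu
  have hLne : L ≠ ⊥ := by
    intro h0
    have h1 : ∀ v ∈ U, ρF y v = v := by
      intro v hv
      have : ρF y v - v ∈ L := (hmemL _).2 ⟨v, hv, rfl⟩
      rw [h0, Submodule.mem_bot] at this
      exact sub_eq_zero.1 this
    have h2 := S.triv_of_triv hs y (hXF y) h1 wj hwjX
    rw [hy, mul_smul, hc _ wj hwjX, inv_smul_eq_iff] at h2
    exact hwj0 (hdisj wj ((hXi' wj).2 ⟨hwjX, h2⟩) hwj')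
  have hLf : ∀ f : F, (∀ w ∈ X, f • z • w = z • f • w) → ∀ v ∈ L, ρF f v ∈ L := by
    intro f hf v hv
    obtain ⟨u, hu, rfl⟩ := (hmemL v).1 hv
    refine (hmemL _).2 ⟨ρF f u, hUF f u hu, ?_⟩
    rw [map_sub, keya_comm hfaith f y (hycomm f hf) u hu]
  have hLA : ∀ g, π g ∈ Xi → ∀ v ∈ L, ρA g v ∈ L := by
    intro g hg v hv
    obtain ⟨u, hu, rfl⟩ := (hmemL v).1 hv
    refine (hmemL _).2 ⟨ρA g u, hs.act g (hXiX hg) u hu, ?_⟩
    have h1 := S.cop y g (hyXi _ hg)
    have h2 : ρF y (ρA g u) = ρA g (ρF y u) := LinearMap.congr_fun h1 u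
    rw [map_sub, h2]
  have hsL : SubSys π ρA β Xi L := ⟨hLne, hndi, hLA⟩
  -- `N` kills `L`
  have hNx : ∀ v ∈ U, ((ρF x - 1) ^ (p ^ k - 1)) (ρF x v) = ((ρF x - 1) ^ (p ^ k - 1)) v := by
    intro v hv
    rw [← sub_eq_zero, ← map_sub]
    have e : ρF x v - v = (ρF x - 1) v := rfl
    rw [e, ← Module.End.mul_apply, ← pow_succ, Nat.sub_add_cancel hP1, keya_sub_one_pow p,
      ← map_pow, LinearMap.sub_apply, hfaith _ hx v hv]
    simp
  have hNxn : ∀ (n : ℕ), ∀ v ∈ U, ((ρF x - 1) ^ (p ^ k - 1)) (ρF (x ^ n) v) =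
      ((ρF x - 1) ^ (p ^ k - 1)) v := by
    intro n
    induction n with
    | zero => intro v _; simp
    | succ n ih =>
      intro v hv
      rw [pow_succ', map_mul, Module.End.mul_apply, hNx _ (hUF _ v hv), ih v hv]
  have hNL : ∀ v ∈ L, ((ρF x - 1) ^ (p ^ k - 1)) v = 0 := by
    intro v hv
    obtain ⟨u, hu, rfl⟩ := (hmemL v).1 hv
    rw [map_sub, sub_eq_zero, hy, map_mul, Module.End.mul_apply, hN _ (hUF _ u hu)]
    have h1 := hNxn (p ^ (k - 1) * i) (ρF (z ^ i)⁻¹ u) (hUF _ u hu)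
    rw [pow_mul, ← hz, ← Module.End.mul_apply (ρF (z ^ i)), ← map_mul, mul_inv_cancel, map_one,
      Module.End.one_apply] at h1
    exact h1.symm
  -- STEP 3: `U2` for `(Xi, L)`
  obtain ⟨hcardi, hE⟩ := U2_sub S hp2 hq hpq hsL hXine x hXixF (hLf x hxz) k hk hNL hfreei
    (fun w hw => hx w (hXiX hw))
  refine ⟨hcardi, ?_⟩
  have hkey : ∀ g, π g ∈ Xj → ∀ v ∈ L, ρF y (ρA g (ρF x v)) - ρA g (ρF x v) =
      ρF x (ρF y (ρA g v) - ρA g v) := by
    intro g hg v hv
    have h1 := hE ((ρF y - 1) * ρA g) (by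
      intro v hv
      exact (hmemL _).2 ⟨ρA g v, hs.act g (hXjX hg) v (hLU hv), rfl⟩) (by
      intro g' hg' v hv
      have h2 : ρA g (ρA g' v) = ρA g' (ρA g v) := by
        rw [hh.comm_apply, horth' _ hg _ hg', one_smul]
      have h3 : ρF y (ρA g' (ρA g v)) = ρA g' (ρF y (ρA g v)) :=
        LinearMap.congr_fun (S.cop y g' (hyXi _ hg')) (ρA g v)
      change ρF y (ρA g (ρA g' v)) - ρA g (ρA g' v) = ρA g' (ρF y (ρA g v) - ρA g v)
      rw [h2, h3, map_sub]) v hv
    exact h1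
  -- STEP 4: a common fixed vector in `L`
  obtain ⟨l, hlL, hl0, hlfix⟩ := pfix p ρF (Subgroup.closure {x, c})
    (S.hF.to_subgroup _) L hLne (by
      intro f hf v hv
      have hgood : ∀ w ∈ X, f • z • w = z • f • w := by
        refine Subgroup.closure_induction (p := fun f _ => ∀ w ∈ X, f • z • w = z • f • w)
          ?_ ?_ ?_ ?_ hf
        · intro f hf
          rcases hf with rfl | hf
          · exact hxz
          · rw [Set.mem_singleton_iff] at hf
            subst hf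
            exact hcz
        · intro w _; simp
        · intro a b _ _ ha hb w hw
          rw [mul_smul, mul_smul, hb w hw, ha _ (hXF b w hw)]
        · intro a _ ha w hw
          have := ha (a⁻¹ • w) (hXF _ w hw)
          rw [smul_inv_smul] at this
          rw [← this, inv_smul_smul]
      exact hLf f hgood v hv)
  have hxl : ρF x l = l := hlfix x (Subgroup.subset_closure (by simp))
  have hcl : ρF c l = l := hlfix c (Subgroup.subset_closure (by simp))
  have hlU : l ∈ U := hLU hlL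
  -- STEP 5: the subspace `Sl`
  obtain ⟨Sl, hSl⟩ : ∃ Sl : Submodule K V, Sl = Submodule.span K
    {v | ∃ g, π g ∈ Xj ∧ ρA g l = v} := ⟨_, rfl⟩
  have hSlmem : ∀ g, π g ∈ Xj → ρA g l ∈ Sl := by
    intro g hg
    rw [hSl]
    exact Submodule.subset_span ⟨g, hg, rfl⟩
  have hSlind : ∀ (T : Submodule K V), (∀ g, π g ∈ Xj → ρA g l ∈ T) → Sl ≤ T := by
    intro T hT
    rw [hSl, Submodule.span_le]
    rintro v ⟨g, hg, rfl⟩
    exact hT g hg
  have hSlU : Sl ≤ U := hSlind U fun g hg => hs.act g (hXjX hg) l hlU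
  have hSlmap : ∀ T : Module.End K V, (∀ g, π g ∈ Xj → T (ρA g l) ∈ Sl) → ∀ v ∈ Sl, T v ∈ Sl := by
    intro T hT v hv
    exact hSlind (Sl.comap T) (fun g hg => hT g hg) hv
  have hSlker : ∀ T : Module.End K V, (∀ g, π g ∈ Xj → T (ρA g l) = 0) → ∀ v ∈ Sl, T v = 0 := by
    intro T hT v hv
    exact hSlind (LinearMap.ker T) (fun g hg => hT g hg) hv
  have hSlne : Sl ≠ ⊥ := by
    intro h0
    have h1 := hSlmem 1 (by rw [hh.map_one]; exact Xj.zero_mem)
    rw [h0, Submodule.mem_bot, map_one] at h1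
    exact hl0 h1
  have hSlF : ∀ f : F, (∀ w ∈ X, f • z • w = z • f • w) → ρF f l = l →
      ∀ v ∈ Sl, ρF f v ∈ Sl := by
    intro f hf hfl
    refine hSlmap (ρF f) ?_
    intro g hg
    have h1 : ρF f (ρA g l) = ρA (f • g) (ρF f l) := LinearMap.congr_fun (S.hρ f g) l
    rw [h1, hfl]
    exact hSlmem _ (by rw [S.hπ]; exact hXjf f hf _ hg)
  have hSlx := hSlF x hxz hxl
  have hSlz : ∀ v ∈ Sl, ρF z v ∈ Sl := by
    have : ρF z l = l := by
      rw [hz]
      have : ∀ n : ℕ, ρF (x ^ n) l = l := by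
        intro n
        induction n with
        | zero => simp
        | succ n ih => rw [pow_succ, map_mul, Module.End.mul_apply, hxl, ih]
      exact this _
    exact hSlF z hzz this
  have hSlA : ∀ g, π g ∈ Xj → ∀ v ∈ Sl, ρA g v ∈ Sl := by
    intro g hg
    refine hSlmap (ρA g) ?_
    intro g' hg'
    rw [← Module.End.mul_apply, ← map_mul]
    exact hSlmem _ (by rw [hh.add]; exact Xj.add_mem hg hg')
  have hsS : SubSys π ρA β Xj Sl := ⟨hSlne, hndj, hSlA⟩
  -- `c = z ^ j` on `Sl`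
  have hzl : ρF z l = l := by
    rw [hz]
    have : ∀ n : ℕ, ρF (x ^ n) l = l := by
      intro n
      induction n with
      | zero => simp
      | succ n ih => rw [pow_succ, map_mul, Module.End.mul_apply, hxl, ih]
    exact this _
  have hznl : ∀ n : ℕ, ρF (z ^ n) l = l := by
    intro n
    induction n with
    | zero => simp
    | succ n ih => rw [pow_succ, map_mul, Module.End.mul_apply, hzl, ih]
  have hznS : ∀ n : ℕ, ∀ v ∈ Sl, ρF (z ^ n) v ∈ Sl := by
    intro n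
    induction n with
    | zero => intro v hv; simpa using hv
    | succ n ih =>
      intro v hv
      rw [pow_succ, map_mul, Module.End.mul_apply]
      exact ih _ (hSlz v hv)
  have hyj : ∀ v ∈ Sl, ρF (c * (z ^ j)⁻¹) v = v := by
    intro v hv
    have h0 := hSlker (ρF (c * (z ^ j)⁻¹) - 1) (by
      intro g hg
      have h1 : (c * (z ^ j)⁻¹) • π g = π g := by
        obtain ⟨h1, h2⟩ := (hXj' _).1 hg
        rw [mul_smul, hc _ _ h1, h2, inv_smul_smul]
      have h2 : ρF (c * (z ^ j)⁻¹) (ρA g l) = ρA g (ρF (c * (z ^ j)⁻¹) l) :=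
        LinearMap.congr_fun (S.cop _ g h1) l
      have h3 : ρF (c * (z ^ j)⁻¹) l = l := by
        have h4 : ρF (z ^ j)⁻¹ l = l := by
          have h5 := congrArg (ρF (z ^ j)⁻¹) (hznl j)
          rw [← Module.End.mul_apply, ← map_mul, inv_mul_cancel, map_one,
            Module.End.one_apply] at h5
          exact h5.symm
        rw [map_mul, Module.End.mul_apply, h4, hcl]
      rw [LinearMap.sub_apply, h2, h3, Module.End.one_apply, sub_self]) v hv
    rw [LinearMap.sub_apply, Module.End.one_apply] at h0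
    exact sub_eq_zero.1 h0
  have hcS : ∀ v ∈ Sl, ρF c v = ρF (z ^ j) v := by
    intro v hv
    have h1 := hyj _ (hznS j v hv)
    rw [← Module.End.mul_apply, ← map_mul, inv_mul_cancel_right] at h1
    exact h1
  -- the quadratic relation on `Sl`
  have hxy : ∀ v ∈ Sl, ρF x (ρF y v - v) - (ρF y v - v) = 0 := by
    intro v hv
    refine hSlker ((ρF x - 1) * (ρF y - 1)) ?_ v hv
    intro g hg
    have h1 := hkey g hg l hlL
    rw [hxl] at h1
    change ρF x (ρF y (ρA g l) - ρA g l) - (ρF y (ρA g l) - ρA g l) = 0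
    rw [← h1, sub_self]
  have hxc : ∀ v ∈ Sl, (ρF x - 1) (ρF (z ^ j) v - ρF (z ^ i) v) = 0 := by
    intro v hv
    have h1 := hxy _ (hznS i v hv)
    have h2 : ρF y (ρF (z ^ i) v) = ρF c v := by
      rw [hy, ← Module.End.mul_apply, ← map_mul, inv_mul_cancel_right]
    rw [h2, hcS v hv] at h1
    exact h1
  have hzc : ∀ v ∈ Sl, (ρF z - 1) (ρF (z ^ j) v - ρF (z ^ i) v) = 0 := by
    intro v hv
    have e : (ρF z - 1 : Module.End K V) = (ρF x - 1) ^ (p ^ (k - 1) - 1) * (ρF x - 1) := by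
      rw [← pow_succ, Nat.sub_add_cancel (Nat.one_le_pow _ _ (by omega)), keya_sub_one_pow p, hz,
        map_pow]
    rw [e, Module.End.mul_apply, hxc v hv, map_zero]
  have hzpS : ∀ v ∈ Sl, ((ρF z) ^ p) v = v := by
    intro v hv
    rw [← map_pow]
    exact hfaith _ hzp v (hSlU hv)
  have hquad : ∀ v ∈ Sl, ((ρF z - 1 : Module.End K V) ^ 2) v = 0 := by
    intro v hv
    rcases lt_or_gt_of_ne hij with h | h
    · refine keya_quad p hp (ρF z) Sl hSlz hzpS i j hi hj h ?_ v hv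
      intro v hv
      rw [← map_pow, ← map_pow]
      exact hzc v hv
    · refine keya_quad p hp (ρF z) Sl hSlz hzpS j i hj hi h ?_ v hv
      intro v hv
      have h1 := hzc v hv
      rw [← map_pow, ← map_pow]
      rw [map_sub, sub_eq_zero] at h1 ⊢
      exact h1.symm
  -- STEP 6: `U3` for `(Xj, Sl)`
  exact U3_sub S hp2 hq hpq hsS hXjne z (hXjf z hzz) hSlz hquad
    (by
      intro w hw hw0 m hm hm2 h
      obtain ⟨h1, h2⟩ := (hXj' w).1 hw
      exact hw0 (hfixz w h1 j h2 (keya_fix_one hp (hzp w h1) hm hm2 h)))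
    (fun w hw => hzp w (hXjX hw))

end keyaMain

end H60SH
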