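import Mathlib

namespace H60SH

namespace SIXT

theorem exists_orbit {S F : Type*} [Group F] [MulAction F S] [Finite S] [Finite F]
    (hS : Nat.card S = 15) : ∃ w : S, ¬ 9 ∣ Nat.card (MulAction.orbit F w) := by
  classical
  by_contra hcon
  push Not at hcon
  have e := Nat.card_congr (MulAction.selfEquivSigmaOrbits' F S)
  have : Fintype (MulAction.orbitRel.Quotient F S) := Fintype.ofFinite _
  rw [Nat.card_sigma, hS] at e
  have h9 : 9 ∣ 15 := by
    rw [e]
    refine Finset.dvd_sum ?_
    intro ω _
    induction ω using Quotient.inductionOn' with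
    | h a => exact hcon a
  omega

end SIXT

/-- **SIXTEEN**: a finite `3`-group acting on an elementary abelian group of order `16`, with a
fixed point free element `c` of order `3` acting centrally, is reducible. -/
theorem sixteen {W F : Type*} [AddCommGroup W] [Finite W] [Group F] [Finite F]
    [DistribMulAction F W] (hF : IsPGroup 3 F) (X : AddSubgroup W)
    (hX : ∀ (f : F), ∀ w ∈ X, f • w ∈ X) (hcard : Nat.card X = 16)
    (h2 : ∀ w ∈ X, w + w = 0) (c : F)
    (hc : ∀ (f : F), ∀ w ∈ X, c • f • w = f • c • w)
    (hfix : ∀ w ∈ X, c • w = w → w = 0) (hc3 : ∀ w ∈ X, (c ^ 3) • w = w) :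
    ∃ Y : AddSubgroup W, Y ≤ X ∧ Y ≠ ⊥ ∧ Y ≠ X ∧ ∀ (f : F), ∀ w ∈ Y, f • w ∈ Y := by
  classical
  let S := {w : W // w ∈ X ∧ w ≠ 0}
  letI : MulAction F S :=
    { smul := fun f w => ⟨f • w.1, hX f _ w.2.1, fun h => w.2.2 (by
        have := congrArg (fun z => f⁻¹ • z) h
        simpa using this)⟩
      one_smul := fun w => Subtype.ext (one_smul F w.1)
      mul_smul := fun f g w => Subtype.ext (mul_smul f g w.1) }
  have hsm : ∀ (f : F) (w : S), (f • w : S).1 = f • w.1 := fun _ _ => rfl
  have hS : Nat.card S = 15 := by
    have h1 : Nat.card X = Nat.card S + 1 := by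
      have : Nat.card (Option S) = Nat.card S + 1 := Finite.card_option
      rw [← this]
      refine Nat.card_congr ?_
      refine
        { toFun := fun x => if h : x.1 = 0 then none else some ⟨x.1, x.2, h⟩
          invFun := fun o => match o with
            | none => 0
            | some s => ⟨s.1, s.2.1⟩
          left_inv := ?_
          right_inv := ?_ }
      · intro x
        by_cases h : x.1 = 0
        · simp only [h, dif_pos]
          exact Subtype.ext h.symm
        · simp only [h, dif_neg, not_false_eq_true]
      · intro o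
        match o with
        | none => simp
        | some s => simp [s.2.2]
    omega
  obtain ⟨w, hw⟩ := SIXT.exists_orbit (F := F) hS
  have : Fact (Nat.Prime 3) := ⟨Nat.prime_three⟩
  obtain ⟨k, hk⟩ := hF.card_orbit w
  have hinj : ∀ f : F, ∀ x y : W, f • x = f • y → x = y := fun f x y h => by
    have := congrArg (fun z => f⁻¹ • z) h
    simpa using this
  have hw1 : c • w.1 ≠ w.1 := fun h => w.2.2 (hfix _ w.2.1 h)
  have hw3 : c • c • c • w.1 = w.1 := by
    have := hc3 _ w.2.1
    rw [pow_succ, pow_succ, pow_one, mul_smul, mul_smul] at this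
    exact this
  have hw2 : c • c • w.1 ≠ w.1 := by
    intro h
    rw [h] at hw3
    exact hw1 hw3
  have hw12 : c • w.1 ≠ c • c • w.1 := fun h => hw1 (hinj c _ _ h).symm
  -- orbit
  have hsub : ({w, c • w, c • c • w} : Set S) ⊆ MulAction.orbit F w := by
    intro x hx
    rcases hx with rfl | rfl | rfl
    · exact MulAction.mem_orbit_self _
    · exact MulAction.mem_orbit _ _
    · exact ⟨c * c, mul_smul c c w⟩
  have hn3 : ({w, c • w, c • c • w} : Set S).ncard = 3 := by
    rw [Set.ncard_eq_three]
    refine ⟨w, c • w, c • c • w, ?_, ?_, ?_, rfl⟩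
    · intro h; exact hw1 (congrArg Subtype.val h).symm
    · intro h; exact hw2 (congrArg Subtype.val h).symm
    · intro h; exact hw12 (congrArg Subtype.val h)
  have hle : 3 ≤ Nat.card (MulAction.orbit F w) := by
    rw [← hn3, Nat.card_coe_set_eq]
    exact Set.ncard_le_ncard hsub (Set.toFinite _)
  have hk1 : Nat.card (MulAction.orbit F w) = 3 := by
    match k, hk with
    | 0, hk => rw [hk] at hle; norm_num at hle
    | 1, hk => rw [hk]; norm_num
    | (k + 2), hk =>
      exfalso
      apply hw
      rw [hk, pow_add]
      exact Dvd.intro_left _ rfl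
  have horb : ({w, c • w, c • c • w} : Set S) = MulAction.orbit F w := by
    refine Set.eq_of_subset_of_ncard_le hsub ?_ (Set.toFinite _)
    rw [hn3, ← Nat.card_coe_set_eq, hk1]
  -- the sum
  set u : W := w.1 with hu
  set v : W := c • w.1 with hv
  have huX : u ∈ X := w.2.1
  have hvX : v ∈ X := hX c _ huX
  have hsum : c • v = u + v := by
    have hX' : u + v + c • v ∈ X := X.add_mem (X.add_mem huX hvX) (hX c _ hvX)
    have h0 : u + v + c • v = 0 := by
      refine hfix _ hX' ?_
      rw [smul_add, smul_add]
      have : c • c • v = u := hw3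
      rw [this]
      change v + c • v + u = u + v + c • v
      abel
    have h1 := h2 _ (hX c _ hvX)
    have h3 : u + v + c • v = c • v + c • v := by rw [h0, h1]
    exact (add_right_cancel h3).symm
  have huu := h2 u huX
  have hvv := h2 v hvX
  have huv : u ≠ v := fun h => hw1 h.symm
  have key : ∀ x : W, x ∈ ({0, u, v, u + v} : Set W) → ∀ y ∈ ({0, u, v, u + v} : Set W),
      x + y ∈ ({0, u, v, u + v} : Set W) := by
    have e1 : u + v + u = v := by
      rw [add_right_comm, huu, zero_add]
    have e2 : u + v + v = u := by rw [add_assoc, hvv, add_zero]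
    have e3 : u + (u + v) = v := by rw [← add_assoc, huu, zero_add]
    have e4 : v + (u + v) = u := by rw [add_left_comm, hvv, add_zero]
    have e5 : u + v + (u + v) = 0 := by
      rw [add_add_add_comm, huu, hvv, add_zero]
    intro x hx y hy
    rcases hx with rfl | rfl | rfl | rfl
    · rw [zero_add]; exact hy
    · rcases hy with rfl | rfl | rfl | rfl
      · rw [add_zero]; simp
      · rw [huu]; simp
      · simp
      · rw [e3]; simp
    · rcases hy with rfl | rfl | rfl | rfl
      · rw [add_zero]; simp
      · rw [add_comm]; simp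
      · rw [hvv]; simp
      · rw [e4]; simp
    · rcases hy with rfl | rfl | rfl | rfl
      · rw [add_zero]; simp
      · rw [e1]; simp
      · rw [e2]; simp
      · rw [e5]; simp
  have hsX : ∀ x ∈ ({0, u, v, u + v} : Set W), x ∈ X := by
    intro x hx
    rcases hx with rfl | rfl | rfl | rfl
    · exact X.zero_mem
    · exact huX
    · exact hvX
    · exact X.add_mem huX hvX
  let Y : AddSubgroup W :=
    { carrier := {0, u, v, u + v}
      add_mem' := fun {x y} hx hy => key x hx y hy
      zero_mem' := by simp
      neg_mem' := fun {x} hx => by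
        have := h2 x (hsX x hx)
        rw [neg_eq_of_add_eq_zero_left this]
        exact hx }
  have hYmem : ∀ x, x ∈ Y ↔ x ∈ ({0, u, v, u + v} : Set W) := fun _ => Iff.rfl
  refine ⟨Y, hsX, ?_, ?_, ?_⟩
  · intro h
    have : u ∈ Y := by rw [hYmem]; simp
    rw [h] at this
    exact w.2.2 (AddSubgroup.mem_bot.1 this)
  · intro h
    have h4 : Nat.card X ≤ 4 := by
      rw [← h]
      change Nat.card ({0, u, v, u + v} : Set W) ≤ 4
      rw [Nat.card_coe_set_eq]
      have a1 := Set.ncard_insert_le (0 : W) {u, v, u + v}
      have a2 := Set.ncard_insert_le u {v, u + v}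
      have a3 := Set.ncard_insert_le v {u + v}
      rw [Set.ncard_singleton] at a3
      omega
    omega
  · intro f x hx
    have hfw : ∀ f : F, f • u ∈ ({0, u, v, u + v} : Set W) := by
      intro f
      have : f • w ∈ ({w, c • w, c • c • w} : Set S) := by
        rw [horb]; exact MulAction.mem_orbit _ _
      rcases this with h | h | h
      · have := congrArg Subtype.val h
        change f • u = u at this
        rw [this]; simp
      · have := congrArg Subtype.val h
        change f • u = v at this
        rw [this]; simp
      · have := congrArg Subtype.val h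
        change f • u = c • v at this
        rw [this, hsum]; simp
    have hfv : ∀ f : F, f • v ∈ ({0, u, v, u + v} : Set W) := by
      intro f
      have : f • v = (f * c) • u := by rw [mul_smul]
      rw [this]
      exact hfw _
    rw [hYmem] at hx ⊢
    rcases hx with rfl | rfl | rfl | rfl
    · rw [smul_zero]; simp
    · exact hfw f
    · exact hfv f
    · rw [smul_add]
      exact key _ (hfw f) _ (hfv f)

end H60SH
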