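import Mathlib
import Pool.Agent.H60.SH.Defs
import Pool.Agent.H60.SH.HEIS
import Pool.Agent.H60.SH.WDEC
import Pool.Agent.H60.SH.ALPHA
import Pool.Agent.H60.SH.SIXTEEN
import Pool.Agent.H60.SH.KEYA

namespace H60SH

open Module

/-- The component `X_i`. -/
def keyComp {F W : Type*} [Group F] [AddCommGroup W] [DistribMulAction F W] (X : AddSubgroup W)
    (c y : F) : AddSubgroup W where
  carrier := {w | w ∈ X ∧ c • w = y • w}
  add_mem' := by
    rintro a b ⟨ha, ha'⟩ ⟨hb, hb'⟩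
    exact ⟨X.add_mem ha hb, by rw [smul_add, smul_add, ha', hb']⟩
  zero_mem' := ⟨X.zero_mem, by rw [smul_zero, smul_zero]⟩
  neg_mem' := by
    rintro a ⟨ha, ha'⟩
    exact ⟨X.neg_mem ha, by rw [smul_neg, smul_neg, ha']⟩

theorem mem_keyComp {F W : Type*} [Group F] [AddCommGroup W] [DistribMulAction F W]
    {X : AddSubgroup W} {c y : F} {w : W} : w ∈ keyComp X c y ↔ w ∈ X ∧ c • w = y • w := Iff.rfl

/-- An elementary counting lemma: an internal direct sum of two groups of order `4` has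
order `16`. -/
theorem key_card {W : Type*} [AddCommGroup W] [Finite W] (X Y Z : AddSubgroup W) (hY : Y ≤ X)
    (hZ : Z ≤ X) (hdis : ∀ w, w ∈ Y → w ∈ Z → w = 0)
    (hsum : ∀ w ∈ X, ∃ a ∈ Y, ∃ b ∈ Z, w = a + b) (h1 : Nat.card Y = 4) (h2 : Nat.card Z = 4) :
    Nat.card X = 16 := by
  have e : (Y × Z) ≃ X := by
    refine Equiv.ofBijective (fun p => ⟨(p.1 : W) + (p.2 : W),
      X.add_mem (hY p.1.2) (hZ p.2.2)⟩) ⟨?_, ?_⟩
    · rintro ⟨a, b⟩ ⟨a', b'⟩ h
      have h' : (a : W) + b = a' + b' := congrArg Subtype.val h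
      have h'' : (a : W) - a' = b' - b := by
        rw [sub_eq_sub_iff_add_eq_add, h', add_comm]
      have h3 : (a : W) - a' = 0 := by
        refine hdis _ (Y.sub_mem a.2 a'.2) ?_
        rw [h'']
        exact Z.sub_mem b'.2 b.2
      have h4 : (b' : W) - b = 0 := by rw [← h'']; exact h3
      have h5 : a = a' := Subtype.ext (sub_eq_zero.1 h3)
      have h6 : b = b' := Subtype.ext (sub_eq_zero.1 h4).symm
      rw [h5, h6]
    · rintro ⟨w, hw⟩
      obtain ⟨a, ha, b, hb, rfl⟩ := hsum w hw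
      exact ⟨(⟨a, ha⟩, ⟨b, hb⟩), rfl⟩
  rw [← Nat.card_congr e, Nat.card_prod, h1, h2]

variable {K V F A W : Type*} [Field K] [IsAlgClosed K] [AddCommGroup V] [Module K V]
  [FiniteDimensional K V] [Nontrivial V] [Group F] [Finite F] [Group A]
  [MulDistribMulAction F A] [AddCommGroup W] [Finite W] [DistribMulAction F W]
  {p q : ℕ} [Fact p.Prime] [CharP K p]
  {π : A → W} {ρA : Representation K A V} {β : W → W → K} {ρF : Representation K F V}

omit [IsAlgClosed K] [FiniteDimensional K V] [Nontrivial V] [Finite F] [Finite W] in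
/-- elements which commute on `X` commute on `U` -/
theorem key_comm {X : AddSubgroup W} {U : Submodule K V}
    (hXF : ∀ (f : F), ∀ w ∈ X, f • w ∈ X) (hUF : ∀ (f : F), ∀ v ∈ U, ρF f v ∈ U)
    (hfaith : ∀ f : F, (∀ w ∈ X, f • w = w) → ∀ v ∈ U, ρF f v = v) (c x : F)
    (hc : ∀ w ∈ X, c • x • w = x • c • w) (v : V) (hv : v ∈ U) :
    ρF c (ρF x v) = ρF x (ρF c v) := by
  have h1 : ∀ w ∈ X, ((x * c)⁻¹ * (c * x)) • w = w := by
    intro w hw
    rw [mul_smul, inv_smul_eq_iff, mul_smul, mul_smul]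
    exact hc w hw
  have h2 := hfaith _ h1 v hv
  have h3 : ρF ((x * c) * ((x * c)⁻¹ * (c * x))) v = ρF (x * c) v := by
    rw [map_mul, Module.End.mul_apply, h2]
  rw [mul_inv_cancel_left, map_mul, map_mul] at h3
  exact h3

omit [IsAlgClosed K] [FiniteDimensional K V] [Nontrivial V] in
theorem key_adj (T : Module.End K V) (m : ℕ) :
    (T - 1) ^ m ∈ Algebra.adjoin K ({T} : Set (Module.End K V)) := by
  have h1 : T ∈ Algebra.adjoin K ({T} : Set (Module.End K V)) :=
    Algebra.subset_adjoin (Set.mem_singleton T)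
  have h2 : (1 : Module.End K V) ∈ Algebra.adjoin K ({T} : Set (Module.End K V)) :=
    Subalgebra.one_mem _
  exact pow_mem (sub_mem h1 h2) m

/-- **KEY**: `c` acts on `[X, z]`, `z = x ^ (p ^ (k-1))`, as a power of `z`. -/
theorem key (S : Sys p q π ρA β ρF) (hp2 : p ≠ 2) (hq : q.Prime) (hpq : p ≠ q)
    {X : AddSubgroup W} {U : Submodule K V} (hs : SubSys π ρA β X U)
    (hXF : ∀ (f : F), ∀ w ∈ X, f • w ∈ X) (hUF : ∀ (f : F), ∀ v ∈ U, ρF f v ∈ U)
    (hsimple : ∀ Y : AddSubgroup W, Y ≤ X → (∀ (f : F), ∀ w ∈ Y, f • w ∈ Y) → Y = ⊥ ∨ Y = X)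
    (hfaith : ∀ f : F, (∀ w ∈ X, f • w = w) → ∀ v ∈ U, ρF f v = v)
    (c : F) (hc : ∀ (f : F), ∀ w ∈ X, c • f • w = f • c • w)
    (hcp : ∀ w ∈ X, (c ^ p) • w = w) (hfix : ∀ w ∈ X, c • w = w → w = 0)
    (x : F) (k : ℕ) (hk : 1 ≤ k) (hx : ∀ w ∈ X, (x ^ (p ^ k)) • w = w)
    (hz : ∃ w ∈ X, (x ^ (p ^ (k - 1))) • w ≠ w)
    (hN : ∀ v ∈ U, ((ρF x - 1) ^ (p ^ k - 1)) (ρF c v) = ((ρF x - 1) ^ (p ^ k - 1)) v) :
    ∃ i : ℕ, 0 < i ∧ i < p ∧ ∀ w ∈ X,
      c • (((x ^ (p ^ (k - 1))) ^ i) • w - w) =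
        ((x ^ (p ^ (k - 1))) ^ i) • (((x ^ (p ^ (k - 1))) ^ i) • w - w) := by
  obtain ⟨z, hzdef⟩ : ∃ z, z = x ^ (p ^ (k - 1)) := ⟨_, rfl⟩
  rw [← hzdef] at hz ⊢
  have hpp : p.Prime := Fact.out
  have hzp : ∀ w ∈ X, (z ^ p) • w = w := by
    intro w hw
    have e : z ^ p = x ^ (p ^ k) := by
      rw [hzdef, ← pow_mul, ← pow_succ]
      congr 2
      omega
    rw [e]
    exact hx w hw
  -- at most one nonzero component
  have huniq : ∀ i j : ℕ, 0 < i → i < p → 0 < j → j < p → i ≠ j →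
      (∃ w ∈ X, w ≠ 0 ∧ c • w = (z ^ i) • w) → (∃ w ∈ X, w ≠ 0 ∧ c • w = (z ^ j) • w) →
      False := by
    intro i j hi0 hi hj0 hj hij hXi hXj
    obtain ⟨hNne, hci, hp3, hcj⟩ := key_two S hp2 hq hpq hs hXF hUF hfaith c hc hcp hfix x k hk
      hx hN i j hi hj hij (by rw [← hzdef]; exact hXi) (by rw [← hzdef]; exact hXj)
      (keyComp X c (z ^ i)) (keyComp X c (z ^ j))
      (fun w => by rw [← hzdef]; exact mem_keyComp) (fun w => by rw [← hzdef]; exact mem_keyComp)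
    obtain ⟨_, _, _, hci'⟩ := key_two S hp2 hq hpq hs hXF hUF hfaith c hc hcp hfix x k hk
      hx hN j i hj hi hij.symm (by rw [← hzdef]; exact hXj) (by rw [← hzdef]; exact hXi)
      (keyComp X c (z ^ j)) (keyComp X c (z ^ i))
      (fun w => by rw [← hzdef]; exact mem_keyComp) (fun w => by rw [← hzdef]; exact mem_keyComp)
    subst hp3
    -- `k = 1`
    have hk1 : k = 1 := by
      by_contra hne
      have hk2 : 2 ≤ k := by omega
      have h9 : 9 ≤ 3 ^ k := by
        calc 9 = 3 ^ 2 := by norm_num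
          _ ≤ 3 ^ k := Nat.pow_le_pow_right (by norm_num) hk2
      have h8 : 8 ≤ 3 ^ k - 1 := by omega
      have h64 : 8 ^ 2 ≤ (3 ^ k - 1) ^ 2 := Nat.pow_le_pow_left h8 2
      rw [← hci, hci'] at h64
      omega
    subst hk1
    have hzx : z = x := by
      rw [hzdef]
      simp
    rw [hzx] at hzp hXi hXj hci hcj hci'
    -- `{i, j} = {1, 2}`
    obtain ⟨hNv, hNvU, hNvne⟩ := hNne
    obtain ⟨N, hNdef⟩ : ∃ N, N = (ρF x - 1) ^ (3 ^ 1 - 1) := ⟨_, rfl⟩
    rw [← hNdef] at hN hNvne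
    have hcommU : ∀ v ∈ U, ρF c (ρF x v) = ρF x (ρF c v) := fun v hv =>
      key_comm hXF hUF hfaith c x (hc x) v hv
    have hUx1 : ∀ v ∈ U, (ρF x - 1) v ∈ U := by
      intro v hv
      rw [LinearMap.sub_apply]
      exact U.sub_mem (hUF x v hv) hv
    have hcx1 : ∀ v ∈ U, ρF c ((ρF x - 1) v) = (ρF x - 1) (ρF c v) := by
      intro v hv
      rw [LinearMap.sub_apply, LinearMap.sub_apply, map_sub, hcommU v hv]
      rfl
    have hcpow : ∀ m : ℕ, ∀ v ∈ U, ((ρF x - 1) ^ m) v ∈ U ∧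
        ρF c (((ρF x - 1) ^ m) v) = ((ρF x - 1) ^ m) (ρF c v) := by
      intro m
      induction m with
      | zero =>
        intro v hv
        rw [pow_zero]
        exact ⟨hv, rfl⟩
      | succ m ih =>
        intro v hv
        rw [pow_succ, Module.End.mul_apply, Module.End.mul_apply]
        obtain ⟨h1, h2⟩ := ih _ (hUx1 v hv)
        exact ⟨h1, by rw [h2, hcx1 v hv]⟩
    have hNadj : N ∈ Algebra.adjoin K ({ρF x} : Set (Module.End K V)) := by
      rw [hNdef]
      exact key_adj (ρF x) (3 ^ 1 - 1)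
    have hα := alpha S hq hpq hs.nd c x (hXF c) (hXF x) (hc x) (U.map N)
      (by
        intro hbot
        apply hNvne
        have : N hNv ∈ U.map N := Submodule.mem_map_of_mem hNvU
        rw [hbot] at this
        exact (Submodule.mem_bot K).1 this)
      (fun g hg hxg => image_inv S hs x N hNadj g hg hxg)
      (by
        rintro v ⟨u, hu, rfl⟩
        rw [hNdef, (hcpow _ u hu).2, ← hNdef]
        exact hN u hu)
    have hfx : ∀ w ∈ X, x • w = w → w = 0 := fun w hw hxw => hfix w hw (hα w hw hxw)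
    -- the two components
    have h12 : (i = 1 ∧ j = 2) ∨ (i = 2 ∧ j = 1) := by omega
    have hc1 : Nat.card (keyComp X c (x ^ 1)) = 4 ∧ Nat.card (keyComp X c (x ^ 2)) = 4 := by
      rcases h12 with ⟨rfl, rfl⟩ | ⟨rfl, rfl⟩
      · exact ⟨hci', hcj⟩
      · exact ⟨hcj, hci'⟩
    have h16 : Nat.card X = 16 := by
      refine key_card X (keyComp X c (x ^ 1)) (keyComp X c (x ^ 2)) (fun w hw => hw.1)
        (fun w hw => hw.1) ?_ ?_ hc1.1 hc1.2
      · rintro w ⟨hw, hw1⟩ ⟨_, hw2⟩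
        rw [hw1, pow_one, pow_two, mul_smul] at hw2
        have : x • (x • w) = x • w := hw2.symm
        have h3 := hfx _ (hXF x w hw) this
        exact (smul_eq_zero_iff_eq x).1 h3
      · intro w hw
        obtain ⟨w0, ws, hw0, hzw0, hws, hsum⟩ := wdec 3 q hpp hq hpq S.hW X c x (hXF c) (hXF x)
          (hc x) hcp hzp hfix w hw
        have e0 : w0 = 0 := hfx w0 hw0 hzw0
        refine ⟨ws 1, ⟨(hws 1).1, (hws 1).2⟩, ws 2, ⟨(hws 2).1, (hws 2).2⟩, ?_⟩
        rw [hsum, e0, zero_add, Finset.sum_Ico_succ_top (by norm_num),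
          Finset.sum_Ico_succ_top (by norm_num)]
        simp
    -- `q = 2`
    have hq2 : ∀ w ∈ X, w + w = 0 := by
      intro w hw
      have hq2 : q = 2 := by
        by_contra hne
        have hcop : Nat.Coprime q 16 := by
          have : (16 : ℕ) = 2 ^ 4 := by norm_num
          rw [this]
          exact Nat.Coprime.pow_right 4 ((Nat.coprime_primes hq Nat.prime_two).2 hne)
        have hall : ∀ w ∈ X, w = 0 := by
          intro w hw
          have h1 : q • w = 0 := S.hW w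
          have h2 : 16 • w = 0 := by
            have h3 : (Nat.card X) • (⟨w, hw⟩ : X) = 0 := by
              exact card_nsmul_eq_zero'
            rw [h16] at h3
            exact congrArg Subtype.val h3
          have h3 : addOrderOf w ∣ q := addOrderOf_dvd_of_nsmul_eq_zero h1
          have h4 : addOrderOf w ∣ 16 := addOrderOf_dvd_of_nsmul_eq_zero h2
          have h5 : addOrderOf w ∣ 1 := by
            rw [← hcop]
            exact Nat.dvd_gcd h3 h4
          exact AddMonoid.addOrderOf_eq_one_iff.1 (Nat.dvd_one.1 h5)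
        obtain ⟨w', hw', hne', _⟩ := hXi
        exact hne' (hall w' hw')
      have := S.hW w
      rw [hq2, two_nsmul] at this
      exact this
    obtain ⟨Y, hYX, hYbot, hYne, hYF⟩ := sixteen S.hF X hXF h16 hq2 c hc hfix hcp
    rcases hsimple Y hYX hYF with h | h
    · exact hYbot h
    · exact hYne h
  -- at least one nonzero component
  obtain ⟨w, hw, hzw⟩ := hz
  have hex : ∃ i, 0 < i ∧ i < p ∧ ∃ w ∈ X, w ≠ 0 ∧ c • w = (z ^ i) • w := by
    by_contra hcon
    push Not at hcon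
    obtain ⟨w0, ws, hw0, hzw0, hws, hsum⟩ := wdec p q hpp hq hpq S.hW X c z (hXF c) (hXF z)
      (hc z) hcp hzp hfix w hw
    have hs0 : ∑ i ∈ Finset.Ico 1 p, ws i = 0 := by
      refine Finset.sum_eq_zero fun i hi => ?_
      rw [Finset.mem_Ico] at hi
      by_contra hne
      exact hcon i (by omega) hi.2 (ws i) (hws i).1 hne (hws i).2
    rw [hs0, add_zero] at hsum
    rw [hsum] at hzw
    exact hzw hzw0
  obtain ⟨i, hi0, hip, hXi⟩ := hex
  refine ⟨i, hi0, hip, ?_⟩
  intro w hw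
  obtain ⟨w0, ws, hw0, hzw0, hws, hsum⟩ := wdec p q hpp hq hpq S.hW X c z (hXF c) (hXF z)
    (hc z) hcp hzp hfix w hw
  have hs0 : ∑ j ∈ Finset.Ico 1 p, ws j = ws i := by
    refine Finset.sum_eq_single_of_mem i (Finset.mem_Ico.2 ⟨by omega, hip⟩) ?_
    intro j hj hji
    rw [Finset.mem_Ico] at hj
    by_contra hne
    exact huniq i j hi0 hip (by omega) hj.2 (Ne.symm hji) hXi
      ⟨ws j, (hws j).1, hne, (hws j).2⟩
  rw [hs0] at hsum
  have hzi : ∀ n : ℕ, (z ^ n) • w0 = w0 := by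
    intro n
    induction n with
    | zero => rw [pow_zero, one_smul]
    | succ n ih => rw [pow_succ, mul_smul, hzw0, ih]
  have e1 : (z ^ i) • w - w = (z ^ i) • ws i - ws i := by
    rw [hsum, smul_add, hzi i]
    abel
  rw [e1, smul_sub, smul_sub, hc _ _ (hws i).1, (hws i).2]

end H60SH
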