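import Mathlib

namespace H60SH

/-- the pointwise stabiliser of an invariant subgroup -/
def simpKer {W F : Type*} [AddCommGroup W] [Group F] [DistribMulAction F W]
    (Y : AddSubgroup W) : Subgroup F where
  carrier := {f | ∀ w ∈ Y, f • w = w}
  mul_mem' := by
    intro a b ha hb w hw
    rw [mul_smul, hb w hw, ha w hw]
  one_mem' := by
    intro w _
    exact one_smul _ _
  inv_mem' := by
    intro a ha w hw
    rw [inv_smul_eq_iff, ha w hw]

theorem mem_simpKer {W F : Type*} [AddCommGroup W] [Group F] [DistribMulAction F W]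
    {Y : AddSubgroup W} {f : F} : f ∈ simpKer (F := F) Y ↔ ∀ w ∈ Y, f • w = w := Iff.rfl

theorem simpKer_normal {W F : Type*} [AddCommGroup W] [Group F] [DistribMulAction F W]
    (Y : AddSubgroup W) (hY : ∀ (f : F), ∀ w ∈ Y, f • w ∈ Y) :
    (simpKer (F := F) Y).Normal := by
  constructor
  intro n hn g w hw
  rw [mul_smul, mul_smul, hn _ (hY g⁻¹ w hw), smul_inv_smul]

/-- **SIMP**: a minimal invariant subgroup on which `d` acts nontrivially is simple. -/
theorem exists_simple {W F : Type*} [AddCommGroup W] [Finite W] [Group F] [Finite F]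
    [DistribMulAction F W] (p q : ℕ) (hp : p.Prime) (hq : q.Prime) (hpq : p ≠ q)
    (hF : IsPGroup p F) (hW : ∀ w : W, q • w = 0) (d : F) (hd : ∃ w : W, d • w ≠ w) :
    ∃ X : AddSubgroup W, (∀ (f : F), ∀ w ∈ X, f • w ∈ X) ∧ (∃ w ∈ X, d • w ≠ w) ∧
      ∀ Y : AddSubgroup W, Y ≤ X → (∀ (f : F), ∀ w ∈ Y, f • w ∈ Y) → Y = ⊥ ∨ Y = X := by
  classical
  have : Fact p.Prime := ⟨hp⟩
  have : Finite (AddSubgroup W) :=
    Finite.of_injective (fun H : AddSubgroup W => (H : Set W)) SetLike.coe_injective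
  let S : Set (AddSubgroup W) := {X | (∀ (f : F), ∀ w ∈ X, f • w ∈ X) ∧ ∃ w ∈ X, d • w ≠ w}
  have hS : S.Nonempty := by
    obtain ⟨w, hw⟩ := hd
    exact ⟨⊤, fun f w _ => AddSubgroup.mem_top _, w, AddSubgroup.mem_top _, hw⟩
  obtain ⟨X, hXS, hmin⟩ := WellFounded.has_min (wellFounded_lt (α := AddSubgroup W)) S hS
  obtain ⟨hXinv, hXd⟩ := hXS
  refine ⟨X, hXinv, hXd, ?_⟩
  -- the normal closure of `d` acts trivially on proper invariant subgroups
  obtain ⟨N, hN⟩ : ∃ N : Subgroup F, N = Subgroup.normalClosure {d} := ⟨_, rfl⟩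
  have hNn : N.Normal := by rw [hN]; exact Subgroup.normalClosure_normal
  have hdN : d ∈ N := by rw [hN]; exact Subgroup.subset_normalClosure (Set.mem_singleton _)
  have hprop : ∀ Y : AddSubgroup W, Y ≤ X → (∀ (f : F), ∀ w ∈ Y, f • w ∈ Y) → Y ≠ X →
      ∀ n ∈ N, ∀ w ∈ Y, n • w = w := by
    intro Y hYX hYinv hne n hn
    have hdY : ∀ w ∈ Y, d • w = w := by
      by_contra hcon
      push Not at hcon
      exact hmin Y ⟨hYinv, hcon⟩ (lt_of_le_of_ne hYX hne)
    have := simpKer_normal (F := F) Y hYinv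
    have : N ≤ simpKer (F := F) Y := by
      rw [hN]
      apply Subgroup.normalClosure_le_normal
      intro x hx
      rw [Set.mem_singleton_iff] at hx
      rw [hx]
      exact hdY
    exact this hn
  have : Fintype N := Fintype.ofFinite N
  let E : W → W := fun w => ∑ n : N, (n : F) • w
  have hEX : ∀ w ∈ X, E w ∈ X := fun w hw => AddSubgroup.sum_mem _ (fun n _ => hXinv _ w hw)
  have hEadd : ∀ v w, E (v + w) = E v + E w := by
    intro v w
    simp only [E]
    rw [← Finset.sum_add_distrib]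
    exact Finset.sum_congr rfl (fun n _ => smul_add _ _ _)
  have hE0 : E 0 = 0 := by
    simp only [E]
    exact Finset.sum_eq_zero (fun n _ => smul_zero _)
  have hEneg : ∀ v, E (-v) = -E v := by
    intro v
    simp only [E]
    rw [← Finset.sum_neg_distrib]
    exact Finset.sum_congr rfl (fun n _ => smul_neg _ _)
  have hEf : ∀ (f : F) (w : W), f • E w = E (f • w) := by
    intro f w
    simp only [E]
    rw [Finset.smul_sum]
    let e : N ≃ N :=
      { toFun := fun n => ⟨f * n * f⁻¹, hNn.conj_mem n n.2 f⟩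
        invFun := fun n => ⟨f⁻¹ * n * f, by
          have := hNn.conj_mem n n.2 f⁻¹
          rwa [inv_inv] at this⟩
        left_inv := by intro n; ext; simp [mul_assoc]
        right_inv := by intro n; ext; simp [mul_assoc] }
    rw [← Equiv.sum_comp e (fun n : N => (n : F) • f • w)]
    apply Finset.sum_congr rfl
    intro n _
    simp only [e, Equiv.coe_fn_mk]
    rw [← mul_smul, ← mul_smul]
    congr 1
    group
  have hEd : ∀ w, E (d • w) = E w := by
    intro w
    simp only [E]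
    rw [← Equiv.sum_comp (Equiv.mulRight (⟨d, hdN⟩ : N)) (fun n : N => (n : F) • w)]
    apply Finset.sum_congr rfl
    intro n _
    simp only [Equiv.coe_mulRight, Subgroup.coe_mul]
    rw [mul_smul]
  -- the cardinality of `N` is prime to `q`
  have hcard : ∀ w : W, (Fintype.card N) • w = 0 → w = 0 := by
    intro w hw
    obtain ⟨k, hk⟩ := (IsPGroup.iff_card.mp (hF.to_subgroup N))
    rw [Nat.card_eq_fintype_card] at hk
    have hcop : Nat.Coprime (Fintype.card N) q := by
      rw [hk]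
      exact Nat.Coprime.pow_left _ ((Nat.coprime_primes hp hq).mpr hpq)
    have h1 : addOrderOf w ∣ Fintype.card N := addOrderOf_dvd_of_nsmul_eq_zero hw
    have h2 : addOrderOf w ∣ q := addOrderOf_dvd_of_nsmul_eq_zero (hW w)
    have h3 : addOrderOf w = 1 := Nat.eq_one_of_dvd_coprimes hcop h1 h2
    exact AddMonoid.addOrderOf_eq_one_iff.mp h3
  have htriv : ∀ Y : AddSubgroup W, Y ≤ X → (∀ (f : F), ∀ w ∈ Y, f • w ∈ Y) → Y ≠ X →
      ∀ w ∈ Y, E w = 0 → w = 0 := by
    intro Y hYX hYinv hne w hw hEw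
    apply hcard
    have : E w = Fintype.card N • w := by
      simp only [E]
      rw [Finset.sum_congr rfl (fun (n : N) _ => hprop Y hYX hYinv hne n n.2 w hw)]
      simp
    rw [← this, hEw]
  let X2 : AddSubgroup W :=
    { carrier := {w | w ∈ X ∧ E w = 0}
      add_mem' := by
        intro a b ha hb
        refine ⟨X.add_mem ha.1 hb.1, ?_⟩
        rw [hEadd, ha.2, hb.2, add_zero]
      zero_mem' := ⟨X.zero_mem, hE0⟩
      neg_mem' := by
        intro a ha
        refine ⟨X.neg_mem ha.1, ?_⟩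
        rw [hEneg, ha.2, neg_zero] }
  have hX2le : X2 ≤ X := fun w hw => hw.1
  have hX2inv : ∀ (f : F), ∀ w ∈ X2, f • w ∈ X2 := by
    intro f w hw
    refine ⟨hXinv f w hw.1, ?_⟩
    rw [← hEf, hw.2, smul_zero]
  have hX2 : X2 = X := by
    by_contra hne
    obtain ⟨w, hwX, hdw⟩ := hXd
    apply hdw
    have hmem : d • w - w ∈ X2 := by
      refine ⟨X.sub_mem (hXinv d w hwX) hwX, ?_⟩
      rw [sub_eq_add_neg, hEadd, hEd, hEneg, add_neg_cancel]
    have := htriv X2 hX2le hX2inv hne _ hmem hmem.2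
    exact sub_eq_zero.mp this
  intro Y hYX hYinv
  by_cases hYne : Y = X
  · exact Or.inr hYne
  · left
    rw [AddSubgroup.eq_bot_iff_forall]
    intro w hw
    apply htriv Y hYX hYinv hYne w hw
    have : w ∈ X2 := by rw [hX2]; exact hYX hw
    exact this.2

/-- **SIMP2**: a `p`-group acting nontrivially on a simple `X` contains an element `c` which acts
centrally, fixed point freely and with order `p` on `X`. -/
theorem exists_central {W F : Type*} [AddCommGroup W] [Finite W] [Group F] [Finite F]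
    [DistribMulAction F W] (p : ℕ) [Fact p.Prime] (hF : IsPGroup p F) (X : AddSubgroup W)
    (hX : ∀ (f : F), ∀ w ∈ X, f • w ∈ X)
    (hsimple : ∀ Y : AddSubgroup W, Y ≤ X → (∀ (f : F), ∀ w ∈ Y, f • w ∈ Y) → Y = ⊥ ∨ Y = X)
    (hne : ∃ f : F, ∃ w ∈ X, f • w ≠ w) :
    ∃ c : F, (∀ (f : F), ∀ w ∈ X, c • f • w = f • c • w) ∧ (∀ w ∈ X, (c ^ p) • w = w) ∧
      (∀ w ∈ X, c • w = w → w = 0) ∧ ∃ w ∈ X, c • w ≠ w := by
  classical
  have hCn := simpKer_normal (F := F) X hX
  obtain ⟨C, hC⟩ : ∃ C : Subgroup F, C = simpKer (F := F) X := ⟨_, rfl⟩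
  have : C.Normal := by rw [hC]; exact hCn
  have hmemC : ∀ f : F, f ∈ C ↔ ∀ w ∈ X, f • w = w := by
    intro f; rw [hC]; exact mem_simpKer
  have hQ : IsPGroup p (F ⧸ C) := hF.to_quotient C
  have : Nontrivial (F ⧸ C) := by
    obtain ⟨f, w, hw, hfw⟩ := hne
    refine ⟨⟨(f : F ⧸ C), 1, ?_⟩⟩
    intro h
    rw [QuotientGroup.eq_one_iff] at h
    exact hfw ((hmemC f).mp h w hw)
  have := hQ.center_nontrivial
  obtain ⟨m, hm, hcardm⟩ := (hQ.to_subgroup (Subgroup.center (F ⧸ C))).nontrivial_iff_card.mp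
    inferInstance
  obtain ⟨z, hz⟩ := exists_prime_orderOf_dvd_card' (G := Subgroup.center (F ⧸ C)) p (by
    rw [hcardm]
    exact dvd_pow_self p hm.ne')
  obtain ⟨c, hc⟩ := QuotientGroup.mk_surjective (z : F ⧸ C)
  have hcent : ∀ f : F, ∀ w ∈ X, c • f • w = f • c • w := by
    intro f w hw
    have h1 : (f : F ⧸ C) * (z : F ⧸ C) = (z : F ⧸ C) * (f : F ⧸ C) :=
      (Subgroup.mem_center_iff.mp z.2) f
    rw [← hc, ← QuotientGroup.mk_mul, ← QuotientGroup.mk_mul, QuotientGroup.eq] at h1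
    have h2 := (hmemC _).mp h1 w hw
    rw [mul_smul, inv_smul_eq_iff, mul_smul, mul_smul] at h2
    exact h2
  have hpow : ∀ w ∈ X, (c ^ p) • w = w := by
    rw [← hmemC, ← QuotientGroup.eq_one_iff, QuotientGroup.mk_pow, hc]
    have : z ^ p = 1 := by rw [← hz]; exact pow_orderOf_eq_one z
    have := congrArg (fun y : Subgroup.center (F ⧸ C) => (y : F ⧸ C)) this
    simpa using this
  have hcne : ∃ w ∈ X, c • w ≠ w := by
    by_contra hcon
    push Not at hcon
    rw [← hmemC, ← QuotientGroup.eq_one_iff, hc] at hcon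
    have hz1 : z = 1 := by
      apply Subtype.ext
      rw [hcon]; rfl
    rw [hz1, orderOf_one] at hz
    exact (Fact.out : p.Prime).ne_one hz.symm
  refine ⟨c, hcent, hpow, ?_, hcne⟩
  let Y : AddSubgroup W :=
    { carrier := {w | w ∈ X ∧ c • w = w}
      add_mem' := by
        intro a b ha hb
        refine ⟨X.add_mem ha.1 hb.1, ?_⟩
        rw [smul_add, ha.2, hb.2]
      zero_mem' := ⟨X.zero_mem, smul_zero _⟩
      neg_mem' := by
        intro a ha
        refine ⟨X.neg_mem ha.1, ?_⟩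
        rw [smul_neg, ha.2] }
  rcases hsimple Y (fun w hw => hw.1) (by
    intro f w hw
    exact ⟨hX f w hw.1, by rw [hcent f w hw.1, hw.2]⟩) with h | h
  · intro w hw hcw
    have : w ∈ Y := ⟨hw, hcw⟩
    rw [h] at this
    exact AddSubgroup.mem_bot.mp this
  · exfalso
    obtain ⟨w, hw, hcw⟩ := hcne
    have : w ∈ Y := by rw [h]; exact hw
    exact hcw this.2

end H60SH
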