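import Mathlib
import Pool.Agent.H60.SH.Defs
import Pool.Agent.H60.SH.HEIS
import Pool.Agent.H60.SH.PFIX
import Pool.Agent.H60.SH.PZ
import Pool.Agent.H60.SH.SIMP
import Pool.Agent.H60.SH.BL
import Pool.Agent.H60.SH.KEY

namespace H60SH

set_option linter.unusedSectionVars false

open Module
open scoped commutatorElement

section NDCaux

/-- If `t` and `t'` commute on `X`, then so do `t ^ m` and `t'`. -/
theorem ndc_pow_left {W F : Type*} [AddCommGroup W] [Group F] [DistribMulAction F W]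
    (X : AddSubgroup W) (hX : ∀ (f : F), ∀ w ∈ X, f • w ∈ X) (t t' : F)
    (h : ∀ w ∈ X, t • t' • w = t' • t • w) (m : ℕ) :
    ∀ w ∈ X, (t ^ m) • t' • w = t' • (t ^ m) • w := by
  induction m with
  | zero => intro w _; simp
  | succ m ih =>
    intro w hw
    rw [pow_succ, mul_smul, mul_smul, h w hw, ih _ (hX t w hw)]

theorem ndc_pow {W F : Type*} [AddCommGroup W] [Group F] [DistribMulAction F W]
    (X : AddSubgroup W) (hX : ∀ (f : F), ∀ w ∈ X, f • w ∈ X) (t t' : F)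
    (h : ∀ w ∈ X, t • t' • w = t' • t • w) (m m' : ℕ) :
    ∀ w ∈ X, (t ^ m) • (t' ^ m') • w = (t' ^ m') • (t ^ m) • w := by
  have h1 := ndc_pow_left X hX t t' h m
  have h2 := ndc_pow_left X hX t' (t ^ m) (fun w hw => (h1 w hw).symm) m'
  intro w hw
  exact (h2 w hw).symm

/-- An element of order dividing `p` is a power of each of its powers with exponent `0 < i < p`. -/
theorem ndc_root {F : Type*} [Group F] (p : ℕ) (hp : p.Prime) (z : F) (hz : z ^ p = 1) (i : ℕ)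
    (hi : 0 < i) (hip : i < p) : ∃ m : ℕ, (z ^ i) ^ m = z := by
  have hc : Nat.Coprime i p := (Nat.coprime_of_lt_prime hi.ne' hip hp).symm
  obtain ⟨m, _, hm⟩ := Nat.exists_mul_mod_eq_one_of_coprime hc hp.one_lt
  refine ⟨m, ?_⟩
  rw [← pow_mul]
  have h1 : z ^ (i * m) = z ^ (i * m % p) := by
    conv_lhs => rw [← Nat.div_add_mod (i * m) p]
    rw [pow_add, pow_mul, hz, one_pow, one_mul]
  rw [h1, hm, pow_one]

/-- Two endomorphisms agreeing on an invariant subspace have equal powers there. -/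
theorem ndc_pow_eq {K V : Type*} [Field K] [AddCommGroup V] [Module K V] (U : Submodule K V)
    (S T : Module.End K V) (hT : ∀ v ∈ U, T v ∈ U) (h : ∀ v ∈ U, S v = T v) (m : ℕ) :
    ∀ v ∈ U, (S ^ m) v = (T ^ m) v := by
  induction m with
  | zero => intro v _; simp
  | succ m ih =>
    intro v hv
    rw [pow_succ, pow_succ]
    change (S ^ m) (S v) = (T ^ m) (T v)
    rw [h v hv, ih _ (hT v hv)]

end NDCaux

variable {K V F A W : Type*} [Field K] [IsAlgClosed K] [AddCommGroup V] [Module K V]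
  [FiniteDimensional K V] [Nontrivial V] [Group F] [Finite F] [Group A] [Finite A]
  [MulDistribMulAction F A] [AddCommGroup W] [Finite W] [DistribMulAction F W]
  {p q : ℕ} [Fact p.Prime] [CharP K p]
  {π : A → W} {ρA : Representation K A V} {β : W → W → K} {ρF : Representation K F V}

omit [IsAlgClosed K] [FiniteDimensional K V] [Nontrivial V] [Finite F] [Finite W]
  [Fact p.Prime] [CharP K p] in
/-- `N c = N` on `U`. -/
theorem ndc_N (X : AddSubgroup W) (hXF : ∀ (f : F), ∀ w ∈ X, f • w ∈ X) (U : Submodule K V)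
    (hUF : ∀ (f : F), ∀ v ∈ U, ρF f v ∈ U)
    (hfaith : ∀ f : F, (∀ w ∈ X, f • w = w) → ∀ v ∈ U, ρF f v = v)
    (c : F) (hc : ∀ (f : F), ∀ w ∈ X, c • f • w = f • c • w) (x : F) (k : ℕ)
    (h : (ρF x - 1) ^ (p ^ k - 1) = 0 ∨
      ((∃ a b : F, x = ⁅a, b⁆) ∧ ∀ a b : F,
        (ρF ⁅a, b⁆ - 1) ^ (p ^ k - 1) * ρF a = (ρF ⁅a, b⁆ - 1) ^ (p ^ k - 1) ∧
        (ρF ⁅a, b⁆ - 1) ^ (p ^ k - 1) * ρF b = (ρF ⁅a, b⁆ - 1) ^ (p ^ k - 1))) :
    ∀ v ∈ U, ((ρF x - 1) ^ (p ^ k - 1)) (ρF c v) = ((ρF x - 1) ^ (p ^ k - 1)) v := by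
  rcases h with h | ⟨⟨a, b, hx⟩, h⟩
  · intro v _
    rw [h]; simp
  · subst hx
    -- the commutators `⁅c a, b⁆` and `⁅a, b⁆` agree on `X`
    have hcomm : ∀ w ∈ X, (⁅c * a, b⁆ : F) • w = (⁅a, b⁆ : F) • w := by
      intro w hw
      have hc' : ∀ (f : F), ∀ w ∈ X, c⁻¹ • f • w = f • c⁻¹ • w := by
        intro f w hw
        have := hc f (c⁻¹ • w) (hXF _ _ hw)
        rw [inv_smul_eq_iff, this, smul_inv_smul]
      rw [commutatorElement_def, commutatorElement_def, mul_inv_rev]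
      simp only [mul_smul]
      have e1 : c⁻¹ • b⁻¹ • w = b⁻¹ • c⁻¹ • w := hc' b⁻¹ w hw
      have m1 : b⁻¹ • w ∈ X := hXF _ _ hw
      have m2 : a⁻¹ • b⁻¹ • w ∈ X := hXF _ _ m1
      have m3 : b • a⁻¹ • b⁻¹ • w ∈ X := hXF _ _ m2
      have m4 : c⁻¹ • b⁻¹ • w ∈ X := hXF _ _ m1
      have m5 : a⁻¹ • c⁻¹ • b⁻¹ • w ∈ X := hXF _ _ m4
      rw [← hc' a⁻¹ _ m1, ← hc' b _ m2, ← hc' a _ m3, smul_inv_smul]
    have hagree : ∀ v ∈ U, ρF (⁅c * a, b⁆) v = ρF (⁅a, b⁆) v := by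
      intro v hv
      have h1 : ∀ w ∈ X, (⁅c * a, b⁆ * (⁅a, b⁆)⁻¹ : F) • w = w := by
        intro w hw
        rw [mul_smul, hcomm _ (hXF _ _ hw), smul_inv_smul]
      have h2 := hfaith _ h1 (ρF (⁅a, b⁆) v) (hUF _ _ hv)
      rw [← Module.End.mul_apply, ← map_mul, inv_mul_cancel_right] at h2
      exact h2
    have hU1 : ∀ v ∈ U, (ρF ⁅a, b⁆ - 1) v ∈ U := fun v hv => U.sub_mem (hUF _ _ hv) hv
    have hpow : ∀ v ∈ U, ((ρF ⁅c * a, b⁆ - 1) ^ (p ^ k - 1)) v =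
        ((ρF ⁅a, b⁆ - 1) ^ (p ^ k - 1)) v :=
      ndc_pow_eq U _ _ hU1 (fun v hv => by
        change ρF ⁅c * a, b⁆ v - v = ρF ⁅a, b⁆ v - v
        rw [hagree v hv]) _
    have key : ∀ v ∈ U, ((ρF ⁅a, b⁆ - 1) ^ (p ^ k - 1)) (ρF c (ρF a v)) =
        ((ρF ⁅a, b⁆ - 1) ^ (p ^ k - 1)) (ρF a v) := by
      intro v hv
      have h1 := congrArg (fun T : Module.End K V => T v) (h (c * a) b).1
      have h2 := congrArg (fun T : Module.End K V => T v) (h a b).1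
      simp only [Module.End.mul_apply] at h1 h2
      rw [h2, ← hpow _ (hUF _ _ (hUF _ _ hv)), ← hpow _ hv, ← h1, map_mul, Module.End.mul_apply]
    intro v hv
    have h1 := key (ρF a⁻¹ v) (hUF _ _ hv)
    have h2 : ρF a (ρF a⁻¹ v) = v := by
      rw [← Module.End.mul_apply, ← map_mul, mul_inv_cancel, map_one, Module.End.one_apply]
    rw [h2] at h1
    exact h1

/-- **NDC**: the nondegenerate case. -/
theorem nd_case (S : Sys p q π ρA β ρF) (hp2 : p ≠ 2) (hq : q.Prime) (hpq : p ≠ q)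
    (X : AddSubgroup W) (hXF : ∀ (f : F), ∀ w ∈ X, f • w ∈ X)
    (hsimple : ∀ Y : AddSubgroup W, Y ≤ X → (∀ (f : F), ∀ w ∈ Y, f • w ∈ Y) → Y = ⊥ ∨ Y = X)
    (hnd : ∀ w ∈ X, w ≠ 0 → ∃ w' ∈ X, β w w' ≠ 1)
    (z1 z2 : F) (h1 : PZ p ρF z1) (h2 : PZ p ρF z2) : ∀ w ∈ X, z1 • z2 • w = z2 • z1 • w := by
  have hp : p.Prime := Fact.out
  obtain ⟨U, hs, hUF, hfaith⟩ := fixC S X hXF hnd
  by_cases htriv : ∀ f : F, ∀ w ∈ X, f • w = w
  · intro w hw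
    rw [htriv z2 w hw, htriv z1 w hw, htriv z2 w hw]
  have hne : ∃ f : F, ∃ w ∈ X, f • w ≠ w := by
    by_contra hcon
    apply htriv
    intro f w hw
    by_contra hfw
    exact hcon ⟨f, w, hw, hfw⟩
  obtain ⟨c, hc, hcp, hfix, _⟩ := exists_central p S.hF X hXF hsimple hne
  by_cases hz1 : ∀ w ∈ X, z1 • w = w
  · intro w hw
    rw [hz1 _ (hXF _ _ hw), hz1 w hw]
  by_cases hz2 : ∀ w ∈ X, z2 • w = w
  · intro w hw
    rw [hz2 w hw, hz2 _ (hXF _ _ hw)]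
  obtain ⟨x1, k1, hk1, hzx1, hx1, halt1⟩ := h1
  obtain ⟨x2, k2, hk2, hzx2, hx2, halt2⟩ := h2
  have aux : ∀ (z x : F) (k : ℕ), 1 ≤ k → z = x ^ (p ^ (k - 1)) → x ^ (p ^ k) = 1 →
      ((ρF x - 1) ^ (p ^ k - 1) = 0 ∨
      ((∃ a b : F, x = ⁅a, b⁆) ∧ ∀ a b : F,
        (ρF ⁅a, b⁆ - 1) ^ (p ^ k - 1) * ρF a = (ρF ⁅a, b⁆ - 1) ^ (p ^ k - 1) ∧
        (ρF ⁅a, b⁆ - 1) ^ (p ^ k - 1) * ρF b = (ρF ⁅a, b⁆ - 1) ^ (p ^ k - 1))) →
      (¬ ∀ w ∈ X, z • w = w) →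
      ∃ i m : ℕ, (z ^ i) ^ m = z ∧ ∀ w ∈ X, c • ((z ^ i) • w - w) = (z ^ i) • ((z ^ i) • w - w) := by
    intro z x k hk hzx hx halt hz
    subst hzx
    have hz' : ∃ w ∈ X, (x ^ (p ^ (k - 1))) • w ≠ w := by
      by_contra hcon
      apply hz
      intro w hw
      by_contra hfw
      exact hcon ⟨w, hw, hfw⟩
    obtain ⟨i, hi, hip, hkey⟩ := key S hp2 hq hpq hs hXF hUF hsimple hfaith c hc hcp hfix x k hk
      (fun w _ => by rw [hx, one_smul]) hz' (ndc_N X hXF U hUF hfaith c hc x k halt)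
    have hzp : (x ^ (p ^ (k - 1))) ^ p = 1 := by
      rw [← pow_mul, ← pow_succ, Nat.sub_add_cancel hk, hx]
    obtain ⟨m, hm⟩ := ndc_root p hp _ hzp i hi hip
    exact ⟨i, m, hm, hkey⟩
  obtain ⟨i1, m1, hm1, hkey1⟩ := aux z1 x1 k1 hk1 hzx1 hx1 halt1 hz1
  obtain ⟨i2, m2, hm2, hkey2⟩ := aux z2 x2 k2 hk2 hzx2 hx2 halt2 hz2
  have hBL := BL p q hp hq hpq hp2 S.hF S.hW X hXF c (z1 ^ i1) (z2 ^ i2) hc hfix hkey1 hkey2
  have := ndc_pow X hXF (z1 ^ i1) (z2 ^ i2) hBL m1 m2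
  rw [hm1, hm2] at this
  exact this

end H60SH
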