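import Mathlib
import Pool.Agent.H60.SH.Defs
import Pool.Agent.H60.SH.HEIS
import Pool.Agent.H60.SH.PZ
import Pool.Agent.H60.SH.SIMP
import Pool.Agent.H60.SH.ISO
import Pool.Agent.H60.SH.NDC

namespace H60SH

open Module
open scoped commutatorElement

variable {K V F A W : Type*} [Field K] [IsAlgClosed K] [AddCommGroup V] [Module K V]
  [FiniteDimensional K V] [Nontrivial V] [Group F] [Finite F] [Group A] [Finite A]
  [MulDistribMulAction F A] [AddCommGroup W] [Finite W] [DistribMulAction F W]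
  {p q : ℕ} [Fact p.Prime] [CharP K p]
  {π : A → W} {ρA : Representation K A V} {β : W → W → K} {ρF : Representation K F V}

/-- **BCOMM**: two elements with property `PZ` commute on `W`. -/
theorem bcomm (S : Sys p q π ρA β ρF) (hp2 : p ≠ 2) (hq : q.Prime) (hpq : p ≠ q)
    (hA : (Nat.card A : K) ≠ 0)
    (z1 z2 : F) (h1 : PZ p ρF z1) (h2 : PZ p ρF z2) (w : W) :
    z1 • z2 • w = z2 • z1 • w := by
  by_contra hne
  have hd : ∃ w : W, ((z2 * z1)⁻¹ * (z1 * z2)) • w ≠ w := by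
    refine ⟨w, fun h => hne ?_⟩
    rw [mul_smul, inv_smul_eq_iff, mul_smul, mul_smul] at h
    exact h
  obtain ⟨X, hXF, ⟨w1, hw1, hdw1⟩, hsimple⟩ := exists_simple p q Fact.out hq hpq S.hF S.hW _ hd
  apply hdw1
  rw [mul_smul, inv_smul_eq_iff, mul_smul, mul_smul]
  -- the radical
  let Y : AddSubgroup W :=
    { carrier := {w | w ∈ X ∧ ∀ w' ∈ X, β w w' = 1}
      add_mem' := by
        rintro a b ⟨ha, ha'⟩ ⟨hb, hb'⟩
        exact ⟨X.add_mem ha hb, fun w' hw' => by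
          rw [S.heis.beta_add_left, ha' w' hw', hb' w' hw', one_mul]⟩
      zero_mem' := ⟨X.zero_mem, fun w' _ => S.heis.beta_zero_left w'⟩
      neg_mem' := by
        rintro a ⟨ha, ha'⟩
        exact ⟨X.neg_mem ha, fun w' hw' => by
          rw [S.heis.beta_neg_left, ha' w' hw', inv_one]⟩ }
  have mY : ∀ w, w ∈ Y ↔ w ∈ X ∧ ∀ w' ∈ X, β w w' = 1 := fun w => Iff.rfl
  have hYF : ∀ (f : F), ∀ w ∈ Y, f • w ∈ Y := by
    intro f w hw
    rw [mY] at hw ⊢
    refine ⟨hXF f w hw.1, fun w' hw' => ?_⟩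
    have h3 := S.beta_inv f w (f⁻¹ • w')
    rw [smul_inv_smul] at h3
    rw [h3]
    exact hw.2 _ (hXF _ _ hw')
  rcases hsimple Y (fun w hw => ((mY w).1 hw).1) hYF with h | h
  · refine nd_case S hp2 hq hpq X hXF hsimple ?_ z1 z2 h1 h2 w1 hw1
    intro w hw hw0
    by_contra hcon
    push Not at hcon
    have : w ∈ Y := (mY w).2 ⟨hw, hcon⟩
    rw [h] at this
    exact hw0 ((AddSubgroup.mem_bot).1 this)
  · have hiso : ∀ w ∈ X, ∀ w' ∈ X, β w w' = 1 := by
      intro w hw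
      rw [← h] at hw
      exact ((mY w).1 hw).2
    rw [iso_case S hA X hXF hiso z2 h2 w1 hw1, iso_case S hA X hXF hiso z1 h1 w1 hw1,
      iso_case S hA X hXF hiso z2 h2 w1 hw1]

end H60SH
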