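import Mathlib
import Pool.Agent.H60.SH.Defs

namespace H60SH

open Module
open scoped commutatorElement

universe u

section blk

variable {K V : Type*} {Γ : Type u} [Field K] [AddCommGroup V] [Module K V] [Group Γ]

/-- Restriction of a representation to an invariant subspace. -/
def blkRes (ρ : Representation K Γ V) (Q : Subgroup Γ) (U : Submodule K V)
    (hQU : ∀ g ∈ Q, ∀ v ∈ U, ρ g v ∈ U) : Representation K Q U where
  toFun g := (ρ (g : Γ)).restrict (hQU g g.2)
  map_one' := by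
    ext v
    simp
  map_mul' := by
    intro g h
    ext v
    simp

theorem blkRes_apply (ρ : Representation K Γ V) (Q : Subgroup Γ) (U : Submodule K V)
    (hQU : ∀ g ∈ Q, ∀ v ∈ U, ρ g v ∈ U) (g : Q) (v : U) :
    ((blkRes ρ Q U hQU g v : U) : V) = ρ g v := rfl

/-- The elements acting by scalars. -/
def blkZ {A L : Type*} [Group A] [AddCommGroup L] [Module K L] (ρ : Representation K A L) :
    Subgroup A where
  carrier := {g | ∃ c : K, ρ g = c • (1 : Module.End K L)}
  one_mem' := ⟨1, by simp⟩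
  mul_mem' := by
    rintro g h ⟨c, hc⟩ ⟨d, hd⟩
    exact ⟨c * d, by rw [map_mul, hc, hd, smul_mul_smul_comm, mul_one]⟩
  inv_mem' := by
    rintro g ⟨c, hc⟩
    by_cases h0 : c = 0
    · refine ⟨0, ?_⟩
      have h1 : ρ g * ρ g⁻¹ = 1 := by rw [← map_mul]; simp
      rw [hc, h0, zero_smul, zero_mul] at h1
      rw [zero_smul]
      calc ρ g⁻¹ = ρ g⁻¹ * 1 := by rw [mul_one]
        _ = 0 := by rw [← h1, mul_zero]
    · refine ⟨c⁻¹, ?_⟩
      have h1 : ρ g * ρ g⁻¹ = 1 := by rw [← map_mul]; simp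
      rw [hc, smul_mul_assoc, one_mul] at h1
      rw [← h1, smul_smul, inv_mul_cancel₀ h0, one_smul]

theorem mem_blkZ {A L : Type*} [Group A] [AddCommGroup L] [Module K L] {ρ : Representation K A L}
    {g : A} : g ∈ blkZ ρ ↔ ∃ c : K, ρ g = c • (1 : Module.End K L) := Iff.rfl

instance blkZ_normal {A L : Type*} [Group A] [AddCommGroup L] [Module K L]
    (ρ : Representation K A L) : (blkZ ρ).Normal where
  conj_mem := by
    rintro g ⟨c, hc⟩ h
    refine ⟨c, ?_⟩
    rw [map_mul, map_mul, hc, mul_smul_comm, mul_one, smul_mul_assoc, ← map_mul]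
    simp

/-- Conjugation action. -/
@[reducible] def blkAct (Q F : Subgroup Γ) (hFQ : ∀ s ∈ F, ∀ g ∈ Q, s * g * s⁻¹ ∈ Q) :
    MulDistribMulAction F Q where
  smul f g := ⟨f * g * (f : Γ)⁻¹, hFQ f f.2 g g.2⟩
  one_smul := by
    intro g
    apply Subtype.ext
    show ((1 : F) : Γ) * g * ((1 : F) : Γ)⁻¹ = g
    simp
  mul_smul := by
    intro f f' g
    apply Subtype.ext
    show ((f * f' : F) : Γ) * g * ((f * f' : F) : Γ)⁻¹ = f * (f' * g * (f' : Γ)⁻¹) * (f : Γ)⁻¹
    push_cast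
    group
  smul_mul := by
    intro f g h
    apply Subtype.ext
    show (f : Γ) * ((g * h : Q) : Γ) * (f : Γ)⁻¹ = (f * g * (f : Γ)⁻¹) * (f * h * (f : Γ)⁻¹)
    push_cast
    group
  smul_one := by
    intro f
    apply Subtype.ext
    show (f : Γ) * ((1 : Q) : Γ) * (f : Γ)⁻¹ = ((1 : Q) : Γ)
    simp

end blk

/-- **BLK**: the Heisenberg type system on a block. -/
theorem block_sys {K V : Type*} {Γ : Type u} [Field K] [AddCommGroup V] [Module K V]
    [Group Γ] [Finite Γ] (p q : ℕ) (ρ : Representation K Γ V) (Q F : Subgroup Γ)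
    (U : Submodule K V) (hU : U ≠ ⊥) (hF : IsPGroup p F)
    (hQU : ∀ g ∈ Q, ∀ v ∈ U, ρ g v ∈ U) (hFU : ∀ f ∈ F, ∀ v ∈ U, ρ f v ∈ U)
    (hFQ : ∀ s ∈ F, ∀ g ∈ Q, s * g * s⁻¹ ∈ Q)
    (hQ2 : ∀ g ∈ Q, ∀ h ∈ Q, ∀ k ∈ Q, ⁅g, h⁆ * k = k * ⁅g, h⁆)
    (hQq : ∀ g ∈ Q, ∀ h ∈ Q, g ^ q * h = h * g ^ q)
    (hsc : ∀ g ∈ Q, (∀ h ∈ Q, ∀ v ∈ U, ρ ⁅h, g⁆ v = v) → ∃ c : K, ∀ v ∈ U, ρ g v = c • v) :
    ∃ (W : Type u) (_ : AddCommGroup W) (_ : Finite W) (_ : MulDistribMulAction F Q)
      (_ : DistribMulAction F W) (π : Q → W) (β : W → W → K) (ρA : Representation K Q U)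
      (ρF : Representation K F U), Sys p q π ρA β ρF ∧
      (∀ (g : Q) (v : U), ((ρA g v : U) : V) = ρ g v) ∧
      (∀ (f : F) (v : U), ((ρF f v : U) : V) = ρ f v) ∧
      (∀ (f : F) (g : Q), ((f • g : Q) : Γ) = f * g * (f : Γ)⁻¹) := by
  classical
  set ρA : Representation K Q U := blkRes ρ Q U hQU with hρA
  set ρF : Representation K F U := blkRes ρ F U hFU with hρF
  set Z : Subgroup Q := blkZ ρA with hZ
  letI actQ : MulDistribMulAction F Q := blkAct Q F hFQ
  have hact : ∀ (f : F) (g : Q), ((f • g : Q) : Γ) = f * g * (f : Γ)⁻¹ := fun f g => rfl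
  -- scalars
  have hsc' : ∀ g : Q, (∀ h : Q, ρA ⁅h, g⁆ = 1) → g ∈ Z := by
    intro g hg
    obtain ⟨c, hc⟩ := hsc g g.2 (by
      intro h hh v hv
      have h1 := congrArg (fun T : Module.End K U => ((T ⟨v, hv⟩ : U) : V)) (hg ⟨h, hh⟩)
      exact h1)
    refine ⟨c, ?_⟩
    ext v
    exact hc v v.2
  have hcommZ : ∀ g h : Q, ⁅g, h⁆ ∈ Z := by
    intro g h
    apply hsc'
    intro k
    have h1 : ⁅k, ⁅g, h⁆⁆ = 1 := by
      rw [commutatorElement_eq_one_iff_mul_comm]
      apply Subtype.ext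
      exact (hQ2 g g.2 h h.2 k k.2).symm
    rw [h1, map_one]
  have hpowZ : ∀ g : Q, g ^ q ∈ Z := by
    intro g
    apply hsc'
    intro k
    have h1 : ⁅k, g ^ q⁆ = 1 := by
      rw [commutatorElement_eq_one_iff_mul_comm]
      apply Subtype.ext
      exact (hQq g g.2 k k.2).symm
    rw [h1, map_one]
  have hρ : ∀ (f : F) (g : Q), ρF f * ρA g = ρA (f • g) * ρF f := by
    intro f g
    ext v
    show ρ (f : Γ) (ρ (g : Γ) v) = ρ ((f • g : Q) : Γ) (ρ (f : Γ) v)
    rw [hact, ← Module.End.mul_apply, ← Module.End.mul_apply, ← map_mul, ← map_mul]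
    congr 2
    group
  have hZF : ∀ (f : F) (g : Q), g ∈ Z → f • g ∈ Z := by
    rintro f g ⟨c, hc⟩
    refine ⟨c, ?_⟩
    have h1 := hρ f g
    rw [hc, mul_smul_comm, mul_one] at h1
    have h2 : ρF f * ρF f⁻¹ = 1 := by rw [← map_mul]; simp
    calc ρA (f • g) = ρA (f • g) * (ρF f * ρF f⁻¹) := by rw [h2, mul_one]
      _ = (ρA (f • g) * ρF f) * ρF f⁻¹ := by rw [mul_assoc]
      _ = c • (ρF f * ρF f⁻¹) := by rw [← h1, smul_mul_assoc]
      _ = _ := by rw [h2]
  -- the group W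
  letI cg : CommGroup (Q ⧸ Z) :=
    { (inferInstance : Group (Q ⧸ Z)) with
      mul_comm := by
        intro a b
        induction a using QuotientGroup.induction_on with
        | H g =>
        induction b using QuotientGroup.induction_on with
        | H h =>
        rw [← QuotientGroup.mk_mul, ← QuotientGroup.mk_mul, QuotientGroup.eq]
        have h1 : (g * h)⁻¹ * (h * g) = ⁅h⁻¹, g⁻¹⁆ := by
          rw [commutatorElement_def]
          group
        rw [h1]
        exact hcommZ _ _ }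
  let φ : F → (Q →* Q) := fun f => MulDistribMulAction.toMonoidHom Q f
  have hφ : ∀ f, Z ≤ Z.comap (φ f) := by
    intro f g hg
    exact hZF f g hg
  let ψ : F → (Q ⧸ Z →* Q ⧸ Z) := fun f => QuotientGroup.map Z Z (φ f) (hφ f)
  have hψ : ∀ (f : F) (g : Q), ψ f (g : Q ⧸ Z) = ((f • g : Q) : Q ⧸ Z) := fun f g => rfl
  letI actW : DistribMulAction F (Additive (Q ⧸ Z)) :=
    { smul := fun f w => Additive.ofMul (ψ f (Additive.toMul w))
      one_smul := by
        intro w
        show Additive.ofMul (ψ 1 (Additive.toMul w)) = w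
        obtain ⟨g, hg⟩ := QuotientGroup.mk_surjective (Additive.toMul w)
        rw [← hg, hψ, one_smul, hg]
        rfl
      mul_smul := by
        intro f f' w
        show Additive.ofMul (ψ (f * f') (Additive.toMul w)) =
          Additive.ofMul (ψ f (ψ f' (Additive.toMul w)))
        obtain ⟨g, hg⟩ := QuotientGroup.mk_surjective (Additive.toMul w)
        rw [← hg, hψ, hψ, hψ, mul_smul]
      smul_zero := by
        intro f
        show Additive.ofMul (ψ f 1) = 0
        rw [map_one]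
        rfl
      smul_add := by
        intro f w w'
        show Additive.ofMul (ψ f (Additive.toMul w * Additive.toMul w')) = _
        rw [map_mul]
        rfl }
  let π : Q → Additive (Q ⧸ Z) := fun g => Additive.ofMul (g : Q ⧸ Z)
  have hsurj : Function.Surjective π := by
    intro w
    obtain ⟨g, hg⟩ := QuotientGroup.mk_surjective (Additive.toMul w)
    exact ⟨g, by show Additive.ofMul (g : Q ⧸ Z) = w; rw [hg]; rfl⟩
  have hπeq : ∀ g h : Q, π g = π h → ∃ c : K, ρA g = c • ρA h := by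
    intro g h hgh
    have h1 : (h : Q ⧸ Z) = (g : Q ⧸ Z) := (Additive.ofMul.injective hgh).symm
    rw [QuotientGroup.eq] at h1
    obtain ⟨c, hc⟩ := h1
    refine ⟨c, ?_⟩
    calc ρA g = ρA (h * (h⁻¹ * g)) := by congr 1; group
      _ = ρA h * ρA (h⁻¹ * g) := map_mul _ _ _
      _ = c • ρA h := by rw [hc, mul_smul_comm, mul_one]
  have hπ0 : ∀ g : Q, π g = 0 ↔ g ∈ Z := by
    intro g
    constructor
    · intro h
      have h1 : (g : Q ⧸ Z) = 1 := Additive.ofMul.injective h
      exact (QuotientGroup.eq_one_iff g).1 h1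
    · intro h
      show Additive.ofMul (g : Q ⧸ Z) = 0
      rw [(QuotientGroup.eq_one_iff g).2 h]
      rfl
  have hc : ∀ g h : Q, ∃ c : K, ρA g * ρA h = c • (ρA h * ρA g) := by
    intro g h
    obtain ⟨c, hc⟩ := hcommZ g h
    refine ⟨c, ?_⟩
    calc ρA g * ρA h = ρA ⁅g, h⁆ * (ρA h * ρA g) := by
          rw [← map_mul, ← map_mul, ← map_mul]
          congr 1
          rw [commutatorElement_def]
          group
      _ = _ := by rw [hc, smul_mul_assoc, one_mul]
  choose cc hcc using hc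
  let s : Additive (Q ⧸ Z) → Q := Function.surjInv hsurj
  have hs : ∀ w, π (s w) = w := Function.surjInv_eq hsurj
  let β : Additive (Q ⧸ Z) → Additive (Q ⧸ Z) → K := fun w w' => cc (s w) (s w')
  have hcomm : ∀ g h : Q, ρA g * ρA h = β (π g) (π h) • (ρA h * ρA g) := by
    intro g h
    obtain ⟨c, h1⟩ := hπeq g (s (π g)) (hs _).symm
    obtain ⟨d, h2⟩ := hπeq h (s (π h)) (hs _).symm
    have h3 := hcc (s (π g)) (s (π h))
    rw [h1, h2, smul_mul_assoc, mul_smul_comm, h3, smul_mul_assoc, mul_smul_comm]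
    simp only [smul_smul]
    congr 1
    show c * (d * β (π g) (π h)) = β (π g) (π h) * (d * c)
    ring
  refine ⟨Additive (Q ⧸ Z), inferInstance, inferInstance, actQ, actW, π, β, ρA, ρF, ?_, ?_, ?_, hact⟩
  · refine ⟨⟨hsurj, ?_, ?_, hcomm, ?_⟩, hF, ?_, ?_, hρ⟩
    · intro g h
      rfl
    · intro g hg
      exact (hπ0 g).1 hg
    · intro w hw
      by_contra hcon
      push Not at hcon
      apply hw
      rw [← hs w, hπ0]
      apply hsc'
      intro h
      have h1 := hcomm (s w) h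
      rw [hs, hcon, one_smul] at h1
      have h2 : ρA ⁅h, s w⁆ * (ρA (s w) * ρA h) = ρA h * ρA (s w) := by
        rw [← map_mul, ← map_mul, ← map_mul]
        congr 1
        rw [commutatorElement_def]
        group
      rw [h1] at h2
      have h3 : (ρA h * ρA (s w)) * (ρA ((h * s w)⁻¹)) = 1 := by
        rw [← map_mul, ← map_mul]
        simp
      calc ρA ⁅h, s w⁆ = ρA ⁅h, s w⁆ * ((ρA h * ρA (s w)) * (ρA ((h * s w)⁻¹))) := by
            rw [h3, mul_one]
        _ = (ρA ⁅h, s w⁆ * (ρA h * ρA (s w))) * (ρA ((h * s w)⁻¹)) := by simp only [mul_assoc]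
        _ = 1 := by rw [h2, h3]
    · intro w
      obtain ⟨g, rfl⟩ := hsurj w
      have h1 : q • π g = π (g ^ q) := rfl
      rw [h1, hπ0]
      exact hpowZ g
    · intro f g
      rfl
  · intro g v
    rfl
  · intro f v
    rfl

end H60SH
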