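import Mathlib

namespace H60SH

open scoped commutatorElement

/-- The preimage of `Ω₁(Z(P/B))`. -/
private def upS {G : Type*} [Group G] (p : ℕ) (P B : Subgroup G) (hB : B.Normal) (hBP : B ≤ P) :
    Subgroup G where
  carrier := {y | y ∈ P ∧ (∀ x ∈ P, ⁅x, y⁆ ∈ B) ∧ y ^ p ∈ B}
  one_mem' := by
    refine ⟨P.one_mem, fun x _ => ?_, ?_⟩
    · rw [commutatorElement_one_right]; exact B.one_mem
    · rw [one_pow]; exact B.one_mem
  mul_mem' := by
    rintro y z ⟨hy, hy1, hy2⟩ ⟨hz, hz1, hz2⟩
    refine ⟨P.mul_mem hy hz, fun x hx => ?_, ?_⟩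
    · have e : ⁅x, y * z⁆ = ⁅x, y⁆ * (y * ⁅x, z⁆ * y⁻¹) := by
        simp only [commutatorElement_def]; group
      rw [e]
      exact B.mul_mem (hy1 x hx) (hB.conj_mem _ (hz1 x hx) y)
    · have hc : Commute (QuotientGroup.mk (s := B) y) (QuotientGroup.mk (s := B) z) := by
        have h1 : ⁅y, z⁆ ∈ B := hz1 y hy
        have h2 : QuotientGroup.mk' B ⁅y, z⁆ = 1 := by
          rw [← MonoidHom.mem_ker, QuotientGroup.ker_mk']; exact h1
        rw [map_commutatorElement, commutatorElement_eq_one_iff_commute] at h2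
        exact h2
      have h3 : QuotientGroup.mk' B ((y * z) ^ p) = 1 := by
        rw [map_pow, map_mul]
        have h4 : (QuotientGroup.mk' B y * QuotientGroup.mk' B z) ^ p
          = QuotientGroup.mk' B y ^ p * QuotientGroup.mk' B z ^ p := hc.mul_pow p
        rw [h4, ← map_pow, ← map_pow]
        have h5 : QuotientGroup.mk' B (y ^ p) = 1 := by
          rw [← MonoidHom.mem_ker, QuotientGroup.ker_mk']; exact hy2
        have h6 : QuotientGroup.mk' B (z ^ p) = 1 := by
          rw [← MonoidHom.mem_ker, QuotientGroup.ker_mk']; exact hz2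
        rw [h5, h6, one_mul]
      rw [← MonoidHom.mem_ker, QuotientGroup.ker_mk'] at h3
      exact h3
  inv_mem' := by
    rintro y ⟨hy, hy1, hy2⟩
    refine ⟨P.inv_mem hy, fun x hx => ?_, ?_⟩
    · have e : ⁅x, y⁻¹⁆ = y⁻¹ * ⁅x, y⁆⁻¹ * (y⁻¹)⁻¹ := by
        simp only [commutatorElement_def]; group
      rw [e]
      exact hB.conj_mem _ (B.inv_mem (hy1 x hx)) y⁻¹
    · rw [inv_pow]; exact B.inv_mem hy2

private theorem mem_upS {G : Type*} [Group G] (p : ℕ) (P B : Subgroup G) (hB : B.Normal)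
    (hBP : B ≤ P) (y : G) :
    y ∈ upS p P B hB hBP ↔ y ∈ P ∧ (∀ x ∈ P, ⁅x, y⁆ ∈ B) ∧ y ^ p ∈ B := Iff.rfl

private theorem upS_normal {G : Type*} [Group G] (p : ℕ) (P B : Subgroup G) (hP : P.Normal)
    (hB : B.Normal) (hBP : B ≤ P) : (upS p P B hB hBP).Normal := by
  constructor
  rintro y ⟨hy, hy1, hy2⟩ g
  refine ⟨hP.conj_mem y hy g, fun x hx => ?_, ?_⟩
  · have e : ⁅x, g * y * g⁻¹⁆ = g * ⁅g⁻¹ * x * (g⁻¹)⁻¹, y⁆ * g⁻¹ := by
      simp only [commutatorElement_def]; group
    rw [e]
    exact hB.conj_mem _ (hy1 _ (hP.conj_mem x hx g⁻¹)) g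
  · rw [conj_pow]
    exact hB.conj_mem _ hy2 g

private theorem le_upS {G : Type*} [Group G] (p : ℕ) (P B : Subgroup G) (hB : B.Normal)
    (hBP : B ≤ P) : B ≤ upS p P B hB hBP := by
  intro y hy
  refine ⟨hBP hy, fun x _ => ?_, B.pow_mem hy p⟩
  rw [commutatorElement_def]
  exact B.mul_mem (hB.conj_mem y hy x) (B.inv_mem hy)

private theorem upS_le {G : Type*} [Group G] (p : ℕ) (P B : Subgroup G) (hB : B.Normal)
    (hBP : B ≤ P) : upS p P B hB hBP ≤ P := fun _ hy => hy.1

private theorem upS_ne {G : Type*} [Group G] [Finite G] (p : ℕ) [Fact p.Prime] (P B : Subgroup G)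
    (hP : IsPGroup p P) (hB : B.Normal) (hBP : B ≤ P) (hne : B ≠ P) :
    B ≠ upS p P B hB hBP := by
  have hN : (B.subgroupOf P).Normal := hB.subgroupOf P
  have hQ : IsPGroup p (P ⧸ B.subgroupOf P) := hP.to_quotient _
  have hnt : Nontrivial (P ⧸ B.subgroupOf P) := by
    rw [← not_subsingleton_iff_nontrivial]
    intro hs
    apply hne
    apply le_antisymm hBP
    rw [QuotientGroup.subsingleton_iff] at hs
    rw [Subgroup.subgroupOf_eq_top] at hs
    exact hs
  have hc : Nontrivial (Subgroup.center (P ⧸ B.subgroupOf P)) := hQ.center_nontrivial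
  have hcp : IsPGroup p (Subgroup.center (P ⧸ B.subgroupOf P)) := hQ.to_subgroup _
  have hdvd : p ∣ Nat.card (Subgroup.center (P ⧸ B.subgroupOf P)) := by
    rcases hcp.card_eq_or_dvd with h | h
    · exfalso
      have := Finite.one_lt_card (α := Subgroup.center (P ⧸ B.subgroupOf P))
      omega
    · exact h
  obtain ⟨z, hz⟩ := exists_prime_orderOf_dvd_card' p hdvd
  obtain ⟨y, hy⟩ := QuotientGroup.mk_surjective (z : P ⧸ B.subgroupOf P)
  intro heq
  have hyB : (y : G) ∈ upS p P B hB hBP := by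
    refine ⟨y.2, fun x hx => ?_, ?_⟩
    · have h1 : ⁅(⟨x, hx⟩ : P), y⁆ ∈ B.subgroupOf P := by
        rw [← QuotientGroup.ker_mk' (B.subgroupOf P), MonoidHom.mem_ker, map_commutatorElement,
          commutatorElement_eq_one_iff_commute]
        have h2 : QuotientGroup.mk' (B.subgroupOf P) y = (z : P ⧸ B.subgroupOf P) := hy
        rw [h2]
        exact ((Subgroup.mem_center_iff.1 z.2) _)
      exact h1
    · have h1 : y ^ p ∈ B.subgroupOf P := by
        rw [← QuotientGroup.ker_mk' (B.subgroupOf P), MonoidHom.mem_ker, map_pow]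
        have h2 : QuotientGroup.mk' (B.subgroupOf P) y = (z : P ⧸ B.subgroupOf P) := hy
        rw [h2, ← hz, ← Subgroup.coe_pow, pow_orderOf_eq_one, Subgroup.coe_one]
      exact h1
  rw [← heq] at hyB
  have hz1 : z = 1 := by
    apply Subtype.ext
    rw [← hy]
    have : y ∈ B.subgroupOf P := hyB
    exact (QuotientGroup.eq_one_iff y).2 this
  rw [hz1, orderOf_one] at hz
  exact (Fact.out : p.Prime).one_lt.ne hz

/-- The ascending chain. -/
private noncomputable def tS {G : Type*} [Group G] (p : ℕ) (P : Subgroup G) (hPn : P.Normal) :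
    ℕ → {B : Subgroup G // B.Normal ∧ B ≤ P}
  | 0 => ⟨⊥, inferInstance, bot_le⟩
  | n + 1 => ⟨upS p P (tS p P hPn n).1 (tS p P hPn n).2.1 (tS p P hPn n).2.2,
      upS_normal p P _ hPn _ _, upS_le p P _ _ _⟩

/-- **CHAIN1**: a central chain with elementary abelian factors inside a normal `p`-subgroup. -/
theorem chain {G : Type*} [Group G] [Finite G] (p : ℕ) [Fact p.Prime] (P : Subgroup G)
    (hPn : P.Normal) (hP : IsPGroup p P) :
    ∃ (m : ℕ) (s : ℕ → Subgroup G), s 0 = P ∧ s m = ⊥ ∧ (∀ i, (s i).Normal) ∧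
      (∀ i, s (i + 1) ≤ s i) ∧ (∀ i, ∀ x ∈ P, ∀ y ∈ s i, ⁅x, y⁆ ∈ s (i + 1)) ∧
      (∀ i, ∀ y ∈ s i, y ^ p ∈ s (i + 1)) := by
  have h0 : (tS p P hPn 0).1 = ⊥ := rfl
  have hstep : ∀ n, (tS p P hPn (n + 1)).1
      = upS p P (tS p P hPn n).1 (tS p P hPn n).2.1 (tS p P hPn n).2.2 := fun n => rfl
  have hle : ∀ n, (tS p P hPn n).1 ≤ (tS p P hPn (n + 1)).1 :=
    fun n => le_upS p P _ (tS p P hPn n).2.1 (tS p P hPn n).2.2
  have hm : ∃ m, (tS p P hPn m).1 = P := by
    by_contra hcon
    push Not at hcon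
    have hsm : StrictMono (fun n => (tS p P hPn n).1) := by
      apply strictMono_nat_of_lt_succ
      intro n
      exact lt_of_le_of_ne (hle n)
        (upS_ne p P (tS p P hPn n).1 hP (tS p P hPn n).2.1 (tS p P hPn n).2.2 (hcon n))
    have : Finite (Subgroup G) := inferInstance
    exact not_injective_infinite_finite _ hsm.injective
  obtain ⟨m, hm⟩ := hm
  refine ⟨m, fun i => (tS p P hPn (m - i)).1, ?_, ?_, fun i => (tS p P hPn (m - i)).2.1, ?_, ?_, ?_⟩
  · simpa using hm
  · show (tS p P hPn (m - m)).1 = ⊥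
    rw [Nat.sub_self]
    exact h0
  · intro i
    show (tS p P hPn (m - (i + 1))).1 ≤ (tS p P hPn (m - i)).1
    by_cases hi : i < m
    · have e : m - i = (m - (i + 1)) + 1 := by omega
      rw [e]
      exact hle _
    · have e : m - i = m - (i + 1) := by omega
      rw [e]
  · intro i x hx y hy
    change y ∈ (tS p P hPn (m - i)).1 at hy
    show ⁅x, y⁆ ∈ (tS p P hPn (m - (i + 1))).1
    by_cases hi : i < m
    · have e : m - i = (m - (i + 1)) + 1 := by omega
      rw [e] at hy
      exact hy.2.1 x hx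
    · have e : m - i = 0 := by omega
      rw [e, h0, Subgroup.mem_bot] at hy
      rw [hy, commutatorElement_one_right]
      exact Subgroup.one_mem _
  · intro i y hy
    change y ∈ (tS p P hPn (m - i)).1 at hy
    show y ^ p ∈ (tS p P hPn (m - (i + 1))).1
    by_cases hi : i < m
    · have e : m - i = (m - (i + 1)) + 1 := by omega
      rw [e] at hy
      exact hy.2.2
    · have e : m - i = 0 := by omega
      rw [e, h0, Subgroup.mem_bot] at hy
      rw [hy, one_pow]
      exact Subgroup.one_mem _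

/-- **CHAIN2**: if `C_G(P) ≤ P` and `P` contains every normal `p`-subgroup, then an element acting
trivially on all factors of such a chain lies in `P`. -/
theorem stab_chain {G : Type*} [Group G] [Finite G] (p : ℕ) [Fact p.Prime] (P : Subgroup G)
    (hPn : P.Normal) (hP : IsPGroup p P)
    (hPmax : ∀ N : Subgroup G, N.Normal → IsPGroup p N → N ≤ P)
    (hcent : ∀ g : G, (∀ x ∈ P, g * x = x * g) → g ∈ P)
    (m : ℕ) (s : ℕ → Subgroup G) (hs0 : s 0 = P) (hsm : s m = ⊥) (hsn : ∀ i, (s i).Normal)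
    (hsd : ∀ i, s (i + 1) ≤ s i) (g : G) (hg : ∀ i, ∀ y ∈ s i, ⁅g, y⁆ ∈ s (i + 1)) :
    g ∈ P := by
  have hsP : ∀ i, s i ≤ P := by
    intro i
    induction i with
    | zero => rw [hs0]
    | succ n ih => exact (hsd n).trans ih
  let C : Subgroup G :=
    { carrier := {g | ∀ i, ∀ y ∈ s i, ⁅g, y⁆ ∈ s (i + 1)}
      one_mem' := by
        intro i y _
        rw [commutatorElement_one_left]
        exact Subgroup.one_mem _
      mul_mem' := by
        intro a b ha hb i y hy
        have e : ⁅a * b, y⁆ = (a * ⁅b, y⁆ * a⁻¹) * ⁅a, y⁆ := by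
          simp only [commutatorElement_def]; group
        rw [e]
        exact Subgroup.mul_mem _ ((hsn (i + 1)).conj_mem _ (hb i y hy) a) (ha i y hy)
      inv_mem' := by
        intro a ha i y hy
        have e : ⁅a⁻¹, y⁆ = a⁻¹ * ⁅a, y⁆⁻¹ * (a⁻¹)⁻¹ := by
          simp only [commutatorElement_def]; group
        rw [e]
        exact (hsn (i + 1)).conj_mem _ (Subgroup.inv_mem _ (ha i y hy)) a⁻¹ }
  have hC : ∀ a, a ∈ C ↔ ∀ i, ∀ y ∈ s i, ⁅a, y⁆ ∈ s (i + 1) := fun a => Iff.rfl
  have hCn : C.Normal := by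
    constructor
    intro a ha b
    rw [hC] at ha ⊢
    intro i y hy
    have e : ⁅b * a * b⁻¹, y⁆ = b * ⁅a, b⁻¹ * y * (b⁻¹)⁻¹⁆ * b⁻¹ := by
      simp only [commutatorElement_def]; group
    rw [e]
    exact (hsn (i + 1)).conj_mem _ (ha i _ ((hsn i).conj_mem y hy b⁻¹)) b
  have key : ∀ a ∈ C, (orderOf a).Coprime p → a = 1 := by
    intro a ha hcop
    have hcomm : ∀ j, ∀ y ∈ s (m - j), a * y = y * a := by
      intro j
      induction j with
      | zero =>
        intro y hy
        rw [Nat.sub_zero, hsm, Subgroup.mem_bot] at hy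
        rw [hy, mul_one, one_mul]
      | succ j ih =>
        intro y hy
        by_cases hj : j < m
        · have e : m - j = (m - (j + 1)) + 1 := by omega
          have hr : ⁅a, y⁆ ∈ s (m - j) := by
            rw [e]; exact ha _ y hy
          have hra := ih _ hr
          have hpow : ∀ n : ℕ, a ^ n * y * (a ^ n)⁻¹ = ⁅a, y⁆ ^ n * y := by
            intro n
            induction n with
            | zero => simp
            | succ n ihn =>
              have h1 : a ^ (n + 1) * y * (a ^ (n + 1))⁻¹ = a * (a ^ n * y * (a ^ n)⁻¹) * a⁻¹ := by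
                rw [pow_succ']; group
              rw [h1, ihn]
              have h2 : a * ⁅a, y⁆ ^ n = ⁅a, y⁆ ^ n * a := (Commute.pow_right (show Commute a ⁅a, y⁆ from hra) n)
              calc a * (⁅a, y⁆ ^ n * y) * a⁻¹ = (a * ⁅a, y⁆ ^ n) * y * a⁻¹ := by group
                _ = (⁅a, y⁆ ^ n * a) * y * a⁻¹ := by rw [h2]
                _ = ⁅a, y⁆ ^ n * (a * y * a⁻¹ * y⁻¹) * y := by group
                _ = ⁅a, y⁆ ^ (n + 1) * y := by
                  rw [pow_succ]
                  rfl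
          have h1 := hpow (orderOf a)
          rw [pow_orderOf_eq_one, one_mul, inv_one, mul_one] at h1
          have h2 : ⁅a, y⁆ ^ (orderOf a) = 1 := by
            have := mul_eq_right.1 h1.symm
            exact this
          have h3 : ∃ k : ℕ, ⁅a, y⁆ ^ (p ^ k) = 1 := by
            obtain ⟨k, hk⟩ := hP ⟨⁅a, y⁆, hsP _ hr⟩
            refine ⟨k, ?_⟩
            have := congrArg Subtype.val hk
            simpa using this
          obtain ⟨k, hk⟩ := h3
          have h4 : orderOf ⁅a, y⁆ ∣ orderOf a := orderOf_dvd_of_pow_eq_one h2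
          have h5 : orderOf ⁅a, y⁆ ∣ p ^ k := orderOf_dvd_of_pow_eq_one hk
          have h6 : orderOf ⁅a, y⁆ = 1 :=
            Nat.eq_one_of_dvd_coprimes (Nat.Coprime.pow_right k hcop) h4 h5
          rw [orderOf_eq_one_iff, commutatorElement_eq_one_iff_mul_comm] at h6
          exact h6
        · have e : m - (j + 1) = m - j := by omega
          rw [e] at hy
          exact ih y hy
    have haP : a ∈ P := by
      apply hcent
      intro x hx
      apply hcomm m x
      rw [Nat.sub_self, hs0]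
      exact hx
    obtain ⟨k, hk⟩ := hP ⟨a, haP⟩
    have hk' : a ^ (p ^ k) = 1 := by
      have := congrArg Subtype.val hk
      simpa using this
    have h5 : orderOf a ∣ p ^ k := orderOf_dvd_of_pow_eq_one hk'
    have h6 : orderOf a = 1 :=
      Nat.eq_one_of_dvd_coprimes (Nat.Coprime.pow_right k hcop) dvd_rfl h5
    exact orderOf_eq_one_iff.1 h6
  have hCp : IsPGroup p C := by
    intro a
    have hpos : 0 < orderOf (a : G) := orderOf_pos _
    refine ⟨(orderOf (a : G)).factorization p, ?_⟩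
    have h1 : (a : G) ^ (p ^ (orderOf (a : G)).factorization p) = 1 := by
      apply key _ (C.pow_mem a.2 _)
      rw [orderOf_pow_of_dvd (pow_ne_zero _ (Fact.out : p.Prime).ne_zero)
        (Nat.ordProj_dvd _ _)]
      exact (Nat.coprime_ordCompl (Fact.out : p.Prime) hpos.ne').symm
    apply Subtype.ext
    simpa using h1
  exact hPmax C hCn hCp (show g ∈ C from hg)

end H60SH
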