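import Mathlib

namespace H60SH

open Module
open scoped commutatorElement

section aux
variable {K V Γ : Type*} [Field K] [AddCommGroup V] [Module K V] [Group Γ]

/-- class sums -/
noncomputable def decC (ρ : Representation K Γ V) (Q : Subgroup Γ) [Fintype Q] (g : Q) :
    Module.End K V :=
  ∑ h : Q, ρ ((h : Γ) * g * (h : Γ)⁻¹)

theorem decC_comm (ρ : Representation K Γ V) (Q : Subgroup Γ) [Fintype Q] (g k : Q) :
    ρ (k : Γ) * decC ρ Q g = decC ρ Q g * ρ (k : Γ) := by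
  have h1 : decC ρ Q g = ∑ h : Q, ρ (((k * h : Q) : Γ) * g * ((k * h : Q) : Γ)⁻¹) :=
    (Equiv.sum_comp (Equiv.mulLeft k) fun h : Q => ρ ((h : Γ) * g * (h : Γ)⁻¹)).symm
  conv_rhs => rw [h1]
  unfold decC
  rw [Finset.mul_sum, Finset.sum_mul]
  apply Finset.sum_congr rfl
  intro h _
  rw [← map_mul, ← map_mul]
  congr 1
  simp only [Subgroup.coe_mul]
  group

theorem decC_comm' (ρ : Representation K Γ V) (Q : Subgroup Γ) [Fintype Q] (g k : Q) :
    Commute (decC ρ Q k) (decC ρ Q g) := by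
  change decC ρ Q k * decC ρ Q g = decC ρ Q g * decC ρ Q k
  have : ∀ h : Q, ρ ((h : Γ) * k * (h : Γ)⁻¹) * decC ρ Q g =
      decC ρ Q g * ρ ((h : Γ) * k * (h : Γ)⁻¹) := by
    intro h
    exact decC_comm ρ Q g (h * k * h⁻¹)
  conv_lhs => rw [decC]
  conv_rhs => rw [decC, decC]
  rw [Finset.sum_mul, Finset.mul_sum]
  apply Finset.sum_congr rfl
  intro h _
  exact this h

theorem decC_conj (ρ : Representation K Γ V) (Q : Subgroup Γ) [Fintype Q] (s : Γ)
    (σ : Q ≃ Q) (hσ : ∀ g : Q, ((σ g : Q) : Γ) = s * g * s⁻¹) (g : Q) :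
    ρ s * decC ρ Q g = decC ρ Q (σ g) * ρ s := by
  have h1 : decC ρ Q (σ g) = ∑ h : Q, ρ (((σ h : Q) : Γ) * (σ g : Q) * ((σ h : Q) : Γ)⁻¹) :=
    (Equiv.sum_comp σ fun h : Q => ρ ((h : Γ) * (σ g : Q) * (h : Γ)⁻¹)).symm
  rw [h1]
  unfold decC
  rw [Finset.mul_sum, Finset.sum_mul]
  apply Finset.sum_congr rfl
  intro h _
  rw [← map_mul, ← map_mul]
  congr 1
  rw [hσ, hσ]
  group

theorem decC_conj_pow (ρ : Representation K Γ V) (Q : Subgroup Γ) [Fintype Q] (s : Γ)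
    (σ : Q ≃ Q) (hσ : ∀ g : Q, ((σ g : Q) : Γ) = s * g * s⁻¹) (g : Q) (μ : K) (k : ℕ) :
    ρ s * (decC ρ Q g - μ • 1) ^ k = (decC ρ Q (σ g) - μ • 1) ^ k * ρ s := by
  induction k with
  | zero => simp
  | succ k ih =>
    rw [pow_succ, ← mul_assoc, ih, mul_assoc, pow_succ, mul_assoc]
    congr 1
    rw [mul_sub, sub_mul, decC_conj ρ Q s σ hσ]
    congr 1
    simp

/-- joint generalised eigenspaces -/
noncomputable def decU (ρ : Representation K Γ V) (Q : Subgroup Γ) [Fintype Q] (χ : Q → K) :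
    Submodule K V :=
  ⨅ g : Q, (decC ρ Q g).maxGenEigenspace (χ g)

theorem mem_decU (ρ : Representation K Γ V) (Q : Subgroup Γ) [Fintype Q] (χ : Q → K) (v : V) :
    v ∈ decU ρ Q χ ↔ ∀ g : Q, ∃ k : ℕ, ((decC ρ Q g - χ g • 1) ^ k) v = 0 := by
  unfold decU
  simp

theorem decU_map (ρ : Representation K Γ V) (Q : Subgroup Γ) [Fintype Q] (s : Γ)
    (σ : Q ≃ Q) (hσ : ∀ g : Q, ((σ g : Q) : Γ) = s * g * s⁻¹) (χ : Q → K) :
    (decU ρ Q χ).map (ρ s) = decU ρ Q (fun g => χ (σ.symm g)) := by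
  have hinv : ∀ w : V, ρ s (ρ s⁻¹ w) = w := by
    intro w
    have : (ρ s * ρ s⁻¹) w = w := by rw [← map_mul]; simp
    exact this
  have hinv' : ∀ w : V, ρ s⁻¹ (ρ s w) = w := by
    intro w
    have : (ρ s⁻¹ * ρ s) w = w := by rw [← map_mul]; simp
    exact this
  ext w
  rw [Submodule.mem_map]
  constructor
  · rintro ⟨v, hv, rfl⟩
    rw [mem_decU] at hv ⊢
    intro g
    obtain ⟨k, hk⟩ := hv (σ.symm g)
    refine ⟨k, ?_⟩
    have h1 := congrArg (fun T : Module.End K V => T v)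
      (decC_conj_pow ρ Q s σ hσ (σ.symm g) (χ (σ.symm g)) k)
    simp only [Module.End.mul_apply, Equiv.apply_symm_apply] at h1
    rw [← h1, hk, map_zero]
  · intro hw
    refine ⟨ρ s⁻¹ w, ?_, hinv w⟩
    rw [mem_decU] at hw ⊢
    intro g
    obtain ⟨k, hk⟩ := hw (σ g)
    refine ⟨k, ?_⟩
    have h1 := congrArg (fun T : Module.End K V => T (ρ s⁻¹ w))
      (decC_conj_pow ρ Q s σ hσ g (χ g) k)
    simp only [Module.End.mul_apply, Equiv.symm_apply_apply] at h1 hk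
    rw [hinv, hk] at h1
    have h2 := congrArg (ρ s⁻¹) h1
    rwa [hinv', map_zero] at h2

theorem decU_inv (ρ : Representation K Γ V) (Q : Subgroup Γ) [Fintype Q] (χ : Q → K) (g : Q)
    (v : V) (hv : v ∈ decU ρ Q χ) : ρ (g : Γ) v ∈ decU ρ Q χ := by
  unfold decU at hv ⊢
  rw [Submodule.mem_iInf] at hv ⊢
  intro k
  exact Module.End.mapsTo_maxGenEigenspace_of_comm
    (show Commute (decC ρ Q k) (ρ (g : Γ)) from (decC_comm ρ Q k g).symm) (χ k) (hv k)

theorem dec_semisimple (T : Module.End K V) (m : ℕ) (hm : (m : K) ≠ 0) (hT : T ^ m = 1)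
    [FiniteDimensional K V] (c : K) (v : V) (k : ℕ) (hk : ((T - c • 1) ^ k) v = 0) :
    T v = c • v := by
  have hss : T.IsSemisimple := by
    apply Module.End.isSemisimple_of_squarefree_aeval_eq_zero
      (p := (Polynomial.X ^ m - 1 : Polynomial K))
    · exact (Polynomial.X_pow_sub_one_separable_iff.mpr hm).squarefree
    · simp [hT]
  have h1 := hss.isFinitelySemisimple.maxGenEigenspace_eq_eigenspace c
  have h2 : v ∈ T.maxGenEigenspace c := by
    rw [Module.End.mem_maxGenEigenspace]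
    exact ⟨k, hk⟩
  rw [h1] at h2
  exact Module.End.mem_eigenspace_iff.mp h2

theorem decU_scalar [FiniteDimensional K V] (ρ : Representation K Γ V) (Q : Subgroup Γ)
    [Fintype Q] (hQ : (Nat.card Q : K) ≠ 0) (χ : Q → K) (g : Q)
    (h : ∀ h ∈ Q, ∀ v ∈ decU ρ Q χ, ρ ⁅h, (g : Γ)⁆ v = v) :
    ∀ v ∈ decU ρ Q χ, ρ (g : Γ) v = (χ g / Nat.card Q) • v := by
  intro v hv
  set n : K := (Nat.card Q : K) with hn
  -- class sum acts as `n • ρ g`
  have h1 : ∀ w ∈ decU ρ Q χ, decC ρ Q g w = n • ρ (g : Γ) w := by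
    intro w hw
    unfold decC
    rw [LinearMap.sum_apply]
    have h2 : ∀ k : Q, ρ ((k : Γ) * g * (k : Γ)⁻¹) w = ρ (g : Γ) w := by
      intro k
      have h3 : ((k : Γ) * g * (k : Γ)⁻¹) = ⁅(k : Γ), (g : Γ)⁆ * g := by
        rw [commutatorElement_def]; group
      rw [h3, map_mul, Module.End.mul_apply]
      exact h k k.2 _ (decU_inv ρ Q χ g w hw)
    rw [Finset.sum_congr rfl fun k _ => h2 k, Finset.sum_const, Finset.card_univ, hn,
      Nat.card_eq_fintype_card, Nat.cast_smul_eq_nsmul]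
  have h4 : ∀ j : ℕ, ((decC ρ Q g - χ g • 1) ^ j) v = n ^ j • ((ρ (g : Γ) - (χ g / n) • 1) ^ j) v ∧
      ((ρ (g : Γ) - (χ g / n) • 1) ^ j) v ∈ decU ρ Q χ := by
    intro j
    induction j with
    | zero => simpa using hv
    | succ j ih =>
      obtain ⟨ih1, ih2⟩ := ih
      set w := ((ρ (g : Γ) - (χ g / n) • 1) ^ j) v with hw
      constructor
      · have e1 : ((decC ρ Q g - χ g • 1) ^ (j + 1)) v =
            (decC ρ Q g - χ g • 1) (((decC ρ Q g - χ g • 1) ^ j) v) := by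
          rw [pow_succ', Module.End.mul_apply]
        have e2 : ((ρ (g : Γ) - (χ g / n) • 1) ^ (j + 1)) v = (ρ (g : Γ) - (χ g / n) • 1) w := by
          rw [pow_succ', Module.End.mul_apply]
        rw [e1, ih1, e2, map_smul, LinearMap.sub_apply, LinearMap.sub_apply, h1 w ih2,
          LinearMap.smul_apply, LinearMap.smul_apply, Module.End.one_apply, pow_succ, mul_smul,
          smul_sub n, smul_smul n, mul_div_cancel₀ _ hQ]
      · have e2 : ((ρ (g : Γ) - (χ g / n) • 1) ^ (j + 1)) v = (ρ (g : Γ) - (χ g / n) • 1) w := by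
          rw [pow_succ', Module.End.mul_apply]
        rw [e2, LinearMap.sub_apply, LinearMap.smul_apply, Module.End.one_apply]
        exact Submodule.sub_mem _ (decU_inv ρ Q χ g w ih2) (Submodule.smul_mem _ _ ih2)
  obtain ⟨k, hk⟩ := (mem_decU ρ Q χ v).mp hv g
  rw [(h4 k).1, smul_eq_zero] at hk
  rcases hk with hk | hk
  · exact absurd hk (pow_ne_zero _ hQ)
  · apply dec_semisimple (ρ (g : Γ)) (Nat.card Q) hQ _ _ v k hk
    rw [← map_pow]
    have : ((g : Γ) ^ Nat.card Q) = 1 := by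
      have h5 : g ^ Nat.card Q = 1 := pow_card_eq_one'
      exact_mod_cast congrArg (fun x : Q => (x : Γ)) h5
    rw [this, map_one]

end aux

/-- **DEC1**: decomposition of a representation under a subgroup `Q` of
order prime to the characteristic into blocks on which the elements of `Q` which commute with
`Q` act by scalars; the blocks are permuted by the normaliser of `Q`. -/
theorem blocks {K V Γ : Type*} [Field K] [IsAlgClosed K] [AddCommGroup V] [Module K V]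
    [FiniteDimensional K V] [Group Γ] [Finite Γ] (ρ : Representation K Γ V) (Q : Subgroup Γ)
    (hQ : (Nat.card Q : K) ≠ 0) :
    ∃ 𝓤 : Set (Submodule K V), (∀ U ∈ 𝓤, U ≠ ⊥) ∧ sSupIndep 𝓤 ∧ sSup 𝓤 = ⊤ ∧
      (∀ s : Γ, (∀ g ∈ Q, s * g * s⁻¹ ∈ Q) → ∀ U ∈ 𝓤, U.map (ρ s) ∈ 𝓤) ∧
      (∀ U ∈ 𝓤, ∀ g ∈ Q, ∀ v ∈ U, ρ g v ∈ U) ∧
      (∀ U ∈ 𝓤, ∀ g ∈ Q, (∀ h ∈ Q, ∀ v ∈ U, ρ ⁅h, g⁆ v = v) → ∃ c : K, ∀ v ∈ U, ρ g v = c • v) := by
  have : Fintype Q := Fintype.ofFinite Q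
  refine ⟨{U | U ≠ ⊥ ∧ ∃ χ : Q → K, U = decU ρ Q χ}, fun U hU => hU.1, ?_, ?_, ?_, ?_, ?_⟩
  · have h1 : iSupIndep fun χ : Q → K => decU ρ Q χ := by
      apply Module.End.independent_iInf_maxGenEigenspace_of_forall_mapsTo
      intro i j φ
      exact Module.End.mapsTo_maxGenEigenspace_of_comm (decC_comm' ρ Q i j) φ
    apply h1.sSupIndep_range.mono
    rintro U ⟨_, χ, rfl⟩
    exact ⟨χ, rfl⟩
  · have h1 : ⨆ χ : Q → K, decU ρ Q χ = ⊤ := by
      apply Module.End.iSup_iInf_maxGenEigenspace_eq_top_of_forall_mapsTo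
      · intro i j φ
        exact Module.End.mapsTo_maxGenEigenspace_of_comm (decC_comm' ρ Q i j) φ
      · intro i
        exact Module.End.iSup_maxGenEigenspace_eq_top _
    rw [eq_top_iff, ← h1]
    apply iSup_le
    intro χ
    by_cases h2 : decU ρ Q χ = ⊥
    · rw [h2]; exact bot_le
    · exact le_sSup ⟨h2, χ, rfl⟩
  · rintro s hs U ⟨hU, χ, rfl⟩
    have hinj : Function.Injective fun g : Q => (⟨s * g * s⁻¹, hs g g.2⟩ : Q) := by
      intro a b hab
      have := congrArg Subtype.val hab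
      simpa using this
    let σ : Q ≃ Q := Equiv.ofBijective _ (Finite.injective_iff_bijective.mp hinj)
    have hσ : ∀ g : Q, ((σ g : Q) : Γ) = s * g * s⁻¹ := fun g => rfl
    refine ⟨?_, _, decU_map ρ Q s σ hσ χ⟩
    intro h0
    apply hU
    rw [eq_bot_iff]
    intro v hv
    have h1 : ρ s v = 0 := by
      have h3 : ρ s v ∈ (decU ρ Q χ).map (ρ s) := Submodule.mem_map_of_mem hv
      rw [h0] at h3
      exact (Submodule.mem_bot K).mp h3
    have h2 : (ρ s⁻¹ * ρ s) v = v := by rw [← map_mul]; simp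
    rw [Module.End.mul_apply, h1, map_zero] at h2
    rw [← h2]
    exact Submodule.zero_mem _
  · rintro U ⟨_, χ, rfl⟩ g hg v hv
    exact decU_inv ρ Q χ ⟨g, hg⟩ v hv
  · rintro U ⟨_, χ, rfl⟩ g hg hcomm
    exact ⟨_, decU_scalar ρ Q hQ χ ⟨g, hg⟩ hcomm⟩

end H60SH
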