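import Mathlib

namespace H60SH

open scoped commutatorElement

/-- **PIG**: in a finite group with `[x,y]^n = 1` the derived subgroup is a `π(n)`-group
(Burnside's normal complement theorem). -/
theorem pig' {G : Type*} [Group G] [Finite G] (n : ℕ)
    (h : ∀ x y : G, ⁅x, y⁆ ^ n = 1) (r : ℕ) (hr : r.Prime) (hrn : ¬ r ∣ n) :
    ¬ r ∣ Nat.card (commutator G) := by
  haveI : Fact r.Prime := ⟨hr⟩
  obtain ⟨P⟩ : Nonempty (Sylow r G) := inferInstance
  -- a commutator in `P` is trivial
  have key : ∀ x y : G, ⁅x, y⁆ ∈ (P : Subgroup G) → ⁅x, y⁆ = 1 := by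
    intro x y hxy
    obtain ⟨k, hk⟩ := P.isPGroup' ⟨⁅x, y⁆, hxy⟩
    have hk' : ⁅x, y⁆ ^ r ^ k = 1 := by
      have := congrArg Subtype.val hk
      simpa using this
    have hco : Nat.Coprime (r ^ k) n := Nat.Coprime.pow_left k ((Nat.Prime.coprime_iff_not_dvd hr).2 hrn)
    have h1 : orderOf ⁅x, y⁆ ∣ r ^ k := orderOf_dvd_of_pow_eq_one hk'
    have h2 : orderOf ⁅x, y⁆ ∣ n := orderOf_dvd_of_pow_eq_one (h x y)
    have h3 : orderOf ⁅x, y⁆ = 1 := Nat.eq_one_of_dvd_coprimes hco h1 h2
    exact orderOf_eq_one_iff.1 h3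
  have hP : Subgroup.normalizer (P : Set G) ≤ Subgroup.centralizer (P : Set G) := by
    intro g hg
    rw [Subgroup.mem_centralizer_iff]
    intro x hx
    have hgx : g * x * g⁻¹ ∈ (P : Subgroup G) := (Subgroup.mem_normalizer_iff.1 hg x).1 hx
    have hmem : ⁅g, x⁆ ∈ (P : Subgroup G) := by
      rw [commutatorElement_def]
      exact P.mul_mem hgx (P.inv_mem hx)
    have := key g x hmem
    rw [commutatorElement_eq_one_iff_mul_comm] at this
    exact this.symm
  have hle : commutator G ≤ (MonoidHom.transferSylow P hP).ker := by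
    rw [commutator_def, Subgroup.commutator_le]
    intro x _ y _
    rw [MonoidHom.mem_ker, map_commutatorElement, commutatorElement_eq_one_iff_mul_comm]
    apply Subtype.ext
    exact hP (Subgroup.le_normalizer (SetLike.coe_mem _)) _ (SetLike.coe_mem _)
  intro hd
  exact MonoidHom.not_dvd_card_ker_transferSylow P hP (hd.trans (Subgroup.card_dvd_of_le hle))

/-- **PIG**: in a finite soluble group with `[x,y]^n = 1` the derived subgroup is a
`π(n)`-group. -/
theorem pig {G : Type*} [Group G] [Finite G] [Group.IsSolvable G] (n : ℕ) (hn : 0 < n)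
    (h : ∀ x y : G, ⁅x, y⁆ ^ n = 1) (r : ℕ) (hr : r.Prime) (hrn : ¬ r ∣ n) :
    ¬ r ∣ Nat.card (commutator G) :=
  pig' n h r hr hrn

end H60SH
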