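import Mathlib

namespace H60SH

open Subgroup in
/-- the elements centralising every normal subgroup of prime power order -/
private def fitC (G : Type*) [Group G] : Subgroup G where
  carrier := {g | ∀ r : ℕ, r.Prime → ∀ N : Subgroup G, N.Normal → IsPGroup r N →
    ∀ x ∈ N, g * x = x * g}
  mul_mem' := by
    intro a b ha hb r hr N hN hp x hx
    have h1 := ha r hr N hN hp x hx
    have h2 := hb r hr N hN hp x hx
    rw [mul_assoc, h2, ← mul_assoc, h1, mul_assoc]
  one_mem' := by
    intro r hr N hN hp x hx
    simp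
  inv_mem' := by
    intro a ha r hr N hN hp x hx
    have h1 := ha r hr N hN hp x hx
    rw [inv_mul_eq_iff_eq_mul, ← mul_assoc, h1, mul_assoc, mul_inv_cancel, mul_one]

private instance fitC_normal (G : Type*) [Group G] : (fitC G).Normal := by
  constructor
  intro g hg y r hr N hN hp x hx
  have h1 := hg r hr N hN hp (y⁻¹ * x * y) (by
    have := hN.conj_mem x hx y⁻¹
    simpa using this)
  have h2 : y * g * y⁻¹ * x = y * (g * (y⁻¹ * x * y)) * y⁻¹ := by group
  rw [h2, h1]; group

/-- a normal subgroup of class at most two inside `fitC` is central in `fitC` -/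
private theorem fit_nil {G : Type*} [Group G] [Finite G] (M : Subgroup G) [hM : M.Normal]
    (hnil : Group.IsNilpotent M) :
    ∀ x ∈ M, ∀ g ∈ fitC G, g * x = x * g := by
  intro x hx g hg
  -- the subgroup of `M` of elements commuting with `g`
  let H : Subgroup M := (Subgroup.centralizer {g}).subgroupOf M
  have hH : H = ⊤ := by
    rw [← Subgroup.index_eq_one]
    by_contra hne
    obtain ⟨r, hr, hrd⟩ := Nat.exists_prime_and_dvd hne
    have : Fact r.Prime := ⟨hr⟩
    obtain ⟨P⟩ : Nonempty (Sylow r M) := inferInstance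
    have hPn : (P : Subgroup M).Normal := inferInstance
    have hPc : (P : Subgroup M).Characteristic := Sylow.characteristic_of_normal P hPn
    have hPG : ((P : Subgroup M).map M.subtype).Normal := inferInstance
    have hPp : IsPGroup r ((P : Subgroup M).map M.subtype) := P.isPGroup'.map _
    have hPH : (P : Subgroup M) ≤ H := by
      intro y hy
      rw [Subgroup.mem_subgroupOf, Subgroup.mem_centralizer_iff]
      intro h hh
      rw [Set.mem_singleton_iff] at hh
      subst hh
      exact hg r hr _ hPG hPp y ⟨y, hy, rfl⟩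
    exact P.not_dvd_index (hrd.trans (Subgroup.index_dvd_of_le hPH))
  have h1 : (⟨x, hx⟩ : M) ∈ H := by rw [hH]; trivial
  rw [Subgroup.mem_subgroupOf, Subgroup.mem_centralizer_iff] at h1
  exact h1 g rfl

private def fitD (G : Type*) [Group G] : ℕ → Subgroup G
  | 0 => fitC G
  | n + 1 => ⁅fitD G n, fitD G n⁆

private theorem fitD_normal (G : Type*) [Group G] (n : ℕ) : (fitD G n).Normal := by
  induction n with
  | zero => exact fitC_normal G
  | succ n ih => exact Subgroup.commutator_normal (fitD G n) (fitD G n)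

private theorem fitD_le (G : Type*) [Group G] (n : ℕ) : fitD G n ≤ fitC G := by
  induction n with
  | zero => exact le_refl _
  | succ n ih =>
    have := fitD_normal G n
    exact le_trans (Subgroup.commutator_le_left _ _) ih

private theorem fitD_le_derived (G : Type*) [Group G] (n : ℕ) : fitD G n ≤ derivedSeries G n := by
  induction n with
  | zero => exact le_top
  | succ n ih => exact Subgroup.commutator_mono ih ih

/-- `fitC` is abelian -/
private theorem fitC_comm {G : Type*} [Group G] [Finite G] [hs : Group.IsSolvable G] :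
    ∀ x ∈ fitC G, ∀ g ∈ fitC G, g * x = x * g := by
  classical
  have key : ∀ n, (∀ x ∈ fitD G n, ∀ g ∈ fitC G, g * x = x * g) →
      ∀ x ∈ fitC G, ∀ g ∈ fitC G, g * x = x * g := by
    intro n
    induction n with
    | zero => exact fun h => h
    | succ n ih =>
      intro h
      apply ih
      have := fitD_normal G n
      apply fit_nil (fitD G n)
      rw [Subgroup.isNilpotent_iff_lowerCentralSeries]
      refine ⟨2, ?_⟩
      rw [Subgroup.lowerCentralSeries_succ, Subgroup.lowerCentralSeries_succ]
      have h0 : (fitD G n).lowerCentralSeries 0 = fitD G n := by simp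
      rw [h0]
      have h1 : ⁅⁅fitD G n, fitD G n⁆, fitD G n⁆ = ⊥ := by
        rw [Subgroup.commutator_eq_bot_iff_le_centralizer]
        intro x hx
        rw [Subgroup.mem_centralizer_iff]
        intro g hg
        exact h x hx g (fitD_le G n hg)
      exact h1
  obtain ⟨n, hn⟩ := hs.solvable
  apply key n
  intro x hx g _
  have : x ∈ derivedSeries G n := fitD_le_derived G n hx
  rw [hn, Subgroup.mem_bot] at this
  subst this
  simp

/-- for every prime `r`, there is a Sylow `r`-subgroup of `fitC` which is normal in the group -/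
private theorem fitC_sylow {G : Type*} [Group G] [Finite G] [Group.IsSolvable G] (r : ℕ)
    (hr : r.Prime)
    (h : ∀ N : Subgroup G, N.Normal → IsPGroup r N → N = ⊥) :
    ¬ r ∣ Nat.card (fitC G) := by
  intro hd
  have : Fact r.Prime := ⟨hr⟩
  obtain ⟨P⟩ : Nonempty (Sylow r (fitC G)) := inferInstance
  have hPn : (P : Subgroup (fitC G)).Normal := by
    constructor
    intro a ha b
    have h1 : b * a = a * b := Subtype.ext (fitC_comm (a : G) a.2 (b : G) b.2)
    rw [h1, mul_assoc, mul_inv_cancel, mul_one]
    exact ha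
  have hPc : (P : Subgroup (fitC G)).Characteristic := Sylow.characteristic_of_normal P hPn
  have hPG : ((P : Subgroup (fitC G)).map (fitC G).subtype).Normal := inferInstance
  have hPp : IsPGroup r ((P : Subgroup (fitC G)).map (fitC G).subtype) := P.isPGroup'.map _
  have hbot := h _ hPG hPp
  have hbot' : (P : Subgroup (fitC G)) = ⊥ := by
    rw [← Subgroup.map_subtype_inj, hbot, Subgroup.map_bot]
  apply P.not_dvd_index
  rw [hbot', Subgroup.index_bot]
  exact hd

/-- **FITT1**: in a finite soluble group without nontrivial normal `p`-subgroups, a nontrivial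
`p`-element acts nontrivially on some normal `q`-subgroup, `q ≠ p`. -/
theorem fit_q {Γ : Type*} [Group Γ] [Finite Γ] [Group.IsSolvable Γ] (p : ℕ) (hp : p.Prime)
    (hO : ∀ N : Subgroup Γ, N.Normal → IsPGroup p N → N = ⊥) (d : Γ)
    (hd : ∃ m : ℕ, d ^ (p ^ m) = 1) (hd1 : d ≠ 1) :
    ∃ q : ℕ, q.Prime ∧ q ≠ p ∧ ∃ N : Subgroup Γ, N.Normal ∧ IsPGroup q N ∧
      ∃ g ∈ N, d * g ≠ g * d := by
  by_contra hc
  push Not at hc
  have hdC : d ∈ fitC Γ := by
    intro r hr N hN hpN x hx
    by_cases hrp : r = p
    · subst hrp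
      have := hO N hN hpN
      rw [this, Subgroup.mem_bot] at hx
      subst hx; simp
    · exact hc r hr hrp N hN hpN x hx
  have h1 := fitC_sylow p hp hO
  obtain ⟨m, hm⟩ := hd
  apply hd1
  have h2 : orderOf d ∣ p ^ m := orderOf_dvd_of_pow_eq_one hm
  have h3 : orderOf d ∣ Nat.card (fitC Γ) := by
    have h4 : orderOf (⟨d, hdC⟩ : fitC Γ) ∣ Nat.card (fitC Γ) := orderOf_dvd_natCard _
    rwa [← Subgroup.orderOf_coe] at h4
  have h5 : (p ^ m).Coprime (Nat.card (fitC Γ)) :=
    Nat.Coprime.pow_left m ((Nat.Prime.coprime_iff_not_dvd hp).2 h1)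
  rw [← orderOf_eq_one_iff]
  exact Nat.eq_one_of_dvd_coprimes h5 h2 h3

/-- **FITT2**: `C_G(O_p(G)) ≤ O_p(G)` for a finite soluble group `G` with `O_{p'}(G) = 1`. -/
theorem fit_cent {G : Type*} [Group G] [Finite G] [Group.IsSolvable G] (p : ℕ) (hp : p.Prime)
    (hO : ∀ N : Subgroup G, N.Normal → (Nat.card N).Coprime p → N = ⊥)
    (P : Subgroup G) (hPmax : ∀ N : Subgroup G, N.Normal → IsPGroup p N → N ≤ P)
    (g : G) (hg : ∀ x ∈ P, g * x = x * g) : g ∈ P := by
  have : Fact p.Prime := ⟨hp⟩
  have hO' : ∀ r : ℕ, r.Prime → r ≠ p → ∀ N : Subgroup G, N.Normal → IsPGroup r N → N = ⊥ := by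
    intro r hr hrp N hN hpN
    have : Fact r.Prime := ⟨hr⟩
    apply hO N hN
    obtain ⟨n, hn⟩ := IsPGroup.iff_card.1 hpN
    rw [hn]
    exact Nat.Coprime.pow_left n ((Nat.coprime_primes hr hp).2 hrp)
  have hgC : g ∈ fitC G := by
    intro r hr N hN hpN x hx
    by_cases hrp : r = p
    · subst hrp
      exact hg x (hPmax N hN hpN hx)
    · have := hO' r hr hrp N hN hpN
      rw [this, Subgroup.mem_bot] at hx
      subst hx; simp
  have hCp : IsPGroup p (fitC G) := by
    rw [IsPGroup.iff_card]
    refine ⟨_, Nat.eq_prime_pow_of_unique_prime_dvd Nat.card_pos.ne' ?_⟩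
    intro r hr hrd
    by_contra hrp
    exact fitC_sylow r hr (hO' r hr hrp) hrd
  exact hPmax (fitC G) (fitC_normal G) hCp hgC

end H60SH
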