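import Mathlib

namespace H60SH

open scoped commutatorElement

/-- the geometric sum in characteristic `p` -/
theorem lift_geom {V K : Type*} [Field K] [AddCommGroup V] [Module K V]
    (p k : ℕ) [Fact p.Prime] [CharP K p] (U : Module.End K V) :
    ∑ i ∈ Finset.range (p ^ k), U ^ i = (U - 1) ^ (p ^ k - 1) := by
  have hp : 0 < p ^ k := pow_pos (Fact.out (p := p.Prime)).pos k
  have key : (∑ i ∈ Finset.range (p ^ k), (Polynomial.X : Polynomial K) ^ i)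
      = (Polynomial.X - 1) ^ (p ^ k - 1) := by
    have hne : (Polynomial.X - 1 : Polynomial K) ≠ 0 := by
      have := Polynomial.X_sub_C_ne_zero (1 : K)
      simpa using this
    apply mul_right_cancel₀ hne
    rw [geom_sum_mul, ← pow_succ, Nat.sub_add_cancel hp, sub_pow_char_pow, one_pow]
  have := congrArg (Polynomial.aeval U) key
  simpa using this

theorem lift_pow_sub {V K : Type*} [Field K] [AddCommGroup V] [Module K V]
    (p k : ℕ) [Fact p.Prime] [CharP K p] (U : Module.End K V) :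
    (U - 1) ^ (p ^ k) = U ^ (p ^ k) - 1 := by
  have key : ((Polynomial.X - 1 : Polynomial K)) ^ (p ^ k)
      = Polynomial.X ^ (p ^ k) - 1 := by
    rw [sub_pow_char_pow, one_pow]
  have := congrArg (Polynomial.aeval U) key
  simpa using this

section

variable {G V K : Type*} [Group G] [Field K] [AddCommGroup V] [Module K V]
  (A : Subgroup G) (R : G →* Module.End K V) (φ : G → V)

theorem lift_one (hφ1 : ∀ x ∈ A, ∀ y ∈ A, φ (x * y) = φ x + φ y) : φ 1 = 0 := by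
  have := hφ1 1 A.one_mem 1 A.one_mem
  rw [mul_one] at this
  simpa using this

theorem lift_inv (hφ1 : ∀ x ∈ A, ∀ y ∈ A, φ (x * y) = φ x + φ y) (x : G) (hx : x ∈ A) :
    φ x⁻¹ = - φ x := by
  have := hφ1 x hx x⁻¹ (A.inv_mem hx)
  rw [mul_inv_cancel, lift_one A φ hφ1] at this
  exact (neg_eq_of_add_eq_zero_right this.symm).symm

theorem lift_pow (hA : A.Normal)
    (hφ1 : ∀ x ∈ A, ∀ y ∈ A, φ (x * y) = φ x + φ y)
    (hφ2 : ∀ g : G, ∀ x ∈ A, φ (g * x * g⁻¹) = R g (φ x)) (t u : G) (ht : t ∈ A) (m : ℕ) :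
    ∃ T ∈ A, (t * u) ^ m = T * u ^ m ∧
      φ T = (∑ i ∈ Finset.range m, (R u) ^ i) (φ t) := by
  induction m with
  | zero => exact ⟨1, A.one_mem, by simp, by simp [lift_one A φ hφ1]⟩
  | succ m ih =>
    obtain ⟨T, hT, h1, h2⟩ := ih
    refine ⟨t * (u * T * u⁻¹), A.mul_mem ht (hA.conj_mem T hT u), ?_, ?_⟩
    · rw [pow_succ' (t * u), h1, pow_succ' u]
      group
    · rw [hφ1 t ht _ (hA.conj_mem T hT u), hφ2 u T hT, h2]
      have e : ∑ i ∈ Finset.range (m + 1), (R u) ^ i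
          = 1 + R u * ∑ i ∈ Finset.range m, (R u) ^ i := by
        rw [Finset.sum_range_succ', Finset.mul_sum, add_comm, pow_zero]
        congr 1
        exact Finset.sum_congr rfl fun i _ => pow_succ' _ _
      rw [e]
      rfl

theorem lift_ext (hspan : Submodule.span K (φ '' (A : Set G)) = ⊤) (f g : Module.End K V)
    (h : ∀ x ∈ A, f (φ x) = g (φ x)) : f = g := by
  apply LinearMap.ext_on hspan
  rintro _ ⟨x, hx, rfl⟩
  exact h x hx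

/-- first family of lifts -/
theorem lift_t1 (hA : A.Normal)
    (hφ1 : ∀ x ∈ A, ∀ y ∈ A, φ (x * y) = φ x + φ y)
    (hφ2 : ∀ g : G, ∀ x ∈ A, φ (g * x * g⁻¹) = R g (φ x)) (a b : G) (x : G) (hx : x ∈ A) :
    ∃ t ∈ A, ⁅x * a, b⁆ = t * ⁅a, b⁆ ∧ φ t = φ x - R (⁅a, b⁆ * b) (φ x) := by
  refine ⟨x * ((⁅a, b⁆ * b) * x⁻¹ * (⁅a, b⁆ * b)⁻¹),
    A.mul_mem hx (hA.conj_mem _ (A.inv_mem hx) _), ?_, ?_⟩
  · simp only [commutatorElement_def]
    group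
  · rw [hφ1 x hx _ (hA.conj_mem _ (A.inv_mem hx) _), hφ2 _ _ (A.inv_mem hx),
      lift_inv A φ hφ1 x hx, map_neg, sub_eq_add_neg]

theorem lift_t2 (hA : A.Normal)
    (hφ1 : ∀ x ∈ A, ∀ y ∈ A, φ (x * y) = φ x + φ y)
    (hφ2 : ∀ g : G, ∀ x ∈ A, φ (g * x * g⁻¹) = R g (φ x)) (a b : G) (x : G) (hx : x ∈ A) :
    ∃ t ∈ A, ⁅a, x * b⁆ = t * ⁅a, b⁆ ∧ φ t = R a (φ x) - R ⁅a, b⁆ (φ x) := by
  refine ⟨(a * x * a⁻¹) * (⁅a, b⁆ * x⁻¹ * (⁅a, b⁆)⁻¹),
    A.mul_mem (hA.conj_mem _ hx _) (hA.conj_mem _ (A.inv_mem hx) _), ?_, ?_⟩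
  · simp only [commutatorElement_def]
    group
  · rw [hφ1 _ (hA.conj_mem _ hx _) _ (hA.conj_mem _ (A.inv_mem hx) _), hφ2 _ _ hx,
      hφ2 _ _ (A.inv_mem hx), lift_inv A φ hφ1 x hx, map_neg, sub_eq_add_neg]

/-- purely algebraic end of the argument -/
theorem lift_end (a b : G) (X : Module.End K V) (hXU : Commute X (R ⁅a, b⁆))
    (e1 : X * (R ⁅a, b⁆ * R b) = X) (e2 : X * R a = X * R ⁅a, b⁆) :
    X * R a = X ∧ X * R b = X := by
  have hinv : ∀ g : G, R g * R g⁻¹ = 1 := fun g => by rw [← map_mul, mul_inv_cancel, map_one]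
  have hinv' : ∀ g : G, R g⁻¹ * R g = 1 := fun g => by rw [← map_mul, inv_mul_cancel, map_one]
  have h1 : X * R b = R ⁅a, b⁆⁻¹ * X := by
    calc X * R b = (R ⁅a, b⁆⁻¹ * R ⁅a, b⁆) * (X * R b) := by rw [hinv', one_mul]
      _ = R ⁅a, b⁆⁻¹ * ((R ⁅a, b⁆ * X) * R b) := by simp only [mul_assoc]
      _ = R ⁅a, b⁆⁻¹ * (X * (R ⁅a, b⁆ * R b)) := by rw [← hXU.eq]; simp only [mul_assoc]
      _ = R ⁅a, b⁆⁻¹ * X := by rw [e1]
  have h2 : X * R (a * b) = X := by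
    rw [map_mul, ← mul_assoc, e2, mul_assoc, e1]
  have h3 : X * R (b * a) = X := by
    rw [map_mul, ← mul_assoc, h1, mul_assoc, e2, hXU.eq, ← mul_assoc, hinv', one_mul]
  have h4 : X * R (b * a)⁻¹ = X := by
    calc X * R (b * a)⁻¹ = (X * R (b * a)) * R (b * a)⁻¹ := by rw [h3]
      _ = X * (R (b * a) * R (b * a)⁻¹) := by rw [mul_assoc]
      _ = X := by rw [hinv, mul_one]
  have h5 : X * R ⁅a, b⁆ = X := by
    have : (⁅a, b⁆ : G) = (a * b) * (b * a)⁻¹ := by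
      simp only [commutatorElement_def]
      group
    rw [this, map_mul, ← mul_assoc, h2, h4]
  refine ⟨by rw [e2, h5], ?_⟩
  rw [← mul_assoc, h5] at e1
  exact e1

end

/-- **LIFT1** -/
theorem lift1 {G V K : Type*} [Group G] [Field K] [AddCommGroup V] [Module K V]
    (p k : ℕ) [Fact p.Prime] [CharP K p] (P A : Subgroup G) [P.Normal] (hA : A.Normal)
    (ρ : Representation K (G ⧸ P) V) (φ : G → V)
    (hφ1 : ∀ x ∈ A, ∀ y ∈ A, φ (x * y) = φ x + φ y)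
    (hφ2 : ∀ g : G, ∀ x ∈ A, φ (g * x * g⁻¹) = ρ (g : G ⧸ P) (φ x))
    (hspan : Submodule.span K (φ '' (A : Set G)) = ⊤) (a b : G)
    (h1 : ∀ x ∈ A, ⁅x * a, b⁆ ^ (p ^ k) = 1) (h2 : ∀ x ∈ A, ⁅a, x * b⁆ ^ (p ^ k) = 1) :
    (ρ ((⁅a, b⁆ : G) : G ⧸ P) - 1) ^ (p ^ k - 1) * ρ (a : G ⧸ P) =
        (ρ ((⁅a, b⁆ : G) : G ⧸ P) - 1) ^ (p ^ k - 1) ∧
      (ρ ((⁅a, b⁆ : G) : G ⧸ P) - 1) ^ (p ^ k - 1) * ρ (b : G ⧸ P) =
        (ρ ((⁅a, b⁆ : G) : G ⧸ P) - 1) ^ (p ^ k - 1) := by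
  set R : G →* Module.End K V := ρ.comp (QuotientGroup.mk' P) with hR
  have hRa : ∀ g : G, ρ (g : G ⧸ P) = R g := fun g => rfl
  simp only [hRa] at hφ2 ⊢
  have hpk : 0 < p ^ k := pow_pos (Fact.out (p := p.Prime)).pos k
  set U := R ⁅a, b⁆ with hU
  have hum : (⁅a, b⁆ : G) ^ (p ^ k) = 1 := by simpa using h1 1 A.one_mem
  have main : ∀ t ∈ A, (t * ⁅a, b⁆) ^ (p ^ k) = 1 → ((U - 1) ^ (p ^ k - 1)) (φ t) = 0 := by
    intro t ht h
    obtain ⟨T, hT, e1, e2⟩ := lift_pow A R φ hA hφ1 hφ2 t ⁅a, b⁆ ht (p ^ k)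
    rw [h, hum, mul_one] at e1
    rw [← e1, lift_one A φ hφ1, lift_geom] at e2
    exact e2.symm
  have e1 : (U - 1) ^ (p ^ k - 1) * (U * R b) = (U - 1) ^ (p ^ k - 1) := by
    apply lift_ext A φ hspan
    intro x hx
    obtain ⟨t, ht, e, f⟩ := lift_t1 A R φ hA hφ1 hφ2 a b x hx
    have := main t ht (by rw [← e]; exact h1 x hx)
    rw [f, map_sub, sub_eq_zero, map_mul] at this
    exact this.symm
  have e2 : (U - 1) ^ (p ^ k - 1) * R a = (U - 1) ^ (p ^ k - 1) * U := by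
    apply lift_ext A φ hspan
    intro x hx
    obtain ⟨t, ht, e, f⟩ := lift_t2 A R φ hA hφ1 hφ2 a b x hx
    have := main t ht (by rw [← e]; exact h2 x hx)
    rw [f, map_sub, sub_eq_zero] at this
    exact this
  have hc : Commute ((U - 1) ^ (p ^ k - 1)) U :=
    ((Commute.refl U).sub_left (Commute.one_left U)).pow_left _
  exact lift_end R a b _ hc e1 e2

/-- **LIFT2** -/
theorem lift2 {G V K : Type*} [Group G] [Field K] [AddCommGroup V] [Module K V]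
    (p k : ℕ) [Fact p.Prime] [CharP K p] (hk : 1 ≤ k) (P A : Subgroup G) [P.Normal]
    (hA : A.Normal) (ρ : Representation K (G ⧸ P) V) (φ : G → V)
    (hφ1 : ∀ x ∈ A, ∀ y ∈ A, φ (x * y) = φ x + φ y)
    (hφ2 : ∀ g : G, ∀ x ∈ A, φ (g * x * g⁻¹) = ρ (g : G ⧸ P) (φ x))
    (hspan : Submodule.span K (φ '' (A : Set G)) = ⊤) (a b : G)
    (h1 : ∀ x ∈ A, Commute (⁅x * a, b⁆ ^ (p ^ (k - 1))) (⁅a, b⁆ ^ (p ^ (k - 1))))
    (h2 : ∀ x ∈ A, Commute (⁅a, x * b⁆ ^ (p ^ (k - 1))) (⁅a, b⁆ ^ (p ^ (k - 1)))) :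
    (ρ ((⁅a, b⁆ : G) : G ⧸ P) - 1) ^ (2 * p ^ (k - 1) - 1) * ρ (a : G ⧸ P) =
        (ρ ((⁅a, b⁆ : G) : G ⧸ P) - 1) ^ (2 * p ^ (k - 1) - 1) ∧
      (ρ ((⁅a, b⁆ : G) : G ⧸ P) - 1) ^ (2 * p ^ (k - 1) - 1) * ρ (b : G ⧸ P) =
        (ρ ((⁅a, b⁆ : G) : G ⧸ P) - 1) ^ (2 * p ^ (k - 1) - 1) := by
  set R : G →* Module.End K V := ρ.comp (QuotientGroup.mk' P) with hR
  have hRa : ∀ g : G, ρ (g : G ⧸ P) = R g := fun g => rfl
  simp only [hRa] at hφ2 ⊢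
  generalize k - 1 = j at h1 h2 ⊢
  have hpk : 0 < p ^ j := pow_pos (Fact.out (p := p.Prime)).pos j
  set U := R ⁅a, b⁆ with hU
  have main : ∀ t ∈ A, Commute ((t * ⁅a, b⁆) ^ (p ^ j)) (⁅a, b⁆ ^ (p ^ j)) →
      ((U - 1) ^ (2 * p ^ j - 1)) (φ t) = 0 := by
    intro t ht h
    obtain ⟨T, hT, e1, e2⟩ := lift_pow A R φ hA hφ1 hφ2 t ⁅a, b⁆ ht (p ^ j)
    rw [e1] at h
    have h3 : ⁅a, b⁆ ^ (p ^ j) * T * (⁅a, b⁆ ^ (p ^ j))⁻¹ = T := by
      have h4 := h.eq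
      rw [← mul_assoc] at h4
      have h5 := mul_right_cancel h4
      rw [← h5]
      group
    have h6 := hφ2 (⁅a, b⁆ ^ (p ^ j)) T hT
    rw [h3, map_pow, ← hU, e2, lift_geom] at h6
    have h7 : (U ^ (p ^ j) - 1) (((U - 1) ^ (p ^ j - 1)) (φ t)) = 0 := by
      rw [LinearMap.sub_apply, ← h6]
      exact sub_self _
    rw [← lift_pow_sub, ← Module.End.mul_apply, ← pow_add] at h7
    have : 2 * p ^ j - 1 = p ^ j + (p ^ j - 1) := by omega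
    rw [this]
    exact h7
  have e1 : (U - 1) ^ (2 * p ^ j - 1) * (U * R b) = (U - 1) ^ (2 * p ^ j - 1) := by
    apply lift_ext A φ hspan
    intro x hx
    obtain ⟨t, ht, e, f⟩ := lift_t1 A R φ hA hφ1 hφ2 a b x hx
    have := main t ht (by rw [← e]; exact h1 x hx)
    rw [f, map_sub, sub_eq_zero, map_mul] at this
    exact this.symm
  have e2 : (U - 1) ^ (2 * p ^ j - 1) * R a = (U - 1) ^ (2 * p ^ j - 1) * U := by
    apply lift_ext A φ hspan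
    intro x hx
    obtain ⟨t, ht, e, f⟩ := lift_t2 A R φ hA hφ1 hφ2 a b x hx
    have := main t ht (by rw [← e]; exact h2 x hx)
    rw [f, map_sub, sub_eq_zero] at this
    exact this
  have hc : Commute ((U - 1) ^ (2 * p ^ j - 1)) U :=
    ((Commute.refl U).sub_left (Commute.one_left U)).pow_left _
  exact lift_end R a b _ hc e1 e2

end H60SH
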