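import Mathlib

namespace H60SH

open scoped commutatorElement

/-- A nontrivial finite `q`-group has a proper subgroup containing all commutators and all
`q`-th powers. -/
theorem minq_max {Q : Type*} [Group Q] [Finite Q] [Nontrivial Q] (q : ℕ) (hq : q.Prime)
    (h : IsPGroup q Q) :
    ∃ M : Subgroup Q, M ≠ ⊤ ∧ (∀ g h : Q, ⁅g, h⁆ ∈ M) ∧ ∀ g : Q, g ^ q ∈ M := by
  have : Fact q.Prime := ⟨hq⟩
  obtain ⟨n, hn⟩ := IsPGroup.iff_card.mp h
  have hn0 : n ≠ 0 := by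
    rintro rfl
    rw [pow_zero] at hn
    have := Finite.one_lt_card (α := Q)
    omega
  obtain ⟨M, hM⟩ := Sylow.exists_subgroup_card_pow_prime (G := Q) q (n := n - 1)
    (by rw [hn]; exact pow_dvd_pow q (by omega))
  have hidx : M.index = q := by
    have h1 := M.card_mul_index
    rw [hM, hn] at h1
    have h2 : q ^ n = q ^ (n - 1) * q := by
      rw [← pow_succ]
      congr 1
      omega
    rw [h2] at h1
    exact Nat.eq_of_mul_eq_mul_left (pow_pos hq.pos _) h1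
  have hnorm : M.Normal := by
    refine Subgroup.normal_of_index_eq_minFac_card ?_
    rw [hidx, hn, hq.pow_minFac hn0]
  have hcard : Nat.card (Q ⧸ M) = q := by
    rw [← hidx]
    rfl
  have hcyc : IsCyclic (Q ⧸ M) := isCyclic_of_prime_card hcard
  have hcomm : ∀ a b : Q ⧸ M, a * b = b * a := fun a b => (IsMulCommutative.is_comm (M := Q ⧸ M)).comm a b
  refine ⟨M, ?_, ?_, ?_⟩
  · intro ht
    rw [ht, Subgroup.index_top] at hidx
    exact hq.one_lt.ne hidx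
  · intro g h
    rw [← QuotientGroup.eq_one_iff, commutatorElement_def]
    have h1 := hcomm (g : Q ⧸ M) (h : Q ⧸ M)
    simp only [QuotientGroup.mk_mul, QuotientGroup.mk_inv]
    rw [h1]
    group
  · intro g
    rw [← QuotientGroup.eq_one_iff, QuotientGroup.mk_pow, ← hcard]
    exact pow_card_eq_one'

/-- **MINQ**: a minimal `S`-invariant subgroup `Q` of the `q`-group `N` not centralised by `d`. -/
theorem min_q {Γ : Type*} [Group Γ] [Finite Γ] (p q : ℕ) (hp : p.Prime) (hq : q.Prime)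
    (hpq : p ≠ q) (S N : Subgroup Γ) (hS : IsPGroup p S) (hN : IsPGroup q N)
    (hSN : ∀ s ∈ S, ∀ g ∈ N, s * g * s⁻¹ ∈ N) (d : Γ) (hdS : d ∈ S)
    (hd : ∃ g ∈ N, d * g ≠ g * d) :
    ∃ Q : Subgroup Γ, Q ≤ N ∧ (∀ s ∈ S, ∀ g ∈ Q, s * g * s⁻¹ ∈ Q) ∧
      (∃ g ∈ Q, d * g ≠ g * d) ∧
      (∀ B : Subgroup Γ, B ≤ Q → B ≠ Q → (∀ s ∈ S, ∀ g ∈ B, s * g * s⁻¹ ∈ B) →
        (∀ s ∈ Q, ∀ g ∈ B, s * g * s⁻¹ ∈ B) → ∀ b ∈ B, ∀ g ∈ Q, b * g = g * b) ∧
      (∀ g ∈ Q, ∀ h ∈ Q, ∀ k ∈ Q, ⁅g, h⁆ * k = k * ⁅g, h⁆) ∧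
      (∀ g ∈ Q, ∀ h ∈ Q, g ^ q * h = h * g ^ q) := by
  have : Fact p.Prime := ⟨hp⟩
  have : Fact q.Prime := ⟨hq⟩
  obtain ⟨Q, hQ⟩ := exists_minimal_of_wellFoundedLT
    (fun Q : Subgroup Γ => Q ≤ N ∧ (∀ s ∈ S, ∀ g ∈ Q, s * g * s⁻¹ ∈ Q) ∧ ∃ g ∈ Q, d * g ≠ g * d)
    ⟨N, le_refl N, hSN, hd⟩
  obtain ⟨⟨hQN, hQS, hQd⟩, hmin⟩ := hQ
  -- proper `S`-invariant subgroups are centralised by `d`
  have hprop : ∀ B : Subgroup Γ, B ≤ Q → B ≠ Q → (∀ s ∈ S, ∀ g ∈ B, s * g * s⁻¹ ∈ B) →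
      ∀ g ∈ B, d * g = g * d := by
    intro B hB hne hBS g hg
    by_contra hcon
    exact hne (le_antisymm hB (hmin ⟨hB.trans hQN, hBS, g, hg, hcon⟩ hB))
  have hQq : IsPGroup q Q := hN.to_le hQN
  -- the main step
  have h4 : ∀ B : Subgroup Γ, B ≤ Q → B ≠ Q → (∀ s ∈ S, ∀ g ∈ B, s * g * s⁻¹ ∈ B) →
        (∀ s ∈ Q, ∀ g ∈ B, s * g * s⁻¹ ∈ B) → ∀ b ∈ B, ∀ g ∈ Q, b * g = g * b := by
    intro B hB hne hBS hBQ
    have hBd := hprop B hB hne hBS
    set C : Subgroup Γ := Q ⊓ Subgroup.centralizer (B : Set Γ) with hC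
    have hmemC : ∀ x, x ∈ C ↔ x ∈ Q ∧ ∀ b ∈ B, b * x = x * b := by
      intro x
      rw [hC, Subgroup.mem_inf, Subgroup.mem_centralizer_iff]
      rfl
    have hCS : ∀ s ∈ S, ∀ g ∈ C, s * g * s⁻¹ ∈ C := by
      intro s hs g hg
      rw [hmemC] at hg ⊢
      refine ⟨hQS s hs g hg.1, ?_⟩
      intro b hb
      have hb' : s⁻¹ * b * s ∈ B := by
        have := hBS s⁻¹ (S.inv_mem hs) b hb
        rwa [inv_inv] at this
      have h1 := hg.2 _ hb'
      calc b * (s * g * s⁻¹) = s * (s⁻¹ * b * s * g) * s⁻¹ := by group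
        _ = s * (g * (s⁻¹ * b * s)) * s⁻¹ := by rw [h1]
        _ = s * g * s⁻¹ * b := by group
    by_cases hCQ : C = Q
    · intro b hb g hg
      rw [← hCQ, hmemC] at hg
      exact hg.2 b hb
    · exfalso
      have hCd := hprop C inf_le_left hCQ hCS
      obtain ⟨g, hg, hdg⟩ := hQd
      set r := d * g * d⁻¹ * g⁻¹ with hr
      have hrQ : r ∈ Q := Q.mul_mem (hQS d hdS g hg) (Q.inv_mem hg)
      have hrC : r ∈ C := by
        rw [hmemC]
        refine ⟨hrQ, ?_⟩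
        intro b hb
        -- `c = g⁻¹ b g` is in `B`, `d` commutes with `b` and `c`
        have hc : g⁻¹ * b * g ∈ B := by
          have := hBQ g⁻¹ (Q.inv_mem hg) b hb
          rwa [inv_inv] at this
        have hdc := hBd _ hc
        have hdb := hBd _ hb
        have hdc' : d⁻¹ * (g⁻¹ * b * g) = (g⁻¹ * b * g) * d⁻¹ := by
          rw [inv_mul_eq_iff_eq_mul, ← mul_assoc, hdc]
          group
        calc b * r = b * d * g * d⁻¹ * g⁻¹ := by rw [hr]; group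
          _ = d * b * g * d⁻¹ * g⁻¹ := by rw [hdb]
          _ = d * g * ((g⁻¹ * b * g) * d⁻¹) * g⁻¹ := by group
          _ = d * g * (d⁻¹ * (g⁻¹ * b * g)) * g⁻¹ := by rw [hdc']
          _ = r * b := by rw [hr]; group
      have hdr := hCd r hrC
      have hstep : d * g * d⁻¹ = r * g := by rw [hr]; group
      have hpow : ∀ m : ℕ, d ^ m * g * (d ^ m)⁻¹ = r ^ m * g := by
        intro m
        induction m with
        | zero => simp
        | succ m ih =>
          have hdrm : d * r ^ m = r ^ m * d := by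
            have : Commute d r := hdr
            exact (this.pow_right m)
          calc d ^ (m + 1) * g * (d ^ (m + 1))⁻¹ = d * (d ^ m * g * (d ^ m)⁻¹) * d⁻¹ := by
                rw [pow_succ']; group
            _ = d * (r ^ m * g) * d⁻¹ := by rw [ih]
            _ = (d * r ^ m) * g * d⁻¹ := by group
            _ = (r ^ m * d) * g * d⁻¹ := by rw [hdrm]
            _ = r ^ m * (d * g * d⁻¹) := by group
            _ = r ^ (m + 1) * g := by rw [hstep, pow_succ]; group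
      obtain ⟨k, hk⟩ := hS ⟨d, hdS⟩
      have hk' : d ^ p ^ k = 1 := by
        have := congrArg Subtype.val hk
        simpa using this
      have h1 := hpow (p ^ k)
      rw [hk'] at h1
      have hrpk : r ^ p ^ k = 1 := by
        have h2 : g = r ^ p ^ k * g := by simpa using h1
        exact (right_eq_mul.mp h2)
      obtain ⟨l, hl⟩ := hQq ⟨r, hrQ⟩
      have hl' : r ^ q ^ l = 1 := by
        have := congrArg Subtype.val hl
        simpa using this
      have hcop : Nat.Coprime (p ^ k) (q ^ l) :=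
        Nat.Coprime.pow k l ((Nat.coprime_primes hp hq).mpr hpq)
      have hr1 : r = 1 := by
        rw [← orderOf_eq_one_iff]
        exact Nat.eq_one_of_dvd_coprimes hcop (orderOf_dvd_of_pow_eq_one hrpk)
          (orderOf_dvd_of_pow_eq_one hl')
      rw [hr1, one_mul] at hstep
      exact hdg (mul_inv_eq_iff_eq_mul.mp hstep)
  -- the Frattini-type subgroup
  set T : Set Γ := {x | ∃ g ∈ Q, ∃ h ∈ Q, x = ⁅g, h⁆} ∪ {x | ∃ g ∈ Q, x = g ^ q} with hT
  set B : Subgroup Γ := Subgroup.closure T with hBdef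
  have hTQ : T ⊆ Q := by
    rintro x (⟨g, hg, h, hh, rfl⟩ | ⟨g, hg, rfl⟩)
    · rw [commutatorElement_def]
      exact Q.mul_mem (Q.mul_mem (Q.mul_mem hg hh) (Q.inv_mem hg)) (Q.inv_mem hh)
    · exact Q.pow_mem hg q
  have hBQ : B ≤ Q := (Subgroup.closure_le Q).mpr hTQ
  -- conjugation by an element normalising `Q`
  have hconj : ∀ s : Γ, (∀ g ∈ Q, s * g * s⁻¹ ∈ Q) → ∀ g ∈ B, s * g * s⁻¹ ∈ B := by
    intro s hs g hg
    have hmap : B ≤ B.comap (MulAut.conj s).toMonoidHom := by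
      rw [hBdef, Subgroup.closure_le]
      rintro x (⟨g, hg, h, hh, rfl⟩ | ⟨g, hg, rfl⟩)
      · refine Subgroup.subset_closure (Or.inl ⟨s * g * s⁻¹, hs g hg, s * h * s⁻¹, hs h hh, ?_⟩)
        change s * ⁅g, h⁆ * s⁻¹ = _
        simp only [commutatorElement_def]
        group
      · refine Subgroup.subset_closure (Or.inr ⟨s * g * s⁻¹, hs g hg, ?_⟩)
        change s * g ^ q * s⁻¹ = _
        rw [conj_pow]
    exact hmap hg
  have hBne : B ≠ Q := by
    intro he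
    have hnt : Nontrivial Q := by
      obtain ⟨g, hg, hdg⟩ := hQd
      rw [Subgroup.nontrivial_iff_exists_ne_one]
      refine ⟨g, hg, ?_⟩
      rintro rfl
      exact hdg (by simp)
    obtain ⟨M, hM, hM1, hM2⟩ := minq_max (Q := Q) q hq hQq
    refine hM ?_
    have hle : B ≤ M.map Q.subtype := by
      rw [hBdef, Subgroup.closure_le]
      rintro x (⟨g, hg, h, hh, rfl⟩ | ⟨g, hg, rfl⟩)
      · refine ⟨⁅(⟨g, hg⟩ : Q), ⟨h, hh⟩⁆, hM1 _ _, ?_⟩
        rfl
      · refine ⟨(⟨g, hg⟩ : Q) ^ q, hM2 _, ?_⟩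
        rfl
    rw [Subgroup.eq_top_iff']
    intro x
    have hx : (x : Γ) ∈ B := by
      rw [he]
      exact x.2
    obtain ⟨y, hy, hyx⟩ := hle hx
    have : y = x := Subtype.ext hyx
    rwa [← this]
  have hBcen := h4 B hBQ hBne (fun s hs => hconj s (fun g hg => hQS s hs g hg))
    (fun s hs => hconj s (fun g hg => Q.mul_mem (Q.mul_mem hs hg) (Q.inv_mem hs)))
  refine ⟨Q, hQN, hQS, hQd, h4, ?_, ?_⟩
  · intro g hg h hh k hk
    exact hBcen _ (Subgroup.subset_closure (Or.inl ⟨g, hg, h, hh, rfl⟩)) k hk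
  · intro g hg h hh
    exact hBcen _ (Subgroup.subset_closure (Or.inr ⟨g, hg, rfl⟩)) h hh

end H60SH
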