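import Mathlib
import Pool.Agent.H60.SH.Defs

namespace H60SH

open scoped commutatorElement

/-- **QUOT1**: `p`-subgroups lift along surjections of finite groups. -/
theorem lift_pgroup {G G' : Type*} [Group G] [Finite G] [Group G'] (f : G →* G')
    (hf : Function.Surjective f) (p : ℕ) [Fact p.Prime] (H' : Subgroup G') (hH' : IsPGroup p H') :
    ∃ H : Subgroup G, IsPGroup p H ∧ H.map f = H' := by
  have : Finite G' := Finite.of_surjective f hf
  obtain ⟨T, hT⟩ : ∃ T : Subgroup G, T = H'.comap f := ⟨_, rfl⟩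
  have hfT : ∀ x : T, f x ∈ H' := by
    rintro ⟨x, hx⟩
    rw [hT] at hx
    exact hx
  let f' : T →* H' := (f.comp T.subtype).codRestrict H' hfT
  have hf' : Function.Surjective f' := by
    intro y
    obtain ⟨x, hx⟩ := hf y
    refine ⟨⟨x, ?_⟩, ?_⟩
    · rw [hT, Subgroup.mem_comap, hx]; exact y.2
    · apply Subtype.ext; exact hx
  let P : Sylow p T := default
  have h1 : ((P : Subgroup T).map f').index ∣ (P : Subgroup T).index :=
    Subgroup.index_map_dvd _ hf'
  have h2 : ¬ p ∣ (P : Subgroup T).index := P.not_dvd_index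
  obtain ⟨n, hn⟩ := hH'.index ((P : Subgroup T).map f')
  have h3 : n = 0 := by
    by_contra hne
    apply h2
    apply dvd_trans _ h1
    rw [hn]
    exact dvd_pow_self p hne
  rw [h3, pow_zero, Subgroup.index_eq_one] at hn
  refine ⟨(P : Subgroup T).map T.subtype, P.isPGroup'.map _, ?_⟩
  ext y
  constructor
  · rintro ⟨x, ⟨z, hz, rfl⟩, rfl⟩
    exact hfT z
  · intro hy
    have : (⟨y, hy⟩ : H') ∈ (P : Subgroup T).map f' := by rw [hn]; exact Subgroup.mem_top _
    obtain ⟨z, hz, hzy⟩ := this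
    refine ⟨z, ⟨z, hz, rfl⟩, ?_⟩
    have := congrArg (fun u : H' => (u : G')) hzy
    exact this

/-- **QUOT2** -/
theorem Pk.quot {G G' : Type*} [Group G] [Finite G] [Group G'] (f : G →* G')
    (hf : Function.Surjective f) (p : ℕ) [Fact p.Prime] (k : ℕ) (h : Pk p k G) : Pk p k G' := by
  intro H' hH' a ha b hb
  obtain ⟨H, hH, rfl⟩ := lift_pgroup f hf p H' hH'
  obtain ⟨a, ha, rfl⟩ := ha
  obtain ⟨b, hb, rfl⟩ := hb
  rw [← map_commutatorElement, ← map_pow, h H hH a ha b hb, map_one]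

/-- **QUOT3** -/
theorem Ck.quot {G G' : Type*} [Group G] [Finite G] [Group G'] (f : G →* G')
    (hf : Function.Surjective f) (p : ℕ) [Fact p.Prime] (k : ℕ) (h : Ck p k G) : Ck p k G' := by
  intro H' hH' a ha b hb c hc d hd
  obtain ⟨H, hH, rfl⟩ := lift_pgroup f hf p H' hH'
  obtain ⟨a, ha, rfl⟩ := ha
  obtain ⟨b, hb, rfl⟩ := hb
  obtain ⟨c, hc, rfl⟩ := hc
  obtain ⟨d, hd, rfl⟩ := hd
  have := h H hH a ha b hb c hc d hd
  rw [← map_commutatorElement, ← map_commutatorElement, ← map_pow, ← map_pow]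
  exact this.map f

/-- **QUOT4**: the law bounds the exponent. -/
theorem Pk.of_law {G : Type*} [Group G] [Finite G] (p : ℕ) [Fact p.Prime] (n : ℕ) (hn : 0 < n)
    (h : ∀ x y : G, ⁅x, y⁆ ^ n = 1) : Pk p (n.factorization p) G := by
  intro H hH a ha b hb
  have hmem : ⁅a, b⁆ ∈ H := by
    rw [commutatorElement_def]
    exact H.mul_mem (H.mul_mem (H.mul_mem ha hb) (H.inv_mem ha)) (H.inv_mem hb)
  obtain ⟨j, hj⟩ := (IsPGroup.iff_orderOf.mp hH) ⟨⁅a, b⁆, hmem⟩
  rw [Subgroup.orderOf_mk] at hj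
  have h1 : orderOf ⁅a, b⁆ ∣ n := orderOf_dvd_of_pow_eq_one (h a b)
  rw [hj] at h1
  have h2 : j ≤ n.factorization p :=
    ((Fact.out : p.Prime).pow_dvd_iff_le_factorization hn.ne').mp h1
  apply orderOf_dvd_iff_pow_eq_one.mp
  rw [hj]
  exact pow_dvd_pow p h2

end H60SH
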