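import Mathlib
import Pool.Agent.H60.SH.Defs
import Pool.Agent.H60.SH.HEIS

namespace H60SH

open Module
open scoped commutatorElement

/-- The stabiliser of a subspace in a subgroup. -/
def stF {K V Γ : Type*} [Field K] [AddCommGroup V] [Module K V] [Group Γ]
    (ρ : Representation K Γ V) (S : Subgroup Γ) (U : Submodule K V) : Subgroup Γ where
  carrier := {s | s ∈ S ∧ U.map (ρ s) = U}
  mul_mem' := by
    rintro s t ⟨hs, hs'⟩ ⟨ht, ht'⟩
    refine ⟨S.mul_mem hs ht, ?_⟩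
    rw [map_mul]
    change U.map ((ρ s).comp (ρ t)) = U
    rw [Submodule.map_comp, ht', hs']
  one_mem' := by
    refine ⟨S.one_mem, ?_⟩
    rw [map_one]
    exact Submodule.map_id U
  inv_mem' := by
    rintro s ⟨hs, hs'⟩
    refine ⟨S.inv_mem hs, ?_⟩
    have h1 : U.map (ρ s⁻¹) = (U.map (ρ s)).map (ρ s⁻¹) := by rw [hs']
    rw [h1, ← Submodule.map_comp]
    have h2 : (ρ s⁻¹).comp (ρ s) = LinearMap.id := by
      have : ρ s⁻¹ * ρ s = 1 := by rw [← map_mul, inv_mul_cancel, map_one]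
      exact this
    rw [h2]
    exact Submodule.map_id U

theorem mem_stF {K V Γ : Type*} [Field K] [AddCommGroup V] [Module K V] [Group Γ]
    {ρ : Representation K Γ V} {S : Subgroup Γ} {U : Submodule K V} {s : Γ} :
    s ∈ stF ρ S U ↔ s ∈ S ∧ U.map (ρ s) = U := Iff.rfl

theorem stF_le {K V Γ : Type*} [Field K] [AddCommGroup V] [Module K V] [Group Γ]
    (ρ : Representation K Γ V) (S : Subgroup Γ) (U : Submodule K V) : stF ρ S U ≤ S :=
  fun _ h => h.1

theorem stF_apply {K V Γ : Type*} [Field K] [AddCommGroup V] [Module K V] [Group Γ]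
    {ρ : Representation K Γ V} {S : Subgroup Γ} {U : Submodule K V} {s : Γ}
    (hs : s ∈ stF ρ S U) (v : V) (hv : v ∈ U) : ρ s v ∈ U := by
  rw [← hs.2]
  exact Submodule.mem_map_of_mem hv

/-- From commutation on a block to the triviality of the commutator. -/
theorem comm_triv {K V Γ : Type*} [Field K] [AddCommGroup V] [Module K V] [Group Γ]
    (ρ : Representation K Γ V) (U : Submodule K V) (d g : Γ)
    (hd : ∀ v ∈ U, ρ d⁻¹ v ∈ U) (hg : ∀ v ∈ U, ρ g⁻¹ v ∈ U)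
    (h : ∀ v ∈ U, ρ d (ρ g v) = ρ g (ρ d v)) (v : V) (hv : v ∈ U) : ρ ⁅d, g⁆ v = v := by
  have e1 : ρ ⁅d, g⁆ v = ρ d (ρ g (ρ d⁻¹ (ρ g⁻¹ v))) := by
    rw [commutatorElement_def, map_mul, map_mul, map_mul]
    rfl
  have e2 := h _ (hd _ (hg _ hv))
  have e3 : ρ d (ρ d⁻¹ (ρ g⁻¹ v)) = ρ g⁻¹ v := by
    change (ρ d * ρ d⁻¹) (ρ g⁻¹ v) = _
    rw [← map_mul, mul_inv_cancel, map_one]
    rfl
  rw [e1, e2, e3]
  change (ρ g * ρ g⁻¹) v = v
  rw [← map_mul, mul_inv_cancel, map_one]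
  rfl

/-- Triviality on all blocks. -/
theorem eq_one_of_blocks {K V : Type*} [Field K] [AddCommGroup V] [Module K V]
    (𝓤 : Set (Submodule K V)) (htop : sSup 𝓤 = ⊤) (T : Module.End K V)
    (h : ∀ U ∈ 𝓤, ∀ v ∈ U, T v = v) : T = 1 := by
  have h1 : sSup 𝓤 ≤ LinearMap.ker (T - 1) := by
    refine sSup_le fun U hU v hv => ?_
    rw [LinearMap.mem_ker, LinearMap.sub_apply, Module.End.one_apply, h U hU v hv, sub_self]
  ext v
  have h2 : v ∈ LinearMap.ker (T - 1) := h1 (htop ▸ Submodule.mem_top)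
  rw [LinearMap.mem_ker, LinearMap.sub_apply, Module.End.one_apply, sub_eq_zero] at h2
  rw [h2, Module.End.one_apply]

theorem card_ne_of_pgroup {K Γ : Type*} [Field K] [Group Γ] [Finite Γ] (p q : ℕ) [Fact p.Prime]
    [CharP K p] (hq : q.Prime) (hpq : p ≠ q) (Q : Subgroup Γ) (hQ : IsPGroup q Q) :
    (Nat.card Q : K) ≠ 0 := by
  have : Fact q.Prime := ⟨hq⟩
  obtain ⟨n, hn⟩ := IsPGroup.iff_card.mp hQ
  rw [hn, Nat.cast_pow]
  refine pow_ne_zero _ ?_
  intro h0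
  rw [CharP.cast_eq_zero_iff K p] at h0
  exact hpq ((Nat.prime_dvd_prime_iff_eq Fact.out hq).mp h0)

end H60SH
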