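import Mathlib
import Pool.Agent.H60.SH.Defs
import Pool.Agent.H60.SH.HEIS
import Pool.Agent.H60.SH.PZ
import Pool.Agent.H60.SH.BCOMM
import Pool.Agent.H60.SH.DEC
import Pool.Agent.H60.SH.DICHB
import Pool.Agent.H60.SH.BLK
import Pool.Agent.H60.SH.RC

namespace H60SH

open Module
open scoped commutatorElement

/-- The dichotomy, for elements of a `p`-subgroup. -/
theorem r0_dich {K V Γ : Type*} [Field K] [AddCommGroup V] [Module K V]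
    [Group Γ] [Finite Γ] (p : ℕ) [Fact p.Prime] [CharP K p]
    (ρ : Representation K Γ V) (S : Subgroup Γ)
    (hS : IsPGroup p S) (𝓤 : Set (Submodule K V)) (hne : ∀ U ∈ 𝓤, U ≠ ⊥)
    (hind : sSupIndep 𝓤) (hperm : ∀ s ∈ S, ∀ U ∈ 𝓤, U.map (ρ s) ∈ 𝓤) (k : ℕ)
    (a b : Γ) (ha : a ∈ S) (hb : b ∈ S)
    (hPk : ⁅a, b⁆ ^ (p ^ k) = 1)
    (hN : ∀ h ∈ Subgroup.closure {a, b},
      (ρ ⁅a, b⁆ - 1) ^ (p ^ k - 1) * ρ h = (ρ ⁅a, b⁆ - 1) ^ (p ^ k - 1))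
    (U : Submodule K V) (hU : U ∈ 𝓤) :
    (a ∈ stF ρ S U ∧ b ∈ stF ρ S U) ∨
      ∃ k' : ℕ, 1 ≤ k' ∧ k' ≤ k ∧ ⁅a, b⁆ ^ (p ^ (k - k')) ∈ stF ρ S U ∧
        ∀ v ∈ U, ((ρ (⁅a, b⁆ ^ (p ^ (k - k'))) - 1) ^ (p ^ k' - 1)) v = 0 := by
  set H := Subgroup.closure {a, b} with hH
  have hHS : H ≤ S := by
    rw [hH, Subgroup.closure_le]
    rintro x (rfl | rfl)
    · exact ha
    · exact hb
  have haH : a ∈ H := Subgroup.subset_closure (by simp)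
  have hbH : b ∈ H := Subgroup.subset_closure (by simp)
  have huH : ⁅a, b⁆ ∈ H := by
    rw [commutatorElement_def]
    exact H.mul_mem (H.mul_mem (H.mul_mem haH hbH) (H.inv_mem haH)) (H.inv_mem hbH)
  have hHp : IsPGroup p H := hS.to_le hHS
  have hu : (⟨⁅a, b⁆, huH⟩ : H) ∈ commutator H := by
    have : (⟨⁅a, b⁆, huH⟩ : H) = ⁅(⟨a, haH⟩ : H), (⟨b, hbH⟩ : H)⁆ := by
      ext
      rfl
    rw [this]
    exact Subgroup.commutator_mem_commutator (Subgroup.mem_top _) (Subgroup.mem_top _)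
  have key := dich_main p hHp (ρ.comp H.subtype) 𝓤 hne hind
    (fun h U hU => hperm h (hHS h.2) U hU) ⟨⁅a, b⁆, huH⟩ hu k
    (by ext; simpa using hPk) (fun h => hN h h.2) U hU
  rcases key with h1 | ⟨k', hk1, hk2, h3, h4⟩
  · left
    exact ⟨⟨ha, h1 ⟨a, haH⟩⟩, ⟨hb, h1 ⟨b, hbH⟩⟩⟩
  · right
    exact ⟨k', hk1, hk2, ⟨S.pow_mem (hHS huH) _, h3⟩, h4⟩

/-- **R0** -/
theorem R0 {K V Γ : Type*} [Field K] [IsAlgClosed K] [AddCommGroup V] [Module K V]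
    [FiniteDimensional K V] [Group Γ] [Finite Γ] (p q : ℕ) [Fact p.Prime] [CharP K p]
    (hp2 : p ≠ 2) (hq : q.Prime) (hpq : p ≠ q) (ρ : Representation K Γ V) (S Q : Subgroup Γ)
    (hS : IsPGroup p S) (hQ : IsPGroup q Q) (hSQ : ∀ s ∈ S, ∀ g ∈ Q, s * g * s⁻¹ ∈ Q)
    (hQ2 : ∀ g ∈ Q, ∀ h ∈ Q, ∀ k ∈ Q, ⁅g, h⁆ * k = k * ⁅g, h⁆)
    (hQq : ∀ g ∈ Q, ∀ h ∈ Q, g ^ q * h = h * g ^ q) (k : ℕ) (hk : 1 ≤ k)
    (hPk : ∀ a ∈ S, ∀ b ∈ S, ⁅a, b⁆ ^ (p ^ k) = 1)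
    (hC0 : ∀ a ∈ S, ∀ b ∈ S,
      (ρ ⁅a, b⁆ - 1) ^ (p ^ k - 1) * ρ a = (ρ ⁅a, b⁆ - 1) ^ (p ^ k - 1) ∧
      (ρ ⁅a, b⁆ - 1) ^ (p ^ k - 1) * ρ b = (ρ ⁅a, b⁆ - 1) ^ (p ^ k - 1))
    (a b a' b' : Γ) (ha : a ∈ S) (hb : b ∈ S) (ha' : a' ∈ S) (hb' : b' ∈ S) (g : Γ)
    (hg : g ∈ Q) :
    ρ ⁅⁅⁅a, b⁆ ^ (p ^ (k - 1)), ⁅a', b'⁆ ^ (p ^ (k - 1))⁆, g⁆ = 1 := by
  have hQ' : (Nat.card Q : K) ≠ 0 := card_ne_of_pgroup p q hq hpq Q hQ
  obtain ⟨𝓤, hne, hind, htop, hperm, hQU, hsc⟩ := blocks ρ Q hQ'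
  refine eq_one_of_blocks 𝓤 htop _ fun U hU => ?_
  have hpermS : ∀ s ∈ S, ∀ U ∈ 𝓤, U.map (ρ s) ∈ 𝓤 := fun s hs U hU => hperm s (hSQ s hs) U hU
  set F := stF ρ S U with hF
  have hFS : F ≤ S := stF_le ρ S U
  have hFU : ∀ f ∈ F, ∀ v ∈ U, ρ f v ∈ U := fun f hf v hv => stF_apply hf v hv
  have hFp : IsPGroup p F := hS.to_le hFS
  have hUne := hne U hU
  obtain ⟨W, _, _, _, _, π, β, ρA, ρF, Sy, hρA, hρF, hsm⟩ := block_sys p q ρ Q F U hUne hFp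
    (hQU U hU) hFU (fun s hs => hSQ s (hFS hs)) hQ2 hQq (hsc U hU)
  have : Nontrivial U := (Submodule.nontrivial_iff_ne_bot).mpr hUne
  -- transfer of powers of `ρ f - 1` to the block
  have hpow : ∀ (f : F) (m : ℕ) (v : U),
      ((((ρF f - 1 : Module.End K U) ^ m) v : U) : V) = ((ρ f - 1) ^ m) v := by
    intro f m
    induction m with
    | zero => intro v; simp
    | succ m ih =>
      intro v
      rw [pow_succ, pow_succ, Module.End.mul_apply, Module.End.mul_apply, ih]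
      congr 1
      rw [LinearMap.sub_apply, LinearMap.sub_apply, Module.End.one_apply, Module.End.one_apply,
        Submodule.coe_sub, hρF]
  have hN1 : ∀ a ∈ S, ∀ b ∈ S, ∀ h ∈ Subgroup.closure {a, b},
      (ρ ⁅a, b⁆ - 1) ^ (p ^ k - 1) * ρ h = (ρ ⁅a, b⁆ - 1) ^ (p ^ k - 1) := by
    intro a ha b hb h hh
    induction hh using Subgroup.closure_induction with
    | mem x hx =>
      rcases hx with rfl | rfl
      · exact (hC0 _ ha _ hb).1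
      · exact (hC0 _ ha _ hb).2
    | one => rw [map_one, mul_one]
    | mul x y _ _ hx hy => rw [map_mul, ← mul_assoc, hx, hy]
    | inv x _ hx =>
      have : ρ x * ρ x⁻¹ = 1 := by rw [← map_mul, mul_inv_cancel, map_one]
      calc (ρ ⁅a, b⁆ - 1) ^ (p ^ k - 1) * ρ x⁻¹
          = ((ρ ⁅a, b⁆ - 1) ^ (p ^ k - 1) * ρ x) * ρ x⁻¹ := by rw [hx]
        _ = (ρ ⁅a, b⁆ - 1) ^ (p ^ k - 1) := by rw [mul_assoc, this, mul_one]
  have hpz : ∀ a ∈ S, ∀ b ∈ S, ∃ f : F, (f : Γ) = ⁅a, b⁆ ^ (p ^ (k - 1)) ∧ PZ p ρF f := by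
    intro a ha b hb
    rcases r0_dich p ρ S hS 𝓤 hne hind hpermS k a b ha hb (hPk a ha b hb) (hN1 a ha b hb) U hU
      with ⟨h1, h2⟩ | ⟨k', hk1, hk2, h3, h4⟩
    · refine ⟨⁅(⟨a, h1⟩ : F), (⟨b, h2⟩ : F)⁆ ^ (p ^ (k - 1)), ?_, ?_⟩
      · rfl
      · refine ⟨⁅(⟨a, h1⟩ : F), (⟨b, h2⟩ : F)⁆, k, hk, rfl, ?_, Or.inr ⟨⟨_, _, rfl⟩, ?_⟩⟩
        · exact Subtype.ext (hPk a ha b hb)
        · intro a1 b1
          have hh := hC0 a1 (hFS a1.2) b1 (hFS b1.2)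
          have e : (ρ ((⁅a1, b1⁆ : F) : Γ) - 1) = (ρ ⁅(a1 : Γ), (b1 : Γ)⁆ - 1) := rfl
          constructor
          · ext v
            have h5 := LinearMap.congr_fun hh.1 (v : V)
            rw [Module.End.mul_apply] at h5
            rw [Module.End.mul_apply, hpow, hpow, hρF, e]
            exact h5
          · ext v
            have h5 := LinearMap.congr_fun hh.2 (v : V)
            rw [Module.End.mul_apply] at h5
            rw [Module.End.mul_apply, hpow, hpow, hρF, e]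
            exact h5
    · have e1 : p ^ (k - 1) = p ^ (k - k') * p ^ (k' - 1) := by
        rw [← pow_add]
        congr 1
        omega
      have e2 : p ^ k = p ^ (k - k') * p ^ k' := by
        rw [← pow_add]
        congr 1
        omega
      refine ⟨(⟨⁅a, b⁆ ^ (p ^ (k - k')), h3⟩ : F) ^ (p ^ (k' - 1)), ?_, ?_⟩
      · rw [e1, pow_mul]
        rfl
      · refine ⟨⟨⁅a, b⁆ ^ (p ^ (k - k')), h3⟩, k', hk1, rfl, ?_, Or.inl ?_⟩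
        · ext
          rw [Subgroup.coe_pow, Subgroup.coe_one, ← pow_mul, ← e2]
          exact hPk a ha b hb
        · ext v
          rw [hpow]
          exact h4 v v.2
  obtain ⟨f1, hf1, hz1⟩ := hpz a ha b hb
  obtain ⟨f2, hf2, hz2⟩ := hpz a' ha' b' hb'
  have hc := bcomm Sy hp2 hq hpq hQ' f1 f2 hz1 hz2
  have hd : ∀ w : W, ⁅f1, f2⁆ • w = w := by
    intro w
    have h6 := hc (f1⁻¹ • f2⁻¹ • w)
    rw [commutatorElement_def, mul_smul, mul_smul, mul_smul, h6, smul_inv_smul, smul_inv_smul]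
  intro v hv
  have hdF : ((⁅f1, f2⁆ : F) : Γ) = ⁅⁅a, b⁆ ^ (p ^ (k - 1)), ⁅a', b'⁆ ^ (p ^ (k - 1))⁆ := by
    rw [← hf1, ← hf2]
    rfl
  rw [← hdF]
  refine comm_triv ρ U _ g ?_ ?_ ?_ v hv
  · intro v hv
    exact hFU _ (F.inv_mem (⁅f1, f2⁆ : F).2) v hv
  · intro v hv
    exact hQU U hU _ (Q.inv_mem hg) v hv
  · intro v hv
    have h7 := Sy.cop ⁅f1, f2⁆ ⟨g, hg⟩ (hd _)
    have h8 := congrArg (fun T : Module.End K U => ((T ⟨v, hv⟩ : U) : V)) h7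
    simp only [Module.End.mul_apply, hρA, hρF] at h8
    exact h8

end H60SH
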