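import Mathlib
import Pool.Agent.H60.SH.Defs
import Pool.Agent.H60.SH.HEIS
import Pool.Agent.H60.SH.SUB
import Pool.Agent.H60.SH.WDEC

namespace H60SH

open Module

variable {K V F A W : Type*} [Field K] [IsAlgClosed K] [AddCommGroup V] [Module K V]
  [FiniteDimensional K V] [Nontrivial V] [Group F] [Finite F] [Group A]
  [MulDistribMulAction F A] [AddCommGroup W] [Finite W] [DistribMulAction F W]
  {p q : ℕ} [Fact p.Prime] [CharP K p]
  {π : A → W} {ρA : Representation K A V} {β : W → W → K} {ρF : Representation K F V}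

/-- A `3`-element acting on a set with four elements has trivial cube. -/
theorem quada_four {F W : Type*} [Group F] [AddCommGroup W] [DistribMulAction F W]
    (X : AddSubgroup W) (hX : Nat.card X = 4) (x : F) (hx : ∀ w ∈ X, x • w ∈ X)
    (hx' : ∀ w ∈ X, x⁻¹ • w ∈ X) (r : ℕ) (hr : x ^ (3 ^ r) = 1) (w : W) (hw : w ∈ X) :
    (x ^ 3) • w = w := by
  classical
  have hfin : Finite X := Nat.finite_of_card_ne_zero (by rw [hX]; norm_num)
  have : Fintype X := Fintype.ofFinite X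
  let σ : Equiv.Perm X :=
    { toFun := fun v => ⟨x • (v : W), hx v v.2⟩
      invFun := fun v => ⟨x⁻¹ • (v : W), hx' v v.2⟩
      left_inv := fun v => by ext; simp
      right_inv := fun v => by ext; simp }
  have hpow : ∀ (n : ℕ) (v : X), (((σ ^ n) v : X) : W) = (x ^ n) • (v : W) := by
    intro n
    induction n with
    | zero => intro v; simp
    | succ n ih =>
      intro v
      rw [pow_succ', Equiv.Perm.mul_apply, pow_succ', mul_smul, ← ih]
      rfl
  have h1 : orderOf σ ∣ 3 ^ r := by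
    apply orderOf_dvd_of_pow_eq_one
    ext v
    rw [hpow, hr, one_smul]; rfl
  have h2 : orderOf σ ∣ 24 := by
    have h3 := orderOf_dvd_card (x := σ)
    rw [Fintype.card_perm, ← Nat.card_eq_fintype_card, hX] at h3
    exact h3
  have h3 : orderOf σ ∣ 3 := by
    have hcop : Nat.Coprime (orderOf σ) 8 := by
      have h4 : Nat.Coprime (3 ^ r) 8 := Nat.Coprime.pow_left r (by norm_num)
      exact Nat.Coprime.coprime_dvd_left h1 h4
    have h5 : orderOf σ ∣ 8 * 3 := h2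
    exact hcop.dvd_of_dvd_mul_left h5
  have h4 : σ ^ 3 = 1 := orderOf_dvd_iff_pow_eq_one.1 h3
  have h5 := hpow 3 ⟨w, hw⟩
  rw [h4] at h5
  exact h5.symm

/-- **QUAD0**: a `p`-th power acting quadratically on `V` acts trivially on `W`. -/
theorem quad0 (S : Sys p q π ρA β ρF) (hp2 : p ≠ 2) (hq : q.Prime) (hpq : p ≠ q)
    (x : F) (m : ℕ) (hm : 1 ≤ m) (hz : (x ^ (p ^ m)) ^ p = 1)
    (hz2 : (ρF (x ^ (p ^ m)) - 1) ^ 2 = 0) (w : W) : (x ^ (p ^ m)) • w = w := by
  have hp : p.Prime := Fact.out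
  set z := x ^ (p ^ m) with hzdef
  by_contra hne
  -- the commutator subgroup
  let X : AddSubgroup W := (DistribSMul.toAddMonoidHom W z - AddMonoidHom.id W).range
  have hX : ∀ v : W, v ∈ X ↔ ∃ u : W, z • u - u = v := fun v => Iff.rfl
  have hcomm : ∀ y : F, y * z = z * y → ∀ v ∈ X, y • v ∈ X := by
    rintro y hy v hv
    obtain ⟨u, rfl⟩ := (hX v).1 hv
    refine (hX _).2 ⟨y • u, ?_⟩
    rw [smul_sub, ← mul_smul, ← mul_smul, hy]
  have hzx : x * z = z * x := by rw [hzdef]; exact (Commute.self_pow x _).eq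
  have hzx' : x⁻¹ * z = z * x⁻¹ := by
    rw [inv_mul_eq_iff_eq_mul, ← mul_assoc, hzx, mul_assoc, mul_inv_cancel, mul_one]
  have hfixX : ∀ v ∈ X, z • v = v → v = 0 := by
    intro v hv h
    obtain ⟨u, rfl⟩ := (hX v).1 hv
    have := stab p q hp hq hpq S.hF S.hW z u h
    rw [this, sub_self]
  have hs : SubSys π ρA β X ⊤ := by
    refine ⟨top_ne_bot, ?_, fun _ _ _ _ => trivial⟩
    intro v hv hv0
    obtain ⟨u, rfl⟩ := (hX v).1 hv
    obtain ⟨w', -, h⟩ := nd_comm S hq hpq ⊤ (fun w _ hw => by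
      obtain ⟨w', h⟩ := S.heis.nd w hw
      exact ⟨w', trivial, h⟩) z (fun _ _ => trivial) u trivial hv0
    exact ⟨_, (hX _).2 ⟨w', rfl⟩, h⟩
  have hXne : X ≠ ⊥ := by
    intro h
    have h1 : z • w - w ∈ X := (hX _).2 ⟨w, rfl⟩
    rw [h, AddSubgroup.mem_bot] at h1
    exact hne (sub_eq_zero.1 h1)
  obtain ⟨h3, h4⟩ := U3_sub S hp2 hq hpq hs hXne z (hcomm z rfl) (fun _ _ => trivial)
    (fun v _ => by rw [hz2]; rfl)
    (fun v hv hv0 n hn0 hnp h => hv0 (hfixX v hv (wdec_zfix z n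
      (Nat.coprime_of_lt_prime (by omega) hnp hp).symm v (by rw [hz, one_smul]) h)))
    (fun v _ => by rw [hz, one_smul])
  obtain ⟨r, hr⟩ := S.hF x
  apply hne
  apply sub_eq_zero.1
  apply hfixX _ ((hX _).2 ⟨w, rfl⟩)
  obtain ⟨m', rfl⟩ : ∃ m', m = m' + 1 := ⟨m - 1, by omega⟩
  have h5 : ∀ n : ℕ, ∀ v ∈ X, ((x ^ 3) ^ n) • v = v := by
    intro n
    induction n with
    | zero => intro v _; simp
    | succ n ih =>
      intro v hv
      rw [pow_succ', mul_smul, ih v hv]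
      exact quada_four X h4 x (hcomm x hzx) (hcomm x⁻¹ hzx') r (by rw [← h3]; exact hr) v hv
  have h6 : z = (x ^ 3) ^ (3 ^ m') := by
    rw [hzdef, ← pow_mul, h3, pow_succ']
  have h7 := h5 (3 ^ m') _ ((hX _).2 ⟨w, rfl⟩)
  rwa [← h6] at h7

end H60SH
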