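import Mathlib
import Pool.Agent.H60.SH.Defs
import Pool.Agent.H60.SH.HEIS
import Pool.Agent.H60.SH.PFIX
import Pool.Agent.H60.SH.SUB
import Pool.Agent.H60.SH.WDEC
import Pool.Agent.H60.SH.ALPHA
import Pool.Agent.H60.SH.SIMP

namespace H60SH

open Module

/-- A `3`-group acts on a set with four elements through an abelian group. -/
theorem quadb_four {F W : Type*} [Group F] [Finite F] [Finite W] [MulAction F W]
    (hF : IsPGroup 3 F) (hW : Nat.card W = 4) (u : F) (hu : u ∈ commutator F) (w : W) :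
    u • w = w := by
  have : Fintype W := Fintype.ofFinite W
  classical
  set φ : F →* Equiv.Perm W := MulAction.toPermHom F W with hφ
  have h1 : Nat.card φ.range ∣ 24 := by
    have h2 : Nat.card φ.range ∣ Nat.card (Equiv.Perm W) := Subgroup.card_subgroup_dvd_card _
    have h3 : Nat.card (Equiv.Perm W) = 24 := by
      rw [Nat.card_eq_fintype_card, Fintype.card_perm, ← Nat.card_eq_fintype_card, hW]
      rfl
    rwa [h3] at h2
  have h4 : IsPGroup 3 φ.range := hF.of_surjective φ.rangeRestrict φ.rangeRestrict_surjective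
  have : Fact (Nat.Prime 3) := ⟨Nat.prime_three⟩
  obtain ⟨n, hn⟩ := (IsPGroup.iff_card (p := 3) (G := φ.range)).mp h4
  have h5 : ∀ a b : φ.range, a * b = b * a := by
    have hn1 : n ≤ 1 := by
      by_contra h
      push Not at h
      have h6 : 3 ^ 2 ∣ 24 := (pow_dvd_pow 3 h).trans (hn ▸ h1)
      norm_num at h6
    interval_cases n
    · have : Subsingleton φ.range := (Nat.card_eq_one_iff_unique.mp (by simpa using hn)).1
      intro a b
      exact Subsingleton.elim _ _
    · have : IsCyclic φ.range := isCyclic_of_prime_card (p := 3) (by simpa using hn)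
      intro a b
      exact (IsCyclic.commGroup (α := φ.range)).mul_comm a b
  have h7 : commutator F ≤ φ.ker := by
    rw [commutator_def, Subgroup.commutator_le]
    intro a _ b _
    rw [MonoidHom.mem_ker, commutatorElement_def, map_mul, map_mul, map_mul, map_inv, map_inv]
    have h8 : φ a * φ b = φ b * φ a := by
      have := congrArg Subtype.val (h5 ⟨φ a, a, rfl⟩ ⟨φ b, b, rfl⟩)
      simpa using this
    rw [h8]
    group
  have h9 := h7 hu
  rw [MonoidHom.mem_ker] at h9
  have := congrArg (fun e : Equiv.Perm W => e w) h9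
  simpa [hφ] using this

variable {K V F A W : Type*} [Field K] [IsAlgClosed K] [AddCommGroup V] [Module K V]
  [FiniteDimensional K V] [Nontrivial V] [Group F] [Finite F] [Group A]
  [MulDistribMulAction F A] [AddCommGroup W] [Finite W] [DistribMulAction F W]
  {p q : ℕ} [Fact p.Prime] [CharP K p]
  {π : A → W} {ρA : Representation K A V} {β : W → W → K} {ρF : Representation K F V}

/-- **QUAD1**: if `F` acts irreducibly on `W` and `(u - 1) * f = u - 1` on `V` for all `f ∈ F`,
where `u` is in the derived subgroup of `F`, then `u` acts trivially on `W`. -/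
theorem quad1 (S : Sys p q π ρA β ρF) (hp2 : p ≠ 2) (hq : q.Prime) (hpq : p ≠ q)
    (hsimple : ∀ Y : AddSubgroup W, (∀ (f : F), ∀ w ∈ Y, f • w ∈ Y) → Y = ⊥ ∨ Y = ⊤)
    (u : F) (hu : u ∈ commutator F)
    (hX : ∀ f : F, (ρF u - 1) * ρF f = ρF u - 1) (w : W) : u • w = w := by
  by_contra hw
  have hpp : p.Prime := Fact.out
  have hnd : ∀ w ∈ (⊤ : AddSubgroup W), w ≠ 0 → ∃ w' ∈ (⊤ : AddSubgroup W), β w w' ≠ 1 := by
    intro w _ hw0
    obtain ⟨w', hw'⟩ := S.heis.nd w hw0
    exact ⟨w', AddSubgroup.mem_top _, hw'⟩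
  obtain ⟨U, hs, hUF, hfaith⟩ := fixC S ⊤ (fun _ _ _ => AddSubgroup.mem_top _) hnd
  obtain ⟨c, hc1, hcp, hcfix, -⟩ := exists_central p S.hF (⊤ : AddSubgroup W)
    (fun _ _ _ => AddSubgroup.mem_top _) (fun Y _ hY => hsimple Y hY)
    ⟨u, w, AddSubgroup.mem_top _, hw⟩
  -- the square of `u - 1` is zero
  have hsq : (ρF u - 1) * (ρF u - 1) = 0 := by
    rw [mul_sub, hX u, mul_one, sub_self]
  -- the image of `u - 1`
  have hI : U.map (ρF u - 1) ≠ ⊥ := by
    intro h0
    apply hw
    apply S.triv_of_triv hs u (fun _ _ => AddSubgroup.mem_top _) _ w (AddSubgroup.mem_top _)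
    intro v hv
    have h1 : (ρF u - 1) v ∈ U.map (ρF u - 1) := Submodule.mem_map_of_mem hv
    rw [h0, Submodule.mem_bot, LinearMap.sub_apply, Module.End.one_apply, sub_eq_zero] at h1
    exact h1
  -- `c` and `u` commute on `U`
  have hcu : ∀ v ∈ U, ρF c (ρF u v) = ρF u (ρF c v) := by
    intro v hv
    have h1 : ∀ v ∈ U, ρF (c * u * c⁻¹ * u⁻¹) v = v := by
      apply hfaith
      intro w' hw'
      rw [mul_smul, mul_smul, mul_smul, hc1 u _ (AddSubgroup.mem_top _), smul_inv_smul,
        smul_inv_smul]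
    have h2 : ρF (c * u * c⁻¹ * u⁻¹) (ρF (u * c) v) = ρF (u * c) v := by
      apply h1
      exact hUF _ _ hv
    have h3 : ρF (c * u * c⁻¹ * u⁻¹) (ρF (u * c) v) = ρF (c * u) v := by
      rw [← Module.End.mul_apply, ← map_mul]
      congr 2
      group
    rw [h3, map_mul, map_mul, Module.End.mul_apply, Module.End.mul_apply] at h2
    exact h2
  have hcI : ∀ v ∈ U.map (ρF u - 1), ρF c v = v := by
    rintro _ ⟨v, hv, rfl⟩
    have h1 := congrArg (fun T : Module.End K V => T v) (hX c)
    simp only [Module.End.mul_apply, LinearMap.sub_apply, Module.End.one_apply] at h1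
    rw [LinearMap.sub_apply, Module.End.one_apply, map_sub, hcu v hv]
    exact h1
  have hfixu : ∀ w : W, u • w = w → w = 0 := by
    intro w' hw'
    apply hcfix w' (AddSubgroup.mem_top _)
    refine alpha S hq hpq hnd c u (fun _ _ => AddSubgroup.mem_top _)
      (fun _ _ => AddSubgroup.mem_top _) (fun w'' _ => hc1 u w'' (AddSubgroup.mem_top _))
      (U.map (ρF u - 1)) hI ?_ hcI w' (AddSubgroup.mem_top _) hw'
    intro g hg hug v hv
    refine image_inv S hs u (ρF u - 1) ?_ g hg hug v hv
    exact Subalgebra.sub_mem _ (Algebra.subset_adjoin rfl) (Subalgebra.one_mem _)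
  -- `u ^ p = 1`
  have hup : ∀ w : W, (u ^ p) • w = w := by
    intro w'
    refine S.triv_of_triv S.heis.top (u ^ p) (fun _ _ => AddSubgroup.mem_top _) ?_ w'
      (AddSubgroup.mem_top _)
    intro v _
    have h1 : (ρF u - 1) ^ p = 0 := by
      have h2 : (ρF u - 1) ^ 2 = 0 := by rw [pow_two]; exact hsq
      exact pow_eq_zero_of_le hpp.two_le h2
    have h3 : CharP (Module.End K V) p := by
      exact charP_of_injective_algebraMap (algebraMap K (Module.End K V)).injective p
    have h4 : (ρF u - 1) ^ p = (ρF u) ^ p - 1 ^ p := by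
      apply sub_pow_char_of_commute
      exact Commute.one_right _
    rw [h1, one_pow] at h4
    have h5 : ρF (u ^ p) = 1 := by
      rw [map_pow]
      exact (sub_eq_zero.mp h4.symm)
    rw [h5]
    rfl
  have htop : (⊤ : AddSubgroup W) ≠ ⊥ := by
    intro h0
    apply hw
    have h1 : ∀ w : W, w = 0 := by
      intro w'
      have : w' ∈ (⊤ : AddSubgroup W) := AddSubgroup.mem_top _
      rw [h0] at this
      exact this
    rw [h1 (u • w), h1 w]
  have hfree : ∀ w ∈ (⊤ : AddSubgroup W), w ≠ 0 → ∀ m, 0 < m → m < p → (u ^ m) • w ≠ w := by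
    intro w' _ hw' m hm0 hmp hfix
    apply hw'
    apply hfixu
    -- the stabiliser contains `u ^ m` and `u ^ p`
    have hco : Nat.Coprime m p := ((Nat.coprime_of_lt_prime hm0.ne' hmp hpp).symm : Nat.Coprime m p)
    have h1 : u ^ m ∈ MulAction.stabilizer F w' := hfix
    have h2 : u ^ p ∈ MulAction.stabilizer F w' := hup w'
    have h3 : u ∈ MulAction.stabilizer F w' := by
      have h4 := Nat.gcd_eq_gcd_ab m p
      rw [hco.gcd_eq_one] at h4
      have h5 : u = (u ^ m) ^ (Nat.gcdA m p) * (u ^ p) ^ (Nat.gcdB m p) := by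
        rw [← zpow_natCast u m, ← zpow_natCast u p, ← zpow_mul, ← zpow_mul, ← zpow_add, ← h4]
        simp
      rw [h5]
      exact mul_mem (zpow_mem h1 _) (zpow_mem h2 _)
    exact h3
  obtain ⟨hp3, hcard⟩ := U3_sub S hp2 hq hpq hs htop u (fun _ _ => AddSubgroup.mem_top _)
    (fun v hv => hUF u v hv) (fun v _ => by rw [pow_two, hsq]; rfl) hfree (fun w' _ => hup w')
  subst hp3
  apply hw
  apply quadb_four S.hF _ u hu w
  rw [← hcard]
  exact (Nat.card_congr (Equiv.Set.univ W)).symm

end H60SH
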