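import Mathlib
import Pool.Agent.H60.SH.Defs
import Pool.Agent.H60.SH.HEIS
import Pool.Agent.H60.SH.QUADA
import Pool.Agent.H60.SH.QUADB
import Pool.Agent.H60.SH.DEC
import Pool.Agent.H60.SH.DICHB
import Pool.Agent.H60.SH.BLK
import Pool.Agent.H60.SH.RC

namespace H60SH

open Module
open scoped commutatorElement

theorem ring_quad {R : Type*} [Ring R] (p : ℕ) [Fact p.Prime] [CharP R p] (T : R) (m : ℕ)
    (h : (T - 1) ^ (2 * p ^ m - 1) * (T - 1) = 0) : (T ^ (p ^ m) - 1) ^ 2 = 0 := by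
  have h1 : T ^ (p ^ m) - 1 = (T - 1) ^ (p ^ m) := by
    rw [sub_pow_char_pow_of_commute p m (Commute.one_right T), one_pow]
  have hpm : 0 < p ^ m := pow_pos (Fact.out : p.Prime).pos _
  rw [h1, ← pow_mul]
  have h2 : p ^ m * 2 = (2 * p ^ m - 1) + 1 := by omega
  rw [h2, pow_succ]
  exact h

theorem charP_end {K V : Type*} [Field K] [AddCommGroup V] [Module K V] (p : ℕ) [CharP K p]
    [Nontrivial V] : CharP (Module.End K V) p :=
  charP_of_injective_algebraMap (algebraMap K (Module.End K V)).injective p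

/-- **R1** -/
theorem R1 {K V Γ : Type*} [Field K] [IsAlgClosed K] [AddCommGroup V] [Module K V]
    [FiniteDimensional K V] [Group Γ] [Finite Γ] (p q : ℕ) [Fact p.Prime] [CharP K p]
    (hp2 : p ≠ 2) (hq : q.Prime) (hpq : p ≠ q) (ρ : Representation K Γ V) (a b : Γ)
    (hS : IsPGroup p (Subgroup.closure {a, b} : Subgroup Γ)) (Q : Subgroup Γ)
    (hQ : IsPGroup q Q) (hSQ : ∀ s ∈ Subgroup.closure {a, b}, ∀ g ∈ Q, s * g * s⁻¹ ∈ Q)
    (hmin : ∀ B : Subgroup Γ, B ≤ Q → B ≠ Q →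
      (∀ s ∈ Subgroup.closure {a, b}, ∀ g ∈ B, s * g * s⁻¹ ∈ B) →
        (∀ s ∈ Q, ∀ g ∈ B, s * g * s⁻¹ ∈ B) → ∀ b ∈ B, ∀ g ∈ Q, b * g = g * b)
    (hQ2 : ∀ g ∈ Q, ∀ h ∈ Q, ∀ k ∈ Q, ⁅g, h⁆ * k = k * ⁅g, h⁆)
    (hQq : ∀ g ∈ Q, ∀ h ∈ Q, g ^ q * h = h * g ^ q) (k : ℕ) (hk : 1 ≤ k)
    (hPk : ⁅a, b⁆ ^ (p ^ k) = 1)
    (hXa : (ρ ⁅a, b⁆ - 1) ^ (2 * p ^ (k - 1) - 1) * ρ a = (ρ ⁅a, b⁆ - 1) ^ (2 * p ^ (k - 1) - 1))
    (hXb : (ρ ⁅a, b⁆ - 1) ^ (2 * p ^ (k - 1) - 1) * ρ b = (ρ ⁅a, b⁆ - 1) ^ (2 * p ^ (k - 1) - 1))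
    (g : Γ) (hg : g ∈ Q) :
    ρ ⁅⁅a, b⁆ ^ (p ^ (k - 1)), g⁆ = 1 := by
  have hp : p.Prime := Fact.out
  have hQ' : (Nat.card Q : K) ≠ 0 := card_ne_of_pgroup p q hq hpq Q hQ
  obtain ⟨𝓤, hne, hind, htop, hperm, hQU, hsc⟩ := blocks ρ Q hQ'
  refine eq_one_of_blocks 𝓤 htop _ fun U hU => ?_
  set S := Subgroup.closure {a, b} with hSdef
  have hpermS : ∀ s ∈ S, ∀ U ∈ 𝓤, U.map (ρ s) ∈ 𝓤 := fun s hs U hU => hperm s (hSQ s hs) U hU
  have haS : a ∈ S := Subgroup.subset_closure (by simp)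
  have hbS : b ∈ S := Subgroup.subset_closure (by simp)
  have huS : ⁅a, b⁆ ∈ S := by
    rw [commutatorElement_def]
    exact S.mul_mem (S.mul_mem (S.mul_mem haS hbS) (S.inv_mem haS)) (S.inv_mem hbS)
  set X : Module.End K V := (ρ ⁅a, b⁆ - 1) ^ (2 * p ^ (k - 1) - 1) with hXdef
  have hXh : ∀ h ∈ S, X * ρ h = X := by
    intro h hh
    induction hh using Subgroup.closure_induction with
    | mem x hx =>
      rcases hx with rfl | rfl
      · exact hXa
      · exact hXb
    | one => rw [map_one, mul_one]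
    | mul x y _ _ hx hy => rw [map_mul, ← mul_assoc, hx, hy]
    | inv x _ hx =>
      have : ρ x * ρ x⁻¹ = 1 := by rw [← map_mul, mul_inv_cancel, map_one]
      calc X * ρ x⁻¹ = (X * ρ x) * ρ x⁻¹ := by rw [hx]
        _ = X := by rw [mul_assoc, this, mul_one]
  -- the representation of `S`
  set ρS : Representation K S V := ρ.comp S.subtype with hρS
  set uS : S := ⟨⁅a, b⁆, huS⟩ with huSdef
  have hu : uS ∈ commutator S := by
    have : uS = ⁅(⟨a, haS⟩ : S), (⟨b, hbS⟩ : S)⁆ := by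
      ext
      rfl
    rw [this]
    exact Subgroup.commutator_mem_commutator (Subgroup.mem_top _) (Subgroup.mem_top _)
  have huk : uS ^ (p ^ k) = 1 := Subtype.ext hPk
  have hpermS' : ∀ h : S, ∀ U ∈ 𝓤, U.map (ρS h) ∈ 𝓤 := fun h U hU => hpermS h h.2 U hU
  have hXh' : ∀ h : S, (ρS uS - 1) ^ (2 * p ^ (k - 1) - 1) * ρS h =
      (ρS uS - 1) ^ (2 * p ^ (k - 1) - 1) := fun h => hXh h h.2
  have hpk1 : 0 < p ^ (k - 1) := pow_pos hp.pos _
  have hppk : p ^ k = p ^ (k - 1) * p := by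
    rw [← pow_succ]
    congr 1
    omega
  have hp3 : 3 ≤ p := by
    have := hp.two_le
    omega
  obtain ⟨w0, hw0, hw0'⟩ := (Submodule.ne_bot_iff U).mp (hne U hU)
  have hdisj : ∀ w ∈ U, w ∈ sSup (𝓤 \ {U}) → w = 0 := by
    intro w hw hw'
    have := (hind hU)
    rw [Submodule.disjoint_def] at this
    exact this w hw hw'
  obtain ⟨j, hj1, hj2, hj3⟩ := orbit_len p ρS uS k huk U
  -- `z` fixes `U`
  have hjk : j ≤ k - 1 := by
    by_contra hcon
    have hjk : j = k := by omega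
    subst hjk
    have h1 := dich_comp' ρS 𝓤 hpermS' uS U hU (2 * p ^ (j - 1) - 1)
      (fun i hi1 hi2 => hj3 i hi1 (by
        have : p ^ (j - 1) * 3 ≤ p ^ (j - 1) * p := Nat.mul_le_mul_left _ hp3
        omega)) w0 hw0
    have h2 : ((ρS uS - 1) ^ (2 * p ^ (j - 1) - 1)) w0 ∉ sSup (𝓤 \ {U}) := by
      intro h3
      have h4 := Submodule.sub_mem _ h3 h1
      rw [sub_sub_cancel] at h4
      have h5 := hdisj _ (U.smul_mem _ hw0) h4
      rcases smul_eq_zero.mp h5 with h6 | h6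
      · exact absurd h6 (pow_ne_zero _ (neg_ne_zero.mpr one_ne_zero))
      · exact hw0' h6
    have hadj : (ρS uS - 1) ^ (2 * p ^ (j - 1) - 1) ∈ Algebra.adjoin K {ρS uS} :=
      Subalgebra.pow_mem _ (Subalgebra.sub_mem _ (Algebra.subset_adjoin (Set.mem_singleton _))
        (Subalgebra.one_mem _)) _
    have h3 := dich p hS ρS 𝓤 hind hpermS' uS hu ((ρS uS - 1) ^ (2 * p ^ (j - 1) - 1)) hadj
      hXh' U hU w0 hw0 h2 uS
    have h4 : 0 < 1 := Nat.one_pos
    refine hj3 1 h4 ?_ ?_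
    · calc 1 < p := hp.one_lt
        _ ≤ p ^ j := Nat.le_self_pow (by omega) p
    · rw [pow_one]
      exact h3
  -- quadratic action of `z`
  have hXu : X * (ρ ⁅a, b⁆ - 1) = 0 := by
    rw [mul_sub, mul_one, hXh _ huS, sub_self]
  have hz2 : (ρ (⁅a, b⁆ ^ (p ^ (k - 1))) - 1) ^ 2 = 0 := by
    have : Nontrivial V := ⟨⟨w0, 0, hw0'⟩⟩
    have : CharP (Module.End K V) p := charP_end (K := K) p
    rw [map_pow]
    exact ring_quad p _ _ hXu
  set F := stF ρ S U with hF
  have hFS : F ≤ S := stF_le ρ S U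
  have hFU : ∀ f ∈ F, ∀ v ∈ U, ρ f v ∈ U := fun f hf v hv => stF_apply hf v hv
  have hFp : IsPGroup p F := hS.to_le hFS
  have hUne := hne U hU
  obtain ⟨W, _, _, _, _, π, β, ρA, ρF, Sy, hρA, hρF, hsm⟩ := block_sys p q ρ Q F U hUne hFp
    (hQU U hU) hFU (fun s hs => hSQ s (hFS hs)) hQ2 hQq (hsc U hU)
  have : Nontrivial U := (Submodule.nontrivial_iff_ne_bot).mpr hUne
  -- the conclusion from trivial action on `W`
  have hfin : ∀ f : F, (f : Γ) = ⁅a, b⁆ ^ (p ^ (k - 1)) → (∀ w : W, f • w = w) →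
      ∀ v ∈ U, ρ ⁅⁅a, b⁆ ^ (p ^ (k - 1)), g⁆ v = v := by
    intro f hf hfw v hv
    rw [← hf]
    refine comm_triv ρ U _ g ?_ ?_ ?_ v hv
    · intro v hv
      exact hFU _ (F.inv_mem f.2) v hv
    · intro v hv
      exact hQU U hU _ (Q.inv_mem hg) v hv
    · intro v hv
      have h7 := Sy.cop f ⟨g, hg⟩ (hfw _)
      have h8 := congrArg (fun T : Module.End K U => ((T ⟨v, hv⟩ : U) : V)) h7
      simp only [Module.End.mul_apply, hρA, hρF] at h8
      exact h8
  have huF : ⁅a, b⁆ ^ (p ^ j) ∈ F := ⟨S.pow_mem huS _, hj2⟩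
  rcases Nat.lt_or_ge j (k - 1) with hjlt | hjge
  · -- the case `j < k - 1`
    have e1 : p ^ (k - 1) = p ^ j * p ^ (k - 1 - j) := by
      rw [← pow_add]
      congr 1
      omega
    have e2 : (((⟨⁅a, b⁆ ^ (p ^ j), huF⟩ : F) ^ (p ^ (k - 1 - j)) : F) : Γ) =
        ⁅a, b⁆ ^ (p ^ (k - 1)) := by
      rw [Subgroup.coe_pow, ← pow_mul, ← e1]
    refine hfin ((⟨⁅a, b⁆ ^ (p ^ j), huF⟩ : F) ^ (p ^ (k - 1 - j))) e2 ?_
    refine quad0 Sy hp2 hq hpq ⟨⁅a, b⁆ ^ (p ^ j), huF⟩ (k - 1 - j) (by omega) ?_ ?_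
    · ext
      rw [Subgroup.coe_pow, e2, Subgroup.coe_one, ← pow_mul, ← hppk]
      exact hPk
    · ext v
      have h1 := LinearMap.congr_fun hz2 (v : V)
      rw [pow_two, Module.End.mul_apply] at h1
      rw [pow_two, Module.End.mul_apply]
      simp only [LinearMap.sub_apply, Module.End.one_apply, Submodule.coe_sub, hρF, e2,
        LinearMap.zero_apply, ZeroMemClass.coe_zero] at h1 ⊢
      exact h1
  · have hjeq : j = k - 1 := le_antisymm hjk hjge
    by_cases hz : ∀ w ∈ U, (ρ (⁅a, b⁆ ^ (p ^ (k - 1))) - 1) w = 0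
    · intro v hv
      have hz' : ∀ w ∈ U, ρ (⁅a, b⁆ ^ (p ^ (k - 1))) w = w := by
        intro w hw
        have := hz w hw
        rwa [LinearMap.sub_apply, Module.End.one_apply, sub_eq_zero] at this
      refine comm_triv ρ U _ g ?_ ?_ ?_ v hv
      · intro v hv
        have h1 := hFU _ (F.inv_mem huF) v hv
        rwa [hjeq] at h1
      · intro v hv
        exact hQU U hU _ (Q.inv_mem hg) v hv
      · intro v hv
        rw [hz' v hv, hz' _ (hQU U hU g hg v hv)]
    · push Not at hz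
      obtain ⟨w, hw, hw2⟩ := hz
      have hfix : ∀ h : S, U.map (ρS h) = U := by
        subst hjeq
        exact dich_quad p hS ρS 𝓤 hind hpermS' uS hu k hk hXh' U hU hj2 hj3 w hw hw2
      have hj0 : j = 0 := by
        by_contra hcon
        refine hj3 1 Nat.one_pos ?_ ?_
        · calc 1 < p := hp.one_lt
            _ ≤ p ^ j := Nat.le_self_pow hcon p
        · rw [pow_one]
          exact hfix uS
      have hk1 : k = 1 := by omega
      subst hk1
      have hSF : ∀ s ∈ S, s ∈ F := fun s hs => ⟨hs, hfix ⟨s, hs⟩⟩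
      set uF : F := ⟨⁅a, b⁆, hSF _ huS⟩ with huFdef
      have huF' : uF ∈ commutator F := by
        have : uF = ⁅(⟨a, hSF _ haS⟩ : F), (⟨b, hSF _ hbS⟩ : F)⁆ := by
          ext
          rfl
        rw [this]
        exact Subgroup.commutator_mem_commutator (Subgroup.mem_top _) (Subgroup.mem_top _)
      refine hfin uF (by simp [huFdef]) ?_
      refine quad1 Sy hp2 hq hpq ?_ uF huF' ?_
      · -- simplicity
        intro Y hY
        let BQ : Subgroup Q :=
          { carrier := {g | π g ∈ Y}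
            mul_mem' := by
              intro x y hx hy
              change π (x * y) ∈ Y
              rw [Sy.heis.add]
              exact Y.add_mem hx hy
            one_mem' := by
              change π 1 ∈ Y
              rw [Sy.heis.map_one]
              exact Y.zero_mem
            inv_mem' := by
              intro x hx
              change π x⁻¹ ∈ Y
              rw [Sy.heis.map_inv]
              exact Y.neg_mem hx }
        have hBQ : ∀ x : Q, x ∈ BQ ↔ π x ∈ Y := fun x => Iff.rfl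
        by_cases hB : BQ.map Q.subtype = Q
        · right
          rw [eq_top_iff]
          intro y _
          obtain ⟨x, rfl⟩ := Sy.heis.surj y
          have hx : (x : Γ) ∈ BQ.map Q.subtype := by rw [hB]; exact x.2
          obtain ⟨x', hx', hx''⟩ := hx
          have : x' = x := Subtype.ext hx''
          rw [← this]
          exact hx'
        · left
          rw [eq_bot_iff]
          intro y hy
          obtain ⟨x, rfl⟩ := Sy.heis.surj y
          have hcen := hmin (BQ.map Q.subtype) (Subgroup.map_subtype_le _) hB ?_ ?_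
          · have hxB : (x : Γ) ∈ BQ.map Q.subtype := ⟨x, hy, rfl⟩
            obtain ⟨c, hc⟩ := hsc U hU x x.2 (by
              intro h hh v hv
              have h1 : ⁅h, (x : Γ)⁆ = 1 := by
                rw [commutatorElement_eq_one_iff_mul_comm]
                exact (hcen x hxB h hh).symm
              rw [h1, map_one]
              rfl)
            have h2 := SubSys.scalar Sy.heis (Sy.heis.top) x (AddSubgroup.mem_top _) c (by
              intro v _
              apply Subtype.ext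
              rw [hρA]
              exact hc v v.2)
            rw [h2]
            exact AddSubgroup.zero_mem _
          · rintro s hs _ ⟨x', hx', rfl⟩
            have h3 := hsm ⟨s, hSF s hs⟩ x'
            refine ⟨(⟨s, hSF s hs⟩ : F) • x', ?_, h3⟩
            change π _ ∈ Y
            rw [Sy.hπ]
            exact hY _ _ hx'
          · rintro s hs _ ⟨x', hx', rfl⟩
            refine ⟨(⟨s, hs⟩ : Q) * x' * (⟨s, hs⟩ : Q)⁻¹, ?_, rfl⟩
            change π _ ∈ Y
            rw [Sy.heis.add, Sy.heis.add, Sy.heis.map_inv, add_neg_eq_iff_eq_add.mpr (add_comm _ _)]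
            exact hx'
      · intro f
        ext v
        have h1 := LinearMap.congr_fun (hXh f (hFS f.2)) (v : V)
        rw [hXdef] at h1
        simp only [Nat.sub_self, pow_zero, mul_one, Nat.add_one_sub_one, pow_one,
          Module.End.mul_apply, LinearMap.sub_apply, Module.End.one_apply] at h1
        simp only [Module.End.mul_apply, LinearMap.sub_apply, Module.End.one_apply,
          Submodule.coe_sub, hρF]
        exact h1

end H60SH
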