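import Mathlib

namespace H60SH

open scoped commutatorElement
open scoped TensorProduct

universe u

/-- **SEC**, in the case of an abstract module over `ZMod p` on which `G` acts. -/
theorem sec_aux {G : Type u} [Group G] (p : ℕ) [Fact p.Prime] (P : Subgroup G) [P.Normal]
    (K : Type) [Field K] [CharP K p] (M : Type u) [AddCommGroup M] [Finite M]
    (hM : ∀ m : M, p • m = 0) (c : G → M →+ M) (hone : ∀ m, c 1 m = m)
    (hmul : ∀ g h m, c (g * h) m = c g (c h m)) (hP : ∀ x ∈ P, ∀ m, c x m = m) :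
    ∃ (V : Type u) (_ : AddCommGroup V) (_ : Module K V) (_ : FiniteDimensional K V)
      (ρ : Representation K (G ⧸ P) V) (ι : M →+ V),
      Function.Injective ι ∧ (∀ (g : G) (m : M), ι (c g m) = ρ (g : G ⧸ P) (ι m)) ∧
      Submodule.span K (Set.range ι) = ⊤ := by
  classical
  let _ : Module (ZMod p) M := AddCommGroup.zmodModule (n := p) hM
  let _ : Algebra (ZMod p) K := ZMod.algebra K p
  have _ : Module.Finite (ZMod p) M := Module.Finite.of_finite
  let T : G → Module.End K (K ⊗[ZMod p] M) := fun g =>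
    ((c g).toZModLinearMap p).baseChange K
  have hT : ∀ g k m, T g (k ⊗ₜ[ZMod p] m) = k ⊗ₜ[ZMod p] (c g m) := fun g k m => rfl
  have hext : ∀ S S' : Module.End K (K ⊗[ZMod p] M),
      (∀ (k : K) (m : M), S (k ⊗ₜ[ZMod p] m) = S' (k ⊗ₜ[ZMod p] m)) → S = S' := by
    intro S S' h
    apply LinearMap.ext
    intro x
    induction x using TensorProduct.induction_on with
    | zero => rw [map_zero, map_zero]
    | tmul k m => exact h k m
    | add x y hx hy => rw [map_add, map_add, hx, hy]
  let ρ0 : G →* Module.End K (K ⊗[ZMod p] M) :=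
    { toFun := T
      map_one' := by
        apply hext
        intro k m
        rw [hT, hone]
        rfl
      map_mul' := by
        intro g h
        apply hext
        intro k m
        rw [Module.End.mul_apply, hT, hT, hT, hmul] }
  have hker : P ≤ ρ0.ker := by
    intro x hx
    rw [MonoidHom.mem_ker]
    apply hext
    intro k m
    change T x (k ⊗ₜ[ZMod p] m) = k ⊗ₜ[ZMod p] m
    rw [hT, hP x hx]
  let ι : M →+ K ⊗[ZMod p] M := (TensorProduct.mk (ZMod p) K M 1).toAddMonoidHom
  refine ⟨K ⊗[ZMod p] M, inferInstance, inferInstance, inferInstance,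
    QuotientGroup.lift P ρ0 hker, ι, ?_, ?_, ?_⟩
  · exact Module.Flat.tensorProduct_mk_injective (R := ZMod p) (S := K) (M := M)
  · intro g m
    change (1 : K) ⊗ₜ[ZMod p] (c g m) = T g ((1 : K) ⊗ₜ[ZMod p] m)
    rw [hT]
  · rw [eq_top_iff]
    intro x _
    induction x using TensorProduct.induction_on with
    | zero => exact Submodule.zero_mem _
    | tmul k m =>
      have : k ⊗ₜ[ZMod p] m = k • ((1 : K) ⊗ₜ[ZMod p] m) := by
        rw [TensorProduct.smul_tmul']
        simp
      rw [this]
      exact Submodule.smul_mem _ _ (Submodule.subset_span ⟨m, rfl⟩)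
    | add x y hx hy => exact Submodule.add_mem _ (hx trivial) (hy trivial)

/-- **SEC**: the representation of `G ⧸ P` on `K ⊗ (A / B)` for a central elementary abelian
`p`-section `A / B`. -/
theorem section_rep {G : Type u} [Group G] [Finite G] (p : ℕ) [Fact p.Prime]
    (P A B : Subgroup G) [P.Normal] (hA : A.Normal) (hB : B.Normal) (hBA : B ≤ A) (hAP : A ≤ P)
    (hPA : ∀ x ∈ P, ∀ y ∈ A, ⁅x, y⁆ ∈ B) (hAp : ∀ y ∈ A, y ^ p ∈ B)
    (K : Type) [Field K] [CharP K p] :
    ∃ (V : Type u) (_ : AddCommGroup V) (_ : Module K V) (_ : FiniteDimensional K V)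
      (ρ : Representation K (G ⧸ P) V) (φ : G → V),
      (∀ x ∈ A, ∀ y ∈ A, φ (x * y) = φ x + φ y) ∧
      (∀ g : G, ∀ x ∈ A, φ (g * x * g⁻¹) = ρ (g : G ⧸ P) (φ x)) ∧
      (∀ x ∈ A, φ x = 0 ↔ x ∈ B) ∧ Submodule.span K (φ '' (A : Set G)) = ⊤ := by
  classical
  have _ := hA
  have _ := hB
  let π : G →* G ⧸ B := QuotientGroup.mk' B
  let A' : Subgroup (G ⧸ B) := A.map π
  have hA' : A'.Normal := Subgroup.Normal.map hA _ (QuotientGroup.mk'_surjective B)
  -- elements of `P` act trivially on `A'`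
  have hcen : ∀ x ∈ P, ∀ y : A', (π x) * (y : G ⧸ B) * (π x)⁻¹ = y := by
    rintro x hx ⟨_, y, hy, rfl⟩
    rw [← map_inv, ← map_mul, ← map_mul, eq_comm]
    rw [QuotientGroup.mk'_eq_mk']
    have h := hPA x hx y hy
    have h2 : y⁻¹ * ⁅x, y⁆ * y⁻¹⁻¹ ∈ B := hB.conj_mem _ h y⁻¹
    refine ⟨_, h2, ?_⟩
    rw [commutatorElement_def]
    group
  have hcomm : ∀ a b : A', a * b = b * a := by
    rintro ⟨_, x, hx, rfl⟩ b
    have h := hcen x (hAP hx) b
    apply Subtype.ext
    change (π x) * (b : G ⧸ B) = (b : G ⧸ B) * (π x)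
    rw [mul_inv_eq_iff_eq_mul] at h
    exact h
  let _ : CommGroup A' := { (inferInstance : Group A') with mul_comm := hcomm }
  have hM : ∀ m : Additive A', p • m = 0 := by
    intro m
    have : (Additive.toMul m) ^ p = 1 := by
      obtain ⟨_, x, hx, hxe⟩ := Additive.toMul m
      subst hxe
      apply Subtype.ext
      change (π x) ^ p = 1
      rw [← map_pow]
      exact (QuotientGroup.eq_one_iff _).2 (hAp x hx)
    exact this
  let c : G → Additive A' →+ Additive A' := fun g =>
    AddMonoidHom.mk' (fun m => Additive.ofMul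
      (⟨π g * (Additive.toMul m : A') * (π g)⁻¹,
        hA'.conj_mem _ (Additive.toMul m).2 _⟩ : A')) (by
      intro a b
      apply Additive.toMul.injective
      apply Subtype.ext
      change π g * (((Additive.toMul a : A') : G ⧸ B) * ((Additive.toMul b : A') : G ⧸ B)) *
        (π g)⁻¹ = (π g * (Additive.toMul a : A') * (π g)⁻¹) *
          (π g * (Additive.toMul b : A') * (π g)⁻¹)
      group)
  have hc : ∀ g (m : Additive A'), ((Additive.toMul (c g m) : A') : G ⧸ B) =
      π g * (Additive.toMul m : A') * (π g)⁻¹ := fun g m => rfl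
  have hext : ∀ m m' : Additive A', ((Additive.toMul m : A') : G ⧸ B) =
      ((Additive.toMul m' : A') : G ⧸ B) → m = m' := by
    intro m m' h
    apply Additive.toMul.injective
    exact Subtype.ext h
  obtain ⟨V, iV1, iV2, iV3, ρ, ι, h1, h2, h3⟩ := sec_aux p P K (Additive A') hM c
    (by
      intro m
      apply hext
      rw [hc]
      simp)
    (by
      intro g h m
      apply hext
      rw [hc, hc, hc, map_mul]
      group)
    (by
      intro x hx m
      apply hext
      rw [hc]
      exact hcen x hx _)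
  let f : A → Additive A' := fun x => Additive.ofMul ⟨π x, ⟨x, x.2, rfl⟩⟩
  let φ : G → V := fun x => if h : x ∈ A then ι (f ⟨x, h⟩) else 0
  have hφ : ∀ x (h : x ∈ A), φ x = ι (f ⟨x, h⟩) := fun x h => dif_pos h
  refine ⟨V, iV1, iV2, iV3, ρ, φ, ?_, ?_, ?_, ?_⟩
  · intro x hx y hy
    rw [hφ x hx, hφ y hy, hφ _ (A.mul_mem hx hy), ← map_add]
    exact congrArg ι (hext _ _ rfl)
  · intro g x hx
    rw [hφ x hx, hφ _ (hA.conj_mem x hx g), ← h2]
    exact congrArg ι (hext _ _ rfl)
  · intro x hx
    rw [hφ x hx, ← map_zero ι, h1.eq_iff]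
    constructor
    · intro h
      have h' : π x = 1 := congrArg (fun m : Additive A' => ((Additive.toMul m : A') : G ⧸ B)) h
      exact (QuotientGroup.eq_one_iff _).1 h'
    · intro h
      apply hext
      exact (QuotientGroup.eq_one_iff _).2 h
  · rw [← h3]
    congr 1
    ext v
    constructor
    · rintro ⟨x, hx, rfl⟩
      exact ⟨f ⟨x, hx⟩, (hφ x hx).symm⟩
    · rintro ⟨m, rfl⟩
      obtain ⟨x, hx, hxe⟩ := (Additive.toMul m).2
      refine ⟨x, hx, ?_⟩
      rw [hφ x hx]
      congr 1
      apply hext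
      exact hxe

end H60SH
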