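import Mathlib
import Pool.Agent.H60.SH.Defs
import Pool.Agent.H60.SH.R0
import Pool.Agent.H60.SH.R1
import Pool.Agent.H60.SH.FITT
import Pool.Agent.H60.SH.MINQ
import Pool.Agent.H60.SH.CHAIN
import Pool.Agent.H60.SH.QUOT
import Pool.Agent.H60.SH.SEC
import Pool.Agent.H60.SH.LIFT

namespace H60SH

open Module
open scoped commutatorElement

universe u

theorem comap_pgroup {G : Type u} [Group G] (p : ℕ) (P : Subgroup G) [P.Normal]
    (hP : IsPGroup p P) (H : Subgroup (G ⧸ P)) (hH : IsPGroup p H) :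
    IsPGroup p (H.comap (QuotientGroup.mk' P)) := by
  refine hH.comap_of_ker_isPGroup _ ?_
  rw [QuotientGroup.ker_mk']
  exact hP

/-- Common core of `L0` and `L1`. -/
theorem lev_core {G : Type u} [Group G] [Finite G] [Group.IsSolvable G] (p : ℕ) [Fact p.Prime]
    (hO : ∀ N : Subgroup G, N.Normal → (Nat.card N).Coprime p → N = ⊥)
    (P : Subgroup G) [P.Normal] (hP : IsPGroup p P)
    (hPmax : ∀ N : Subgroup G, N.Normal → IsPGroup p N → N ≤ P)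
    (H : Subgroup (G ⧸ P)) (hH : IsPGroup p H) (d : G ⧸ P) (hdH : d ∈ H)
    (main : ∀ q : ℕ, q.Prime → p ≠ q → ∀ Q : Subgroup (G ⧸ P), IsPGroup q Q →
      (∀ s ∈ H, ∀ g ∈ Q, s * g * s⁻¹ ∈ Q) →
      (∀ B : Subgroup (G ⧸ P), B ≤ Q → B ≠ Q → (∀ s ∈ H, ∀ g ∈ B, s * g * s⁻¹ ∈ B) →
        (∀ s ∈ Q, ∀ g ∈ B, s * g * s⁻¹ ∈ B) → ∀ b ∈ B, ∀ g ∈ Q, b * g = g * b) →
      (∀ g ∈ Q, ∀ h ∈ Q, ∀ k ∈ Q, ⁅g, h⁆ * k = k * ⁅g, h⁆) →
      (∀ g ∈ Q, ∀ h ∈ Q, g ^ q * h = h * g ^ q) →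
      ∀ A : Subgroup G, A.Normal → A ≤ P →
      ∀ (V : Type u) [AddCommGroup V] [Module (AlgebraicClosure (ZMod p)) V]
        [FiniteDimensional (AlgebraicClosure (ZMod p)) V]
        (ρ : Representation (AlgebraicClosure (ZMod p)) (G ⧸ P) V) (φ : G → V),
      (∀ x ∈ A, ∀ y ∈ A, φ (x * y) = φ x + φ y) →
      (∀ g : G, ∀ x ∈ A, φ (g * x * g⁻¹) = ρ (g : G ⧸ P) (φ x)) →
      Submodule.span (AlgebraicClosure (ZMod p)) (φ '' (A : Set G)) = ⊤ →
      ∀ g ∈ Q, ρ ⁅d, g⁆ = 1) : d = 1 := by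
  by_contra hd1
  have hp : p.Prime := Fact.out
  have hOΓ : ∀ N : Subgroup (G ⧸ P), N.Normal → IsPGroup p N → N = ⊥ := by
    intro N hN hNp
    have h1 := hPmax (N.comap (QuotientGroup.mk' P)) (hN.comap _) (comap_pgroup p P hP N hNp)
    rw [eq_bot_iff]
    intro x hx
    obtain ⟨g, rfl⟩ := QuotientGroup.mk'_surjective P x
    have h2 : g ∈ P := h1 hx
    rw [Subgroup.mem_bot]
    exact (QuotientGroup.eq_one_iff g).mpr h2
  obtain ⟨m, hm⟩ := hH ⟨d, hdH⟩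
  have hdm : d ^ (p ^ m) = 1 := congrArg Subtype.val hm
  obtain ⟨q, hq, hqp, N, hNn, hNq, hdN⟩ := fit_q p hp hOΓ d ⟨m, hdm⟩ hd1
  obtain ⟨Q, hQN, hSQ, hdQ, hmin, hQ2, hQq⟩ := min_q p q hp hq (Ne.symm hqp) H N hH hNq
    (fun s _ g hg => hNn.conj_mem g hg s) d hdH hdN
  obtain ⟨M, s, hs0, hsM, hsn, hsd, hsP, hsp⟩ := chain p P inferInstance hP
  have hsle : ∀ i, s i ≤ P := by
    intro i
    induction i with
    | zero => rw [hs0]
    | succ i ih => exact (hsd i).trans ih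
  have hcent : ∀ g : G, (∀ x ∈ P, g * x = x * g) → g ∈ P :=
    fun g hg => fit_cent p hp hO P hPmax g hg
  obtain ⟨g, hgQ, hg⟩ := hdQ
  apply hg
  have h1 : ⁅d, g⁆ = 1 := by
    obtain ⟨t, ht⟩ := QuotientGroup.mk'_surjective P ⁅d, g⁆
    have htP : t ∈ P := by
      refine stab_chain p P inferInstance hP hPmax hcent M s hs0 hsM hsn hsd t ?_
      intro i y hy
      obtain ⟨V, _, _, _, ρ, φ, hφ1, hφ2, hφ3, hφ4⟩ := section_rep p P (s i) (s (i + 1)) (hsn i)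
        (hsn (i + 1)) (hsd i) (hsle i) (hsP i) (hsp i) (AlgebraicClosure (ZMod p))
      have h2 := main q hq (Ne.symm hqp) Q (hNq.to_le hQN) hSQ hmin hQ2 hQq (s i) (hsn i) (hsle i)
        V ρ φ hφ1 hφ2 hφ4 g hgQ
      have h3 := hφ2 t y hy
      have h4 : ((t : G) : G ⧸ P) = ⁅d, g⁆ := ht
      rw [h4, h2, Module.End.one_apply] at h3
      have h5 : t * y * t⁻¹ ∈ s i := (hsn i).conj_mem y hy t
      have h6 : ⁅t, y⁆ ∈ s i := by
        rw [commutatorElement_def]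
        exact (s i).mul_mem h5 ((s i).inv_mem hy)
      have h7 := hφ1 ⁅t, y⁆ h6 y hy
      have h8 : ⁅t, y⁆ * y = t * y * t⁻¹ := by
        rw [commutatorElement_def, inv_mul_cancel_right]
      rw [h8, h3] at h7
      have h9 : φ ⁅t, y⁆ = 0 := by
        have := h7
        rw [eq_comm, add_eq_right] at this
        exact this
      exact (hφ3 _ h6).mp h9
    rw [← ht]
    exact (QuotientGroup.eq_one_iff t).mpr htP
  exact commutatorElement_eq_one_iff_mul_comm.mp h1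

/-- **L0** -/
theorem L0 {G : Type u} [Group G] [Finite G] [Group.IsSolvable G] (p : ℕ) [Fact p.Prime]
    (hp2 : p ≠ 2)
    (hO : ∀ N : Subgroup G, N.Normal → (Nat.card N).Coprime p → N = ⊥)
    (P : Subgroup G) [P.Normal] (hP : IsPGroup p P)
    (hPmax : ∀ N : Subgroup G, N.Normal → IsPGroup p N → N ≤ P)
    (k : ℕ) (hk : 1 ≤ k) (h : Pk p k G) : Ck p k (G ⧸ P) := by
  intro H hH a ha b hb c hc d hd
  have hcomm : ∀ a ∈ H, ∀ b ∈ H, ⁅a, b⁆ ∈ H := by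
    intro a ha b hb
    rw [commutatorElement_def]
    exact H.mul_mem (H.mul_mem (H.mul_mem ha hb) (H.inv_mem ha)) (H.inv_mem hb)
  have hPkΓ : Pk p k (G ⧸ P) := Pk.quot (QuotientGroup.mk' P) (QuotientGroup.mk'_surjective P) p k h
  rw [← commutatorElement_eq_one_iff_commute]
  refine lev_core p hO P hP hPmax H hH _ ?_ ?_
  · exact hcomm _ (H.pow_mem (hcomm a ha b hb) _) _ (H.pow_mem (hcomm c hc d hd) _)
  · intro q hq hpq Q hQ hSQ hmin hQ2 hQq A hA hAP V _ _ _ ρ φ hφ1 hφ2 hφ4 g hg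
    refine R0 p q hp2 hq hpq ρ H Q hH hQ hSQ hQ2 hQq k hk (hPkΓ H hH) ?_ a b c d ha hb hc hd g hg
    intro a ha b hb
    obtain ⟨a', rfl⟩ := QuotientGroup.mk'_surjective P a
    obtain ⟨b', rfl⟩ := QuotientGroup.mk'_surjective P b
    have hHp := comap_pgroup p P hP H hH
    have hPH : ∀ x ∈ P, x ∈ H.comap (QuotientGroup.mk' P) := by
      intro x hx
      rw [Subgroup.mem_comap]
      have : QuotientGroup.mk' P x = 1 := (QuotientGroup.eq_one_iff x).mpr hx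
      rw [this]
      exact H.one_mem
    exact lift1 p k P A hA ρ φ hφ1 hφ2 hφ4 a' b'
      (fun x hx => h _ hHp _ (Subgroup.mul_mem _ (hPH x (hAP hx)) ha) _ hb)
      (fun x hx => h _ hHp _ ha _ (Subgroup.mul_mem _ (hPH x (hAP hx)) hb))

/-- **L1** -/
theorem L1 {G : Type u} [Group G] [Finite G] [Group.IsSolvable G] (p : ℕ) [Fact p.Prime]
    (hp2 : p ≠ 2)
    (hO : ∀ N : Subgroup G, N.Normal → (Nat.card N).Coprime p → N = ⊥)
    (P : Subgroup G) [P.Normal] (hP : IsPGroup p P)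
    (hPmax : ∀ N : Subgroup G, N.Normal → IsPGroup p N → N ≤ P)
    (k : ℕ) (hk : 1 ≤ k) (h : Pk p k G) (h' : Ck p k G) : Pk p (k - 1) (G ⧸ P) := by
  intro H hH a ha b hb
  have hPkΓ : Pk p k (G ⧸ P) := Pk.quot (QuotientGroup.mk' P) (QuotientGroup.mk'_surjective P) p k h
  have hle : Subgroup.closure {a, b} ≤ H := by
    rw [Subgroup.closure_le]
    rintro x (rfl | rfl)
    · exact ha
    · exact hb
  have hHc : IsPGroup p (Subgroup.closure {a, b} : Subgroup (G ⧸ P)) := hH.to_le hle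
  have haC : a ∈ Subgroup.closure {a, b} := Subgroup.subset_closure (by simp)
  have hbC : b ∈ Subgroup.closure {a, b} := Subgroup.subset_closure (by simp)
  refine lev_core p hO P hP hPmax (Subgroup.closure {a, b}) hHc _ ?_ ?_
  · refine Subgroup.pow_mem _ ?_ _
    rw [commutatorElement_def]
    exact Subgroup.mul_mem _ (Subgroup.mul_mem _ (Subgroup.mul_mem _ haC hbC)
      (Subgroup.inv_mem _ haC)) (Subgroup.inv_mem _ hbC)
  · intro q hq hpq Q hQ hSQ hmin hQ2 hQq A hA hAP V _ _ _ ρ φ hφ1 hφ2 hφ4 g hg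
    have hXX : (ρ ⁅a, b⁆ - 1) ^ (2 * p ^ (k - 1) - 1) * ρ a = (ρ ⁅a, b⁆ - 1) ^ (2 * p ^ (k - 1) - 1) ∧
        (ρ ⁅a, b⁆ - 1) ^ (2 * p ^ (k - 1) - 1) * ρ b =
          (ρ ⁅a, b⁆ - 1) ^ (2 * p ^ (k - 1) - 1) := by
      clear hle hHc haC hbC hSQ hmin
      obtain ⟨a', rfl⟩ := QuotientGroup.mk'_surjective P a
      obtain ⟨b', rfl⟩ := QuotientGroup.mk'_surjective P b
      have hHp := comap_pgroup p P hP H hH
      have hPH : ∀ x ∈ P, x ∈ H.comap (QuotientGroup.mk' P) := by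
        intro x hx
        rw [Subgroup.mem_comap]
        have : QuotientGroup.mk' P x = 1 := (QuotientGroup.eq_one_iff x).mpr hx
        rw [this]
        exact H.one_mem
      exact lift2 p k hk P A hA ρ φ hφ1 hφ2 hφ4 a' b'
        (fun x hx => h' _ hHp _ (Subgroup.mul_mem _ (hPH x (hAP hx)) ha) _ hb _ ha _ hb)
        (fun x hx => h' _ hHp _ ha _ (Subgroup.mul_mem _ (hPH x (hAP hx)) hb) _ ha _ hb)
    exact R1 p q hp2 hq hpq ρ a b hHc Q hQ hSQ hmin hQ2 hQq k hk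
      (hPkΓ H hH a ha b hb) hXX.1 hXX.2 g hg

end H60SH
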