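import Mathlib
import Pool.Agent.H60.SH.Defs
import Pool.Agent.H60.SH.FITT
import Pool.Agent.H60.SH.QUOT
import Pool.Agent.H60.SH.LEV

namespace H60SH

universe u

open scoped commutatorElement

/-- the maximal normal subgroup of order prime to `p` -/
theorem plm_core' (p : ℕ) (G : Type u) [Group G] [Finite G] :
    ∃ N : Subgroup G, ∃ _ : N.Normal, (Nat.card N).Coprime p ∧
      ∀ M : Subgroup (G ⧸ N), M.Normal → (Nat.card M).Coprime p → M = ⊥ := by
  classical
  let s : Set (Subgroup G) := {N | N.Normal ∧ (Nat.card N).Coprime p}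
  have hs : s.Nonempty := ⟨⊥, by
    refine ⟨inferInstance, ?_⟩
    rw [Subgroup.card_bot]
    exact Nat.coprime_one_left p⟩
  obtain ⟨N, hN, hmax⟩ := Set.exists_max_image s (fun N => Nat.card N) (Set.toFinite s) hs
  refine ⟨N, hN.1, hN.2, ?_⟩
  have hNn := hN.1
  intro M hM hMc
  let f := QuotientGroup.mk' N
  have hf : Function.Surjective f := QuotientGroup.mk'_surjective N
  have hcard : Nat.card (M.comap f) = Nat.card N * Nat.card M := by
    have h1 := (M.comap f).card_mul_index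
    have h2 := N.card_mul_index
    have h3 := M.card_mul_index
    rw [Subgroup.index_comap_of_surjective M hf] at h1
    have h4 : N.index = Nat.card (G ⧸ N) := rfl
    rw [h4, ← h3] at h2
    have h5 : M.index ≠ 0 := Subgroup.FiniteIndex.index_ne_zero
    have h6 : Nat.card (M.comap f) * M.index = (Nat.card N * Nat.card M) * M.index := by
      rw [h1, ← h2, mul_assoc]
    exact Nat.eq_of_mul_eq_mul_right (Nat.pos_of_ne_zero h5) h6
  have hmem : M.comap f ∈ s := by
    refine ⟨hM.comap f, ?_⟩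
    rw [hcard]
    exact Nat.Coprime.mul_left hN.2 hMc
  have h7 := hmax _ hmem
  rw [hcard] at h7
  have h8 : Nat.card M ≤ 1 := by
    by_contra hc
    push Not at hc
    have h9 : 0 < Nat.card N := Nat.card_pos
    have h10 : Nat.card N * 1 < Nat.card N * Nat.card M := Nat.mul_lt_mul_of_pos_left hc h9
    omega
  exact Subgroup.eq_bot_of_card_le M h8

/-- the maximal normal `p`-subgroup -/
theorem plm_core (p : ℕ) [Fact p.Prime] (G : Type u) [Group G] [Finite G] :
    ∃ P : Subgroup G, ∃ _ : P.Normal, IsPGroup p P ∧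
      ∀ N : Subgroup G, N.Normal → IsPGroup p N → N ≤ P := by
  classical
  let s : Set (Subgroup G) := {N | N.Normal ∧ IsPGroup p N}
  have hs : s.Nonempty := ⟨⊥, inferInstance, IsPGroup.of_bot⟩
  obtain ⟨P, hP, hmax⟩ := Set.exists_max_image s (fun N => Nat.card N) (Set.toFinite s) hs
  refine ⟨P, hP.1, hP.2, ?_⟩
  intro N hN hNp
  have hPn := hP.1
  have hmem : (P ⊔ N) ∈ s := ⟨Subgroup.sup_normal P N, hP.2.to_sup_of_normal_right hNp⟩
  have h1 := hmax _ hmem
  have h2 : P = P ⊔ N := Subgroup.eq_of_le_of_card_ge le_sup_left h1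
  rw [h2]
  exact le_sup_right

/-- **PLM**: bounded `p`-length. -/
theorem pl_main (p : ℕ) [Fact p.Prime] (hp2 : p ≠ 2) (k : ℕ) :
    ∀ (G : Type u) [Group G] [Finite G] [Group.IsSolvable G], Pk p k G → PL p (4 * k + 3) G := by
  have hp : p.Prime := Fact.out
  induction k with
  | zero =>
    intro G _ _ _ h
    obtain ⟨N, hN, hNc, hNq⟩ := plm_core' p G
    refine PL.step 2 G N (Or.inr hNc) ?_
    obtain ⟨P, hP, hPp, hPm⟩ := plm_core p (G ⧸ N)
    refine PL.step 1 (G ⧸ N) P (Or.inl hPp) ?_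
    have h1 : Pk p 0 (G ⧸ N) := Pk.quot (QuotientGroup.mk' N) (QuotientGroup.mk'_surjective N) p 0 h
    -- the Sylow subgroups of `G ⧸ N` are contained in `P`
    have h2 : ∀ S : Sylow p (G ⧸ N), (S : Subgroup (G ⧸ N)) ≤ P := by
      intro S g hg
      have hPS : P ≤ S := by
        obtain ⟨S', hS'⟩ := hPp.exists_le_sylow
        obtain ⟨x, hx⟩ := MulAction.exists_smul_eq (G ⧸ N) S' S
        intro y hy
        have h3 : x⁻¹ * y * x ∈ P := by
          have := hP.conj_mem y hy x⁻¹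
          simpa using this
        have h4 : x⁻¹ * y * x ∈ (S' : Subgroup (G ⧸ N)) := hS' h3
        rw [← hx]
        have h5 : y = x * (x⁻¹ * y * x) * x⁻¹ := by group
        rw [h5]
        exact Subgroup.mem_map_of_mem (MulAut.conj x).toMonoidHom h4
      apply fit_cent p hp hNq P hPm g
      intro x hx
      have h6 := h1 S S.isPGroup' g hg x (hPS hx)
      rw [pow_zero, pow_one, commutatorElement_eq_one_iff_mul_comm] at h6
      exact h6
    have h3 : (Nat.card ((G ⧸ N) ⧸ P)).Coprime p := by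
      obtain ⟨S⟩ : Nonempty (Sylow p (G ⧸ N)) := inferInstance
      have h4 := S.not_dvd_index
      have h5 : P.index ∣ (S : Subgroup (G ⧸ N)).index := Subgroup.index_dvd_of_le (h2 S)
      rw [Nat.coprime_comm, Nat.Prime.coprime_iff_not_dvd hp]
      intro h6
      exact h4 (h6.trans h5)
    refine PL.step 0 ((G ⧸ N) ⧸ P) ⊤ (Or.inr ?_) ?_
    · rw [Subgroup.card_top]; exact h3
    · have : Subsingleton (((G ⧸ N) ⧸ P) ⧸ (⊤ : Subgroup ((G ⧸ N) ⧸ P))) :=
        QuotientGroup.subsingleton_quotient_top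
      exact PL.triv _
  | succ k ih =>
    intro G _ _ _ h
    obtain ⟨N, hN, hNc, hNq⟩ := plm_core' p G
    refine PL.step (4 * k + 6) G N (Or.inr hNc) ?_
    obtain ⟨P, hP, hPp, hPm⟩ := plm_core p (G ⧸ N)
    refine PL.step (4 * k + 5) (G ⧸ N) P (Or.inl hPp) ?_
    have h1 : Pk p (k + 1) (G ⧸ N) :=
      Pk.quot (QuotientGroup.mk' N) (QuotientGroup.mk'_surjective N) p (k + 1) h
    have h2 : Ck p (k + 1) ((G ⧸ N) ⧸ P) := L0 p hp2 hNq P hPp hPm (k + 1) (by omega) h1
    have h3 : Pk p (k + 1) ((G ⧸ N) ⧸ P) :=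
      Pk.quot (QuotientGroup.mk' P) (QuotientGroup.mk'_surjective P) p (k + 1) h1
    obtain ⟨N', hN', hNc', hNq'⟩ := plm_core' p ((G ⧸ N) ⧸ P)
    refine PL.step (4 * k + 4) ((G ⧸ N) ⧸ P) N' (Or.inr hNc') ?_
    have h4 : Ck p (k + 1) (((G ⧸ N) ⧸ P) ⧸ N') :=
      Ck.quot (QuotientGroup.mk' N') (QuotientGroup.mk'_surjective N') p (k + 1) h2
    have h5 : Pk p (k + 1) (((G ⧸ N) ⧸ P) ⧸ N') :=
      Pk.quot (QuotientGroup.mk' N') (QuotientGroup.mk'_surjective N') p (k + 1) h3
    obtain ⟨P', hP', hPp', hPm'⟩ := plm_core p (((G ⧸ N) ⧸ P) ⧸ N')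
    refine PL.step (4 * k + 3) (((G ⧸ N) ⧸ P) ⧸ N') P' (Or.inl hPp') ?_
    apply ih
    exact L1 p hp2 hNq' P' hPp' hPm' (k + 1) (by omega) h5 h4

end H60SH
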