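import Mathlib
import Pool.Agent.H60.SH.Defs

namespace H60SH

open scoped commutatorElement

universe u

/-- `FL h G`: the Fitting height of `G` is at most `h`. -/
def FL (h : ℕ) (G : Type u) [Group G] : Prop :=
  ∃ s : ℕ → Subgroup G, s 0 = ⊥ ∧ s h = ⊤ ∧ (∀ i, s i ≤ s (i + 1)) ∧ (∀ i, (s i).Normal) ∧
    ∀ i, ∀ (_ : ((s i).subgroupOf (s (i + 1))).Normal),
      Group.IsNilpotent (↥(s (i + 1)) ⧸ (s i).subgroupOf (s (i + 1)))

namespace RESA

/-- Relative lower central series. -/
def LL {G : Type*} [Group G] : ℕ → Subgroup G → Subgroup G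
  | 0, H => H
  | n + 1, H => ⁅LL n H, H⁆

theorem LL_zero {G : Type*} [Group G] (H : Subgroup G) : LL 0 H = H := rfl

theorem LL_succ {G : Type*} [Group G] (n : ℕ) (H : Subgroup G) : LL (n + 1) H = ⁅LL n H, H⁆ := rfl

theorem LL_mono {G : Type*} [Group G] (n : ℕ) {H K : Subgroup G} (h : H ≤ K) :
    LL n H ≤ LL n K := by
  induction n with
  | zero => exact h
  | succ n ih => exact Subgroup.commutator_mono ih h

theorem LL_normal {G : Type*} [Group G] (n : ℕ) {H : Subgroup G} (h : H.Normal) :
    (LL n H).Normal := by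
  induction n with
  | zero => exact h
  | succ n ih =>
    rw [LL_succ]
    infer_instance

theorem LL_step {G : Type*} [Group G] (n : ℕ) {H : Subgroup G} (h : H.Normal) :
    LL (n + 1) H ≤ LL n H := by
  have := LL_normal n h
  rw [LL_succ]
  exact Subgroup.commutator_le_left _ _

theorem LL_anti {G : Type*} [Group G] {H : Subgroup G} (h : H.Normal) {m n : ℕ} (hmn : m ≤ n) :
    LL n H ≤ LL m H := by
  induction hmn with
  | refl => exact le_rfl
  | step _ ih => exact (LL_step _ h).trans ih

theorem LL_map {G G' : Type*} [Group G] [Group G'] (f : G →* G') (n : ℕ) (H : Subgroup G) :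
    (LL n H).map f = LL n (H.map f) := by
  induction n with
  | zero => rfl
  | succ n ih => rw [LL_succ, LL_succ, Subgroup.map_commutator, ih]

theorem LL_top {G : Type*} [Group G] (n : ℕ) :
    LL n (⊤ : Subgroup G) = Subgroup.lowerCentralSeries (⊤ : Subgroup G) n := by
  induction n with
  | zero => rfl
  | succ n ih => rw [LL_succ, ih]; rfl

/-- Iterated relative lower central series. -/
def DD {G : Type*} [Group G] (c : ℕ) : ℕ → Subgroup G → Subgroup G
  | 0, H => H
  | n + 1, H => LL c (DD c n H)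

theorem DD_zero {G : Type*} [Group G] (c : ℕ) (H : Subgroup G) : DD c 0 H = H := rfl

theorem DD_succ {G : Type*} [Group G] (c n : ℕ) (H : Subgroup G) :
    DD c (n + 1) H = LL c (DD c n H) := rfl

theorem DD_mono {G : Type*} [Group G] (c n : ℕ) {H K : Subgroup G} (h : H ≤ K) :
    DD c n H ≤ DD c n K := by
  induction n with
  | zero => exact h
  | succ n ih => exact LL_mono c ih

theorem DD_normal {G : Type*} [Group G] (c n : ℕ) {H : Subgroup G} (h : H.Normal) :
    (DD c n H).Normal := by
  induction n with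
  | zero => exact h
  | succ n ih => exact LL_normal c ih

theorem DD_anti {G : Type*} [Group G] {H : Subgroup G} (h : H.Normal) {c d : ℕ} (hcd : c ≤ d)
    (n : ℕ) : DD d n H ≤ DD c n H := by
  induction n with
  | zero => exact le_rfl
  | succ n ih =>
    exact (LL_mono d ih).trans (LL_anti (DD_normal c n h) hcd)

theorem DD_map {G G' : Type*} [Group G] [Group G'] (f : G →* G') (c n : ℕ) (H : Subgroup G) :
    (DD c n H).map f = DD c n (H.map f) := by
  induction n with
  | zero => rfl
  | succ n ih => rw [DD_succ, DD_succ, LL_map, ih]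

theorem DD_add {G : Type*} [Group G] (c m n : ℕ) (H : Subgroup G) :
    DD c (n + m) H = DD c n (DD c m H) := by
  induction n with
  | zero => rw [Nat.zero_add]; rfl
  | succ n ih => rw [Nat.succ_add, DD_succ, DD_succ, ih]

theorem DD_step {G : Type*} [Group G] (c n : ℕ) {H : Subgroup G} (h : H.Normal) :
    DD c (n + 1) H ≤ DD c n H := by
  rw [DD_succ]
  exact (LL_anti (DD_normal c n h) (Nat.zero_le c))

/-- A nilpotent quotient bounds the relative lower central series. -/
theorem exists_le {G : Type*} [Group G] {M H : Subgroup G}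
    (hn : (M.subgroupOf H).Normal) (h : Group.IsNilpotent (↥H ⧸ M.subgroupOf H)) :
    ∃ c, LL c H ≤ M := by
  obtain ⟨n, hn'⟩ := Subgroup.nilpotent_iff_lowerCentralSeries.1 h
  refine ⟨n, ?_⟩
  have h1 : (LL n (⊤ : Subgroup H)).map (QuotientGroup.mk' (M.subgroupOf H)) = ⊥ := by
    rw [LL_map, Subgroup.map_top_of_surjective _ (QuotientGroup.mk'_surjective _), LL_top, hn']
  have h2 : LL n (⊤ : Subgroup H) ≤ M.subgroupOf H := by
    have := (Subgroup.map_eq_bot_iff _).1 h1
    rwa [QuotientGroup.ker_mk'] at this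
  have h3 : (LL n (⊤ : Subgroup H)).map H.subtype = LL n H := by
    rw [LL_map, ← MonoidHom.range_eq_map, Subgroup.range_subtype]
  rw [← h3]
  refine (Subgroup.map_mono h2).trans ?_
  rw [Subgroup.subgroupOf_map_subtype]
  exact inf_le_left

/-- The quotient by a term of the relative lower central series is nilpotent. -/
theorem nilp {G : Type*} [Group G] {H : Subgroup G} (c : ℕ)
    (hn : ((LL c H).subgroupOf H).Normal) :
    Group.IsNilpotent (↥H ⧸ (LL c H).subgroupOf H) := by
  refine Subgroup.nilpotent_iff_lowerCentralSeries.2 ⟨c, ?_⟩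
  rw [← LL_top, ← Subgroup.map_top_of_surjective _
    (QuotientGroup.mk'_surjective ((LL c H).subgroupOf H)), ← LL_map, Subgroup.map_eq_bot_iff,
    QuotientGroup.ker_mk']
  have h3 : (LL c (⊤ : Subgroup H)).map H.subtype = LL c H := by
    rw [LL_map, ← MonoidHom.range_eq_map, Subgroup.range_subtype]
  intro x hx
  rw [Subgroup.mem_subgroupOf, ← h3]
  exact ⟨x, hx, rfl⟩

theorem fl_to {G : Type u} [Group G] {h : ℕ} (hG : FL h G) : ∃ c, DD c h (⊤ : Subgroup G) = ⊥ := by
  obtain ⟨s, h0, hh, hm, hn, hq⟩ := hG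
  have hex : ∀ i, ∃ c, LL c (s (i + 1)) ≤ s i := by
    intro i
    have : ((s i).subgroupOf (s (i + 1))).Normal := by
      have := hn i
      infer_instance
    exact exists_le this (hq i this)
  choose c hc using hex
  let C := (Finset.range h).sup c
  have hC : ∀ i < h, LL C (s (i + 1)) ≤ s i := by
    intro i hi
    refine (LL_anti (hn _) ?_).trans (hc i)
    exact Finset.le_sup (f := c) (Finset.mem_range.2 hi)
  refine ⟨C, ?_⟩
  have key : ∀ j ≤ h, DD C j (⊤ : Subgroup G) ≤ s (h - j) := by
    intro j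
    induction j with
    | zero => intro _; rw [DD_zero, Nat.sub_zero, hh]
    | succ j ih =>
      intro hj
      have h1 := ih (Nat.le_of_succ_le hj)
      rw [DD_succ]
      have h2 : h - j = (h - (j + 1)) + 1 := by omega
      rw [h2] at h1
      exact (LL_mono C h1).trans (hC _ (by omega))
  have := key h le_rfl
  rw [Nat.sub_self, h0] at this
  exact le_bot_iff.1 this

theorem fl_of {G : Type u} [Group G] {h c : ℕ} (hG : DD c h (⊤ : Subgroup G) = ⊥) : FL h G := by
  have htop : (⊤ : Subgroup G).Normal := inferInstance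
  refine ⟨fun i => DD c (h - i) ⊤, ?_, ?_, ?_, ?_, ?_⟩
  · change DD c (h - 0) ⊤ = ⊥
    rw [Nat.sub_zero, hG]
  · change DD c (h - h) ⊤ = ⊤
    rw [Nat.sub_self, DD_zero]
  · intro i
    change DD c (h - i) ⊤ ≤ DD c (h - (i + 1)) ⊤
    rcases Nat.lt_or_ge i h with hi | hi
    · have : h - i = (h - (i + 1)) + 1 := by omega
      rw [this]
      exact DD_step c _ htop
    · have h1 : h - i = 0 := by omega
      have h2 : h - (i + 1) = 0 := by omega
      rw [h1, h2]
  · intro i
    exact DD_normal c _ htop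
  · intro i hN
    rcases Nat.lt_or_ge i h with hi | hi
    · have h1 : h - i = (h - (i + 1)) + 1 := by omega
      have h2 : DD c (h - i) (⊤ : Subgroup G) = LL c (DD c (h - (i + 1)) ⊤) := by
        rw [h1, DD_succ]
      revert hN
      change ∀ hN : ((DD c (h - i) (⊤ : Subgroup G)).subgroupOf (DD c (h - (i + 1)) ⊤)).Normal,
        Group.IsNilpotent (↥(DD c (h - (i + 1)) (⊤ : Subgroup G)) ⧸
          (DD c (h - i) (⊤ : Subgroup G)).subgroupOf (DD c (h - (i + 1)) ⊤))
      rw [h2]
      intro hN
      exact nilp c hN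
    · have h1 : h - i = 0 := by omega
      have h2 : h - (i + 1) = 0 := by omega
      revert hN
      change ∀ hN : ((DD c (h - i) (⊤ : Subgroup G)).subgroupOf (DD c (h - (i + 1)) ⊤)).Normal,
        Group.IsNilpotent (↥(DD c (h - (i + 1)) (⊤ : Subgroup G)) ⧸
          (DD c (h - i) (⊤ : Subgroup G)).subgroupOf (DD c (h - (i + 1)) ⊤))
      rw [h1, h2]
      intro hN
      exact nilp (H := DD c 0 (⊤ : Subgroup G)) 0 hN

end RESA

open RESA in
/-- **RES1** -/
theorem FL.ext {G : Type u} [Group G] [Finite G] (N : Subgroup G) [N.Normal] (a b : ℕ)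
    (h1 : FL a N) (h2 : FL b (G ⧸ N)) : FL (a + b) G := by
  obtain ⟨c1, hc1⟩ := fl_to h1
  obtain ⟨c2, hc2⟩ := fl_to h2
  have e1 : DD c1 a N = ⊥ := by
    have h3 : (DD c1 a (⊤ : Subgroup N)).map N.subtype = DD c1 a N := by
      rw [DD_map, ← MonoidHom.range_eq_map, Subgroup.range_subtype]
    rw [← h3, hc1, Subgroup.map_bot]
  have e2 : DD c2 b (⊤ : Subgroup G) ≤ N := by
    have h3 : (DD c2 b (⊤ : Subgroup G)).map (QuotientGroup.mk' N) = ⊥ := by
      rw [DD_map, Subgroup.map_top_of_surjective _ (QuotientGroup.mk'_surjective _), hc2]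
    have := (Subgroup.map_eq_bot_iff _).1 h3
    rwa [QuotientGroup.ker_mk'] at this
  have hN : N.Normal := inferInstance
  have htop : (⊤ : Subgroup G).Normal := inferInstance
  refine fl_of (c := max c1 c2) ?_
  rw [DD_add]
  have e3 : DD (max c1 c2) b (⊤ : Subgroup G) ≤ N := (DD_anti htop (le_max_right _ _) b).trans e2
  have e4 : DD (max c1 c2) a N = ⊥ := by
    have := DD_anti hN (le_max_left c1 c2) a
    rw [e1] at this
    exact le_bot_iff.1 this
  exact le_bot_iff.1 ((DD_mono _ a e3).trans e4.le)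

end H60SH
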