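import Mathlib
import Pool.Agent.H60.SH.Defs
import Pool.Agent.H60.SH.RESA

namespace H60SH

open scoped commutatorElement

universe u

namespace RESB

theorem FL_mono {G : Type u} [Group G] {a b : ℕ} (h : FL a G) (hab : a ≤ b) : FL b G := by
  obtain ⟨s, h0, ha, hm, hn, hq⟩ := h
  refine ⟨s, h0, ?_, hm, hn, hq⟩
  have hmono : Monotone s := monotone_nat_of_le_succ hm
  have := hmono hab
  rw [ha] at this
  exact top_le_iff.1 this

theorem FL_nilp {G : Type u} [Group G] (h : Group.IsNilpotent G) : FL 1 G := by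
  obtain ⟨c, hc⟩ := Subgroup.nilpotent_iff_lowerCentralSeries.1 h
  refine RESA.fl_of (c := c) ?_
  rw [RESA.DD_succ, RESA.DD_zero, RESA.LL_top, hc]

theorem FL_triv {G : Type u} [Group G] [Subsingleton G] : FL 0 G := by
  refine RESA.fl_of (c := 0) ?_
  rw [RESA.DD_zero]
  exact Subsingleton.elim _ _

theorem law_sub {G : Type u} [Group G] {n : ℕ} (h : ∀ x y : G, ⁅x, y⁆ ^ n = 1) (N : Subgroup G)
    (x y : N) : ⁅x, y⁆ ^ n = 1 := by
  have h1 := h (N.subtype x) (N.subtype y)
  rw [← map_commutatorElement, ← map_pow] at h1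
  exact (map_eq_one_iff N.subtype N.subtype_injective).1 h1

theorem law_quot {G : Type u} [Group G] {n : ℕ} (h : ∀ x y : G, ⁅x, y⁆ ^ n = 1) (N : Subgroup G)
    [N.Normal] (x y : G ⧸ N) : ⁅x, y⁆ ^ n = 1 := by
  obtain ⟨x, rfl⟩ := QuotientGroup.mk'_surjective N x
  obtain ⟨y, rfl⟩ := QuotientGroup.mk'_surjective N y
  rw [← map_commutatorElement, ← map_pow, h, map_one]

/-- Step over a `PL` series. -/
theorem over_PL (n p H : ℕ) (hp : p.Prime) (π : Finset ℕ)
    (hH1 : 1 ≤ H)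
    (hH : ∀ (G : Type u) [Group G] [Finite G] [Group.IsSolvable G], (∀ x y : G, ⁅x, y⁆ ^ n = 1) →
      (∀ r : ℕ, r.Prime → r ∣ Nat.card G → r ∈ π.erase p) → FL H G)
    (m : ℕ) (G : Type u) (i : Group G) (hPL : @PL p m G i) :
    ∀ (_ : Finite G) (_ : Group.IsSolvable G),
      (∀ x y : G, ⁅x, y⁆ ^ n = 1) → (∀ r : ℕ, r.Prime → r ∣ Nat.card G → r ∈ π) →
      FL (m * H) G := by
  induction hPL with
  | triv G =>
    intro _ _ _ _
    rw [Nat.zero_mul]
    exact FL_triv
  | step m G N h hq ih =>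
    intro hfin hsol hl hr
    have h1 : FL (m * H) (G ⧸ N) := by
      refine ih inferInstance inferInstance (law_quot hl N) ?_
      intro r hrp hrd
      exact hr r hrp (hrd.trans (Subgroup.card_quotient_dvd_card N))
    have h2 : FL H N := by
      rcases h with h | h
      · have : Fact p.Prime := ⟨hp⟩
        exact FL_mono (FL_nilp h.isNilpotent) hH1
      · refine hH N (law_sub hl N) ?_
        intro r hrp hrd
        refine Finset.mem_erase.2 ⟨?_, hr r hrp (hrd.trans (Subgroup.card_subgroup_dvd_card N))⟩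
        rintro rfl
        have := Nat.Coprime.eq_one_of_dvd (Nat.Coprime.symm h) hrd
        exact hrp.one_lt.ne' this
    have := FL.ext N H (m * H) h2 h1
    have e : (m + 1) * H = H + m * H := by ring
    rw [e]
    exact this

theorem by_primes (n : ℕ) (c : ℕ → ℕ)
    (hPL : ∀ p, p.Prime → p ≠ 2 → p ∣ n → ∀ (G : Type u) [Group G] [Finite G] [Group.IsSolvable G],
      (∀ x y : G, ⁅x, y⁆ ^ n = 1) → PL p (c p) G) (k : ℕ) :
    ∀ π : Finset ℕ, π.card ≤ k → (∀ r ∈ π, r.Prime ∧ r ∣ n) →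
    ∃ h : ℕ, ∀ (G : Type u) [Group G] [Finite G] [Group.IsSolvable G], (∀ x y : G, ⁅x, y⁆ ^ n = 1) →
      (∀ r : ℕ, r.Prime → r ∣ Nat.card G → r ∈ π) → FL h G := by
  have base : ∀ π : Finset ℕ, π ⊆ {2} →
      ∃ h : ℕ, ∀ (G : Type u) [Group G] [Finite G] [Group.IsSolvable G],
        (∀ x y : G, ⁅x, y⁆ ^ n = 1) →
        (∀ r : ℕ, r.Prime → r ∣ Nat.card G → r ∈ π) → FL h G := by
    intro π hπ
    refine ⟨1, fun G _ _ _ _ hr => ?_⟩
    have hc : Nat.card G = 2 ^ (Nat.card G).primeFactorsList.length := by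
      refine Nat.eq_prime_pow_of_unique_prime_dvd Nat.card_pos.ne' ?_
      intro d hd hdd
      exact Finset.mem_singleton.1 (hπ (hr d hd hdd))
    have hG : IsPGroup 2 G := IsPGroup.of_card hc
    have : Fact (Nat.Prime 2) := ⟨Nat.prime_two⟩
    exact FL_nilp hG.isNilpotent
  induction k with
  | zero =>
    intro π hk _
    refine base π ?_
    have : π = ∅ := Finset.card_eq_zero.1 (Nat.le_zero.1 hk)
    rw [this]
    exact Finset.empty_subset _
  | succ k ih =>
    intro π hk hπ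
    by_cases h2 : π ⊆ {2}
    · exact base π h2
    · obtain ⟨p, hpπ, hp2⟩ := Finset.not_subset.1 h2
      have hp2' : p ≠ 2 := fun h => hp2 (Finset.mem_singleton.2 h)
      obtain ⟨H, hH⟩ := ih (π.erase p) (by
        have := Finset.card_erase_lt_of_mem hpπ
        omega) (fun r hr => hπ r (Finset.mem_of_mem_erase hr))
      refine ⟨c p * max H 1, fun G _ hfin hsol hl hr => ?_⟩
      refine over_PL n p (max H 1) (hπ p hpπ).1 π (le_max_right _ _) ?_ (c p) G _
        (hPL p (hπ p hpπ).1 hp2' (hπ p hpπ).2 G hl) hfin hsol hl hr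
      intro G' _ _ _ hl' hr'
      exact FL_mono (hH G' hl' hr') (le_max_left _ _)

end RESB

open RESB in
/-- **RES2** -/
theorem res_main (n : ℕ) (hn : 0 < n) (c : ℕ → ℕ)
    (hPL : ∀ p, p.Prime → p ≠ 2 → p ∣ n → ∀ (G : Type u) [Group G] [Finite G] [Group.IsSolvable G],
      (∀ x y : G, ⁅x, y⁆ ^ n = 1) → PL p (c p) G)
    (hpig : ∀ (G : Type u) [Group G] [Finite G] [Group.IsSolvable G], (∀ x y : G, ⁅x, y⁆ ^ n = 1) →
      ∀ r : ℕ, r.Prime → ¬ r ∣ n → ¬ r ∣ Nat.card (commutator G)) :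
    ∃ h : ℕ, ∀ (G : Type u) [Group G] [Finite G] [Group.IsSolvable G], (∀ x y : G, ⁅x, y⁆ ^ n = 1) →
      FL h G := by
  obtain ⟨h, hh⟩ := by_primes n c hPL _ n.primeFactors le_rfl
    (fun r hr => ⟨Nat.prime_of_mem_primeFactors hr, Nat.dvd_of_mem_primeFactors hr⟩)
  refine ⟨h + 1, fun G _ _ _ hl => ?_⟩
  refine FL.ext (commutator G) h 1 ?_ ?_
  · refine hh _ (law_sub hl _) ?_
    intro r hr hrd
    refine Nat.mem_primeFactors.2 ⟨hr, ?_, hn.ne'⟩
    by_contra hrn
    exact hpig G hl r hr hrn hrd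
  · refine FL_nilp ?_
    have hc : ∀ x y : G ⧸ commutator G, x * y = y * x := fun x y => by
      have : ⁅x, y⁆ = 1 := by
        obtain ⟨x, rfl⟩ := QuotientGroup.mk'_surjective _ x
        obtain ⟨y, rfl⟩ := QuotientGroup.mk'_surjective _ y
        rw [← map_commutatorElement]
        exact (QuotientGroup.eq_one_iff _).2
          (Subgroup.commutator_mem_commutator (Subgroup.mem_top _) (Subgroup.mem_top _))
      exact commutatorElement_eq_one_iff_mul_comm.1 this
    refine Subgroup.nilpotent_iff_lowerCentralSeries.2 ⟨1, ?_⟩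
    rw [Subgroup.lowerCentralSeries_succ, Subgroup.lowerCentralSeries_zero, eq_bot_iff,
      Subgroup.commutator_le]
    intro x _ y _
    exact Subgroup.mem_bot.2 (commutatorElement_eq_one_iff_mul_comm.2 (hc x y))

end H60SH
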