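import Mathlib
import Pool.Agent.H60.SH.Defs
import Pool.Agent.H60.SH.PLM
import Pool.Agent.H60.SH.PIG
import Pool.Agent.H60.SH.QUOT
import Pool.Agent.H60.SH.RESA
import Pool.Agent.H60.SH.RESB

namespace H60SH

open scoped commutatorElement

universe u

/-- **FINAL** -/
theorem final (n : ℕ) (hn : 0 < n) :
    ∃ h : ℕ, ∀ (G : Type u) [Group G] [Finite G] [Group.IsSolvable G],
      (∀ x y : G, (x⁻¹ * y⁻¹ * x * y) ^ n = 1) → FL h G := by
  obtain ⟨h, hh⟩ := res_main.{u} n hn (fun p => 4 * n.factorization p + 3)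
    (fun p hp hp2 hpn G _ _ _ hl => by
      have : Fact p.Prime := ⟨hp⟩
      exact pl_main p hp2 _ G (Pk.of_law p n hn hl))
    (fun G _ _ _ hl r hr hrn => pig n hn hl r hr hrn)
  refine ⟨h, fun G _ _ _ hl => hh G fun x y => ?_⟩
  have := hl x⁻¹ y⁻¹
  rwa [inv_inv, inv_inv] at this

end H60SH
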