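import Mathlib
import Pool.Agent.H60.SH.Defs
import Pool.Agent.H60.SH.FITT
import Pool.Agent.H60.SH.QUOT
import Pool.Agent.H60.SH.LEV
import Pool.Agent.H60.SH.PLM

/-!
# Typed layers: bounded `p`-length
-/

namespace H60SH

universe u

open scoped commutatorElement

/-- A normal series of length `m` whose factors are alternately of order prime to `p` and of
`p`-power order, beginning with a factor of order prime to `p`. -/
def LS (p m : ℕ) (G : Type u) [Group G] : Prop :=
  ∃ t : ℕ → Subgroup G, t 0 = ⊥ ∧ t m = ⊤ ∧ (∀ i, (t i).Normal) ∧ (∀ i, t i ≤ t (i + 1)) ∧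
    (∀ i, Even i → ((t i).relIndex (t (i + 1))).Coprime p) ∧
    (∀ i, Odd i → ∃ e : ℕ, (t i).relIndex (t (i + 1)) = p ^ e)

theorem LS.one {G : Type u} [Group G] (p : ℕ) (h : (Nat.card G).Coprime p) : LS p 1 G := by
  refine ⟨fun i => if i = 0 then ⊥ else ⊤, by simp, by simp, ?_, ?_, ?_, ?_⟩
  · intro i
    by_cases hi : i = 0
    · simp only [hi, if_true]; infer_instance
    · simp only [hi, if_false]; infer_instance
  · intro i
    by_cases hi : i = 0 <;> simp [hi]
  · intro i _
    by_cases hi : i = 0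
    · subst hi
      simpa using h
    · simp [hi]
  · intro i hi
    have hi0 : i ≠ 0 := by
      rintro rfl
      exact absurd hi (by decide)
    refine ⟨0, ?_⟩
    simp [hi0]

theorem LS.step2 {G : Type u} [Group G] [Finite G] (p m : ℕ) (N : Subgroup G) [N.Normal]
    (hN : (Nat.card N).Coprime p) (P : Subgroup (G ⧸ N)) [P.Normal] (hP : IsPGroup p P)
    [Fact p.Prime] (h : LS p m ((G ⧸ N) ⧸ P)) : LS p (m + 2) G := by
  obtain ⟨t, h0, hm, hn, hle, he, ho⟩ := h
  let f : G →* (G ⧸ N) ⧸ P := (QuotientGroup.mk' P).comp (QuotientGroup.mk' N)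
  have hf : Function.Surjective f :=
    (QuotientGroup.mk'_surjective P).comp (QuotientGroup.mk'_surjective N)
  have hker : f.ker = P.comap (QuotientGroup.mk' N) := by
    change ((QuotientGroup.mk' P).comp (QuotientGroup.mk' N)).ker = _
    rw [← MonoidHom.comap_ker, QuotientGroup.ker_mk']
  have hNf : N ≤ f.ker := by
    rw [hker]
    intro x hx
    rw [Subgroup.mem_comap]
    have : QuotientGroup.mk' N x = 1 := (QuotientGroup.eq_one_iff x).mpr hx
    rw [this]
    exact P.one_mem
  have hcomap : ∀ i, (((t i).comap f).relIndex ((t (i + 1)).comap f)) =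
      (t i).relIndex (t (i + 1)) := by
    intro i
    rw [Subgroup.relIndex_comap, Subgroup.map_comap_eq_self_of_surjective hf]
  have hk : N.relIndex f.ker = Nat.card P := by
    rw [hker]
    have h1 : N = (⊥ : Subgroup (G ⧸ N)).comap (QuotientGroup.mk' N) := by
      rw [MonoidHom.comap_bot, QuotientGroup.ker_mk']
    have h2 : N.relIndex (P.comap (QuotientGroup.mk' N)) =
        ((⊥ : Subgroup (G ⧸ N)).comap (QuotientGroup.mk' N)).relIndex
          (P.comap (QuotientGroup.mk' N)) := by
      rw [← h1]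
    rw [h2, Subgroup.relIndex_comap,
      Subgroup.map_comap_eq_self_of_surjective (QuotientGroup.mk'_surjective N),
      Subgroup.relIndex_bot_left]
  refine ⟨fun i => match i with
    | 0 => ⊥
    | 1 => N
    | (i + 2) => (t i).comap f, rfl, ?_, ?_, ?_, ?_, ?_⟩
  · change (t m).comap f = ⊤
    rw [hm, Subgroup.comap_top]
  · intro i
    match i with
    | 0 => change (⊥ : Subgroup G).Normal; infer_instance
    | 1 => change N.Normal; infer_instance
    | (i + 2) => exact (hn i).comap f
  · intro i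
    match i with
    | 0 => exact bot_le
    | 1 =>
      change N ≤ (t 0).comap f
      rw [h0, MonoidHom.comap_bot]
      exact hNf
    | (i + 2) => exact Subgroup.comap_mono (hle i)
  · intro i hi
    match i with
    | 0 =>
      change ((⊥ : Subgroup G).relIndex N).Coprime p
      rw [Subgroup.relIndex_bot_left]
      exact hN
    | 1 => exact absurd hi (by decide)
    | (i + 2) =>
      change (((t i).comap f).relIndex ((t (i + 1)).comap f)).Coprime p
      rw [hcomap]
      exact he i (by simpa [Nat.even_add] using hi)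
  · intro i hi
    match i with
    | 0 => exact absurd hi (by decide)
    | 1 =>
      change ∃ e : ℕ, N.relIndex ((t 0).comap f) = p ^ e
      rw [h0, MonoidHom.comap_bot, hk]
      exact (IsPGroup.iff_card).mp hP
    | (i + 2) =>
      change ∃ e : ℕ, (((t i).comap f).relIndex ((t (i + 1)).comap f)) = p ^ e
      rw [hcomap]
      exact ho i (by simpa [Nat.odd_add] using hi)

/-- **PLT**: bounded `p`-length, typed layers. -/
theorem ls_main (p : ℕ) [Fact p.Prime] (hp2 : p ≠ 2) (k : ℕ) :
    ∀ (G : Type u) [Group G] [Finite G] [Group.IsSolvable G], Pk p k G → LS p (4 * k + 3) G := by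
  have hp : p.Prime := Fact.out
  induction k with
  | zero =>
    intro G _ _ _ h
    obtain ⟨N, hN, hNc, hNq⟩ := plm_core' p G
    obtain ⟨P, hP, hPp, hPm⟩ := plm_core p (G ⧸ N)
    refine LS.step2 p 1 N hNc P hPp ?_
    have h1 : Pk p 0 (G ⧸ N) := Pk.quot (QuotientGroup.mk' N) (QuotientGroup.mk'_surjective N) p 0 h
    -- the Sylow subgroups of `G ⧸ N` are contained in `P`
    have h2 : ∀ S : Sylow p (G ⧸ N), (S : Subgroup (G ⧸ N)) ≤ P := by
      intro S g hg
      have hPS : P ≤ S := by
        obtain ⟨S', hS'⟩ := hPp.exists_le_sylow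
        obtain ⟨x, hx⟩ := MulAction.exists_smul_eq (G ⧸ N) S' S
        intro y hy
        have h3 : x⁻¹ * y * x ∈ P := by
          have := hP.conj_mem y hy x⁻¹
          simpa using this
        have h4 : x⁻¹ * y * x ∈ (S' : Subgroup (G ⧸ N)) := hS' h3
        rw [← hx]
        have h5 : y = x * (x⁻¹ * y * x) * x⁻¹ := by group
        rw [h5]
        exact Subgroup.mem_map_of_mem (MulAut.conj x).toMonoidHom h4
      apply fit_cent p hp hNq P hPm g
      intro x hx
      have h6 := h1 S S.isPGroup' g hg x (hPS hx)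
      rw [pow_zero, pow_one, commutatorElement_eq_one_iff_mul_comm] at h6
      exact h6
    refine LS.one p ?_
    obtain ⟨S⟩ : Nonempty (Sylow p (G ⧸ N)) := inferInstance
    have h4 := S.not_dvd_index
    have h5 : P.index ∣ (S : Subgroup (G ⧸ N)).index := Subgroup.index_dvd_of_le (h2 S)
    rw [Nat.coprime_comm, Nat.Prime.coprime_iff_not_dvd hp]
    intro h6
    exact h4 (h6.trans h5)
  | succ k ih =>
    intro G _ _ _ h
    obtain ⟨N, hN, hNc, hNq⟩ := plm_core' p G
    obtain ⟨P, hP, hPp, hPm⟩ := plm_core p (G ⧸ N)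
    refine LS.step2 p (4 * k + 5) N hNc P hPp ?_
    have h1 : Pk p (k + 1) (G ⧸ N) :=
      Pk.quot (QuotientGroup.mk' N) (QuotientGroup.mk'_surjective N) p (k + 1) h
    have h2 : Ck p (k + 1) ((G ⧸ N) ⧸ P) := L0 p hp2 hNq P hPp hPm (k + 1) (by omega) h1
    have h3 : Pk p (k + 1) ((G ⧸ N) ⧸ P) :=
      Pk.quot (QuotientGroup.mk' P) (QuotientGroup.mk'_surjective P) p (k + 1) h1
    obtain ⟨N', hN', hNc', hNq'⟩ := plm_core' p ((G ⧸ N) ⧸ P)
    have h4 : Ck p (k + 1) (((G ⧸ N) ⧸ P) ⧸ N') :=
      Ck.quot (QuotientGroup.mk' N') (QuotientGroup.mk'_surjective N') p (k + 1) h2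
    have h5 : Pk p (k + 1) (((G ⧸ N) ⧸ P) ⧸ N') :=
      Pk.quot (QuotientGroup.mk' N') (QuotientGroup.mk'_surjective N') p (k + 1) h3
    obtain ⟨P', hP', hPp', hPm'⟩ := plm_core p (((G ⧸ N) ⧸ P) ⧸ N')
    refine LS.step2 p (4 * k + 3) N' hNc' P' hPp' ?_
    apply ih
    exact L1 p hp2 hNq' P' hPp' hPm' (k + 1) (by omega) h5 h4

end H60SH
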