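import Mathlib
import Pool.Agent.H60.SH.Defs
import Pool.Agent.H60.SH.RESA
import Pool.Agent.H60.SH.RESB
import Pool.Agent.H60.SH.PIG
import Pool.Agent.H60.SH.PLT

/-!
# The explicit bound for the Fitting height
-/

namespace H60SH

open scoped commutatorElement
open RESB

universe u

theorem by_primes_explicit (n : ℕ) (c : ℕ → ℕ) (hc : ∀ p, 1 ≤ c p)
    (hPL : ∀ p, p.Prime → p ≠ 2 → p ∣ n → ∀ (G : Type u) [Group G] [Finite G] [Group.IsSolvable G],
      (∀ x y : G, ⁅x, y⁆ ^ n = 1) → PL p (c p) G) (k : ℕ) :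
    ∀ π : Finset ℕ, π.card ≤ k → (∀ r ∈ π, r.Prime ∧ r ∣ n) →
    ∀ (G : Type u) [Group G] [Finite G] [Group.IsSolvable G], (∀ x y : G, ⁅x, y⁆ ^ n = 1) →
      (∀ r : ℕ, r.Prime → r ∣ Nat.card G → r ∈ π) → FL (∏ p ∈ π.erase 2, c p) G := by
  have base : ∀ π : Finset ℕ, π ⊆ {2} →
      ∀ (G : Type u) [Group G] [Finite G] [Group.IsSolvable G],
        (∀ x y : G, ⁅x, y⁆ ^ n = 1) →
        (∀ r : ℕ, r.Prime → r ∣ Nat.card G → r ∈ π) → FL (∏ p ∈ π.erase 2, c p) G := by
    intro π hπ G _ _ _ _ hr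
    have he : π.erase 2 = ∅ := by
      rw [Finset.eq_empty_iff_forall_notMem]
      intro x hx
      exact (Finset.mem_erase.1 hx).1 (Finset.mem_singleton.1 (hπ (Finset.mem_erase.1 hx).2))
    rw [he, Finset.prod_empty]
    have hc : Nat.card G = 2 ^ (Nat.card G).primeFactorsList.length := by
      refine Nat.eq_prime_pow_of_unique_prime_dvd Nat.card_pos.ne' ?_
      intro d hd hdd
      exact Finset.mem_singleton.1 (hπ (hr d hd hdd))
    have hG : IsPGroup 2 G := IsPGroup.of_card hc
    have : Fact (Nat.Prime 2) := ⟨Nat.prime_two⟩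
    exact FL_nilp hG.isNilpotent
  induction k with
  | zero =>
    intro π hk _
    refine base π ?_
    have : π = ∅ := Finset.card_eq_zero.1 (Nat.le_zero.1 hk)
    rw [this]
    exact Finset.empty_subset _
  | succ k ih =>
    intro π hk hπ
    by_cases h2 : π ⊆ {2}
    · exact base π h2
    · obtain ⟨p, hpπ, hp2⟩ := Finset.not_subset.1 h2
      have hp2' : p ≠ 2 := fun h => hp2 (Finset.mem_singleton.2 h)
      have hH := ih (π.erase p) (by
        have := Finset.card_erase_lt_of_mem hpπ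
        omega) (fun r hr => hπ r (Finset.mem_of_mem_erase hr))
      intro G _ hfin hsol hl hr
      have hpe : p ∈ π.erase 2 := Finset.mem_erase.2 ⟨hp2', hpπ⟩
      rw [← Finset.mul_prod_erase _ _ hpe, Finset.erase_right_comm]
      refine over_PL n p _ (hπ p hpπ).1 π ?_ hH (c p) G _
        (hPL p (hπ p hpπ).1 hp2' (hπ p hpπ).2 G hl) hfin hsol hl hr
      exact Finset.one_le_prod' fun i _ => hc i

/-- The explicit bound. -/
theorem fitting_explicit (n : ℕ) (hn : 0 < n) (G : Type u) [Group G] [Finite G]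
    [Group.IsSolvable G] (hl : ∀ x y : G, ⁅x, y⁆ ^ n = 1) :
    FL (1 + ∏ p ∈ n.primeFactors.erase 2, (4 * n.factorization p + 3)) G := by
  have hh := by_primes_explicit.{u} n (fun p => 4 * n.factorization p + 3) (fun p => by omega)
    (fun p hp hp2 hpn G _ _ _ hl => by
      have : Fact p.Prime := ⟨hp⟩
      exact pl_main p hp2 _ G (Pk.of_law p n hn hl)) _ n.primeFactors le_rfl
    (fun r hr => ⟨Nat.prime_of_mem_primeFactors hr, Nat.dvd_of_mem_primeFactors hr⟩)
  rw [Nat.add_comm]
  refine FL.ext (commutator G) _ 1 ?_ ?_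
  · refine hh _ (law_sub hl _) ?_
    intro r hr hrd
    refine Nat.mem_primeFactors.2 ⟨hr, ?_, hn.ne'⟩
    by_contra hrn
    exact pig n hn hl r hr hrn hrd
  · refine FL_nilp ?_
    have hc : ∀ x y : G ⧸ commutator G, x * y = y * x := fun x y => by
      have : ⁅x, y⁆ = 1 := by
        obtain ⟨x, rfl⟩ := QuotientGroup.mk'_surjective _ x
        obtain ⟨y, rfl⟩ := QuotientGroup.mk'_surjective _ y
        rw [← map_commutatorElement]
        exact (QuotientGroup.eq_one_iff _).2
          (Subgroup.commutator_mem_commutator (Subgroup.mem_top _) (Subgroup.mem_top _))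
      exact commutatorElement_eq_one_iff_mul_comm.1 this
    refine Subgroup.nilpotent_iff_lowerCentralSeries.2 ⟨1, ?_⟩
    rw [Subgroup.lowerCentralSeries_succ, Subgroup.lowerCentralSeries_zero, eq_bot_iff,
      Subgroup.commutator_le]
    intro x _ y _
    exact Subgroup.mem_bot.2 (commutatorElement_eq_one_iff_mul_comm.2 (hc x y))

end H60SH
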